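import Pool.Agent.N155.Frm

/-! Rational functions which are regular at certain prime divisors are formal power series. -/

set_option autoImplicit false

open FF PowerSeries

namespace Pool.Agent.N155

open Pool.Agent.W602.GT Pool.Agent.TH143.GT

variable {K : Type} [Field K] [Algebra ℂ K] {M : Type} [Field M] [Algebra PS2 M]
  [IsFractionRing PS2 M] [Algebra ℂ M] [IsScalarTower ℂ PS2 M]

/-- **Lemma F**, for functions which are regular at the prime divisors which dominate the origin. -/
theorem formal_mem' (e : K →ₐ[ℂ] M) {x : Fin 2 → K} {E : Fin 2 → Derivation ℂ K K}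
    (hx : Dual x E) {a : Fin 2 → ℂ} {m : Fin 2 → Fin 2 → ℂ}
    (hdet : m 0 0 * m 1 1 - m 0 1 * m 1 0 ≠ 0)
    (hex : ∀ l, e (x l) = algebraMap PS2 M (lin (a l) (m l 0) (m l 1))) {q : K}
    (hq : ∀ v : Place ℂ K, Divisorial 2 v → (∀ l, DerReg v (E l)) →
      (∀ (f : K) (α : PS2), e f = algebraMap PS2 M α → v.Reg f) → v.Reg q) :
    ∃ α : PS2, e q = algebraMap PS2 M α := by
  classical
  apply ufd_mem
  intro p hp w hw
  let _ : Algebra K M := e.toRingHom.toAlgebra
  have hst : IsScalarTower ℂ K M := IsScalarTower.of_algebraMap_eq fun c => (e.commutes c).symm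
  have halg : ∀ f : K, algebraMap K M f = e f := fun f => rfl
  -- the derivations
  set dd := m 0 0 * m 1 1 - m 0 1 * m 1 0 with hdd
  let D : Fin 2 → Derivation ℂ PS2 PS2 :=
    ![(m 1 1 / dd) • dS - (m 1 0 / dd) • dT, (m 0 0 / dd) • dT - (m 0 1 / dd) • dS]
  have hD : ∀ l j, D l (lin (a j) (m j 0) (m j 1)) = if l = j then 1 else 0 := by
    have hsm : ∀ z w : ℂ, z • algebraMap ℂ PS2 w = algebraMap ℂ PS2 (z * w) := by
      intro z w
      rw [Algebra.smul_def, ← map_mul]
    intro l j
    fin_cases l <;> fin_cases j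
    · change ((m 1 1 / dd) • dS - (m 1 0 / dd) • dT) (lin (a 0) (m 0 0) (m 0 1)) = 1
      rw [Derivation.sub_apply, Derivation.smul_apply, Derivation.smul_apply, dS_lin, dT_lin, hsm,
        hsm, ← map_sub, ← map_one (algebraMap ℂ PS2)]
      congr 1
      rw [div_mul_eq_mul_div, div_mul_eq_mul_div, ← sub_div, div_eq_one_iff_eq hdet, hdd]
      ring
    · change ((m 1 1 / dd) • dS - (m 1 0 / dd) • dT) (lin (a 1) (m 1 0) (m 1 1)) = 0
      rw [Derivation.sub_apply, Derivation.smul_apply, Derivation.smul_apply, dS_lin, dT_lin, hsm,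
        hsm, ← map_sub, ← map_zero (algebraMap ℂ PS2)]
      congr 1
      ring
    · change ((m 0 0 / dd) • dT - (m 0 1 / dd) • dS) (lin (a 0) (m 0 0) (m 0 1)) = 0
      rw [Derivation.sub_apply, Derivation.smul_apply, Derivation.smul_apply, dS_lin, dT_lin, hsm,
        hsm, ← map_sub, ← map_zero (algebraMap ℂ PS2)]
      congr 1
      ring
    · change ((m 0 0 / dd) • dT - (m 0 1 / dd) • dS) (lin (a 1) (m 1 0) (m 1 1)) = 1
      rw [Derivation.sub_apply, Derivation.smul_apply, Derivation.smul_apply, dS_lin, dT_lin, hsm,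
        hsm, ← map_sub, ← map_one (algebraMap ℂ PS2)]
      congr 1
      rw [div_mul_eq_mul_div, div_mul_eq_mul_div, ← sub_div, div_eq_one_iff_eq hdet, hdd]
  choose D' hD' using fun l => exists_der_frac (M := M) (D l)
  have hinj : Function.Injective (algebraMap PS2 M) := IsFractionRing.injective PS2 M
  have hne : ∀ a : PS2, a ≠ 0 → algebraMap PS2 M a ≠ 0 := fun a ha h0 =>
    ha ((map_eq_zero_iff _ hinj).1 h0)
  -- the derivations preserve the valuation ring
  have hDreg : ∀ l (f : M), w.Reg f → w.Reg (D' l f) := by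
    intro l f hf
    obtain ⟨α, β, hβ, rfl⟩ := (ufd_reg_iff hp hw f).1 hf
    have hβ0 : β ≠ 0 := by
      rintro rfl
      exact hβ (dvd_zero _)
    have h1 : D' l (algebraMap PS2 M α / algebraMap PS2 M β) =
        algebraMap PS2 M (D l α * β - α * D l β) / algebraMap PS2 M (β * β) := by
      have hb := hne β hβ0
      rw [div_eq_mul_inv, (D' l).leibniz, (D' l).leibniz_inv, hD', hD', map_sub, map_mul, map_mul,
        map_mul]
      simp only [smul_eq_mul]
      field_simp
      ring
    rw [h1]
    refine (ufd_reg_iff hp hw _).2 ⟨_, _, ?_, rfl⟩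
    intro h2
    rcases hp.dvd_or_dvd h2 with h3 | h3 <;> exact hβ h3
  -- compatibility
  have hcomp : ∀ l (f : K), D' l (e f) = e (E l f) := by
    intro l f
    have h1 : IsDer e (fun f => D' l (e f)) := by
      constructor
      · intro a b
        simp only [map_add]
      · intro a b
        simp only [map_mul, Derivation.leibniz, smul_eq_mul]
      · intro c
        rw [e.commutes, Derivation.map_algebraMap]
    have h2 := h1.chain hx f
    simp only [hex, hD', hD] at h2
    rw [h2]
    rw [Finset.sum_eq_single l]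
    · rw [if_pos rfl, map_one, one_mul]
    · intro j _ hj
      rw [if_neg (Ne.symm hj), map_zero, zero_mul]
    · intro hl
      exact absurd (Finset.mem_univ l) hl
  -- the coordinate with transcendental residue
  obtain ⟨l0, hl0⟩ := not_both hp hdet
  have hlin : ∀ c : ℂ, ¬ p ∣ lin (a l0) (m l0 0) (m l0 1) - algebraMap ℂ PS2 c := by
    intro c
    rw [lin_sub]
    by_cases hc : a l0 - c = 0
    · rw [hc]
      exact hl0
    · intro h1
      exact hp.not_isUnit (isUnit_of_dvd_unit h1 (isUnit_lin hc))
  by_cases htriv : ∀ f : K, w.ord (algebraMap K M f) = 0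
  · right
    rw [← halg, htriv q]
  push Not at htriv
  obtain ⟨k, v, hov⟩ := exists_over (K := K) w htriv
  rw [← halg]
  rw [hov.reg]
  apply hq v
  · refine ⟨fun _ => x l0, fun G hG => ?_⟩
    have hunits : ∀ c : ℂ, x l0 - algebraMap ℂ K c ≠ 0 ∧ v.ord (x l0 - algebraMap ℂ K c) = 0 := by
      intro c
      have h1 : e (x l0 - algebraMap ℂ K c) =
          algebraMap PS2 M (lin (a l0) (m l0 0) (m l0 1) - algebraMap ℂ PS2 c) := by
        rw [map_sub, e.commutes, hex, map_sub, ← IsScalarTower.algebraMap_apply ℂ PS2 M]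
      have h2 : w.ord (e (x l0 - algebraMap ℂ K c)) = 0 := by
        rw [h1]
        exact ufd_ord_zero hw (hlin c)
      have h3 := hov.2 (x l0 - algebraMap ℂ K c)
      rw [halg, h2] at h3
      refine ⟨fun h0 => ?_, ?_⟩
      · rw [h0, map_zero] at h1
        have h4 := (map_eq_zero_iff _ hinj).1 h1.symm
        exact hlin c (by rw [h4]; exact dvd_zero _)
      · have h5 : (k : ℤ) ≠ 0 := by exact_mod_cast hov.1.ne'
        exact (mul_eq_zero.1 h3.symm).resolve_left h5
    let G' : Polynomial ℂ := MvPolynomial.aeval (fun _ : Fin (2 - 1) => Polynomial.X) G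
    have hev : ∀ {L : Type} [Field L] [Algebra ℂ L] (z : L),
        Polynomial.aeval z G' = MvPolynomial.aeval (fun _ => z) G := by
      intro L _ _ z
      have h1 := MvPolynomial.comp_aeval_apply (f := fun _ : Fin (2 - 1) => (Polynomial.X : Polynomial ℂ))
        (Polynomial.aeval z) G
      rw [h1]
      simp
    have hG' : G' ≠ 0 := by
      intro h0
      apply hG
      apply MvPolynomial.funext
      intro c
      have huniq : c = fun _ => c ⟨0, by norm_num⟩ := by
        funext i
        congr 1
        exact Subsingleton.elim (α := Fin 1) i ⟨0, by norm_num⟩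
      rw [huniq, map_zero, ← MvPolynomial.aeval_eq_eval, ← hev, h0, map_zero]
    have := poly_ord v hunits G' hG'
    rwa [hev] at this
  · intro l f hf
    have h1 : w.Reg (e f) := by
      rw [← halg, hov.reg]
      exact hf
    have h2 := hDreg l _ h1
    rw [hcomp, ← halg, hov.reg] at h2
    exact h2
  · intro f α hfα
    rw [← hov.reg, halg, hfα]
    exact ufd_reg hw α

end Pool.Agent.N155
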