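import Pool.Agent.N155.Catch

/-! Difference quotients of converging sequences of holomorphic functions, and immersions. -/

set_option autoImplicit false

open Filter Topology Metric Set MvPolynomial

namespace Pool.Agent.N155

open Pool.Agent.Y190.OP

/-- difference quotients of converging holomorphic functions -/
theorem CConv.quot {l : Filter ℕ} [l.NeBot] {U : Set ℂ} {F : ℕ → ℂ → ℂ} {F0 : ℂ → ℂ}
    (hc : CConv l U F F0) {z : ℂ} (hU : IsOpen U) (hz : z ∈ U)
    (hd : ∃ V ∈ 𝓝 z, ∀ᶠ n in l, DifferentiableOn ℂ (F n) V) {ε : ℝ} (hε : 0 < ε) :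
    ∃ ρ > 0, ∀ᶠ n in l, ∀ w ∈ ball z ρ, ∀ w' ∈ ball z ρ,
      ‖F n w - F n w' - (w - w') * deriv F0 z‖ ≤ ε * ‖w - w'‖ := by
  obtain ⟨V, hV, hd⟩ := hd
  obtain ⟨W, hWV, hW, hzW⟩ := _root_.mem_nhds_iff.1 (inter_mem hV (hU.mem_nhds hz))
  have h1 : CConv l W F F0 := fun w hw => hc w (hWV hw).2
  have h2 : ∀ᶠ n in l, DifferentiableOn ℂ (F n) W := by
    filter_upwards [hd] with n hn
    exact hn.mono fun w hw => (hWV hw).1
  have h3 := h1.locUnif hW
  have h4 : DifferentiableOn ℂ F0 W := h3.differentiableOn h2 hW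
  have h5 := h3.deriv h2 hW
  have h6 : ContinuousAt (deriv F0) z := (h4.analyticAt (hW.mem_nhds hzW)).deriv.continuousAt
  have h7 : ∀ᶠ w in 𝓝 z, ‖deriv F0 w - deriv F0 z‖ < ε / 2 := by
    have h8 : Tendsto (fun w => ‖deriv F0 w - deriv F0 z‖) (𝓝 z) (𝓝 0) := by
      have h9 := (h6.tendsto.sub_const (deriv F0 z)).norm
      simpa using h9
    exact h8.eventually_lt_const (by positivity)
  rw [Metric.tendstoLocallyUniformlyOn_iff] at h5
  obtain ⟨t, ht, h8⟩ := h5 (ε / 2) (by positivity) z hzW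
  rw [IsOpen.nhdsWithin_eq hW hzW] at ht
  obtain ⟨ρ, hρ, hsub⟩ := Metric.mem_nhds_iff.1 (inter_mem (inter_mem h7 ht) (hW.mem_nhds hzW))
  refine ⟨ρ, hρ, ?_⟩
  filter_upwards [h8, h2] with n hn hn2 w hw w' hw'
  have hdf : ∀ x ∈ ball z ρ, DifferentiableAt ℂ (F n) x := fun x hx =>
    (hn2 x (hsub hx).2).differentiableAt (hW.mem_nhds (hsub hx).2)
  have h9 := (convex_ball z ρ).norm_image_sub_le_of_norm_deriv_le
    (f := fun x => F n x - x * deriv F0 z) (C := ε)
    (fun x hx => (hdf x hx).sub (differentiableAt_id.mul_const _)) (by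
      intro x hx
      have h10 : deriv (fun x => F n x - x * deriv F0 z) x = deriv (F n) x - deriv F0 z := by
        have e1 := (hdf x hx).hasDerivAt.sub ((hasDerivAt_id x).mul_const (deriv F0 z))
        rw [one_mul] at e1
        exact e1.deriv
      rw [h10]
      have h11 := hn x (hsub hx).1.2
      have h12 : ‖deriv F0 x - deriv F0 z‖ < ε / 2 := (hsub hx).1.1
      rw [dist_eq_norm] at h11
      have h13 : deriv (F n) x - deriv F0 z = (deriv F0 x - deriv F0 z) -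
          (deriv F0 x - deriv (F n) x) := by ring
      simp only [Function.comp_apply] at h11
      rw [h13]
      refine (norm_sub_le _ _).trans ?_
      linarith) hw' hw
  have h14 : F n w - w * deriv F0 z - (F n w' - w' * deriv F0 z) =
      F n w - F n w' - (w - w') * deriv F0 z := by ring
  simp only [h14] at h9
  exact h9

variable {N : ℕ} {φ : ℂ → Mat N}

theorem nz_of_diag {M : Mat N} (hM : M ∈ PM) {i : Fin N} (hi : M i i ≠ 0) : nz (X i) M := by
  obtain ⟨u, hu, rfl⟩ := hM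
  rw [nz_Phi (isHomogeneous_X _ _) hu, eval_X]
  exact (Phi_diag_ne hu).1 hi

theorem diag_of_nz {M : Mat N} (hM : M ∈ PM) {i : Fin N} (hi : nz (X i) M) : M i i ≠ 0 := by
  obtain ⟨u, hu, rfl⟩ := hM
  rw [nz_Phi (isHomogeneous_X _ _) hu, eval_X] at hi
  exact (Phi_diag_ne hu).2 hi

theorem chart_eq {M : Mat N} (hM : M ∈ PM) {i : Fin N} (hi : nz (X i) M) (j : Fin N) :
    chart i M j = qv (X j) (X i) M := by
  obtain ⟨u, hu, rfl⟩ := hM
  rw [nz_Phi (isHomogeneous_X _ _) hu, eval_X] at hi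
  rw [chart_Phi hu hi, qv_Phi (isHomogeneous_X _ _) (isHomogeneous_X _ _) hu, eval_X, eval_X,
    Pi.smul_apply, smul_eq_mul, div_eq_inv_mul]

/-- a coordinate with nonvanishing derivative -/
theorem exists_coord (h : HolP univ φ) {z : ℂ} (hd : fderiv ℝ φ z ≠ 0) :
    ∃ i j : Fin N, nz (X i) (φ z) ∧ deriv (fun w => qv (X j) (X i) (φ w)) z ≠ 0 := by
  have hPM : ∀ w, φ w ∈ PM := fun w => h.mem_PM (mem_univ w)
  obtain ⟨i, hi⟩ := PM.exists_diag (hPM z)
  have hni := nz_of_diag (hPM z) hi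
  refine ⟨i, ?_⟩
  by_contra hcon
  push Not at hcon
  apply hd
  have hcont : ContinuousAt φ z := h.continuousAt (mem_univ z)
  have hev : ∀ᶠ w in 𝓝 z, nz (X i) (φ w) := hcont.eventually ((isOpen_nz (X i)).mem_nhds hni)
  have hcd := h.diff_chart (mem_univ z) hi
  have h0 : deriv (fun w => chart i (φ w)) z = 0 := by
    have h1 := hasDerivAt_pi.1 hcd.hasDerivAt
    funext j
    have h2 := (h1 j).deriv
    rw [Pi.zero_apply, ← h2, ← hcon j hni]
    apply EventuallyEq.deriv_eq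
    filter_upwards [hev] with w hw
    exact chart_eq (hPM w) hw j
  have h1 : φ =ᶠ[𝓝 z] fun w => Phi (chart i (φ w)) := by
    filter_upwards [hev] with w hw
    exact (PM.Phi_chart (hPM w) (diag_of_nz (hPM w) hw)).symm
  rw [h1.fderiv_eq]
  have h2 : DifferentiableAt ℝ Phi (chart i (φ z)) :=
    (contDiffAt_Phi (PM.chart_ne hi)).differentiableAt (by norm_num)
  have h4 := hcd.hasDerivAt
  rw [h0] at h4
  have h3 := h4.hasFDerivAt.restrictScalars ℝ
  have h6 := (h2.hasFDerivAt.comp z h3).fderiv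
  change fderiv ℝ (Phi ∘ fun w => chart i (φ w)) z = 0
  rw [h6]
  ext x
  simp

/-- the converse of the continuity of the coordinates: sequences of points of projective space whose
coordinates are close -/
theorem chart_lip {M0 : Mat N} (hM0 : M0 ∈ PM) {i : Fin N} (hi : nz (X i) M0) :
    ∃ (C : ℝ) (O : Set (Mat N)), 0 ≤ C ∧ O ∈ 𝓝 M0 ∧ ∀ P ∈ O ∩ PM, ∀ Q ∈ O ∩ PM,
      nz (X i) P ∧ nz (X i) Q ∧ ‖P - Q‖ ≤ C * ∑ j, ‖qv (X j) (X i) P - qv (X j) (X i) Q‖ := by
  have hd := diag_of_nz hM0 hi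
  have hne := PM.chart_ne hd
  obtain ⟨C, O, hO, hL⟩ := (contDiffAt_Phi hne).exists_lipschitzOnWith
  have hO' : ∀ᶠ M in 𝓝 M0, chart i M ∈ O := (continuousAt_chart hd).eventually hO
  refine ⟨C, {M | chart i M ∈ O} ∩ {M | nz (X i) M}, C.2,
    inter_mem hO' ((isOpen_nz (X i)).mem_nhds hi), ?_⟩
  rintro P ⟨⟨hP1, hP2⟩, hP⟩ Q ⟨⟨hQ1, hQ2⟩, hQ⟩
  refine ⟨hP2, hQ2, ?_⟩
  have h1 := hL.dist_le_mul _ hP1 _ hQ1
  rw [PM.Phi_chart hP (diag_of_nz hP hP2), PM.Phi_chart hQ (diag_of_nz hQ hQ2), dist_eq_norm,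
    dist_eq_norm] at h1
  refine h1.trans (mul_le_mul_of_nonneg_left ?_ C.2)
  rw [pi_norm_le_iff_of_nonneg (Finset.sum_nonneg fun _ _ => norm_nonneg _)]
  intro j
  rw [Pi.sub_apply, chart_eq hP hP2, chart_eq hQ hQ2]
  exact Finset.single_le_sum (f := fun j => ‖qv (X j) (X i) P - qv (X j) (X i) Q‖)
    (fun _ _ => norm_nonneg _) (Finset.mem_univ j)

end Pool.Agent.N155
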