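import Pool.Agent.N155.L.SDefs
import Pool.Agent.W602.GT.Loc

/-! The invariant differential of an elliptic curve is regular. -/

set_option autoImplicit false

open FF Pool.Agent.W602.GT Pool.Agent.W603.LV

namespace Pool.Agent.N155

variable {K : Type} [Field K] [Algebra ℂ K]

theorem ge_logder (P : Place ℂ K) {D : Derivation ℂ K K} (hD : DerReg P D) {x : K} (hx : x ≠ 0) :
    Ge P (-1) (D x / x) := by
  have hπ := ord_unif P
  obtain ⟨u, hu, hu0, -, h1⟩ := logder_eq P D hπ hx
  rw [h1]
  refine (Ge.mono (by omega) (ge_logder_reg hD hu hu0)).add ?_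
  have hπ0 : unif P ≠ 0 := by
    intro h
    rw [h, P.ord_zero] at hπ
    omega
  have h2 := ge_div hπ0 (hD (unif P) (Or.inr (by omega)))
  rw [hπ] at h2
  have h3 := (Ge.intCast (P := P) (P.ord x)).mul h2
  simpa using h3

/-- the invariant differential -/
theorem ell_reg {a b : K} {g2 g3 : ℂ}
    (hab : b ^ 2 = 4 * a ^ 3 - algebraMap ℂ K g2 * a - algebraMap ℂ K g3)
    (hdisc : g2 ^ 3 ≠ 27 * g3 ^ 2) (P : Place ℂ K) {D : Derivation ℂ K K} (hD : DerReg P D) :
    P.Reg (b⁻¹ * D a) := by
  set c2 := algebraMap ℂ K g2 with hc2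
  set c3 := algebraMap ℂ K g3 with hc3
  have hchar : CharZero K := charZero_of_injective_algebraMap (algebraMap ℂ K).injective
  by_cases hb : b = 0
  · rw [hb, inv_zero, zero_mul]
    exact P.reg_zero
  have hDc2 : D c2 = 0 := D.map_algebraMap g2
  have hDc3 : D c3 = 0 := D.map_algebraMap g3
  have hder : 2 * b * D b = (12 * a ^ 2 - c2) * D a := by
    have h1 := congrArg D hab
    have h4 : (4 : K) = algebraMap ℂ K 4 := by
      rw [map_ofNat]
    have hD4 : D (4 : K) = 0 := by
      rw [h4]
      exact D.map_algebraMap 4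
    rw [map_sub, map_sub, D.leibniz, D.leibniz, D.leibniz_pow, D.leibniz_pow, hDc2, hDc3,
      hD4] at h1
    simp only [smul_eq_mul, nsmul_eq_mul] at h1
    push_cast at h1
    linear_combination h1
  by_cases ha : P.Reg a
  · have hc2r : P.Reg c2 := P.reg_const g2
    have hc3r : P.Reg c3 := P.reg_const g3
    have hnr : ∀ k : ℕ, P.Reg (k : K) := fun k => by
      have := P.reg_const (k : ℂ)
      rwa [map_natCast] at this
    have ha2 : P.Reg (a ^ 2) := by
      rw [pow_two]
      exact P.reg_mul ha ha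
    have ha3 : P.Reg (a ^ 3) := by
      rw [pow_succ]
      exact P.reg_mul ha2 ha
    have hreg : ∀ x y : K, P.Reg x → P.Reg y → P.Reg (x - y) := fun x y hx hy => by
      rw [sub_eq_add_neg]
      exact P.reg_add hx (P.reg_neg hy)
    have hb2 : P.Reg (b ^ 2) := by
      rw [hab]
      exact hreg _ _ (hreg _ _ (P.reg_mul (hnr 4) ha3) (P.reg_mul hc2r ha)) hc3r
    have hbr : 0 ≤ P.ord b := by
      have h1 := (P.reg_iff (pow_ne_zero 2 hb)).1 hb2
      rw [P.ord_pow] at h1
      push_cast at h1
      omega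
    have hbreg : P.Reg b := Or.inr hbr
    rcases eq_or_lt_of_le hbr with h0 | h0
    · exact P.reg_mul (Or.inr (by rw [P.ord_inv, ← h0, neg_zero])) (hD a ha)
    · -- a zero of `b`
      set c : K := 12 * a ^ 2 - c2 with hc
      have hcr : P.Reg c := hreg _ _ (P.reg_mul (hnr 12) ha2) hc2r
      have hd0 : g2 ^ 3 - 27 * g3 ^ 2 ≠ 0 := sub_ne_zero.2 hdisc
      have hid : algebraMap ℂ K (g2 ^ 3 - 27 * g3 ^ 2) =
          (-9 * (2 * c2 * a - 3 * c3)) * b * b + (6 * c2 * a ^ 2 - 9 * c3 * a - c2 ^ 2) * c := by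
        have h1 : (-9 * (2 * c2 * a - 3 * c3)) * b * b =
            (-9 * (2 * c2 * a - 3 * c3)) * (4 * a ^ 3 - c2 * a - c3) := by
          rw [mul_assoc, ← pow_two, hab]
        rw [h1, map_sub, map_pow, map_mul, map_pow, map_ofNat, hc]
        ring
      have hA : P.Reg (-9 * (2 * c2 * a - 3 * c3) * b) := by
        refine P.reg_mul (P.reg_mul (P.reg_neg (hnr 9)) (hreg _ _ ?_ ?_)) hbreg
        · exact P.reg_mul (P.reg_mul (hnr 2) hc2r) ha
        · exact P.reg_mul (hnr 3) hc3r
      have hB : P.Reg (6 * c2 * a ^ 2 - 9 * c3 * a - c2 ^ 2) := by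
        refine hreg _ _ (hreg _ _ (P.reg_mul (P.reg_mul (hnr 6) hc2r) ha2)
          (P.reg_mul (P.reg_mul (hnr 9) hc3r) ha)) ?_
        rw [pow_two]
        exact P.reg_mul hc2r hc2r
      have hgc : ¬ Ge P 1 c := by
        intro hg
        have h1 : Ge P 1 (algebraMap ℂ K (g2 ^ 3 - 27 * g3 ^ 2)) := by
          rw [hid]
          refine Ge.add ?_ ?_
          · have h2 : Ge P (0 + 1) (-9 * (2 * c2 * a - 3 * c3) * b * b) :=
              Ge.mul (N := 0) hA (Or.inr (by omega : (1 : ℤ) ≤ P.ord b))
            simpa using h2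
          · have h2 : Ge P (0 + 1) ((6 * c2 * a ^ 2 - 9 * c3 * a - c2 ^ 2) * c) :=
              Ge.mul (N := 0) hB hg
            simpa using h2
        rcases h1 with h1 | h1
        · exact hd0 ((map_eq_zero _).1 h1)
        · rw [P.ord_const hd0] at h1
          omega
      have hc0 : c ≠ 0 := fun h => hgc (Or.inl h)
      have hco : P.ord c = 0 := by
        have h1 := (P.reg_iff hc0).1 hcr
        by_contra hne
        exact hgc (Or.inr (by omega))
      have h1 : b⁻¹ * D a = 2 * D b * c⁻¹ := by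
        field_simp
        linear_combination -hder
      rw [h1]
      exact P.reg_mul (P.reg_mul (hnr 2) (hD b hbreg)) (Or.inr (by rw [P.ord_inv, hco, neg_zero]))
  · -- a pole of `a`
    have ha0 : a ≠ 0 := fun h => ha (by rw [h]; exact P.reg_zero)
    have hord : P.ord a < 0 := by
      by_contra hcon
      push Not at hcon
      exact ha (Or.inr hcon)
    have hb3 : 2 * P.ord b = 3 * P.ord a := by
      have h4a : P.ord (4 * a ^ 3) = 3 * P.ord a := by
        have h4 : (4 : K) = algebraMap ℂ K 4 := by rw [map_ofNat]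
        rw [P.ord_mul (by norm_num) (pow_ne_zero _ ha0), P.ord_pow, h4,
          P.ord_const (by norm_num), zero_add]
        push_cast
        ring
      have hrest : Ge P (P.ord a) (-(c2 * a) - c3) := by
        refine Ge.sub (Ge.neg ?_) (Ge.mono hord.le (Ge.const g3))
        have h2 : Ge P (0 + P.ord a) (c2 * a) := Ge.mul (Ge.const g2) (ge_ord P a)
        simpa using h2
      have hb2 : b ^ 2 = 4 * a ^ 3 + (-(c2 * a) - c3) := by
        rw [hab]
        ring
      have h5 : P.ord (b ^ 2) = P.ord (4 * a ^ 3) := by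
        rw [hb2]
        rcases hrest with h0 | h0
        · rw [h0, add_zero]
        · by_cases hz : -(c2 * a) - c3 = 0
          · rw [hz, add_zero]
          · exact (P.ord_add_eq (mul_ne_zero (by norm_num) (pow_ne_zero _ ha0)) hz (by
              rw [h4a]
              omega)).2
      rw [h4a, P.ord_pow] at h5
      push_cast at h5
      exact h5
    have h1 := ge_logder P hD ha0
    have h2 : b⁻¹ * D a = (D a / a) * (a / b) := by
      field_simp
    have h3 : Ge P (-1 + P.ord (a / b)) ((D a / a) * (a / b)) := h1.mul (ge_ord P _)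
    rw [h2]
    refine Ge.mono ?_ h3
    rw [P.ord_div ha0 hb]
    omega

/-- the invariant differential of an elliptic curve, as a symmetric differential -/
theorem ell_regular {a b : K} {g2 g3 : ℂ}
    (hab : b ^ 2 = 4 * a ^ 3 - algebraMap ℂ K g2 * a - algebraMap ℂ K g3)
    (hdisc : g2 ^ 3 ≠ 27 * g3 ^ 2) (w : ℕ) :
    (⟨1, 1, fun _ => b⁻¹, fun _ _ => a⟩ : SymD K).Regular w := by
  intro v _ D hD
  unfold SymD.app
  have h1 := ell_reg hab hdisc v hD
  simpa using h1

end Pool.Agent.N155
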