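import Pool.Agent.N155.L.Otg

/-! The big Picard theorem: maps of the punctured disc with small circles extend. -/

set_option autoImplicit false

open Filter Topology Metric Set

namespace Pool.Agent.N155

open Pool.Agent.Y190.OP

/-- maximum principle on an annulus -/
theorem annulus_max {a b : ℝ} {f g : ℂ → ℂ}
    (hf : ∀ z, a ≤ ‖z‖ → ‖z‖ ≤ b → DifferentiableAt ℂ f z)
    (hg : ∀ z, a ≤ ‖z‖ → ‖z‖ ≤ b → DifferentiableAt ℂ g z) {η L : ℝ}
    (hfL : ∀ z, a ≤ ‖z‖ → ‖z‖ ≤ b → ‖f z‖ ≤ L) (hgL : ∀ z, a ≤ ‖z‖ → ‖z‖ ≤ b → ‖g z‖ ≤ L)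
    (h1 : ∀ z, ‖z‖ = b → ‖f z‖ ≤ η) (h2 : ∀ z, ‖z‖ = a → ‖g z‖ ≤ η) {z : ℂ} (hz1 : a ≤ ‖z‖)
    (hz2 : ‖z‖ ≤ b) : ‖f z * g z‖ ≤ η * L := by
  have hab : a ≤ b := hz1.trans hz2
  have hbd : ∀ w : ℂ, a ≤ ‖w‖ → ‖w‖ ≤ b → (‖w‖ = a ∨ ‖w‖ = b) → ‖f w * g w‖ ≤ η * L := by
    intro w hw1 hw2 hw
    rw [norm_mul]
    rcases hw with hw | hw
    · rw [mul_comm]
      exact mul_le_mul (h2 w hw) (hfL w hw1 hw2) (norm_nonneg _) ((norm_nonneg _).trans (h2 w hw))
    · exact mul_le_mul (h1 w hw) (hgL w hw1 hw2) (norm_nonneg _) ((norm_nonneg _).trans (h1 w hw))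
  by_cases hza : ‖z‖ = a
  · exact hbd z hz1 hz2 (Or.inl hza)
  by_cases hzb : ‖z‖ = b
  · exact hbd z hz1 hz2 (Or.inr hzb)
  set U : Set ℂ := {w | a < ‖w‖ ∧ ‖w‖ < b} with hU
  have hUo : IsOpen U := (isOpen_lt continuous_const continuous_norm).inter
    (isOpen_lt continuous_norm continuous_const)
  have hcl : closure U ⊆ {w | a ≤ ‖w‖ ∧ ‖w‖ ≤ b} := by
    apply closure_minimal
    · intro w hw
      exact ⟨hw.1.le, hw.2.le⟩
    · exact (isClosed_le continuous_const continuous_norm).inter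
        (isClosed_le continuous_norm continuous_const)
  have hbound : Bornology.IsBounded U := by
    apply (isBounded_closedBall (x := (0 : ℂ)) (r := b)).subset
    intro w hw
    exact mem_closedBall_zero_iff.2 hw.2.le
  refine Complex.norm_le_of_forall_mem_frontier_norm_le (f := fun w => f w * g w) hbound ?_ ?_
    (subset_closure (show z ∈ U from ⟨lt_of_le_of_ne hz1 (Ne.symm hza), lt_of_le_of_ne hz2 hzb⟩))
  · apply DifferentiableOn.diffContOnCl
    intro w hw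
    have := hcl hw
    exact ((hf w this.1 this.2).mul (hg w this.1 this.2)).differentiableWithinAt
  · intro w hw
    have h3 := hcl hw.1
    have h4 : w ∉ U := by
      have := hw.2
      rwa [hUo.interior_eq] at this
    refine hbd w h3.1 h3.2 ?_
    by_contra hcon
    push Not at hcon
    exact h4 ⟨lt_of_le_of_ne h3.1 (Ne.symm hcon.1), lt_of_le_of_ne h3.2 hcon.2⟩

variable {N : ℕ} {φ : ℂ → Mat N}

theorem holP_comp {U V : Set ℂ} (h : HolP U φ) {g : ℂ → ℂ} (hg : Differentiable ℂ g)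
    (hV : ∀ z ∈ V, g z ∈ U) : HolP V (fun z => φ (g z)) := by
  intro z hz
  obtain ⟨W, F, hW, hzW, hd, hF⟩ := h _ (hV z hz)
  exact ⟨g ⁻¹' W, fun w => F (g w), hW.preimage hg.continuous, hzW,
    hd.comp hg.differentiableOn (fun w hw => hw), fun w hw => hF _ hw⟩

/-- the images of small circles are small -/
theorem circle_osc {n : ℕ} {φ : ℂ → Mat (n + 1)} {S : Set (Mat (n + 1))} {C : ℝ}
    (hC : ∀ Ψ : ℂ → Mat (n + 1), HolP (ball 0 1) Ψ → (∀ z ∈ ball (0 : ℂ) 1, Ψ z ∈ S) →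
      ‖fderiv ℝ Ψ 0‖ ≤ C) (hφ : HolP (ball 0 1 \ {0}) φ)
    (hS : ∀ z ∈ ball (0 : ℂ) 1 \ {0}, φ z ∈ S) {z1 z2 : ℂ} (h12 : ‖z2‖ = ‖z1‖) (h0 : z1 ≠ 0)
    (h1 : ‖z1‖ < 1) : ‖φ z2 - φ z1‖ ≤ C / (-Real.log ‖z1‖) * (2 * Real.pi) := by
  have hpos : 0 < ‖z1‖ := norm_pos_iff.2 h0
  have h02 : z2 ≠ 0 := by
    rw [← norm_pos_iff, h12]
    exact hpos
  set Hp : Set ℂ := {w | w.re < 0} with hHp
  have hexp : ∀ w ∈ Hp, Complex.exp w ∈ ball (0 : ℂ) 1 \ {0} := by
    intro w hw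
    refine ⟨?_, Complex.exp_ne_zero w⟩
    rw [mem_ball_zero_iff, Complex.norm_exp]
    rw [← Real.exp_zero]
    exact Real.exp_lt_exp.2 hw
  have hF : HolP Hp (fun w => φ (Complex.exp w)) := holP_comp hφ Complex.differentiable_exp hexp
  have hFS : ∀ w ∈ Hp, φ (Complex.exp w) ∈ S := fun w hw => hS _ (hexp w hw)
  have hder : ∀ w ∈ Hp, ‖fderiv ℝ (fun w => φ (Complex.exp w)) w‖ ≤ C / (-w.re) := by
    intro w hw
    have hw' : w.re < 0 := hw
    have hsub : ball w (-w.re) ⊆ Hp := by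
      intro v hv
      rw [mem_ball, dist_eq_norm] at hv
      have h3 := (Complex.abs_re_le_norm (v - w)).trans_lt hv
      rw [Complex.sub_re] at h3
      have h4 := (abs_lt.1 h3).2
      change v.re < 0
      linarith
    exact disc_bound_r hC (neg_pos.2 hw') (hF.mono hsub) fun v hv => hFS v (hsub hv)
  have hlog : Real.log ‖z1‖ < 0 := Real.log_neg hpos h1
  set s : Set ℂ := {w | w.re = Real.log ‖z1‖} with hs
  have hsH : s ⊆ Hp := by
    intro w hw
    change w.re < 0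
    have : w.re = Real.log ‖z1‖ := hw
    rw [this]
    exact hlog
  have hconv : Convex ℝ s := by
    intro v hv w hw a b _ _ hab
    have hv' : v.re = Real.log ‖z1‖ := hv
    have hw' : w.re = Real.log ‖z1‖ := hw
    change (a • v + b • w).re = _
    rw [Complex.add_re, Complex.real_smul, Complex.real_smul, Complex.re_ofReal_mul,
      Complex.re_ofReal_mul, hv', hw', ← add_mul, hab, one_mul]
  have m1 : Complex.log z1 ∈ s := Complex.log_re z1
  have m2 : Complex.log z2 ∈ s := by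
    change (Complex.log z2).re = _
    rw [Complex.log_re, h12]
  have h5 := hconv.norm_image_sub_le_of_norm_fderiv_le
    (f := fun w => φ (Complex.exp w)) (C := C / (-Real.log ‖z1‖))
    (fun w hw => hF.differentiableAt (hsH hw)) (fun w hw => by
      have := hder w (hsH hw)
      have h6 : w.re = Real.log ‖z1‖ := hw
      rwa [h6] at this) m1 m2
  simp only [Complex.exp_log h0, Complex.exp_log h02] at h5
  have hCnn : 0 ≤ C / (-Real.log ‖z1‖) := (norm_nonneg _).trans (by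
    have := hder _ (hsH m1)
    have h6 : (Complex.log z1).re = Real.log ‖z1‖ := m1
    rwa [h6] at this)
  refine h5.trans (mul_le_mul_of_nonneg_left ?_ hCnn)
  have h6 : Complex.log z2 - Complex.log z1 = ((z2.arg - z1.arg : ℝ) : ℂ) * Complex.I := by
    apply Complex.ext
    · rw [Complex.sub_re, Complex.log_re, Complex.log_re, h12]
      simp
    · rw [Complex.sub_im, Complex.log_im, Complex.log_im]
      simp
  rw [h6, norm_mul, Complex.norm_I, mul_one, Complex.norm_real, Real.norm_eq_abs, abs_le]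
  have a1 := Complex.neg_pi_lt_arg z1
  have a2 := Complex.arg_le_pi z1
  have a3 := Complex.neg_pi_lt_arg z2
  have a4 := Complex.arg_le_pi z2
  constructor <;> linarith

/-- **The limit at the puncture.** -/
theorem exists_puncture {T : Set (Mat N)} (hT : IsCompact T) (hTP : T ⊆ PM)
    (hφ : HolP (ball 0 1 \ {0}) φ) (hm : ∀ z ∈ ball (0 : ℂ) 1 \ {0}, φ z ∈ T) {osc : ℝ → ℝ}
    (hosc : Tendsto osc (𝓝[>] 0) (𝓝 0))
    (ho : ∀ z1 z2 : ℂ, ‖z2‖ = ‖z1‖ → z1 ≠ 0 → ‖z1‖ < 1 → ‖φ z2 - φ z1‖ ≤ osc ‖z1‖) :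
    ∃ p ∈ T, Tendsto φ (𝓝[≠] 0) (𝓝 p) := by
  set 𝓤 : Ultrafilter ℕ := hyperfilter ℕ with h𝓤
  have hcof : ∀ R : ℝ, ∀ᶠ m : ℕ in (𝓤 : Filter ℕ), R ≤ m := hyper_ge'
  set r : ℕ → ℝ := fun m => 1 / ((m : ℝ) + 2) with hr
  have hrpos : ∀ m, 0 < r m := fun m => by
    rw [hr]
    positivity
  have hr1 : ∀ m, r m < 1 := fun m => by
    have h1 : (0 : ℝ) ≤ m := Nat.cast_nonneg m
    have h2 : (0 : ℝ) < (m : ℝ) + 2 := by linarith
    change 1 / ((m : ℝ) + 2) < 1
    rw [div_lt_one h2]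
    linarith
  have hrsmall : ∀ ε > 0, ∀ᶠ m in (𝓤 : Filter ℕ), r m < ε := by
    intro ε hε
    filter_upwards [hcof (1 / ε)] with m hm
    change 1 / ((m : ℝ) + 2) < ε
    have h2 : (0 : ℝ) < (m : ℝ) + 2 := by positivity
    rw [div_lt_iff₀ h2]
    rw [div_le_iff₀ hε] at hm
    nlinarith
  have hdom : ∀ s : ℝ, 0 < s → s < 1 → ((s : ℂ)) ∈ ball (0 : ℂ) 1 \ {0} := by
    intro s hs hs1
    refine ⟨?_, ?_⟩
    · rw [mem_ball_zero_iff, Complex.norm_real, Real.norm_of_nonneg hs.le]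
      exact hs1
    · have : (s : ℂ) ≠ 0 := by exact_mod_cast hs.ne'
      exact this
  have hlimT : ∀ s : ℕ → ℝ, (∀ᶠ m in (𝓤 : Filter ℕ), 0 < s m ∧ s m < 1) →
      ∃ p ∈ T, Tendsto (fun m => φ (s m)) 𝓤 (𝓝 p) := by
    intro s hs
    have h1 : (𝓤.map (fun m => φ (s m)) : Filter (Mat N)) ≤ 𝓟 T := by
      rw [Ultrafilter.coe_map, le_principal_iff, mem_map]
      filter_upwards [hs] with m hm1
      exact hm _ (hdom _ hm1.1 hm1.2)
    obtain ⟨M, hM, hM'⟩ := hT.ultrafilter_le_nhds (𝓤.map (fun m => φ (s m))) h1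
    exact ⟨M, hM, hM'⟩
  obtain ⟨p, hpT, hp⟩ := hlimT r (Eventually.of_forall fun m => ⟨hrpos m, hr1 m⟩)
  refine ⟨p, hpT, ?_⟩
  by_contra hnot
  rw [Metric.tendsto_nhds] at hnot
  push Not at hnot
  obtain ⟨ε, hε, hfreq⟩ := hnot
  obtain ⟨i, hi⟩ := PM.exists_diag (hTP hpT)
  -- the chart
  have hopen : IsOpen {M : Mat N | M i i ≠ 0} :=
    isOpen_ne_fun (continuous_apply_apply i i) continuous_const
  obtain ⟨δ0, hδ0, hball0⟩ := Metric.isOpen_iff.1 hopen p hi
  set δ : ℝ := min (ε / 4) (δ0 / 4) with hδdef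
  have hδ : 0 < δ := lt_min (by positivity) (by positivity)
  have hδε : 4 * δ ≤ ε := by
    have := min_le_left (ε / 4) (δ0 / 4)
    linarith
  have hKc : closedBall p (2 * δ) ⊆ {M : Mat N | M i i ≠ 0} := by
    refine Subset.trans ?_ hball0
    apply closedBall_subset_ball
    have := min_le_right (ε / 4) (δ0 / 4)
    linarith
  have hcomp : IsCompact (closedBall p (2 * δ)) := isCompact_closedBall _ _
  have hcont : ContinuousOn (chart i) (closedBall p (2 * δ)) := fun M hM =>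
    (continuousAt_chart (hKc hM)).continuousWithinAt
  obtain ⟨L, hL⟩ := hcomp.exists_bound_of_continuousOn hcont
  have hunif := hcomp.uniformContinuousOn_of_continuous hcont
  rw [Metric.uniformContinuousOn_iff] at hunif
  -- small oscillation
  have hoscs : ∀ θ > 0, ∃ s0 > 0, ∀ s, 0 < s → s < s0 → osc s < θ := by
    intro θ hθ
    have h1 := hosc.eventually_lt_const hθ
    rw [eventually_nhdsWithin_iff, Metric.eventually_nhds_iff] at h1
    obtain ⟨s0, hs0, h2⟩ := h1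
    refine ⟨s0, hs0, fun s hs hs1 => h2 ?_ hs⟩
    rw [Real.dist_eq, sub_zero, abs_of_pos hs]
    exact hs1
  obtain ⟨s1, hs1, hosc1⟩ := hoscs δ hδ
  have hnr : ∀ s : ℝ, 0 < s → ‖(s : ℂ)‖ = s := fun s hs => by
    rw [Complex.norm_real, Real.norm_of_nonneg hs.le]
  have hgcont : ∀ a b : ℝ, 0 < a → b < 1 → ContinuousOn (fun s : ℝ => ‖φ s - p‖) (Icc a b) := by
    intro a b ha hb s hs
    have h1 : ContinuousAt φ (s : ℂ) :=
      hφ.continuousAt (hdom s (ha.trans_le hs.1) (hs.2.trans_lt hb))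
    have h2 : ContinuousAt (fun s : ℝ => φ (s : ℂ)) s :=
      ContinuousAt.comp (f := fun s : ℝ => (s : ℂ)) h1 Complex.continuous_ofReal.continuousAt
    exact (h2.sub continuousAt_const).norm.continuousWithinAt
  -- the last crossing
  have key : ∀ᶠ m in (𝓤 : Filter ℕ), ∃ am : ℝ × ℝ, 0 < am.1 ∧ am.1 ≤ am.2 ∧ am.2 ≤ r m ∧
      ‖φ am.1 - p‖ = δ ∧ ‖φ am.2 - p‖ = δ / 2 ∧ ∀ s, am.1 ≤ s → s ≤ r m → ‖φ s - p‖ ≤ δ := by
    have hp' := (Metric.tendsto_nhds.1 hp) (δ / 4) (by positivity)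
    filter_upwards [hp', hrsmall s1 hs1] with m hm1 hm2
    rw [dist_eq_norm] at hm1
    obtain ⟨z', hz'1, hz'2⟩ : ∃ z' : ℂ, (z' ≠ 0 ∧ ‖z'‖ < r m) ∧ ε ≤ dist (φ z') p := by
      have h1 : ∀ᶠ z : ℂ in 𝓝[≠] 0, z ≠ 0 ∧ ‖z‖ < r m := by
        have h2 : ∀ᶠ z : ℂ in 𝓝[≠] 0, z ∈ ball (0 : ℂ) (r m) :=
          nhdsWithin_le_nhds (ball_mem_nhds _ (hrpos m))
        filter_upwards [self_mem_nhdsWithin, h2] with z hz1 hz2
        exact ⟨hz1, mem_ball_zero_iff.1 hz2⟩
      obtain ⟨z, hz1, hz2⟩ := (hfreq.and_eventually h1).exists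
      exact ⟨z, hz2, hz1⟩
    set b : ℝ := ‖z'‖ with hb
    have hbpos : 0 < b := norm_pos_iff.2 hz'1.1
    have hb1 : b < 1 := hz'1.2.trans (hr1 m)
    have hφb : δ ≤ ‖φ b - p‖ := by
      have h1 := ho z' (b : ℂ) (hnr b hbpos) hz'1.1 hb1
      have h2 := hosc1 b hbpos (hz'1.2.trans hm2)
      rw [dist_eq_norm] at hz'2
      have h3 : φ z' - p = (φ b - p) - (φ b - φ z') := by abel
      have h4 := norm_sub_le (φ b - p) (φ b - φ z')
      rw [← h3] at h4
      have h5 : osc ‖z'‖ = osc b := rfl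
      linarith
    set E : Set ℝ := {s ∈ Icc b (r m) | δ ≤ ‖φ s - p‖} with hE
    have hEc : IsCompact E := by
      have h1 := (hgcont b (r m) hbpos (hr1 m)).preimage_isClosed_of_isClosed isClosed_Icc
        (isClosed_Ici (a := δ))
      exact isCompact_Icc.of_isClosed_subset h1 fun s hs => hs.1
    obtain ⟨a, ha, hagr⟩ := hEc.exists_isGreatest ⟨b, ⟨le_rfl, hz'1.2.le⟩, hφb⟩
    have hapos : 0 < a := hbpos.trans_le ha.1.1
    have hlt : ∀ s, a < s → s ≤ r m → ‖φ s - p‖ < δ := by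
      intro s hs1 hs2
      by_contra hcon
      push Not at hcon
      exact absurd (hagr ⟨⟨ha.1.1.trans hs1.le, hs2⟩, hcon⟩) (not_le.2 hs1)
    have hivt : ∀ t, δ / 4 ≤ t → t ≤ δ → ∃ s ∈ Icc a (r m), ‖φ s - p‖ = t := by
      intro t ht1 ht2
      have h1 := intermediate_value_Icc' ha.1.2 (hgcont a (r m) hapos (hr1 m))
      exact h1 ⟨hm1.le.trans ht1, ht2.trans ha.2⟩
    obtain ⟨s, hs, hsδ⟩ := hivt δ (by linarith) le_rfl
    have hsa : s = a := by
      apply le_antisymm _ hs.1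
      exact hagr ⟨⟨ha.1.1.trans hs.1, hs.2⟩, hsδ.ge⟩
    rw [hsa] at hsδ
    obtain ⟨c, hc, hcδ⟩ := hivt (δ / 2) (by linarith) (by linarith)
    refine ⟨(a, c), hapos, hc.1, hc.2, hsδ, hcδ, fun s hs1 hs2 => ?_⟩
    rcases eq_or_lt_of_le hs1 with h | h
    · have h' : a = s := h
      rw [← h', hsδ]
    · exact (hlt s h hs2).le
  obtain ⟨am, ham⟩ := key.choice
  set a : ℕ → ℝ := fun m => (am m).1 with hadef
  set c : ℕ → ℝ := fun m => (am m).2 with hcdef
  obtain ⟨q, hqT, hq⟩ := hlimT a (by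
    filter_upwards [ham] with m hm
    exact ⟨hm.1, (hm.2.1.trans hm.2.2.1).trans_lt (hr1 m)⟩)
  obtain ⟨M, hMT, hM⟩ := hlimT c (by
    filter_upwards [ham] with m hm
    exact ⟨hm.1.trans_le hm.2.1, hm.2.2.1.trans_lt (hr1 m)⟩)
  have hqδ : ‖q - p‖ = δ := by
    refine tendsto_nhds_unique (hq.sub_const p).norm ?_
    refine (tendsto_const_nhds (x := δ)).congr' ?_
    filter_upwards [ham] with m hm
    exact hm.2.2.2.1.symm
  have hMδ : ‖M - p‖ = δ / 2 := by
    refine tendsto_nhds_unique (hM.sub_const p).norm ?_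
    refine (tendsto_const_nhds (x := δ / 2)).congr' ?_
    filter_upwards [ham] with m hm
    exact hm.2.2.2.2.1.symm
  have hMp : M ≠ p := by
    intro h0
    rw [h0, sub_self, norm_zero] at hMδ
    linarith
  have hMq : M ≠ q := by
    intro h0
    rw [h0, hqδ] at hMδ
    linarith
  have hiM : M i i ≠ 0 := hKc (by
    rw [mem_closedBall, dist_eq_norm, hMδ]
    linarith)
  have hiq : q i i ≠ 0 := hKc (by
    rw [mem_closedBall, dist_eq_norm, hqδ]
    linarith)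
  -- the estimate
  have hest : ∀ j l : Fin N, ∀ η > 0, ‖(chart i M j - chart i p j) * (chart i M l - chart i q l)‖ ≤
      η * (2 * L) := by
    intro j l η hη
    obtain ⟨θ, hθ, hun⟩ := hunif η hη
    obtain ⟨s2, hs2, hosc2⟩ := hoscs θ hθ
    have h1 : ∀ᶠ m in (𝓤 : Filter ℕ),
        ‖(chart i (φ (c m)) j - chart i (φ (r m)) j) * (chart i (φ (c m)) l - chart i (φ (a m)) l)‖
          ≤ η * (2 * L) := by
      filter_upwards [ham, hrsmall s1 hs1, hrsmall s2 hs2] with m hm hm1 hm2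
      have hann : ∀ z : ℂ, a m ≤ ‖z‖ → ‖z‖ ≤ r m →
          z ∈ ball (0 : ℂ) 1 \ {0} ∧ φ z ∈ closedBall p (2 * δ) := by
        intro z hz1 hz2
        have hz0 : 0 < ‖z‖ := hm.1.trans_le hz1
        refine ⟨⟨mem_ball_zero_iff.2 (hz2.trans_lt (hr1 m)), norm_pos_iff.1 hz0⟩, ?_⟩
        have h2 := hm.2.2.2.2.2 ‖z‖ hz1 hz2
        have h3 := ho ((‖z‖ : ℝ) : ℂ) z (hnr _ hz0).symm
          (by exact_mod_cast hz0.ne') (by rw [hnr _ hz0]; exact hz2.trans_lt (hr1 m))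
        rw [hnr _ hz0] at h3
        have h4 := hosc1 ‖z‖ hz0 (hz2.trans_lt hm1)
        rw [mem_closedBall, dist_eq_norm]
        have h5 : φ z - p = (φ z - φ ((‖z‖ : ℝ) : ℂ)) + (φ ((‖z‖ : ℝ) : ℂ) - p) := by abel
        rw [h5]
        refine (norm_add_le _ _).trans ?_
        linarith
      have hdiff : ∀ (k : Fin N) (w : ℂ) (z : ℂ), a m ≤ ‖z‖ → ‖z‖ ≤ r m →
          DifferentiableAt ℂ (fun z => chart i (φ z) k - w) z := by
        intro k w z hz1 hz2
        obtain ⟨h2, h3⟩ := hann z hz1 hz2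
        have h4 := hφ.diff_chart h2 (hKc h3)
        exact (differentiableAt_pi.1 h4 k).sub_const w
      have hbd : ∀ (k : Fin N) (z w : ℂ), a m ≤ ‖z‖ → ‖z‖ ≤ r m → a m ≤ ‖w‖ → ‖w‖ ≤ r m →
          ‖chart i (φ z) k - chart i (φ w) k‖ ≤ 2 * L := by
        intro k z w hz1 hz2 hw1 hw2
        have h2 := (norm_le_pi_norm (chart i (φ z)) k).trans (hL _ (hann z hz1 hz2).2)
        have h3 := (norm_le_pi_norm (chart i (φ w)) k).trans (hL _ (hann w hw1 hw2).2)
        refine (norm_sub_le _ _).trans ?_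
        linarith
      have hsm : ∀ (k : Fin N) (z w : ℂ), a m ≤ ‖z‖ → ‖z‖ ≤ r m → ‖w‖ = ‖z‖ →
          ‖chart i (φ z) k - chart i (φ w) k‖ ≤ η := by
        intro k z w hz1 hz2 hw
        have hz0 : 0 < ‖z‖ := hm.1.trans_le hz1
        have h2 := ho z w hw (norm_pos_iff.1 hz0) (hz2.trans_lt (hr1 m))
        have h3 := hosc2 ‖z‖ hz0 (hz2.trans_lt hm2)
        have h4 := hun (φ z) (hann z hz1 hz2).2 (φ w) (hann w (hw ▸ hz1) (hw ▸ hz2)).2 (by
          rw [dist_comm, dist_eq_norm]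
          exact h2.trans_lt h3)
        rw [dist_eq_norm] at h4
        exact ((norm_le_pi_norm (chart i (φ z) - chart i (φ w)) k)).trans h4.le
      have hac : a m ≤ c m := hm.2.1
      have hcr : c m ≤ r m := hm.2.2.1
      have har : a m ≤ r m := hac.trans hcr
      have na : ‖((a m : ℝ) : ℂ)‖ = a m := hnr _ hm.1
      have nr : ‖((r m : ℝ) : ℂ)‖ = r m := hnr _ (hrpos m)
      have nc : ‖((c m : ℝ) : ℂ)‖ = c m := hnr _ (hm.1.trans_le hac)
      exact annulus_max (a := a m) (b := r m)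
        (f := fun z => chart i (φ z) j - chart i (φ (r m)) j)
        (g := fun z => chart i (φ z) l - chart i (φ (a m)) l)
        (hdiff j _) (hdiff l _)
        (fun z h1 h2 => hbd j z _ h1 h2 (by rw [nr]; exact har) (by rw [nr]))
        (fun z h1 h2 => hbd l z _ h1 h2 (by rw [na]) (by rw [na]; exact har))
        (fun z hz => hsm j z _ (by rw [hz]; exact har) hz.le (by rw [nr, hz]))
        (fun z hz => hsm l z _ hz.ge (by rw [hz]; exact har) (by rw [na, hz]))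
        (z := (c m : ℂ)) (by rw [nc]; exact hac) (by rw [nc]; exact hcr)
    have hch : ∀ {X : Mat N} (hX : X i i ≠ 0) {s : ℕ → ℝ} (hs : Tendsto (fun m => φ (s m)) 𝓤 (𝓝 X))
        (k : Fin N), Tendsto (fun m => chart i (φ (s m)) k) 𝓤 (𝓝 (chart i X k)) := by
      intro X hX s hs k
      exact ((continuous_apply k).continuousAt.tendsto).comp ((continuousAt_chart hX).tendsto.comp hs)
    refine le_of_tendsto (((hch hiM hM j).sub (hch hi hp j)).mul
      ((hch hiM hM l).sub (hch hiq hq l))).norm h1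
  have hzero : ∀ j l : Fin N, (chart i M j - chart i p j) * (chart i M l - chart i q l) = 0 := by
    intro j l
    rw [← norm_le_zero_iff]
    refine le_of_forall_pos_le_add fun ε' hε' => ?_
    have h1 := hest j l (ε' / (2 * |L| + 1)) (by positivity)
    refine h1.trans ?_
    rw [zero_add, div_mul_eq_mul_div, div_le_iff₀ (by positivity)]
    have := le_abs_self L
    nlinarith
  obtain ⟨j, hj⟩ : ∃ j, chart i M j ≠ chart i p j := by
    by_contra hcon
    push Not at hcon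
    apply hMp
    rw [← PM.Phi_chart (hTP hMT) hiM, ← PM.Phi_chart (hTP hpT) hi, funext hcon]
  obtain ⟨l, hl⟩ : ∃ l, chart i M l ≠ chart i q l := by
    by_contra hcon
    push Not at hcon
    apply hMq
    rw [← PM.Phi_chart (hTP hMT) hiM, ← PM.Phi_chart (hTP hqT) hiq, funext hcon]
  rcases mul_eq_zero.1 (hzero j l) with h | h
  · exact hj (sub_eq_zero.1 h)
  · exact hl (sub_eq_zero.1 h)

end Pool.Agent.N155
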