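import Pool.Agent.N155.L.OEnd
import Pool.Agent.N155.L.Pic

/-! Hyperbolically embedded open surfaces. -/

set_option autoImplicit false

open Filter Topology Metric Set MvPolynomial LinearAlgebra.Projectivization

namespace Pool.Agent.N155

open FF Pool.Agent.Y190.OP Pool.Agent.W602.GT Pool.Agent.TH143.GT

/-- **The extension across the puncture.** -/
theorem holP_extend {N : ℕ} {φ : ℂ → Mat N} (hφ : HolP (ball 0 1 \ {0}) φ) {p : Mat N}
    (hp : p ∈ PM) (hlim : Tendsto φ (𝓝[≠] 0) (𝓝 p)) :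
    HolP (ball 0 1) (Function.update φ 0 p) := by
  classical
  intro z hz
  by_cases hz0 : z = 0
  · subst hz0
    obtain ⟨i, hi⟩ := PM.exists_diag hp
    have hopen : IsOpen {M : Mat N | M i i ≠ 0} :=
      isOpen_ne_fun (continuous_apply_apply i i) continuous_const
    have h1 : ∀ᶠ z in 𝓝[≠] (0 : ℂ), z ∈ ball (0 : ℂ) 1 ∧ φ z i i ≠ 0 := by
      filter_upwards [nhdsWithin_le_nhds (isOpen_ball.mem_nhds hz),
        hlim.eventually (hopen.mem_nhds hi)] with w h2 h3
      exact ⟨h2, h3⟩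
    rw [eventually_nhdsWithin_iff, Metric.eventually_nhds_iff] at h1
    obtain ⟨r, hr, h2⟩ := h1
    set ψ : ℂ → Mat N := Function.update φ 0 p with hψ
    have hψ0 : ψ 0 = p := Function.update_self _ _ _
    have hψz : ∀ z, z ≠ 0 → ψ z = φ z := fun z hz => Function.update_of_ne hz _ _
    have hcont : ContinuousAt ψ 0 := by
      rw [continuousAt_update_same]
      exact hlim
    have hmem : ∀ z ∈ ball (0 : ℂ) r, ψ z ∈ PM ∧ ψ z i i ≠ 0 := by
      intro z hz
      by_cases h0 : z = 0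
      · rw [h0, hψ0]
        exact ⟨hp, hi⟩
      · have h3 := h2 hz h0
        rw [hψz z h0]
        exact ⟨hφ.mem_PM ⟨h3.1, h0⟩, h3.2⟩
    refine ⟨ball 0 r, fun z => chart i (ψ z), isOpen_ball, mem_ball_self hr, ?_, fun w hw => ?_⟩
    · rw [← Complex.differentiableOn_compl_singleton_and_continuousAt_iff (ball_mem_nhds 0 hr)]
      refine ⟨fun z hz => ?_, ?_⟩
      · have h0 : z ≠ 0 := hz.2
        have h3 := h2 hz.1 h0
        have h4 := hφ.diff_chart ⟨h3.1, h0⟩ h3.2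
        have h5 : (fun z => chart i (φ z)) =ᶠ[𝓝 z] fun z => chart i (ψ z) := by
          filter_upwards [isOpen_ne.mem_nhds h0] with w hw
          rw [hψz w hw]
        exact (h5.differentiableAt_iff.1 h4).differentiableWithinAt
      · have h3 : ContinuousAt (chart i) (ψ 0) := by
          rw [hψ0]
          exact continuousAt_chart hi
        exact ContinuousAt.comp (f := ψ) h3 hcont
    · obtain ⟨h3, h4⟩ := hmem w hw
      exact ⟨PM.chart_ne h4, (PM.Phi_chart h3 h4).symm⟩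
  · obtain ⟨V, F, hV, hzV, hF, hφF⟩ := hφ z ⟨hz, hz0⟩
    refine ⟨V ∩ {0}ᶜ, F, hV.inter isOpen_compl_singleton, ⟨hzV, hz0⟩, hF.mono inter_subset_left,
      fun w hw => ?_⟩
    obtain ⟨h1, h2⟩ := hφF w hw.1
    refine ⟨h1, ?_⟩
    rw [Function.update_of_ne hw.2]
    exact h2

variable {n : ℕ}

theorem mk_rep_smul {v : Fin (n + 1) → ℂ} (hv : v ≠ 0) : ∃ c : ℂ, c ≠ 0 ∧
    (Projectivization.mk ℂ v hv).rep = c • v := by
  obtain ⟨a, ha⟩ := Projectivization.exists_smul_eq_mk_rep ℂ v hv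
  exact ⟨a, a.ne_zero, ha.symm⟩

theorem holP_of_mapOn {U : Set ℂ} {f : ℂ → ℙ ℂ (Fin (n + 1) → ℂ)} (hf : HolMapOn U f) :
    HolP U (fun z => Phi (f z).rep) := by
  intro z hz
  obtain ⟨V, g, hV, hzV, hg, hfg⟩ := hf z hz
  refine ⟨V, g, hV, hzV, hg, fun w hw => ?_⟩
  obtain ⟨h0, he⟩ := hfg w hw
  refine ⟨h0, ?_⟩
  obtain ⟨c, hc, hcr⟩ := mk_rep_smul h0
  change Phi (f w).rep = Phi (g w)
  rw [he, hcr, Phi_smul hc]

/-- equality of points from equality of matrices -/
theorem eq_of_Phi {x : ℙ ℂ (Fin (n + 1) → ℂ)} {u : Fin (n + 1) → ℂ} (hu : u ≠ 0)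
    (h : Phi x.rep = Phi u) : x = Projectivization.mk ℂ u hu := by
  obtain ⟨c, hc0, hc1⟩ := Phi_inj x.rep_nonzero hu h
  rw [← x.mk_rep, Projectivization.mk_eq_mk_iff']
  exact ⟨c⁻¹, by rw [hc1, smul_smul, inv_mul_cancel₀ hc0, one_smul]⟩

theorem mapOn_of_holP {U : Set ℂ} {f : ℂ → ℙ ℂ (Fin (n + 1) → ℂ)}
    (hf : HolP U (fun z => Phi (f z).rep)) : HolMapOn U f := by
  intro z hz
  obtain ⟨V, g, hV, hzV, hg, hfg⟩ := hf z hz
  exact ⟨V, g, hV, hzV, hg, fun w hw => ⟨(hfg w hw).1, eq_of_Phi (hfg w hw).1 (hfg w hw).2⟩⟩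

/-- from matrices to the Fubini-Study metric -/
theorem derBound_of_fderiv {f : ℂ → ℙ ℂ (Fin (n + 1) → ℂ)} {z : ℂ} {C : ℝ}
    (hC : ‖fderiv ℝ (fun z => Phi (f z).rep) z‖ ≤ C)
    (hd : DifferentiableAt ℝ (fun z => Phi (f z).rep) z) :
    DerBound (4 * C * ((n : ℝ) + 1) ^ 2) f z := by
  intro V g hV hzV hg hfg
  set Ψ : ℂ → Mat (n + 1) := fun z => Phi (f z).rep with hΨ
  have hC0 : 0 ≤ C := (norm_nonneg _).trans hC
  have hg0 : ∀ w ∈ V, g w ≠ 0 := fun w hw => (hfg w hw).1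
  have hΨg : ∀ w ∈ V, Ψ w = Phi (g w) := by
    intro w hw
    obtain ⟨h0, he⟩ := hfg w hw
    obtain ⟨c, hc, hcr⟩ := mk_rep_smul h0
    change Phi (f w).rep = Phi (g w)
    rw [he, hcr, Phi_smul hc]
  obtain ⟨i, hi⟩ := Finite.exists_max fun i => ‖g z i‖
  have hgi : g z i ≠ 0 := by
    intro h0
    apply hg0 z hzV
    funext j
    have := hi j
    rw [h0, norm_zero] at this
    exact norm_le_zero_iff.1 this
  have hgip : 0 < ‖g z i‖ := norm_pos_iff.2 hgi
  have hdg : DifferentiableAt ℂ g z := (hg z hzV).differentiableAt (hV.mem_nhds hzV)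
  have hdj : ∀ j, HasDerivAt (fun w => g w j) (deriv (fun w => g w j) z) z := fun j =>
    (differentiableAt_pi.1 hdg j).hasDerivAt
  -- the diagonal entry
  have hsum : ∑ k, ‖g z k‖ ^ 2 ≤ (n + 1) * ‖g z i‖ ^ 2 := by
    refine (Finset.sum_le_card_nsmul _ _ (‖g z i‖ ^ 2) fun k _ => ?_).trans ?_
    · exact pow_le_pow_left₀ (norm_nonneg _) (hi k) 2
    · simp
  have hΨi : 1 / ((n : ℝ) + 1) ≤ ‖Ψ z i i‖ := by
    rw [hΨg z hzV]
    unfold Phi
    rw [nsq_eq, norm_div, norm_mul, Complex.norm_real, RCLike.norm_conj, Real.norm_of_nonneg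
      (Finset.sum_nonneg fun _ _ => by positivity)]
    have hpos : 0 < ∑ l, ‖g z l‖ ^ 2 := by
      refine lt_of_lt_of_le (b := ‖g z i‖ ^ 2) (by positivity) ?_
      exact Finset.single_le_sum (f := fun l => ‖g z l‖ ^ 2) (fun _ _ => by positivity)
        (Finset.mem_univ i)
    rw [div_le_div_iff₀ (by positivity) hpos]
    nlinarith
  have hΨii : Ψ z i i ≠ 0 := by
    intro h0
    rw [h0, norm_zero] at hΨi
    have : 0 < 1 / ((n : ℝ) + 1) := by positivity
    linarith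
  have hentry : ∀ j k, ‖Ψ z j k‖ ≤ 1 := by
    intro j k
    rw [hΨg z hzV]
    unfold Phi
    rw [nsq_eq, norm_div, norm_mul, Complex.norm_real, RCLike.norm_conj, Real.norm_of_nonneg
      (Finset.sum_nonneg fun _ _ => by positivity)]
    have hpos : 0 < ∑ l, ‖g z l‖ ^ 2 := by
      refine lt_of_lt_of_le (b := ‖g z i‖ ^ 2) (by positivity) ?_
      exact Finset.single_le_sum (f := fun l => ‖g z l‖ ^ 2) (fun _ _ => by positivity)
        (Finset.mem_univ i)
    rw [div_le_one hpos]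
    have h1 : ‖g z j‖ ^ 2 ≤ ∑ l, ‖g z l‖ ^ 2 :=
      Finset.single_le_sum (f := fun l => ‖g z l‖ ^ 2) (fun _ _ => by positivity)
        (Finset.mem_univ j)
    have h2 : ‖g z k‖ ^ 2 ≤ ∑ l, ‖g z l‖ ^ 2 :=
      Finset.single_le_sum (f := fun l => ‖g z l‖ ^ 2) (fun _ _ => by positivity)
        (Finset.mem_univ k)
    nlinarith [sq_nonneg (‖g z j‖ - ‖g z k‖)]
  -- the derivatives of the coordinates
  set q : Fin (n + 1) → ℂ → ℂ := fun j w => g w j / g w i with hq
  have hqd : ∀ j, HasDerivAt (q j) ((deriv (fun w => g w j) z * g z i -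
      g z j * deriv (fun w => g w i) z) / (g z i) ^ 2) z := fun j => (hdj j).fun_div (hdj i) hgi
  have hqb : ∀ j, ‖deriv (q j) z‖ ≤ 2 * C * ((n : ℝ) + 1) ^ 2 := by
    intro j
    have h1 : q j =ᶠ[𝓝 z] fun w => Ψ w j i / Ψ w i i := by
      have hci : ContinuousAt (fun w => g w i) z := (hdj i).continuousAt
      filter_upwards [hV.mem_nhds hzV, hci.eventually_ne hgi] with w hw hwi
      rw [hΨg w hw, Phi_ratio (hg0 w hw) hwi]
    have hent : ∀ j k, HasFDerivAt (𝕜 := ℝ) (fun w => Ψ w j k)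
        ((ContinuousLinearMap.proj (R := ℝ) (φ := fun _ : Fin (n + 1) => ℂ) k).comp
          ((ContinuousLinearMap.proj (R := ℝ) (φ := fun _ : Fin (n + 1) => Fin (n + 1) → ℂ) j).comp
            (fderiv ℝ Ψ z))) z := by
      intro j k
      have h2 := hasFDerivAt_pi'.1 hd.hasFDerivAt j
      exact hasFDerivAt_pi'.1 h2 k
    have hentb : ∀ j k, ‖fderiv ℝ Ψ z 1 j k‖ ≤ C := by
      intro j k
      have h2 : ‖fderiv ℝ Ψ z 1‖ ≤ C := by
        have := (fderiv ℝ Ψ z).le_opNorm 1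
        rw [norm_one, mul_one] at this
        exact this.trans hC
      exact ((norm_le_pi_norm _ k).trans (norm_le_pi_norm (fderiv ℝ Ψ z 1) j)).trans h2
    have h3 : HasFDerivAt (𝕜 := ℝ) (q j) (fderiv ℝ (q j) z) z :=
      ((hqd j).differentiableAt.restrictScalars ℝ).hasFDerivAt
    have h4 : fderiv ℝ (q j) z 1 = deriv (q j) z := by
      have h5 := ((hqd j).differentiableAt.hasDerivAt.hasFDerivAt.restrictScalars ℝ).fderiv
      rw [h5]
      simp
    have h5 : deriv (q j) z * Ψ z i i + q j z * fderiv ℝ Ψ z 1 i i = fderiv ℝ Ψ z 1 j i := by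
      have h6 := h3.mul (hent i i)
      have h7 : (fun w => q j w * Ψ w i i) =ᶠ[𝓝 z] fun w => Ψ w j i := by
        have hcii : ContinuousAt (fun w => Ψ w i i) z := (hent i i).continuousAt
        filter_upwards [h1, hcii.eventually_ne hΨii] with w hw hw2
        rw [hw, div_mul_cancel₀ _ hw2]
      have h8 := h6.congr_of_eventuallyEq h7.symm
      have h9 := h8.unique (hent j i)
      have h10 := congrArg (fun T : ℂ →L[ℝ] ℂ => T 1) h9
      simp only [add_apply, smul_apply,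
        ContinuousLinearMap.comp_apply, ContinuousLinearMap.proj_apply, smul_eq_mul] at h10
      rw [← h10, ← h4]
      ring
    have hqz : ‖q j z‖ ≤ 1 := by
      rw [hq]
      simp only [norm_div]
      rw [div_le_one hgip]
      exact hi j
    have h6 : ‖deriv (q j) z‖ * ‖Ψ z i i‖ ≤ 2 * C := by
      rw [← norm_mul]
      have h7 : deriv (q j) z * Ψ z i i = fderiv ℝ Ψ z 1 j i - q j z * fderiv ℝ Ψ z 1 i i := by
        rw [← h5]
        ring
      rw [h7]
      refine (norm_sub_le _ _).trans ?_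
      rw [norm_mul]
      have h8 := mul_le_mul hqz (hentb i i) (norm_nonneg _) zero_le_one
      have h9 := hentb j i
      linarith
    have h7 : 1 ≤ ((n : ℝ) + 1) * ‖Ψ z i i‖ := by
      rw [div_le_iff₀ (by positivity)] at hΨi
      linarith
    have h8 : (1 : ℝ) ≤ (n : ℝ) + 1 := by
      have : (0 : ℝ) ≤ n := Nat.cast_nonneg n
      linarith
    have h9 := norm_nonneg (deriv (q j) z)
    calc ‖deriv (q j) z‖ ≤ ‖deriv (q j) z‖ * (((n : ℝ) + 1) * ‖Ψ z i i‖) := by nlinarith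
      _ = (‖deriv (q j) z‖ * ‖Ψ z i i‖) * ((n : ℝ) + 1) := by ring
      _ ≤ (2 * C) * ((n : ℝ) + 1) := mul_le_mul_of_nonneg_right h6 (by positivity)
      _ ≤ 2 * C * ((n : ℝ) + 1) ^ 2 := by
        refine mul_le_mul_of_nonneg_left ?_ (by positivity)
        nlinarith
  have hqn : ∀ j, ‖q j z‖ ≤ 1 := by
    intro j
    rw [hq]
    simp only [norm_div]
    rw [div_le_one hgip]
    exact hi j
  intro j k
  have h1 : g z j * deriv (fun w => g w k) z - g z k * deriv (fun w => g w j) z =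
      (g z i) ^ 2 * (q j z * deriv (q k) z - q k z * deriv (q j) z) := by
    rw [(hqd j).deriv, (hqd k).deriv, hq]
    simp only
    field_simp
    ring
  rw [h1, norm_mul, norm_pow]
  have h2 : ‖q j z * deriv (q k) z - q k z * deriv (q j) z‖ ≤ 4 * C * ((n : ℝ) + 1) ^ 2 := by
    refine (norm_sub_le _ _).trans ?_
    rw [norm_mul, norm_mul]
    have h3 := mul_le_mul (hqn j) (hqb k) (norm_nonneg _) zero_le_one
    have h4 := mul_le_mul (hqn k) (hqb j) (norm_nonneg _) zero_le_one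
    linarith
  have h3 : ‖g z i‖ ^ 2 ≤ ∑ k, ‖g z k‖ ^ 2 :=
    Finset.single_le_sum (f := fun l => ‖g z l‖ ^ 2) (fun _ _ => by positivity)
      (Finset.mem_univ i)
  rw [mul_comm]
  exact mul_le_mul h2 h3 (by positivity) (by positivity)

variable {ι κ α : Type} {F : ι → MvPolynomial (Fin (n + 1)) ℂ}
  {G : α → κ → MvPolynomial (Fin (n + 1)) ℂ} {K : Type} [Field K] [Algebra ℂ K]
  {y : Fin (n + 1) → K}

theorem OpenSurface.mem (hX : OpenSurface F G y) {x : ℙ ℂ (Fin (n + 1) → ℂ)}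
    (h : InOpen F G x.rep) : Phi x.rep ∈ TX y ∧ Phi x.rep ∈ SA G :=
  ⟨⟨x.rep, hX.surf.irred h.1, rfl⟩,
    fun a => (mem_SG_Phi (hX.div a).form x.rep_nonzero).2 (h.2 a)⟩

/-- **Hyperbolicity.** -/
theorem OpenSurface.hyp [Finite α] (hX : OpenSurface F G y)
    (h : ∀ (L : Type) [Field L] [Algebra ℂ L] [Algebra K L] [IsScalarTower ℂ K L]
      (D : Derivation ℂ K L), (∀ k, D k = 0 → ∃ c : ℂ, k = algebraMap ℂ K c) →
      ∃ σ : SymD K, 0 < σ.d ∧ σ.Regular 2 ∧ σ.app D ≠ 0) : HypEmbedded F G := by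
  obtain ⟨C, hC0, hC⟩ := hX.disc_bound fun H h1 h2 h3 h4 h5 => hX.noBrody h h1 h2 h3 h4 h5
  have hC' : ∀ Ψ : ℂ → Mat (n + 1), HolP (ball 0 1) Ψ →
      (∀ z ∈ ball (0 : ℂ) 1, Ψ z ∈ TX y ∩ SA G) → ‖fderiv ℝ Ψ 0‖ ≤ C := fun Ψ h1 h2 => hC Ψ h1 h2
  refine ⟨⟨4 * C * ((n : ℝ) + 1) ^ 2, fun f hf hfX => ?_⟩, fun f hf hfX => ?_, fun f hf hfX => ?_⟩
  · have hol := holP_of_mapOn hf
    exact derBound_of_fderiv (hC' _ hol fun z hz => hX.mem (hfX z hz))
      (hol.differentiableAt (mem_ball_self one_pos))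
  · have hol : HolP univ (fun z => Phi (f z).rep) := holP_of_map hf
    have key : ∀ z, f z = f 0 := by
      intro z
      have h1 := const_of_bound hC' hol (fun z => hX.mem (hfX z)) z
      rw [eq_of_Phi (f 0).rep_nonzero h1, Projectivization.mk_rep]
    intro z w
    rw [key z, key w]
  · have hol := holP_of_mapOn hf
    set φ : ℂ → Mat (n + 1) := fun z => Phi (f z).rep with hφ
    have hmem : ∀ z ∈ ball (0 : ℂ) 1 \ {0}, φ z ∈ TX y ∩ SA G := fun z hz => hX.mem (hfX z hz)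
    obtain ⟨p, hpT, hp⟩ := exists_puncture isCompact_TX TX_PM hol (fun z hz => (hmem z hz).1)
      (osc := fun r => C / (-Real.log r) * (2 * Real.pi)) (by
        have h1 : Tendsto (fun r => -Real.log r) (𝓝[>] 0) atTop :=
          tendsto_neg_atBot_atTop.comp Real.tendsto_log_nhdsGT_zero
        have h2 := (h1.const_div_atTop C).mul_const (2 * Real.pi)
        rwa [zero_mul] at h2)
      (fun z1 z2 h12 h0 h1 => circle_osc hC' hol hmem h12 h0 h1)
    have hext := holP_extend hol (TX_PM hpT) hp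
    obtain ⟨u, hu, hpu⟩ := hpT
    classical
    set g : ℂ → ℙ ℂ (Fin (n + 1) → ℂ) := Function.update f 0 (Projectivization.mk ℂ u hu.1) with hg
    have hg0 : g 0 = Projectivization.mk ℂ u hu.1 := Function.update_self _ _ _
    have hgz : ∀ z, z ≠ 0 → g z = f z := fun z hz => Function.update_of_ne hz _ _
    have hcone : ∀ v ∈ VarPts ℂ y, v ∈ Cone F := fun v hv =>
      ⟨hv.1, fun a => hv.2 _ (hX.surf.form a) (hX.surf.sub.mem a)⟩
    refine ⟨g, mapOn_of_holP ?_, fun z hz => ?_, fun z hz => hgz z hz.2⟩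
    · have h1 : (fun z => Phi (g z).rep) = Function.update φ 0 p := by
        funext z
        by_cases h0 : z = 0
        · rw [h0, hg0, Function.update_self, hpu]
          obtain ⟨c, hc, hcr⟩ := mk_rep_smul hu.1
          rw [hcr, Phi_smul hc]
        · rw [hgz z h0, Function.update_of_ne h0]
      rw [h1]
      exact hext
    · by_cases h0 : z = 0
      · rw [h0, hg0]
        obtain ⟨c, hc, hcr⟩ := mk_rep_smul hu.1
        rw [hcr]
        have h1 := hcone u hu
        refine ⟨smul_ne_zero hc h1.1, fun a => ?_⟩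
        obtain ⟨d, hd⟩ := hX.surf.form a
        have h2 := h1.2 a
        rw [val_eval] at h2 ⊢
        rw [eval_smul hd, h2, mul_zero]
      · rw [hgz z h0]
        exact (hfX z ⟨hz, h0⟩).1

/-- **Entire curves of bounded derivative are tangent to the regular symmetric differentials.** -/
theorem OpenSurface.tangent_map [Finite α] (hX : OpenSurface F G y)
    {f : ℂ → ℙ ℂ (Fin (n + 1) → ℂ)} (hf : HolMap f) (hfX : ∀ z, InOpen F G (f z).rep)
    (hb : BoundedDer f) {σ : SymD K} (hd : 0 < σ.d) (hreg : σ.Regular 2) : σ.Tangent y f := by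
  intro V H Φ hV hH hΦ z0 hz0
  set φ : ℂ → Mat (n + 1) := fun z => Phi (f z).rep with hφ
  have hol : HolP univ φ := holP_of_map hf
  have hcont : Continuous φ := continuous_iff_continuousAt.2 fun _ => hol.continuousAt (mem_univ _)
  have hmem : ∀ z, φ z ∈ TX y ∧ φ z ∈ SA G := fun z => hX.mem (hfX z)
  obtain ⟨B, hB⟩ := bounded_phi hf hb
  have hne : ∀ z, (f z).rep ≠ 0 := fun z => (f z).rep_nonzero
  set R : ∀ h : K, Frac y h := frAt hX.surf.sub.gen (f z0).rep with hR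
  have hsg : sgood R σ (φ z0) :=
    ⟨fun j => frAt_good _ (hne z0) (hH z0 hz0 j), fun j l => frAt_good _ (hne z0) (hΦ z0 hz0 j l)⟩
  have h1 : ∀ j, H j z0 = ev R (σ.h j) (φ z0) := fun j =>
    ev_of_valAt R (hX.surf.irred (hfX z0).1) (hH z0 hz0 j) (hsg.1 j)
  have h2 : ∀ j l, deriv (Φ j l) z0 = deriv (fun w => ev R (σ.f j l) (φ w)) z0 := by
    intro j l
    apply EventuallyEq.deriv_eq
    filter_upwards [hV.mem_nhds hz0,
      ((isOpen_good R (σ.f j l)).preimage hcont).mem_nhds (hsg.2 j l)] with w hw hw'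
    exact ev_of_valAt R (hX.surf.irred (hfX w).1) (hΦ w hw j l) hw'
  have h3 : ∑ j, H j z0 * ∏ l, deriv (Φ j l) z0 = sval R σ φ z0 := by
    unfold sval
    simp only [h1, h2]
  rw [h3]
  by_cases hnc : ∃ z, φ z ≠ φ 0
  · exact (hX.tangent R hd hreg hol (fun z => (hmem z).1) (fun z => (hmem z).2) hB hnc).2 z0 hsg
  · push Not at hnc
    unfold sval
    refine Finset.sum_eq_zero fun j _ => ?_
    have h4 : deriv (fun w => ev R (σ.f j ⟨0, hd⟩) (φ w)) z0 = 0 := by
      simp only [hnc]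
      exact deriv_const _ _
    rw [Finset.prod_eq_zero (Finset.mem_univ ⟨0, hd⟩) h4, mul_zero]

/-- products of exact differentials -/
theorem OpenSurface.hyp_of_prod [Finite α] (hX : OpenSurface F G y) {d : ℕ} (hd : 0 < d) {h : K}
    (hh : h ≠ 0) {a : Fin d → K} (ha : ∀ l, Transcendental ℂ (a l))
    (hreg : (⟨d, 1, fun _ => h, fun _ => a⟩ : SymD K).Regular 2) : HypEmbedded F G := by
  refine hX.hyp fun L _ _ _ _ D hD => ⟨_, hd, hreg, ?_⟩
  unfold SymD.app
  rw [Fin.sum_univ_one]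
  refine mul_ne_zero ?_ (Finset.prod_ne_zero_iff.2 fun l _ h0 => ?_)
  · exact (map_ne_zero_iff _ (algebraMap K L).injective).2 hh
  · obtain ⟨c, hc⟩ := hD _ h0
    apply ha l
    have hc' : a l = algebraMap ℂ K c := hc
    rw [hc']
    exact isAlgebraic_algebraMap _

end Pool.Agent.N155
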