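import Pool.Agent.N155.L.Cntr
import Pool.Agent.N155.Contra

/-! The curves in a rigid class are doubly periodic. -/

set_option autoImplicit false

open Filter Topology Metric Set MvPolynomial

namespace Pool.Agent.N155

open Pool.Agent.Y190.OP Pool.Agent.W602.GT Pool.Agent.TH143.GT

variable {N : ℕ} {T : Set (Mat N)} {c0 : ℝ} {𝒞 : (ℂ → Mat N) → Prop} {r : ℝ}

/-- **Periods.** -/
theorem Cls.period (h : Cls T c0 𝒞) (hA : RigA 𝒞) (hB : RigB 𝒞) {φ : ℂ → Mat N} (hφ : 𝒞 φ) {ζ : ℂ} :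
    ∃ (p : ℂ) (k : ℝ), 1 ≤ k ∧ ‖p - k * ζ‖ ≤ 1 / 4 ∧ ∀ z, φ (z + p) = φ z := by
  obtain ⟨r0, c1, hr0, hc1, hinj0⟩ := h.inj
  set r : ℝ := min r0 (1 / 8) with hr
  have hrpos : 0 < r := by positivity
  have hinj : ∀ φ, 𝒞 φ → ∀ z t : ℂ, ‖t‖ ≤ 2 * r → c1 * ‖t‖ ≤ ‖φ (z + t) - φ z‖ := by
    intro φ hφ z t ht
    exact hinj0 φ hφ z t (ht.trans (by linarith [min_le_left r0 (1 / 8)]))
  obtain ⟨ρ, δ, θ, hρ, hδ, hθ0, hθ, hCT⟩ := contraction h hA hB hrpos hc1 hinj
  set 𝓤 : Ultrafilter ℕ := hyperfilter ℕ with h𝓤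
  have hψ : ∀ m : ℕ, 𝒞 (fun w => φ (m * ζ + w)) := fun m => h.shift φ hφ _
  obtain ⟨χ, hχ, hlim⟩ := h.lim 𝓤 _ hψ
  have hQlim : CConv (𝓤 : Filter ℕ) univ (fun _ => χ) χ := by
    intro z _
    have h1 : ContinuousAt χ z := (h.hol χ hχ).continuousAt (mem_univ z)
    exact h1.tendsto.comp tendsto_snd
  have hsep := sep2 h hrpos hc1 hinj hρ hδ hθ0 hθ hCT (𝓤 := 𝓤) hψ (fun _ => hχ) hlim hQlim
  obtain ⟨m, t, ht, hm⟩ := hsep.exists
  obtain ⟨m', ⟨t', ht', hm'⟩, hmm⟩ := (hsep.and (hyp_ge ((m : ℝ) + 1))).exists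
  have hr8 : r ≤ 1 / 8 := min_le_right _ _
  refine ⟨(m' * ζ - t') - (m * ζ - t), (m' : ℝ) - m, by linarith, ?_, fun z => ?_⟩
  · have h1 : (m' * ζ - t') - (m * ζ - t) - ((m' : ℝ) - m : ℝ) * ζ = t - t' := by
      push_cast
      ring
    rw [h1]
    refine (norm_sub_le _ _).trans ?_
    linarith
  · have h1 := hm (z - (m * ζ - t) - t)
    have h2 := hm' (z - (m * ζ - t) - t')
    have e1 : (m : ℂ) * ζ + (z - (m * ζ - t) - t) = z := by ring
    have e2 : (m' : ℂ) * ζ + (z - (m * ζ - t) - t') = z + ((m' * ζ - t') - (m * ζ - t)) := by ring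
    have e3 : z - (m * ζ - t) - t + t = z - (m * ζ - t) := by ring
    have e4 : z - (m * ζ - t) - t' + t' = z - (m * ζ - t) := by ring
    simp only [e1, e2, e3, e4] at h1 h2
    rw [h1, h2]

variable {n : ℕ} {K : Type} [Field K] [Algebra ℂ K] {y : Fin (n + 1) → K}

/-- a Zariski dense curve in a surface is not doubly periodic -/
theorem not_ell (R : ∀ h : K, Frac y h) {φ : ℂ → Mat (n + 1)} (hcv : Cv y φ) {x : Fin 2 → K}
    (hx : AlgebraicIndependent ℂ x) {p q : ℂ} (hind : LinearIndependent ℝ ![p, q])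
    (hp : ∀ z, φ (z + p) = φ z) (hq : ∀ z, φ (z + q) = φ z) : False := by
  have hell : ∀ f : K, (fun z => ev R f (φ z)) ∈ Ell p q := fun f =>
    ⟨hcv.mero R f, fun z => by simp only [hp], fun z => by simp only [hq]⟩
  obtain ⟨F, hF0, hF⟩ := ell_dep hind (hell (x 0)) (hell (x 1))
  apply hF0
  have h1 : aeval x F = (0 : K) := by
    apply (hcv.emb R).toRingHom.injective
    change hcv.emb R _ = hcv.emb R _
    rw [map_zero]
    have h2 : hcv.emb R (aeval x F) = aeval (fun i => hcv.emb R (x i)) F :=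
      (MvPolynomial.comp_aeval_apply (f := x) (hcv.emb R) F)
    rw [h2]
    have h3 : ∀ G : MvPolynomial (Fin 2) ℂ, ∃ hm : Meromorphic (fun z =>
        eval ![ev R (x 0) (φ z), ev R (x 1) (φ z)] G),
        aeval (fun i => hcv.emb R (x i)) G = cl _ hm := by
      intro G
      have hmm : ∀ G : MvPolynomial (Fin 2) ℂ, Meromorphic (fun z =>
          eval ![ev R (x 0) (φ z), ev R (x 1) (φ z)] G) := by
        intro G
        have h4 := mero_eval (σ := Fin 2)
          (v := ![fun z => ev R (x 0) (φ z), fun z => ev R (x 1) (φ z)])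
          (by
            intro j
            fin_cases j
            · exact hcv.mero R (x 0)
            · exact hcv.mero R (x 1)) G
        have h5 : (fun z => eval (fun j => (![fun z => ev R (x 0) (φ z),
            fun z => ev R (x 1) (φ z)] : Fin 2 → ℂ → ℂ) j z) G) =
            fun z => eval ![ev R (x 0) (φ z), ev R (x 1) (φ z)] G := by
          funext z
          congr 1
          congr 1
          funext j
          fin_cases j <;> rfl
        rwa [h5] at h4
      refine ⟨hmm G, ?_⟩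
      induction G using MvPolynomial.induction_on with
      | C r =>
        rw [aeval_C, ← cl_const, cl_eq]
        exact Eventually.of_forall fun z => by rw [eval_C]
      | add f g hf hg =>
        rw [map_add, hf, hg, cl_add, cl_eq]
        exact Eventually.of_forall fun z => by simp only [map_add, Pi.add_apply]
      | mul_X f i hf =>
        rw [map_mul, hf, aeval_X]
        fin_cases i
        · change cl _ _ * hcv.emb R (x 0) = _
          rw [Cv.emb_apply, cl_mul, cl_eq]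
          exact Eventually.of_forall fun z => by simp
        · change cl _ _ * hcv.emb R (x 1) = _
          rw [Cv.emb_apply, cl_mul, cl_eq]
          exact Eventually.of_forall fun z => by simp
    obtain ⟨hm, h4⟩ := h3 F
    rw [h4, cl_eq_zero]
    exact hF
  exact (injective_iff_map_eq_zero _).1 hx F h1

/-- **A rigid class of Zariski dense curves is empty.** -/
theorem no_class (R : ∀ h : K, Frac y h) {𝒞 : (ℂ → Mat (n + 1)) → Prop} {T : Set (Mat (n + 1))}
    (h : Cls T c0 𝒞) (hA : RigA 𝒞) (hB : RigB 𝒞) (hcv : ∀ φ, 𝒞 φ → Cv y φ) {x : Fin 2 → K}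
    (hx : AlgebraicIndependent ℂ x) {φ : ℂ → Mat (n + 1)} (hφ : 𝒞 φ) : False := by
  obtain ⟨p, k, hk, hpk, hp⟩ := h.period hA hB hφ (ζ := 1)
  obtain ⟨q, l, hl, hql, hq⟩ := h.period hA hB hφ (ζ := Complex.I)
  exact not_ell R (hcv φ hφ) hx (indep_of_close hk hl hpk hql) hp hq

end Pool.Agent.N155
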