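import Pool.Agent.N155.L.Sym
import Pool.Agent.N155.L.Per2

/-! Rigidity of the curves on which a symmetric differential is constant. -/

set_option autoImplicit false

open Filter Topology Metric Set MvPolynomial

namespace Pool.Agent.N155

open FF Pool.Agent.Y190.OP Pool.Agent.W602.GT Pool.Agent.TH143.GT

/-- the points of the curves in the class -/
theorem Cls.isCompact_pts {N : ℕ} {T : Set (Mat N)} {c0 : ℝ} {𝒞 : (ℂ → Mat N) → Prop}
    (h : Cls T c0 𝒞) : IsCompact {M : Mat N | ∃ φ, 𝒞 φ ∧ M = φ 0} := by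
  rw [isCompact_iff_isSeqCompact]
  intro x hx
  choose φ hφ hx using hx
  obtain ⟨χ, hχ, hc⟩ := h.lim (hyperfilter ℕ) φ hφ
  refine ⟨χ 0, ⟨χ, hχ, rfl⟩, ?_⟩
  have h1 : Tendsto x (hyperfilter ℕ : Filter ℕ) (𝓝 (χ 0)) := by
    have := hc.pointwise (mem_univ (0 : ℂ))
    simp only [← hx] at this
    exact this
  have h2 : MapClusterPt (χ 0) atTop x := by
    have h3 : (hyperfilter ℕ : Filter ℕ) ≤ atTop := by
      rw [← Nat.cofinite_eq_atTop]
      exact hyperfilter_le_cofinite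
    have h4 : map x (hyperfilter ℕ : Filter ℕ) ≤ 𝓝 (χ 0) ⊓ map x atTop := le_inf h1 (map_mono h3)
    exact NeBot.mono (inferInstance : (map x (hyperfilter ℕ : Filter ℕ)).NeBot) h4
  exact TopologicalSpace.FirstCountableTopology.tendsto_subseq h2

variable {n : ℕ} {K : Type} [Field K] [Algebra ℂ K] {y : Fin (n + 1) → K}

/-- classes of Zariski dense curves on which a symmetric differential is a nonzero constant -/
structure SCls (R : ∀ h : K, Frac y h) (𝒞 : (ℂ → Mat (n + 1)) → Prop) (c0 : ℝ) (σ : SymD K)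
    (c : ℂ) (Cn : Place ℂ K → Prop) : Prop where
  cls : Cls (TX y) c0 𝒞
  cv : ∀ φ, 𝒞 φ → Cv y φ
  seq : ∀ φ, 𝒞 φ → SEq R σ c φ
  lb : ∀ φ, 𝒞 φ → LBc R Cn (φ 0)
  cne : c ≠ 0
  dpos : 0 < σ.d
  basis : ∃ (x : Fin 2 → K) (E : Fin 2 → Derivation ℂ K K), Dual x E
  forms : ∃ (N : ℕ) (ω0 ω1 : (Fin 2 → Derivation ℂ K K) → K) (D : Fin 2 → Derivation ℂ K K),
    0 < N ∧ IsPluri N ω0 ∧ IsPluri N ω1 ∧
    (∀ v : Place ℂ K, Divisorial 2 v → Cn v → RegAt v ω0) ∧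
    (∀ v : Place ℂ K, Divisorial 2 v → Cn v → RegAt v ω1) ∧ ω0 D ≠ 0 ∧
    Transcendental ℂ (ω1 D / ω0 D)

variable {R : ∀ h : K, Frac y h} {𝒞 : (ℂ → Mat (n + 1)) → Prop} {c0 : ℝ} {σ : SymD K}
    {c : ℂ} {Cn : Place ℂ K → Prop}

theorem Dat.dfo (h : SCls R 𝒞 c0 σ c Cn) {𝓤 : Ultrafilter ℕ} {φ : ℂ → Mat (n + 1)}
    {P Q : ℕ → ℂ → Mat (n + 1)} {a κ : ℕ → ℂ} (d : Dat 𝒞 𝓤 φ P Q a κ) :
    Dfo y 𝓤 φ P Q (fun m z => κ m * Complex.exp (a m * z)) where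
  cv := h.cv φ d.cφ
  hP := fun m => h.cls.hol _ (d.cP m)
  hQ := fun m => h.cls.hol _ (d.cQ m)
  mP := fun m z => h.cls.mem _ (d.cP m) z
  mQ := fun m z => h.cls.mem _ (d.cQ m) z
  lP := d.lP
  lQ := d.lQ
  wd := fun m => by fun_prop
  bd := d.bd

theorem exp_der (κ a z : ℂ) : HasDerivAt (fun z => κ * Complex.exp (a * z))
    (a * (κ * Complex.exp (a * z))) z := by
  have h1 : HasDerivAt (fun z => κ * Complex.exp (a * z)) (κ * (Complex.exp (a * z) * (a * 1))) z :=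
    (((hasDerivAt_id z).const_mul a).cexp).const_mul κ
  convert h1 using 1
  ring

theorem SCls.exists_mul (h : SCls R 𝒞 c0 σ c Cn) {𝓤 : Ultrafilter ℕ} {φ : ℂ → Mat (n + 1)}
    {P Q : ℕ → ℂ → Mat (n + 1)} {a κ : ℕ → ℂ} (d : Dat 𝒞 𝓤 φ P Q a κ) :
    ∃ g : MK, ∀ k, (Dat.dfo h d).del R k = g * MD ((Dat.dfo h d).cv.emb R k) := by
  obtain ⟨x, E, hx⟩ := h.basis
  obtain ⟨N, ω0, ω1, D, hN, hω0, hω1, hr0, hr1, hD, htr⟩ := h.forms
  obtain ⟨C, hC⟩ := d.tb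
  apply Dfo.exists_mul R (Dat.dfo h d) hx
  refine Dfo.W2_zero R (Dat.dfo h d) (C0 := C) hC h.cls.isCompact_pts (fun z => ?_) ?_
    (h.cls.bd φ d.cφ) hN hω0 hω1 hr0 hr1 hD htr hx
  · exact ⟨_, h.cls.shift φ d.cφ z, by rw [add_zero]⟩
  · rintro M0 ⟨χ, hχ, rfl⟩
    exact h.lb χ hχ

theorem SCls.rigA (h : SCls R 𝒞 c0 σ c Cn) : RigA 𝒞 := by
  intro 𝓤 φ P Q a κ a0 d ha
  obtain ⟨g, hg⟩ := h.exists_mul d
  have h1 := Dfo.ls R (Dat.dfo h d) (a := a) (b := fun _ => 1) (β := 1) (α := a0) (σ := σ) (c := c)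
    (fun m z => exp_der (κ m) (a m) z) tendsto_const_nhds (by simpa using ha) h.cne h.dpos
    (fun m => h.seq _ (d.cP m)) (fun m => h.seq _ (d.cQ m)) (h.seq _ d.cφ) hg
  rw [map_one, one_mul] at h1
  obtain ⟨h0, hm, rfl⟩ := MD_eq_mul h1
  refine ⟨h0, fun z z0 s hz hs hsw => ?_⟩
  exact Dfo.nd R (Dat.dfo h d) (γ := fun z => h0 * Complex.exp (a0 * z)) (by fun_prop) hm hg hz hs
    hsw

theorem SCls.rigB (h : SCls R 𝒞 c0 σ c Cn) : RigB 𝒞 := by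
  intro 𝓤 φ P Q a κ d hinf
  obtain ⟨g, hg⟩ := h.exists_mul d
  have hb : Tendsto (fun m => (a m)⁻¹) 𝓤 (𝓝 0) := by
    rw [tendsto_zero_iff_norm_tendsto_zero, Metric.tendsto_nhds]
    intro ε hε
    filter_upwards [hinf (2 / ε)] with m hm
    rw [dist_zero_right, norm_norm, norm_inv]
    have h1 : 0 < 2 / ε := by positivity
    have h2 : ‖a m‖⁻¹ ≤ (2 / ε)⁻¹ := inv_anti₀ h1 hm
    rw [inv_div] at h2
    linarith
  have hab : Tendsto (fun m => (a m)⁻¹ * a m) 𝓤 (𝓝 1) := by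
    refine tendsto_const_nhds.congr' ?_
    filter_upwards [hinf 1] with m hm
    have : a m ≠ 0 := by
      rintro h0
      rw [h0, norm_zero] at hm
      linarith
    rw [inv_mul_cancel₀ this]
  have h1 := Dfo.ls R (Dat.dfo h d) (a := a) (b := fun m => (a m)⁻¹) (β := 0) (α := 1) (σ := σ)
    (c := c) (fun m z => exp_der (κ m) (a m) z) hb hab h.cne h.dpos
    (fun m => h.seq _ (d.cP m)) (fun m => h.seq _ (d.cQ m)) (h.seq _ d.cφ) hg
  rw [map_zero, zero_mul, map_one, one_mul] at h1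
  have hm : Meromorphic (fun _ : ℂ => (0 : ℂ)) := Meromorphic.const 0
  have h2 : g = cl (fun _ => 0) hm := by
    rw [← h1, cl_const, map_zero]
  rw [h2] at hg
  have h3 := Dfo.nd R (Dat.dfo h d) (γ := fun _ => 0) (by fun_prop) hm hg
    (z := fun _ => 0) (z0 := 0) (s := fun _ => 0) tendsto_const_nhds tendsto_const_nhds
    (by simp)
  refine h3.congr fun m => ?_
  simp

/-- **There are no curves on which the symmetric differential is a nonzero constant.** -/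
theorem SCls.empty (h : SCls R 𝒞 c0 σ c Cn) {φ : ℂ → Mat (n + 1)} (hφ : 𝒞 φ) : False := by
  obtain ⟨x, E, hx⟩ := h.basis
  exact no_class R h.cls h.rigA h.rigB h.cv hx.1.1 hφ

end Pool.Agent.N155
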