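import Pool.Agent.N155.L.Sig
import Pool.Agent.N155.L.RigAB
import Pool.Agent.N155.Thm

/-! Entire curves of bounded derivative are tangent to the regular symmetric differentials. -/

set_option autoImplicit false

open Filter Topology Metric Set MvPolynomial

namespace Pool.Agent.N155

open FF Pool.Agent.Y190.OP Pool.Agent.W602.GT Pool.Agent.TH143.GT

variable {n : ℕ} {K : Type} [Field K] [Algebra ℂ K] {y : Fin (n + 1) → K}
  (R : ∀ h : K, Frac y h)

/-- the differential equation is closed -/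
theorem SEq.lim {l : Filter ℕ} [l.NeBot] {P : ℕ → ℂ → Mat (n + 1)} {φ : ℂ → Mat (n + 1)}
    (hc : CConv l univ P φ) (hP : ∀ m, HolP univ (P m)) (hφ : HolP univ φ) {σ : SymD K} {c : ℂ}
    (h : ∀ m, SEq R σ c (P m)) : SEq R σ c φ := by
  intro z hz
  have hcont : Continuous φ := continuous_iff_continuousAt.2 fun _ => hφ.continuousAt (mem_univ _)
  have h1 : ∀ k : K, good R k (φ z) → Tendsto (fun m => ev R k (P m z)) l (𝓝 (ev R k (φ z))) :=
    fun k hk => (continuousAt_qv hk).tendsto.comp (hc.pointwise (mem_univ z))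
  have h2 : ∀ k : K, good R k (φ z) → Tendsto (fun m => deriv (fun w => ev R k (P m w)) z) l
      (𝓝 (deriv (fun w => ev R k (φ w)) z)) := by
    intro k hk
    have hU : IsOpen {w | nz (R k).G0 (φ w)} := (isOpen_nz _).preimage hcont
    exact (CConv.an (cc_qv hc) hU hk (cc_diff hc hP (R k).h1 (R k).h0 hk)).2
  have h3 : Tendsto (fun m => sval R σ (P m) z) l (𝓝 (sval R σ φ z)) := by
    unfold sval
    refine tendsto_finsetSum _ fun j _ => (h1 _ (hz.1 j)).mul ?_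
    exact tendsto_finsetProd _ fun l _ => h2 _ (hz.2 j l)
  have h4 : ∀ᶠ m in l, sgood R σ (P m z) :=
    (hc.pointwise (mem_univ z)).eventually ((isOpen_sgood R σ).mem_nhds hz)
  have h5 : Tendsto (fun _ : ℕ => c) l (𝓝 (sval R σ φ z)) := by
    refine h3.congr' ?_
    filter_upwards [h4] with m hm
    exact h m z hm
  exact (tendsto_nhds_unique h5 tendsto_const_nhds)

/-- the class of curves in `S` -/
structure KC (S : Set (Mat (n + 1))) (σ : SymD K) (c : ℂ) (c0 : ℝ) (φ : ℂ → Mat (n + 1)) :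
    Prop where
  hol : HolP univ φ
  mem : ∀ z, φ z ∈ TX y
  av : ∀ z, φ z ∈ S
  bd : ∀ z, ‖fderiv ℝ φ z‖ ≤ 2
  low : ∀ z, c0 ≤ ‖fderiv ℝ φ z‖
  seq : SEq R σ c φ

variable {R} {S : Set (Mat (n + 1))} {σ : SymD K} {c : ℂ} {c0 : ℝ} {φ : ℂ → Mat (n + 1)}

theorem KC.shift (h : KC R S σ c c0 φ) (t : ℂ) : KC R S σ c c0 (fun w => φ (t + w)) where
  hol := holP_shift h.hol t
  mem := fun z => h.mem _
  av := fun z => h.av _
  bd := fun z => by rw [fderiv_shift]; exact h.bd _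
  low := fun z => by rw [fderiv_shift]; exact h.low _
  seq := h.seq.shift R t

theorem nc_of_fderiv {z : ℂ} (h : fderiv ℝ φ z ≠ 0) : ∃ z, φ z ≠ φ 0 := by
  by_contra hcon
  push Not at hcon
  apply h
  have : φ = fun _ => φ 0 := funext hcon
  rw [this]
  simp

theorem KC.nc (h : KC R S σ c c0 φ) (hc0 : 0 < c0) : ∃ z, φ z ≠ φ 0 :=
  nc_of_fderiv (z := 0) fun h0 => by
    have := h.low 0
    rw [h0, norm_zero] at this
    linarith

theorem KC.cls (hc0 : 0 < c0)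
    (hlim : ∀ (𝓤 : Ultrafilter ℕ) (P : ℕ → ℂ → Mat (n + 1)) (φ : ℂ → Mat (n + 1)),
      (∀ m, HolP univ (P m)) → (∀ m z, P m z ∈ TX y) → (∀ m z, P m z ∈ S) → HolP univ φ →
      (∀ z, φ z ∈ TX y) → (∀ z, ‖fderiv ℝ φ z‖ ≤ 2) → (∃ z, φ z ≠ φ 0) →
      CConv (𝓤 : Filter ℕ) univ P φ → ∀ z, φ z ∈ S) :
    Cls (TX y) c0 (KC R S σ c c0) where
  comp := isCompact_TX
  sub := TX_PM
  pos := hc0
  hol := fun φ h => h.hol
  mem := fun φ h => h.mem
  bd := fun φ h => h.bd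
  low := fun φ h => h.low
  shift := fun φ h => h.shift
  lim := fun 𝓤 P hP => by
    obtain ⟨φ, h1, h2, h3, h4⟩ := exists_limit isCompact_TX TX_PM (𝓤 := 𝓤) (K := 2)
      (fun m => (hP m).hol) (fun m => (hP m).mem) (fun m => (hP m).bd)
    have hbd : ∀ z, ‖fderiv ℝ φ z‖ ≤ 2 := fun z =>
      le_of_tendsto (h4 z).norm (Eventually.of_forall fun m => (hP m).bd z)
    have hlow : ∀ z, c0 ≤ ‖fderiv ℝ φ z‖ := fun z =>
      ge_of_tendsto (h4 z).norm (Eventually.of_forall fun m => (hP m).low z)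
    refine ⟨φ, ⟨h1, h2, ?_, hbd, hlow, ?_⟩, h3⟩
    · refine hlim 𝓤 P φ (fun m => (hP m).hol) (fun m => (hP m).mem) (fun m => (hP m).av) h1 h2 hbd
        (nc_of_fderiv (z := 0) fun h0 => ?_) h3
      have := hlow 0
      rw [h0, norm_zero] at this
      linarith
    · exact SEq.lim R h3 (fun m => (hP m).hol) h1 fun m => (hP m).seq

/-- **Entire curves of bounded derivative are tangent to the regular symmetric differentials.** -/
theorem tangent_gen {Cn : Place ℂ K → Prop}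
    (hforms : ∃ (N : ℕ) (ω0 ω1 : (Fin 2 → Derivation ℂ K K) → K) (D : Fin 2 → Derivation ℂ K K),
      0 < N ∧ IsPluri N ω0 ∧ IsPluri N ω1 ∧
      (∀ v : Place ℂ K, Divisorial 2 v → Cn v → RegAt v ω0) ∧
      (∀ v : Place ℂ K, Divisorial 2 v → Cn v → RegAt v ω1) ∧ ω0 D ≠ 0 ∧
      Transcendental ℂ (ω1 D / ω0 D))
    (hLB0 : ∀ M ∈ TX y, LBc R (fun _ => True) M) (hLB : ∀ M ∈ TX y, M ∈ S → LBc R Cn M)
    (hdense : ∀ φ : ℂ → Mat (n + 1), HolP univ φ → (∀ z, φ z ∈ TX y) → (∀ z, φ z ∈ S) →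
      (∀ z, ‖fderiv ℝ φ z‖ ≤ 2) → (∃ z, φ z ≠ φ 0) → Cv y φ)
    (hlim : ∀ (𝓤 : Ultrafilter ℕ) (P : ℕ → ℂ → Mat (n + 1)) (φ : ℂ → Mat (n + 1)),
      (∀ m, HolP univ (P m)) → (∀ m z, P m z ∈ TX y) → (∀ m z, P m z ∈ S) → HolP univ φ →
      (∀ z, φ z ∈ TX y) → (∀ z, ‖fderiv ℝ φ z‖ ≤ 2) → (∃ z, φ z ≠ φ 0) →
      CConv (𝓤 : Filter ℕ) univ P φ → ∀ z, φ z ∈ S)
    (hd : 0 < σ.d) (hreg : ∀ v : Place ℂ K, Divisorial 2 v → ∀ D : Derivation ℂ K K,
      DerReg v D → v.Reg (σ.val D))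
    (hol : HolP univ φ) (hmem : ∀ z, φ z ∈ TX y) (hav : ∀ z, φ z ∈ S)
    (hB : ∀ z, ‖fderiv ℝ φ z‖ ≤ 2) (hnc : ∃ z, φ z ≠ φ 0) : SEq R σ 0 φ := by
  have hcv := hdense φ hol hmem hav hB hnc
  obtain ⟨C, hC, hex⟩ := exists_const R isCompact_TX hLB0 (fun v hv _ => hreg v hv)
  obtain ⟨c, hseq, hlow⟩ := hex φ hcv hmem 2 hB
  by_cases hc : c = 0
  · rwa [hc] at hseq
  exfalso
  have hcpos : 0 < ‖c‖ := norm_pos_iff.2 hc
  set c0 : ℝ := min 1 (‖c‖ / (C + 1)) with hc0def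
  have hc0 : 0 < c0 := lt_min one_pos (by positivity)
  have hlow' : ∀ z, c0 ≤ ‖fderiv ℝ φ z‖ := by
    intro z
    rcases le_total 1 ‖fderiv ℝ φ z‖ with h1 | h1
    · exact (min_le_left _ _).trans h1
    · refine (min_le_right _ _).trans ?_
      rw [div_le_iff₀ (by positivity)]
      have h2 : ‖fderiv ℝ φ z‖ ^ σ.d ≤ ‖fderiv ℝ φ z‖ := by
        have := pow_le_pow_of_le_one (norm_nonneg _) h1 hd
        rwa [pow_one] at this
      have h3 := hlow z
      have h4 := norm_nonneg (fderiv ℝ φ z)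
      nlinarith
  obtain ⟨i, j, k, E, -, -, hdual, -⟩ := hLB0 (φ 0) (hmem 0)
  have hS : SCls R (KC R S σ c c0) c0 σ c Cn :=
    { cls := KC.cls hc0 hlim
      cv := fun φ h => hdense φ h.hol h.mem h.av h.bd (h.nc hc0)
      seq := fun φ h => h.seq
      lb := fun φ h => hLB _ (h.mem 0) (h.av 0)
      cne := hc
      dpos := hd
      basis := ⟨_, _, hdual⟩
      forms := hforms }
  exact hS.empty (φ := φ) ⟨hol, hmem, hav, hB, hlow', hseq⟩

end Pool.Agent.N155
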