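import Pool.Agent.N155.L.SDefs
import Pool.Agent.N155.L.Tgt
import Pool.Agent.N155.Fin

/-! Symmetric differentials and entire curves in smooth projective surfaces. -/

set_option autoImplicit false

open Filter Topology Metric Set MvPolynomial LinearAlgebra.Projectivization

namespace Pool.Agent.N155

open FF Pool.Agent.Y190.OP Pool.Agent.W602.GT Pool.Agent.TH143.GT

variable {n : ℕ} {ι : Type} {F : ι → MvPolynomial (Fin (n + 1)) ℂ} {K : Type} [Field K]
  [Algebra ℂ K] {y : Fin (n + 1) → K}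

theorem SymD.app_eq_val (σ : SymD K) (D : Derivation ℂ K K) : σ.app D = σ.val D := rfl

theorem sval_aff (R : ∀ h : K, Frac y h) (σ : SymD K) (φ : ℂ → Mat (n + 1)) (ρ : ℝ) (z : ℂ) :
    sval R σ (fun w => φ (aff 0 ρ w)) z = (ρ : ℂ) ^ σ.d * sval R σ φ (aff 0 ρ z) := by
  unfold sval
  rw [Finset.mul_sum]
  refine Finset.sum_congr rfl fun j _ => ?_
  have h1 : ∀ l, deriv (fun w => ev R (σ.f j l) (φ (aff 0 ρ w))) z =
      ρ * deriv (fun w => ev R (σ.f j l) (φ w)) (aff 0 ρ z) := by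
    intro l
    have h2 := deriv_comp_mul_left (ρ : ℂ) (fun w => ev R (σ.f j l) (φ w)) z
    unfold aff
    simp only [zero_add]
    rw [h2, smul_eq_mul]
  simp only [h1]
  rw [Finset.prod_mul_distrib, Finset.prod_const, Finset.card_univ, Fintype.card_fin]
  ring

theorem LB.lbc {R : ∀ h : K, Frac y h} (h : LB R) : ∀ M ∈ TX y, LBc R (fun _ => True) M := by
  intro M hM
  obtain ⟨i, j, k, E, h1, h2, h3, h4⟩ := h M hM
  exact ⟨i, j, k, E, h1, h2, h3, fun q hq => h4 q fun v hv => hq v hv trivial⟩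

/-- **Entire curves of bounded derivative are tangent to the regular symmetric differentials.** -/
theorem tangent_proj (hX : SmoothSurface F y) (hgen : AllSubGeneral F) (R : ∀ h : K, Frac y h)
    {σ : SymD K} (hd : 0 < σ.d) (hreg : σ.Regular 2) {φ : ℂ → Mat (n + 1)} (hol : HolP univ φ)
    (hmem : ∀ z, φ z ∈ TX y) {B : ℝ} (hB : ∀ z, ‖fderiv ℝ φ z‖ ≤ B) (hnc : ∃ z, φ z ≠ φ 0) :
    Cv y φ ∧ SEq R σ 0 φ := by
  have hgt1 : ∀ (K1 : Type) [Field K1] [Algebra ℂ K1] (y1 : Fin (n + 1) → K1),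
      SubVar F K1 1 y1 → GeneralType ℂ K1 1 := fun K1 _ _ y1 hy1 => hgen K1 1 y1 le_rfl hy1
  refine ⟨cv_of_general hX.form hX.sub hgt1 hol hmem hB hnc, ?_⟩
  have hLB : LB R := lb_of_graph hX.sub hX.form hX.irred hX.smooth R
  obtain ⟨-, N, hN, ω, hω, hregω, D, hD0, hDi⟩ := hgen K 2 y one_le_two hX.sub
  have hB0 : 0 ≤ B := (norm_nonneg _).trans (hB 0)
  set ρ : ℝ := 2 / (B + 1) with hρ
  have hρ0 : 0 < ρ := by positivity
  have hnc' : ∃ z, φ (aff 0 ρ z) ≠ φ (aff 0 ρ 0) := by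
    obtain ⟨z, hz⟩ := hnc
    refine ⟨z / ρ, ?_⟩
    have h1 : aff 0 ρ (z / ρ) = z := by
      unfold aff
      have : (ρ : ℂ) ≠ 0 := by exact_mod_cast hρ0.ne'
      field_simp
      simp
    have h2 : aff 0 ρ 0 = 0 := by
      unfold aff
      simp
    rwa [h1, h2]
  have key : SEq R σ 0 (fun z => φ (aff 0 ρ z)) := by
    refine tangent_gen (S := univ) (Cn := fun _ => True)
      ⟨N, ω 0, ω 1, D, hN, hω 0, hω 1, fun v hv _ => hregω v hv 0, fun v hv _ => hregω v hv 1,
        hD0, hDi.transcendental 0⟩ hLB.lbc (fun M hM _ => hLB.lbc M hM)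
      (fun φ h1 h2 _ h4 h5 => cv_of_general hX.form hX.sub hgt1 h1 h2 h4 h5)
      (fun _ _ _ _ _ _ _ _ _ _ _ _ => mem_univ _) hd (fun v hv D hD => hreg v hv D hD) ?_
      (fun z => hmem _) (fun z => mem_univ _) (fun z => ?_) hnc'
    · have := hol.aff 0 ρ
      rwa [preimage_univ] at this
    · rw [norm_fderiv_aff hρ0.le (hol.differentiableAt (mem_univ _))]
      have h1 := hB (aff 0 ρ z)
      rw [hρ, div_mul_eq_mul_div, div_le_iff₀ (by positivity)]
      linarith
  intro z hz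
  have h1 : aff 0 ρ (z / ρ) = z := by
    unfold aff
    have : (ρ : ℂ) ≠ 0 := by exact_mod_cast hρ0.ne'
    field_simp
    simp
  have h2 := key (z / ρ) (by
    change sgood R σ (φ (aff 0 ρ (z / ρ)))
    rwa [h1])
  rw [sval_aff, h1] at h2
  have h3 : (ρ : ℂ) ^ σ.d ≠ 0 := pow_ne_zero _ (by exact_mod_cast hρ0.ne')
  exact (mul_eq_zero.1 h2).resolve_left h3

/-- **Hyperbolicity.** -/
theorem hyp_of_sym (hX : SmoothSurface F y) (hgen : AllSubGeneral F)
    (h : ∀ (L : Type) [Field L] [Algebra ℂ L] [Algebra K L] [IsScalarTower ℂ K L]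
      (D : Derivation ℂ K L), (∀ k, D k = 0 → ∃ c : ℂ, k = algebraMap ℂ K c) →
      ∃ σ : SymD K, 0 < σ.d ∧ σ.Regular 2 ∧ σ.app D ≠ 0) : BrodyHyperbolic F := by
  refine brody_of_const hX.irred fun φ hol hmem => ?_
  by_contra hne
  let R : ∀ h : K, Frac y h := fr hX.sub.gen
  obtain ⟨H, hH1, hH2, hH3, hH4⟩ := brody isCompact_TX TX_PM hol hmem hne
  have hnc : ∃ z, H z ≠ H 0 := nc_of_fderiv (z := 0) fun h0 => by
    rw [h0, norm_zero] at hH4
    exact zero_ne_one hH4
  have hcv : Cv y H := cv_of_general hX.form hX.sub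
    (fun K1 _ _ y1 hy1 => hgen K1 1 y1 le_rfl hy1) hH1 hH2 hH3 hnc
  set e := hcv.emb R with he
  let _ : Algebra K MK := e.toRingHom.toAlgebra
  have hal : ∀ k : K, algebraMap K MK k = e k := fun k => rfl
  have _ : IsScalarTower ℂ K MK := IsScalarTower.of_algebraMap_eq fun c => by
    rw [hal, e.commutes]
  have hder := hcv.isDer R
  let D : Derivation ℂ K MK := Derivation.mk'
    { toFun := fun k => MD (e k)
      map_add' := fun a b => hder.add a b
      map_smul' := fun c a => by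
        have h1 : MD (e (algebraMap ℂ K c * a)) = e (algebraMap ℂ K c) * MD (e a) +
            e a * MD (e (algebraMap ℂ K c)) := hder.mul (algebraMap ℂ K c) a
        have h2 : MD (e (algebraMap ℂ K c)) = 0 := hder.const c
        rw [RingHom.id_apply, Algebra.smul_def, h1, h2, mul_zero, add_zero, e.commutes,
          Algebra.smul_def] } (fun a b => by
        have h1 : MD (e (a * b)) = e a * MD (e b) + e b * MD (e a) := hder.mul a b
        change MD (e (a * b)) = a • MD (e b) + b • MD (e a)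
        rw [h1, Algebra.smul_def, Algebra.smul_def, hal, hal])
  obtain ⟨σ, hσd, hσr, hσ⟩ := h MK D (fun k hk => by
    have h1 : MD (e k) = 0 := hk
    obtain ⟨c, hc⟩ := MD_eq_zero h1
    refine ⟨c, e.toRingHom.injective ?_⟩
    change e _ = e _
    rw [hc, e.commutes])
  apply hσ
  have h1 : σ.app D = cl (sval R σ H) (mero_sval R hcv σ) := by
    rw [cl_sval]
    rfl
  rw [h1, cl_eq_zero]
  have h2 := (tangent_proj hX hgen R hσd hσr hH1 hH2 hH3 hnc).2
  filter_upwards [hcv.sgood R σ] with z hz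
  exact h2 z hz

/-! ### maps to projective space -/

theorem bounded_phi {f : ℂ → ℙ ℂ (Fin (n + 1) → ℂ)} (hf : HolMap f) (hb : BoundedDer f) :
    ∃ B : ℝ, ∀ z, ‖fderiv ℝ (fun z => Phi (f z).rep) z‖ ≤ B := by
  obtain ⟨C, hC⟩ := hb
  set Kc : Set (Fin (n + 1) → ℂ) := closedBall 0 1 ∩ ⋃ i, {v | v i = 1} with hKc
  have hcomp : IsCompact Kc := (isCompact_closedBall 0 1).inter_right
    (isClosed_iUnion_of_finite fun i => isClosed_eq (continuous_apply i) continuous_const)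
  have hne : ∀ v ∈ Kc, v ≠ 0 := by
    rintro v ⟨-, hv⟩ rfl
    obtain ⟨i, hi⟩ := mem_iUnion.1 hv
    exact zero_ne_one hi
  have hco : ContinuousOn (fderiv ℝ (Phi : (Fin (n + 1) → ℂ) → Mat (n + 1))) Kc := fun v hv =>
    (((contDiffAt_Phi (hne v hv)).fderiv_right (m := 0) (by norm_num)).continuousAt).continuousWithinAt
  obtain ⟨L, hL⟩ := hcomp.exists_bound_of_continuousOn hco
  refine ⟨|L| * (|C| * (n + 1)), fun z => ?_⟩
  obtain ⟨V, g, hV, hzV, hg, hfg⟩ := hf z
  have hgz : g z ≠ 0 := (hfg z hzV).1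
  obtain ⟨i, hi⟩ := Finite.exists_max fun i => ‖g z i‖
  have hgi : g z i ≠ 0 := by
    intro h0
    apply hgz
    funext j
    have := hi j
    rw [h0, norm_zero] at this
    exact norm_le_zero_iff.1 this
  have hdg : DifferentiableAt ℂ g z := (hg z hzV).differentiableAt (hV.mem_nhds hzV)
  have hdj : ∀ j, HasDerivAt (fun w => g w j) (deriv (fun w => g w j) z) z := fun j =>
    (differentiableAt_pi.1 hdg j).hasDerivAt
  set v : ℂ → Fin (n + 1) → ℂ := fun w => (g w i)⁻¹ • g w with hv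
  set v' : Fin (n + 1) → ℂ := fun j => (g z i * deriv (fun w => g w j) z -
    g z j * deriv (fun w => g w i) z) / (g z i) ^ 2 with hv'
  have hvd : HasDerivAt v v' z := by
    rw [hasDerivAt_pi]
    intro j
    have h1 := ((hdj i).inv hgi).mul (hdj j)
    refine h1.congr_deriv ?_
    have h2 : (fun w => g w i)⁻¹ z = (g z i)⁻¹ := rfl
    rw [hv', h2]
    field_simp
    ring
  have hvz : v z ∈ Kc := by
    constructor
    · rw [mem_closedBall_zero_iff, pi_norm_le_iff_of_nonneg zero_le_one]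
      intro j
      change ‖(g z i)⁻¹ * g z j‖ ≤ 1
      rw [norm_mul, norm_inv, inv_mul_le_iff₀ (norm_pos_iff.2 hgi), mul_one]
      exact hi j
    · exact mem_iUnion.2 ⟨i, inv_mul_cancel₀ hgi⟩
  have hv'b : ‖v'‖ ≤ |C| * (n + 1) := by
    rw [pi_norm_le_iff_of_nonneg (by positivity)]
    intro j
    rw [hv', norm_div, norm_pow, div_le_iff₀ (by positivity)]
    refine (hC V g hV hg hfg z hzV i j).trans ?_
    have h1 : ∑ k, ‖g z k‖ ^ 2 ≤ (n + 1) * ‖g z i‖ ^ 2 := by
      refine (Finset.sum_le_card_nsmul _ _ (‖g z i‖ ^ 2) fun k _ => ?_).trans ?_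
      · exact pow_le_pow_left₀ (norm_nonneg _) (hi k) 2
      · simp
    calc C * ∑ k, ‖g z k‖ ^ 2 ≤ |C| * ∑ k, ‖g z k‖ ^ 2 :=
          mul_le_mul_of_nonneg_right (le_abs_self C) (Finset.sum_nonneg fun _ _ => by positivity)
      _ ≤ |C| * ((n + 1) * ‖g z i‖ ^ 2) := mul_le_mul_of_nonneg_left h1 (abs_nonneg C)
      _ = _ := by ring
  have hcong : (fun w => Phi (f w).rep) =ᶠ[𝓝 z] fun w => Phi (v w) := by
    have hci : ContinuousAt (fun w => g w i) z := (hdj i).continuousAt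
    filter_upwards [hV.mem_nhds hzV, hci.eventually_ne hgi] with w hw hwi
    obtain ⟨h0, he⟩ := hfg w hw
    obtain ⟨a, ha⟩ := Projectivization.exists_smul_eq_mk_rep ℂ (g w) h0
    have h1 : (f w).rep = (a : ℂ) • g w := by rw [he]; exact ha.symm
    rw [h1, Phi_smul a.ne_zero, hv]
    exact (Phi_smul (inv_ne_zero hwi) _).symm
  rw [hcong.fderiv_eq]
  have hPd : DifferentiableAt ℝ (Phi : (Fin (n + 1) → ℂ) → Mat (n + 1)) (v z) :=
    (contDiffAt_Phi (hne _ hvz)).differentiableAt (by norm_num)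
  have h3 := hvd.hasFDerivAt.restrictScalars ℝ
  have h4 := (hPd.hasFDerivAt.comp z h3).fderiv
  change ‖fderiv ℝ (Phi ∘ v) z‖ ≤ _
  rw [h4]
  refine ContinuousLinearMap.opNorm_le_bound _ (by positivity) fun x => ?_
  rw [ContinuousLinearMap.comp_apply]
  refine (ContinuousLinearMap.le_opNorm _ _).trans ?_
  have h5 : ‖(ContinuousLinearMap.toSpanSingleton ℂ v').restrictScalars ℝ x‖ ≤
      |C| * (n + 1) * ‖x‖ := by
    rw [ContinuousLinearMap.coe_restrictScalars', ContinuousLinearMap.toSpanSingleton_apply,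
      norm_smul, mul_comm]
    exact mul_le_mul_of_nonneg_right hv'b (norm_nonneg _)
  rw [mul_assoc]
  exact mul_le_mul ((hL _ hvz).trans (le_abs_self L)) h5 (norm_nonneg _) (abs_nonneg L)

/-- holomorphic maps to projective space -/
theorem holP_of_map {f : ℂ → ℙ ℂ (Fin (n + 1) → ℂ)} (hf : HolMap f) :
    HolP univ (fun z => Phi (f z).rep) := by
  intro z _
  obtain ⟨V, g, hV, hzV, hg, hfg⟩ := hf z
  refine ⟨V, g, hV, hzV, hg, fun w hw => ?_⟩
  obtain ⟨h0, he⟩ := hfg w hw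
  refine ⟨h0, ?_⟩
  obtain ⟨a, ha⟩ := Projectivization.exists_smul_eq_mk_rep ℂ (g w) h0
  have h1 : (f w).rep = (a : ℂ) • g w := by rw [he]; exact ha.symm
  change Phi (f w).rep = Phi (g w)
  rw [h1, Phi_smul a.ne_zero]

/-- presentations which are defined at a given point, if possible -/
noncomputable def frAt (hgen : coords ℂ y = ⊤) (u : Fin (n + 1) → ℂ) (k : K) : Frac y k :=
  open Classical in
  if h : ∃ r : Frac y k, eval u r.G0 ≠ 0 then h.choose else fr hgen k

theorem frAt_good (hgen : coords ℂ y = ⊤) {u : Fin (n + 1) → ℂ} (hu : u ≠ 0) {k : K} {c : ℂ}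
    (h : ValAt y k u c) : good (frAt hgen u) k (Phi u) := by
  obtain ⟨d, A, B, hA, hB, hn, he, hv, -⟩ := h
  have h1 : ∃ r : Frac y k, eval u r.G0 ≠ 0 :=
    ⟨⟨d, A, B, hA, hB, hn, he⟩, by rwa [val_eval] at hv⟩
  rw [good_Phi _ hu]
  unfold frAt
  rw [dif_pos h1]
  exact h1.choose_spec

theorem ev_of_valAt (R : ∀ h : K, Frac y h) {u : Fin (n + 1) → ℂ} (hu : u ∈ VarPts ℂ y) {k : K}
    {c : ℂ} (h : ValAt y k u c) (hg : good R k (Phi u)) : c = ev R k (Phi u) := by
  obtain ⟨d, A, B, hA, hB, hn, he, hv, hc⟩ := h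
  rw [val_eval] at hv
  rw [ev_eq R hu hA hB hn he hv hg, hc, val_eval, val_eval]

/-- **Entire curves of bounded derivative are tangent to the regular symmetric differentials.** -/
theorem tangent_of_bounded (hX : SmoothSurface F y) (hgen : AllSubGeneral F)
    {f : ℂ → ℙ ℂ (Fin (n + 1) → ℂ)} (hf : HolMap f) (hfX : ∀ z, (f z).rep ∈ Cone F)
    (hb : BoundedDer f) {σ : SymD K} (hd : 0 < σ.d) (hreg : σ.Regular 2) : σ.Tangent y f := by
  intro V H Φ hV hH hΦ z0 hz0
  set φ : ℂ → Mat (n + 1) := fun z => Phi (f z).rep with hφ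
  have hol : HolP univ φ := holP_of_map hf
  have hcont : Continuous φ := continuous_iff_continuousAt.2 fun _ => hol.continuousAt (mem_univ _)
  have hmem : ∀ z, φ z ∈ TX y := fun z => ⟨(f z).rep, hX.irred (hfX z), rfl⟩
  obtain ⟨B, hB⟩ := bounded_phi hf hb
  have hne : ∀ z, (f z).rep ≠ 0 := fun z => (f z).rep_nonzero
  set R : ∀ h : K, Frac y h := frAt hX.sub.gen (f z0).rep with hR
  have hsg : sgood R σ (φ z0) :=
    ⟨fun j => frAt_good _ (hne z0) (hH z0 hz0 j), fun j l => frAt_good _ (hne z0) (hΦ z0 hz0 j l)⟩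
  have h1 : ∀ j, H j z0 = ev R (σ.h j) (φ z0) := fun j =>
    ev_of_valAt R (hX.irred (hfX z0)) (hH z0 hz0 j) (hsg.1 j)
  have h2 : ∀ j l, deriv (Φ j l) z0 = deriv (fun w => ev R (σ.f j l) (φ w)) z0 := by
    intro j l
    apply EventuallyEq.deriv_eq
    filter_upwards [hV.mem_nhds hz0,
      ((isOpen_good R (σ.f j l)).preimage hcont).mem_nhds (hsg.2 j l)] with w hw hw'
    exact ev_of_valAt R (hX.irred (hfX w)) (hΦ w hw j l) hw'
  have h3 : ∑ j, H j z0 * ∏ l, deriv (Φ j l) z0 = sval R σ φ z0 := by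
    unfold sval
    simp only [h1, h2]
  rw [h3]
  by_cases hnc : ∃ z, φ z ≠ φ 0
  · exact (tangent_proj hX hgen R hd hreg hol hmem hB hnc).2 z0 hsg
  · push Not at hnc
    unfold sval
    refine Finset.sum_eq_zero fun j _ => ?_
    have h4 : deriv (fun w => ev R (σ.f j ⟨0, hd⟩) (φ w)) z0 = 0 := by
      simp only [hnc]
      exact deriv_const _ _
    rw [Finset.prod_eq_zero (Finset.mem_univ ⟨0, hd⟩) h4, mul_zero]

/-- products of exact differentials -/
theorem hyp_of_prod (hX : SmoothSurface F y) (hgen : AllSubGeneral F) {d : ℕ} (hd : 0 < d) {h : K}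
    (hh : h ≠ 0) {a : Fin d → K} (ha : ∀ l, Transcendental ℂ (a l))
    (hreg : (⟨d, 1, fun _ => h, fun _ => a⟩ : SymD K).Regular 2) : BrodyHyperbolic F := by
  refine hyp_of_sym hX hgen fun L _ _ _ _ D hD => ⟨_, hd, hreg, ?_⟩
  unfold SymD.app
  rw [Fin.sum_univ_one]
  refine mul_ne_zero ?_ (Finset.prod_ne_zero_iff.2 fun l _ h0 => ?_)
  · exact (map_ne_zero_iff _ (algebraMap K L).injective).2 hh
  · obtain ⟨c, hc⟩ := hD _ h0
    apply ha l
    have hc' : a l = algebraMap ℂ K c := hc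
    rw [hc']
    exact isAlgebraic_algebraMap _

end Pool.Agent.N155
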