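import Pool.Agent.N155.L.Ana
import Pool.Agent.N155.Sep

/-! Translation-invariant classes of immersed entire curves. -/

set_option autoImplicit false

open Filter Topology Metric Set MvPolynomial

namespace Pool.Agent.N155

open Pool.Agent.Y190.OP

variable {N : ℕ}

/-- a class of immersed entire curves, invariant under translations and limits -/
structure Cls (T : Set (Mat N)) (c0 : ℝ) (𝒞 : (ℂ → Mat N) → Prop) : Prop where
  comp : IsCompact T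
  sub : T ⊆ PM
  pos : 0 < c0
  hol : ∀ φ, 𝒞 φ → HolP univ φ
  mem : ∀ φ, 𝒞 φ → ∀ z, φ z ∈ T
  bd : ∀ φ, 𝒞 φ → ∀ z, ‖fderiv ℝ φ z‖ ≤ 2
  low : ∀ φ, 𝒞 φ → ∀ z, c0 ≤ ‖fderiv ℝ φ z‖
  shift : ∀ φ, 𝒞 φ → ∀ t, 𝒞 (fun w => φ (t + w))
  lim : ∀ (𝓤 : Ultrafilter ℕ) (P : ℕ → ℂ → Mat N), (∀ m, 𝒞 (P m)) →
    ∃ φ, 𝒞 φ ∧ CConv (𝓤 : Filter ℕ) univ P φ

theorem hyp_ge (L : ℝ) : ∀ᶠ m : ℕ in (hyperfilter ℕ : Filter ℕ), L ≤ m := by
  have h2 : ∀ᶠ m : ℕ in atTop, L ≤ m := by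
    filter_upwards [eventually_ge_atTop ⌈L⌉₊] with m hm
    exact (Nat.le_ceil L).trans (by exact_mod_cast hm)
  have h3 : (hyperfilter ℕ : Filter ℕ) ≤ atTop := by
    rw [← Nat.cofinite_eq_atTop]
    exact hyperfilter_le_cofinite
  exact h3 h2

theorem hyp_inv : Tendsto (fun m : ℕ => 1 / (m + 1 : ℝ)) (hyperfilter ℕ : Filter ℕ) (𝓝 0) := by
  refine tendsto_one_div_add_atTop_nhds_zero_nat.mono_left ?_
  rw [← Nat.cofinite_eq_atTop]
  exact hyperfilter_le_cofinite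

variable {T : Set (Mat N)} {c0 : ℝ} {𝒞 : (ℂ → Mat N) → Prop}

theorem Cls.lip (h : Cls T c0 𝒞) {φ : ℂ → Mat N} (hφ : 𝒞 φ) (z w : ℂ) :
    ‖φ w - φ z‖ ≤ 2 * ‖w - z‖ :=
  (convex_univ).norm_image_sub_le_of_norm_fderiv_le
    (fun x _ => (h.hol φ hφ).differentiableAt (mem_univ x)) (fun x _ => h.bd φ hφ x)
    (mem_univ z) (mem_univ w)

theorem Cls.cont (h : Cls T c0 𝒞) {φ : ℂ → Mat N} (hφ : 𝒞 φ) : Continuous φ :=
  continuous_iff_continuousAt.2 fun _ => (h.hol φ hφ).continuousAt (mem_univ _)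

/-- near a point the curves are in a given neighbourhood -/
theorem cc_mem {l : Filter ℕ} {P : ℕ → ℂ → Mat N} {φ : ℂ → Mat N} (h : CConv l univ P φ)
    {z0 : ℂ} {O : Set (Mat N)} (hO : O ∈ 𝓝 (φ z0)) :
    ∃ V : Set ℂ, IsOpen V ∧ z0 ∈ V ∧ ∀ᶠ m in l, ∀ z ∈ V, P m z ∈ O := by
  have h1 : ∀ᶠ p : ℕ × ℂ in l ×ˢ 𝓝 z0, P p.1 p.2 ∈ O := (h z0 (mem_univ z0)).eventually hO
  rw [eventually_prod_iff] at h1
  obtain ⟨pa, hpa, pb, hpb, hab⟩ := h1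
  obtain ⟨V, hVsub, hV, hzV⟩ := _root_.mem_nhds_iff.1 hpb
  refine ⟨V, hV, hzV, ?_⟩
  filter_upwards [hpa] with m hm z hz
  exact hab hm (hVsub hz)

/-- the coordinates of converging curves -/
theorem cc_diff {l : Filter ℕ} {P : ℕ → ℂ → Mat N} {φ : ℂ → Mat N} (h : CConv l univ P φ)
    (hP : ∀ m, HolP univ (P m)) {z0 : ℂ} {G1 G0 : MvPolynomial (Fin N) ℂ} {d : ℕ}
    (h1 : G1.IsHomogeneous d) (h0 : G0.IsHomogeneous d) (hn : nz G0 (φ z0)) :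
    ∃ V ∈ 𝓝 z0, ∀ᶠ m in l, DifferentiableOn ℂ (fun w => qv G1 G0 (P m w)) V := by
  obtain ⟨V, hV, hzV, hm⟩ := cc_mem h ((isOpen_nz G0).mem_nhds hn)
  refine ⟨V, hV.mem_nhds hzV, ?_⟩
  filter_upwards [hm] with m hm w hw
  exact (an_qv (hP m) (mem_univ w) h1 h0 (hm w hw)).differentiableAt.differentiableWithinAt

theorem cc_qv {l : Filter ℕ} {P : ℕ → ℂ → Mat N} {φ : ℂ → Mat N} (h : CConv l univ P φ)
    {G1 G0 : MvPolynomial (Fin N) ℂ} :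
    CConv l {z | nz G0 (φ z)} (fun m w => qv G1 G0 (P m w)) (fun w => qv G1 G0 (φ w)) :=
  CConv.comp (fun w _ => h w (mem_univ w)) fun _ hw => continuousAt_qv hw

/-- **The injectivity radius.** -/
theorem Cls.inj (h : Cls T c0 𝒞) : ∃ r c1 : ℝ, 0 < r ∧ 0 < c1 ∧ ∀ φ, 𝒞 φ → ∀ z t : ℂ,
    ‖t‖ ≤ 2 * r → c1 * ‖t‖ ≤ ‖φ (z + t) - φ z‖ := by
  by_contra hcon
  push Not at hcon
  have hseq : ∀ m : ℕ, ∃ (P : ℂ → Mat N) (t : ℂ), 𝒞 P ∧ ‖t‖ ≤ 2 * (1 / (m + 1 : ℝ)) ∧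
      ‖P t - P 0‖ < 1 / (m + 1 : ℝ) * ‖t‖ := by
    intro m
    obtain ⟨φ, hφ, z, t, ht, h1⟩ := hcon (1 / (m + 1)) (1 / (m + 1)) (by positivity) (by positivity)
    exact ⟨fun w => φ (z + w), t, h.shift φ hφ z, ht, by simpa using h1⟩
  choose P t hP ht hd using hseq
  set 𝓤 : Ultrafilter ℕ := hyperfilter ℕ with h𝓤
  obtain ⟨χ, hχ, hc⟩ := h.lim 𝓤 P hP
  have hχh := h.hol χ hχ
  have hne : fderiv ℝ χ 0 ≠ 0 := by
    intro h0
    have := h.low χ hχ 0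
    rw [h0, norm_zero] at this
    exact absurd h.pos (not_lt.2 this)
  obtain ⟨i, j, hni, hdj⟩ := exists_coord hχh hne
  have hcont := h.cont hχ
  have hU : IsOpen {z | nz (X i) (χ z)} := (isOpen_nz (X i)).preimage hcont
  have hq := cc_qv hc (G1 := X j) (G0 := X i)
  set A := deriv (fun w => qv (X j) (X i) (χ w)) 0 with hA
  have hApos : 0 < ‖A‖ := norm_pos_iff.2 hdj
  obtain ⟨ρ, hρ, hquot⟩ := CConv.quot hq hU (z := 0) hni
    (cc_diff hc (fun m => h.hol _ (hP m)) (isHomogeneous_X _ _) (isHomogeneous_X _ _) hni)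
    (show 0 < ‖A‖ / 2 by positivity)
  obtain ⟨C, O, hC, hO, hL⟩ := lip_qv (G1 := (X j : MvPolynomial (Fin N) ℂ)) hni
  obtain ⟨V, hV, h0V, hm⟩ := cc_mem hc hO
  obtain ⟨ρ', hρ', hsub⟩ := Metric.mem_nhds_iff.1 (hV.mem_nhds h0V)
  have hzero : Tendsto (fun m : ℕ => 1 / (m + 1 : ℝ)) 𝓤 (𝓝 0) := hyp_inv
  have e1 := hzero.eventually_lt_const (show 0 < ρ / 2 by positivity)
  have e2 := hzero.eventually_lt_const (show 0 < ρ' / 2 by positivity)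
  have e3 : ∀ᶠ m : ℕ in (𝓤 : Filter ℕ), C * (1 / (m + 1 : ℝ)) < ‖A‖ / 2 := by
    have := hzero.const_mul C
    rw [mul_zero] at this
    exact this.eventually_lt_const (by positivity)
  obtain ⟨m, m1, m2, m3, m4, m5⟩ := (hquot.and (hm.and (e1.and (e2.and e3)))).exists
  have htρ : t m ∈ ball (0 : ℂ) ρ := by
    rw [mem_ball_zero_iff]
    linarith [ht m]
  have htρ' : t m ∈ ball (0 : ℂ) ρ' := by
    rw [mem_ball_zero_iff]
    linarith [ht m]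
  have htpos : 0 < ‖t m‖ := by
    by_contra h0
    have h1 : ‖t m‖ = 0 := le_antisymm (not_lt.1 h0) (norm_nonneg _)
    have h2 := hd m
    rw [h1, mul_zero] at h2
    exact absurd h2 (not_lt.2 (norm_nonneg _))
  have k1 := m1 (t m) htρ 0 (mem_ball_self hρ)
  rw [sub_zero] at k1
  have k2 := hL (P m (t m)) (m2 _ (hsub htρ')) (P m 0) (m2 _ h0V)
  have k3 : ‖t m * A‖ ≤ ‖qv (X j) (X i) (P m (t m)) - qv (X j) (X i) (P m 0)‖ +
      ‖qv (X j) (X i) (P m (t m)) - qv (X j) (X i) (P m 0) - t m * A‖ := by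
    have := norm_sub_le (qv (X j) (X i) (P m (t m)) - qv (X j) (X i) (P m 0))
      (qv (X j) (X i) (P m (t m)) - qv (X j) (X i) (P m 0) - t m * A)
    rwa [sub_sub_cancel] at this
  rw [norm_mul] at k3
  have k4 : C * ‖P m (t m) - P m 0‖ ≤ C * (1 / (m + 1 : ℝ)) * ‖t m‖ := by
    rw [mul_assoc]
    exact mul_le_mul_of_nonneg_left (hd m).le hC
  have k5 : C * (1 / (m + 1 : ℝ)) * ‖t m‖ < ‖A‖ / 2 * ‖t m‖ := mul_lt_mul_of_pos_right m5 htpos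
  nlinarith

/-! ### the distance up to translations -/

/-- the curve `Q`, translated by `t`, is close to `P` on the unit disc around `z` -/
def Trk (P Q : ℂ → Mat N) (z t : ℂ) (ε : ℝ) : Prop :=
  ∀ w ∈ closedBall z 1, ‖P w - Q (w + t)‖ ≤ ε

/-- the distance of the curves up to small translations on the unit disc around `z` -/
noncomputable def EE (r : ℝ) (P Q : ℂ → Mat N) (z : ℂ) : ℝ :=
  sInf {ε | 0 ≤ ε ∧ ∃ t : ℂ, ‖t‖ ≤ r ∧ Trk P Q z t ε}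

variable {P Q : ℂ → Mat N} {r : ℝ}

theorem Trk.nonneg {z t : ℂ} {ε : ℝ} (h : Trk P Q z t ε) : 0 ≤ ε :=
  (norm_nonneg _).trans (h z (mem_closedBall_self zero_le_one))

theorem EE_le {z t : ℂ} {ε : ℝ} (ht : ‖t‖ ≤ r) (h : Trk P Q z t ε) : EE r P Q z ≤ ε :=
  csInf_le ⟨0, fun _ hx => hx.1⟩ ⟨h.nonneg, t, ht, h⟩

theorem Cls.trk0 (h : Cls T c0 𝒞) (hP : 𝒞 P) (hQ : 𝒞 Q) (z : ℂ) :
    Trk P Q z 0 (‖P z - Q z‖ + 4) := by
  intro w hw
  rw [mem_closedBall, dist_eq_norm] at hw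
  have h1 := h.lip hP z w
  have h2 := h.lip hQ z w
  rw [add_zero]
  have h3 : P w - Q w = (P w - P z) + (P z - Q z) - (Q w - Q z) := by abel
  rw [h3]
  refine (norm_sub_le _ _).trans ?_
  have := norm_add_le (P w - P z) (P z - Q z)
  linarith

theorem Cls.EE_nonneg (h : Cls T c0 𝒞) (hP : 𝒞 P) (hQ : 𝒞 Q) (hr : 0 ≤ r) (z : ℂ) :
    0 ≤ EE r P Q z := by
  apply le_csInf
  · exact ⟨_, (h.trk0 hP hQ z).nonneg, 0, by rwa [norm_zero], h.trk0 hP hQ z⟩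
  · intro ε hε
    exact hε.1

/-- the infimum is attained -/
theorem Cls.EE_spec (h : Cls T c0 𝒞) (hP : 𝒞 P) (hQ : 𝒞 Q) (hr : 0 ≤ r) (z : ℂ) :
    ∃ t : ℂ, ‖t‖ ≤ r ∧ Trk P Q z t (EE r P Q z) := by
  have hne : {ε | 0 ≤ ε ∧ ∃ t : ℂ, ‖t‖ ≤ r ∧ Trk P Q z t ε}.Nonempty :=
    ⟨_, (h.trk0 hP hQ z).nonneg, 0, by rwa [norm_zero], h.trk0 hP hQ z⟩
  have hseq : ∀ m : ℕ, ∃ t : ℂ, ‖t‖ ≤ r ∧ Trk P Q z t (EE r P Q z + 1 / (m + 1 : ℝ)) := by
    intro m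
    obtain ⟨ε, ⟨-, t, ht, hε⟩, hlt⟩ := Real.lt_sInf_add_pos hne
      (show 0 < 1 / (m + 1 : ℝ) by positivity)
    exact ⟨t, ht, fun w hw => (hε w hw).trans hlt.le⟩
  choose t ht hT using hseq
  set 𝓤 : Ultrafilter ℕ := hyperfilter ℕ with h𝓤
  obtain ⟨t0, ht0⟩ := exists_lim (𝓤 := 𝓤) (h := t) (C := r) (Eventually.of_forall ht)
  refine ⟨t0, le_of_tendsto ht0.norm (Eventually.of_forall ht), fun w hw => ?_⟩
  have h1 : Tendsto (fun m => ‖P w - Q (w + t m)‖) 𝓤 (𝓝 ‖P w - Q (w + t0)‖) := by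
    have h2 : Continuous fun s : ℂ => ‖P w - Q (w + s)‖ :=
      (continuous_const.sub ((h.cont hQ).comp (continuous_const.add continuous_id))).norm
    exact (h2.tendsto t0).comp ht0
  have h2 : Tendsto (fun m : ℕ => EE r P Q z + 1 / (m + 1 : ℝ)) 𝓤 (𝓝 (EE r P Q z + 0)) :=
    hyp_inv.const_add _
  rw [add_zero] at h2
  exact le_of_tendsto_of_tendsto h1 h2 (Eventually.of_forall fun m => hT m w hw)

theorem Cls.EE_lip (h : Cls T c0 𝒞) (hP : 𝒞 P) (hQ : 𝒞 Q) (hr : 0 ≤ r) (z z' : ℂ) :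
    EE r P Q z' ≤ EE r P Q z + 4 * ‖z - z'‖ := by
  obtain ⟨t, ht, hT⟩ := h.EE_spec hP hQ hr z
  refine EE_le ht fun w hw => ?_
  have h1 := hT (w + (z - z')) (by
    rw [mem_closedBall, dist_eq_norm] at hw ⊢
    have : w + (z - z') - z = w - z' := by ring
    rwa [this])
  have h2 := h.lip hP w (w + (z - z'))
  have h3 := h.lip hQ (w + t) (w + (z - z') + t)
  have e1 : w + (z - z') - w = z - z' := by ring
  have e2 : w + (z - z') + t - (w + t) = z - z' := by ring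
  rw [e1] at h2
  rw [e2] at h3
  have h4 : P w - Q (w + t) = (P (w + (z - z')) - Q (w + (z - z') + t)) -
      (P (w + (z - z')) - P w) + (Q (w + (z - z') + t) - Q (w + t)) := by abel
  rw [h4]
  refine (norm_add_le _ _).trans ?_
  have := norm_sub_le (P (w + (z - z')) - Q (w + (z - z') + t)) (P (w + (z - z')) - P w)
  linarith

theorem Cls.EE_cont (h : Cls T c0 𝒞) (hP : 𝒞 P) (hQ : 𝒞 Q) (hr : 0 ≤ r) :
    Continuous (EE r P Q) := by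
  have h1 : LipschitzWith 4 (EE r P Q) := by
    apply LipschitzWith.of_dist_le_mul
    intro z w
    rw [Real.dist_eq, dist_eq_norm, abs_le]
    have h2 := h.EE_lip hP hQ hr z w
    have h3 := h.EE_lip hP hQ hr w z
    rw [norm_sub_rev] at h3
    have h4 : ((4 : NNReal) : ℝ) = 4 := rfl
    rw [h4]
    constructor <;> linarith
  exact h1.continuous

/-- the translates of the curves in the class -/
theorem Trk.shift {z t : ℂ} {ε : ℝ} (h : Trk P Q z t ε) (a : ℂ) :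
    Trk (fun w => P (a + w)) (fun w => Q (a + w)) (z - a) t ε := by
  intro w hw
  have := h (a + w) (by
    rw [mem_closedBall, dist_eq_norm] at hw ⊢
    have e : a + w - z = w - (z - a) := by ring
    rwa [e])
  rwa [add_assoc] at this

/-- **The drift.** -/
theorem drift {c1 : ℝ} (hinj : ∀ z t : ℂ, ‖t‖ ≤ 2 * r → c1 * ‖t‖ ≤ ‖Q (z + t) - Q z‖)
    {z z' t t' : ℂ} {ε ε' : ℝ} (hzz : ‖z - z'‖ ≤ 1) (ht : ‖t‖ ≤ r) (ht' : ‖t'‖ ≤ r)
    (h : Trk P Q z t ε) (h' : Trk P Q z' t' ε') : c1 * ‖t - t'‖ ≤ ε + ε' := by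
  have h1 := h z' (by rw [mem_closedBall, dist_comm, dist_eq_norm]; exact hzz)
  have h2 := h' z' (mem_closedBall_self zero_le_one)
  have h3 := hinj (z' + t') (t - t') ((norm_sub_le _ _).trans (by linarith))
  have h4 : z' + t' + (t - t') = z' + t := by ring
  rw [h4] at h3
  refine h3.trans ?_
  have h5 : Q (z' + t) - Q (z' + t') = (P z' - Q (z' + t')) - (P z' - Q (z' + t)) := by abel
  rw [h5]
  refine (norm_sub_le _ _).trans ?_
  linarith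

end Pool.Agent.N155
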