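import Pool.Agent.N155.L.Tan
import Pool.Agent.N155.L.Cls

/-! Tangential deformations are translations to the first order. -/

set_option autoImplicit false

open Filter Topology Metric Set MvPolynomial

namespace Pool.Agent.N155

open FF Pool.Agent.Y190.OP Pool.Agent.W602.GT Pool.Agent.TH143.GT

variable {n : ℕ} {K : Type} [Field K] [Algebra ℂ K] {y : Fin (n + 1) → K}
  (R : ∀ h : K, Frac y h)
variable {𝓤 : Ultrafilter ℕ} {φ : ℂ → Mat (n + 1)} {P Q : ℕ → ℂ → Mat (n + 1)} {wt : ℕ → ℂ → ℂ}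

/-- difference quotients along a converging sequence of points -/
theorem quot_seq {l : Filter ℕ} [l.NeBot] {U : Set ℂ} {F : ℕ → ℂ → ℂ} {F0 : ℂ → ℂ}
    (hc : CConv l U F F0) {z0 : ℂ} (hU : IsOpen U) (hz0 : z0 ∈ U)
    (hd : ∃ V ∈ 𝓝 z0, ∀ᶠ n in l, DifferentiableOn ℂ (F n) V) {z s w : ℕ → ℂ} {g : ℂ}
    (hz : Tendsto z l (𝓝 z0)) (hs : Tendsto s l (𝓝 0)) (hw : Tendsto (fun m => s m * w m) l (𝓝 g)) :
    Tendsto (fun m => (F m (z m + s m) - F m (z m)) * w m) l (𝓝 (g * deriv F0 z0)) := by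
  have hzs : Tendsto (fun m => z m + s m) l (𝓝 z0) := by
    have := hz.add hs
    rwa [add_zero] at this
  have hbd : ∀ᶠ m in l, ‖s m * w m‖ ≤ ‖g‖ + 1 := by
    have := hw.norm.eventually_lt_const (show ‖g‖ < ‖g‖ + 1 by linarith)
    exact this.mono fun m hm => hm.le
  have h1 : Tendsto (fun m => (F m (z m + s m) - F m (z m)) * w m -
      s m * w m * deriv F0 z0) l (𝓝 0) := by
    rw [Metric.tendsto_nhds]
    intro ε hε
    obtain ⟨ρ, hρ, hquot⟩ := CConv.quot hc hU hz0 hd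
      (show 0 < ε / (‖g‖ + 2) by positivity)
    filter_upwards [hquot, hbd, hz.eventually (ball_mem_nhds z0 hρ),
      hzs.eventually (ball_mem_nhds z0 hρ)] with m k1 k2 k3 k4
    have k5 := k1 _ k4 _ k3
    rw [add_sub_cancel_left] at k5
    rw [dist_zero_right]
    have k6 : (F m (z m + s m) - F m (z m)) * w m - s m * w m * deriv F0 z0 =
        (F m (z m + s m) - F m (z m) - s m * deriv F0 z0) * w m := by ring
    rw [k6, norm_mul]
    rw [norm_mul] at k2
    calc _ ≤ ε / (‖g‖ + 2) * ‖s m‖ * ‖w m‖ := mul_le_mul_of_nonneg_right k5 (norm_nonneg _)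
      _ = ε / (‖g‖ + 2) * (‖s m‖ * ‖w m‖) := by ring
      _ ≤ ε / (‖g‖ + 2) * (‖g‖ + 1) := mul_le_mul_of_nonneg_left k2 (by positivity)
      _ < ε := by
          rw [div_mul_eq_mul_div, div_lt_iff₀ (by positivity)]
          nlinarith [norm_nonneg g]
  have h2 := h1.add (hw.mul_const (deriv F0 z0))
  rw [zero_add] at h2
  refine h2.congr fun m => ?_
  ring

theorem Dfo.nd (h : Dfo y 𝓤 φ P Q wt) {γ : ℂ → ℂ} (hγ : Differentiable ℂ γ) (hγm : Meromorphic γ)
    (hδ : ∀ k, h.del R k = cl γ hγm * MD (h.cv.emb R k)) {z : ℕ → ℂ} {z0 : ℂ} {s : ℕ → ℂ}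
    (hz : Tendsto z 𝓤 (𝓝 z0)) (hs : Tendsto s 𝓤 (𝓝 0))
    (hsw : Tendsto (fun m => s m * wt m (z m)) 𝓤 (𝓝 (-γ z0))) :
    Tendsto (fun m => ‖Q m (z m + s m) - P m (z m)‖ * ‖wt m (z m)‖) 𝓤 (𝓝 0) := by
  have hPM : φ z0 ∈ PM := TX_PM (h.cv.mem z0)
  obtain ⟨i, hi⟩ := PM.exists_diag hPM
  have hnz0 : nz (X i) (φ z0) := nz_of_diag hPM hi
  have hyi : y i ≠ 0 := by
    intro h0
    obtain ⟨u, hu, hφu⟩ := h.cv.mem z0
    have h1 := hu.2 (X i) ⟨1, isHomogeneous_X _ _⟩ (by rw [val_X', h0])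
    rw [val_eval, eval_X] at h1
    rw [hφu, nz_Phi (isHomogeneous_X _ _) hu.1, eval_X] at hnz0
    exact hnz0 h1
  obtain ⟨C, O, hC, hO, hL⟩ := chart_lip hPM hnz0
  set U : Set ℂ := {z | nz (X i) (φ z)} with hU
  have hUo : IsOpen U := (isOpen_nz (X i)).preimage h.cont
  have hzs : Tendsto (fun m => z m + s m) 𝓤 (𝓝 z0) := by
    have := hz.add hs
    rwa [add_zero] at this
  -- the coordinates
  have hdiff : ∀ j, ∀ z ∈ U, ∃ V ∈ 𝓝 z, ∀ᶠ m in (𝓤 : Filter ℕ),
      DifferentiableOn ℂ (dqf (qv (X j) (X i)) P Q wt m) V := by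
    intro j z hz
    obtain ⟨V, hV, hzV, -, hm⟩ := h.ev_mem ((isOpen_nz (X i)).mem_nhds hz)
    refine ⟨V, hV.mem_nhds hzV, ?_⟩
    filter_upwards [hm] with m h1 w hw
    apply DifferentiableAt.differentiableWithinAt
    unfold dqf
    apply DifferentiableAt.mul _ ((h.wd m) w)
    apply DifferentiableAt.sub
    · exact (an_qv (h.hQ m) (mem_univ w) (isHomogeneous_X _ _) (isHomogeneous_X _ _)
        (h1 w hw).2).differentiableAt
    · exact (an_qv (h.hP m) (mem_univ w) (isHomogeneous_X _ _) (isHomogeneous_X _ _)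
        (h1 w hw).1).differentiableAt
  have hfirst : ∀ j, Tendsto (fun m => dqf (qv (X j) (X i)) P Q wt m (z m)) 𝓤
      (𝓝 (γ z0 * deriv (fun w => qv (X j) (X i) (φ w)) z0)) := by
    intro j
    have hc := h.dqf_conv (F := qv (X j) (X i)) (U := U) (fun z hz => contDiffAt_qv hz) (hdiff j)
    have ha := (CConv.an hc hUo hnz0 (hdiff j z0 hnz0)).1
    have hz0 : ∀ᶠ w in 𝓝[≠] z0, ulim 𝓤 (fun m => dqf (qv (X j) (X i)) P Q wt m w) =
        γ w * deriv (fun w => qv (X j) (X i) (φ w)) w := by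
      have h1 : ∀ᶠ w in codiscrete ℂ, Dl R 𝓤 P Q wt (y j / y i) w =
          γ w * deriv (fun w => ev R (y j / y i) (φ w)) w := by
        have := hδ (y j / y i)
        unfold Dfo.del at this
        rw [Cv.emb_apply, MD_cl, cl_mul, cl_eq] at this
        exact this
      have h2 : ∀ᶠ w in 𝓝[≠] z0, w ∈ U := mem_nhdsWithin_of_mem_nhds (hUo.mem_nhds hnz0)
      filter_upwards [codis_ev h1 z0, codis_ev (h.cv.good R (y j / y i)) z0, h2] with w h3 h4 h5
      have h6 := h.tendsto R h4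
      rw [h3] at h6
      have hder : deriv (fun w => ev R (y j / y i) (φ w)) w =
          deriv (fun w => qv (X j) (X i) (φ w)) w := by
        apply EventuallyEq.deriv_eq
        filter_upwards [hUo.mem_nhds h5, (h.isOpen_good R (y j / y i)).mem_nhds h4] with v hv hv'
        exact ev_ratio R j hyi (h.cv.mem v) hv' hv
      rw [hder] at h6
      apply ulim_eq
      refine h6.congr' ?_
      obtain ⟨V, -, hzV, -, hm⟩ := h.ev_mem ((isOpen_nz (X i)).mem_nhds h5)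
      obtain ⟨V', -, hzV', hm'⟩ := h.ev_good R h4
      filter_upwards [hm, hm'] with m k1 k2
      obtain ⟨p1, p2⟩ := k1 w hzV
      obtain ⟨q1, q2⟩ := k2 w hzV'
      unfold dqf
      rw [ev_ratio R j hyi (h.mQ m w) q2 p2, ev_ratio R j hyi (h.mP m w) q1 p1]
    have hFan : AnalyticAt ℂ (fun w => qv (X j) (X i) (φ w)) z0 :=
      an_qv h.cv.hol (mem_univ z0) (isHomogeneous_X _ _) (isHomogeneous_X _ _) hnz0
    have h7 : ulim 𝓤 (fun m => dqf (qv (X j) (X i)) P Q wt m z0) =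
        γ z0 * deriv (fun w => qv (X j) (X i) (φ w)) z0 := by
      have h8 := ha.continuousAt.tendsto.mono_left (nhdsWithin_le_nhds (s := {z0}ᶜ))
      have h9 : Tendsto (fun w => γ w * deriv (fun w => qv (X j) (X i) (φ w)) w) (𝓝[≠] z0)
          (𝓝 (γ z0 * deriv (fun w => qv (X j) (X i) (φ w)) z0)) :=
        ((hγ.continuous.continuousAt.mul hFan.deriv.continuousAt).tendsto).mono_left
          nhdsWithin_le_nhds
      exact tendsto_nhds_unique h8 (h9.congr' (by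
        filter_upwards [hz0] with w hw
        exact hw.symm))
    have h10 := CConv.seq hc hnz0 hz
    rw [h7] at h10
    exact h10
  have hsecond : ∀ j, Tendsto (fun m => (qv (X j) (X i) (Q m (z m + s m)) -
      qv (X j) (X i) (Q m (z m))) * wt m (z m)) 𝓤
      (𝓝 (-γ z0 * deriv (fun w => qv (X j) (X i) (φ w)) z0)) := by
    intro j
    exact quot_seq (cc_qv h.lQ) hUo hnz0 (cc_diff h.lQ h.hQ (isHomogeneous_X _ _)
      (isHomogeneous_X _ _) hnz0) hz hs hsw
  have hcoord : ∀ j, Tendsto (fun m => ‖qv (X j) (X i) (Q m (z m + s m)) -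
      qv (X j) (X i) (P m (z m))‖ * ‖wt m (z m)‖) 𝓤 (𝓝 0) := by
    intro j
    have h1 := ((hfirst j).add (hsecond j)).norm
    have e1 : γ z0 * deriv (fun w => qv (X j) (X i) (φ w)) z0 +
        -γ z0 * deriv (fun w => qv (X j) (X i) (φ w)) z0 = 0 := by ring
    rw [e1, norm_zero] at h1
    refine h1.congr fun m => ?_
    rw [← norm_mul]
    congr 1
    unfold dqf
    ring
  have hsum : Tendsto (fun m => C * ∑ j, (‖qv (X j) (X i) (Q m (z m + s m)) -
      qv (X j) (X i) (P m (z m))‖ * ‖wt m (z m)‖)) 𝓤 (𝓝 0) := by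
    have h1 : Tendsto (fun m => ∑ j, (‖qv (X j) (X i) (Q m (z m + s m)) -
        qv (X j) (X i) (P m (z m))‖ * ‖wt m (z m)‖)) 𝓤 (𝓝 (∑ j : Fin (n + 1), (0 : ℝ))) :=
      tendsto_finsetSum _ fun j _ => hcoord j
    have h2 := h1.const_mul C
    simpa using h2
  refine squeeze_zero' (Eventually.of_forall fun m => by positivity) ?_ hsum
  have hPz : Tendsto (fun m => P m (z m)) 𝓤 (𝓝 (φ z0)) := CConv.seq h.lP (mem_univ z0) hz
  have hQz : Tendsto (fun m => Q m (z m + s m)) 𝓤 (𝓝 (φ z0)) := CConv.seq h.lQ (mem_univ z0) hzs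
  filter_upwards [hPz.eventually hO, hQz.eventually hO] with m h1 h2
  obtain ⟨-, -, h3⟩ := hL _ ⟨h2, TX_PM (h.mQ m _)⟩ _ ⟨h1, TX_PM (h.mP m _)⟩
  rw [← Finset.sum_mul, ← mul_assoc]
  exact mul_le_mul_of_nonneg_right h3 (norm_nonneg _)

end Pool.Agent.N155
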