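import Pool.Agent.N155.L.Sep2

/-! The contraction property follows from the rigidity of the curves in the class. -/

set_option autoImplicit false

open Filter Topology Metric Set MvPolynomial

namespace Pool.Agent.N155

open Pool.Agent.Y190.OP

variable {N : ℕ} {T : Set (Mat N)} {c0 : ℝ} {𝒞 : (ℂ → Mat N) → Prop} {r : ℝ}

/-- a normalised deformation of a curve in the class -/
structure Dat (𝒞 : (ℂ → Mat N) → Prop) (𝓤 : Ultrafilter ℕ) (φ : ℂ → Mat N) (P Q : ℕ → ℂ → Mat N)
    (a κ : ℕ → ℂ) : Prop where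
  cφ : 𝒞 φ
  cP : ∀ m, 𝒞 (P m)
  cQ : ∀ m, 𝒞 (Q m)
  lP : CConv (𝓤 : Filter ℕ) univ P φ
  lQ : CConv (𝓤 : Filter ℕ) univ Q φ
  bd : ∀ L : ℝ, ∃ C : ℝ, ∀ᶠ m in (𝓤 : Filter ℕ), ∀ z ∈ closedBall (0 : ℂ) L,
    ‖Q m z - P m z‖ * ‖κ m * Complex.exp (a m * z)‖ ≤ C
  tb : ∃ C : ℝ, ∀ z : ℂ, ∃ (s : ℕ → ℂ) (B : ℝ), Tendsto s 𝓤 (𝓝 0) ∧
    (∀ᶠ m in (𝓤 : Filter ℕ), ‖s m‖ * ‖κ m * Complex.exp (a m * z)‖ ≤ B) ∧
    ∀ᶠ m in (𝓤 : Filter ℕ), ‖Q m (z + s m) - P m z‖ * ‖κ m * Complex.exp (a m * z)‖ ≤ C

/-- rigidity, for converging exponents -/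
def RigA (𝒞 : (ℂ → Mat N) → Prop) : Prop := ∀ (𝓤 : Ultrafilter ℕ) (φ : ℂ → Mat N)
  (P Q : ℕ → ℂ → Mat N) (a κ : ℕ → ℂ) (a0 : ℂ), Dat 𝒞 𝓤 φ P Q a κ → Tendsto a 𝓤 (𝓝 a0) →
  ∃ h0 : ℂ, ∀ (z : ℕ → ℂ) (z0 : ℂ) (s : ℕ → ℂ), Tendsto z 𝓤 (𝓝 z0) → Tendsto s 𝓤 (𝓝 0) →
    Tendsto (fun m => s m * (κ m * Complex.exp (a m * z m))) 𝓤
      (𝓝 (-(h0 * Complex.exp (a0 * z0)))) →
    Tendsto (fun m => ‖Q m (z m + s m) - P m (z m)‖ * ‖κ m * Complex.exp (a m * z m)‖) 𝓤 (𝓝 0)

/-- rigidity, for exponents which tend to infinity -/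
def RigB (𝒞 : (ℂ → Mat N) → Prop) : Prop := ∀ (𝓤 : Ultrafilter ℕ) (φ : ℂ → Mat N)
  (P Q : ℕ → ℂ → Mat N) (a κ : ℕ → ℂ), Dat 𝒞 𝓤 φ P Q a κ →
  (∀ C : ℝ, ∀ᶠ m in (𝓤 : Filter ℕ), C ≤ ‖a m‖) →
  Tendsto (fun m => ‖Q m 0 - P m 0‖ * ‖κ m‖) 𝓤 (𝓝 0)

theorem EE_shift (P Q : ℂ → Mat N) (a z : ℂ) :
    EE r (fun w => P (a + w)) (fun w => Q (a + w)) z = EE r P Q (a + z) := by
  have h1 : ∀ t ε, Trk (fun w => P (a + w)) (fun w => Q (a + w)) z t ε ↔ Trk P Q (a + z) t ε := by
    intro t ε
    constructor
    · intro h w hw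
      have := h (w - a) (by
        rw [mem_closedBall, dist_eq_norm] at hw ⊢
        have e : w - a - z = w - (a + z) := by ring
        rwa [e])
      have e1 : a + (w - a) = w := by ring
      have e2 : a + (w - a + t) = w + t := by ring
      change ‖P (a + (w - a)) - Q (a + (w - a + t))‖ ≤ ε at this
      rwa [e1, e2] at this
    · intro h
      have := h.shift a
      rwa [add_sub_cancel_left] at this
  unfold EE
  simp only [h1]

theorem chain_lin {c1 X : ℝ} {t : ℕ → ℂ} {n : ℕ} (hc1 : 0 ≤ c1)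
    (ht : ∀ j < n, c1 * ‖t (j + 1) - t j‖ ≤ X) : c1 * ‖t n - t 0‖ ≤ n * X := by
  have key : ∀ k ≤ n, c1 * ‖t k - t 0‖ ≤ k * X := by
    intro k
    induction k with
    | zero =>
      intro _
      rw [sub_self, norm_zero, mul_zero, Nat.cast_zero, zero_mul]
    | succ k ih =>
      intro hk
      have h1 := ih (by omega)
      have h2 := ht k (by omega)
      have h7 : c1 * ‖t (k + 1) - t 0‖ ≤ c1 * ‖t (k + 1) - t k‖ + c1 * ‖t k - t 0‖ := by
        rw [← mul_add]
        apply mul_le_mul_of_nonneg_left _ hc1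
        have := norm_add_le (t (k + 1) - t k) (t k - t 0)
        rwa [sub_add_sub_cancel] at this
      push_cast
      linarith
  exact key n le_rfl

/-- the drift along a segment -/
theorem drift_seg {P Q : ℂ → Mat N} {c1 : ℝ} (hc1 : 0 ≤ c1)
    (hinj : ∀ z t : ℂ, ‖t‖ ≤ 2 * r → c1 * ‖t‖ ≤ ‖Q (z + t) - Q z‖) {p w : ℂ} {n : ℕ} (hn : 0 < n)
    (hwn : ‖w‖ ≤ n) {t : ℂ → ℂ} {e : ℂ → ℝ} {X : ℝ}
    (ht : ∀ s : ℝ, 0 ≤ s → s ≤ 1 → ‖t (p + s * w)‖ ≤ r ∧
      Trk P Q (p + s * w) (t (p + s * w)) (e (p + s * w)) ∧ e (p + s * w) ≤ X) :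
    c1 * ‖t (p + w) - t p‖ ≤ n * (2 * X) := by
  have hn' : (0 : ℝ) < n := by exact_mod_cast hn
  have hj : ∀ j : ℕ, j ≤ n → 0 ≤ (j / n : ℝ) ∧ (j / n : ℝ) ≤ 1 := by
    intro j hj
    refine ⟨by positivity, ?_⟩
    rw [div_le_one hn']
    exact_mod_cast hj
  have h1 := chain_lin (c1 := c1) (X := 2 * X) (n := n)
    (t := fun j => t (p + ((j / n : ℝ) : ℂ) * w)) hc1 (fun j hjn => by
      obtain ⟨a1, a2, a3⟩ := ht (j / n) (hj j hjn.le).1 (hj j hjn.le).2
      obtain ⟨b1, b2, b3⟩ := ht ((j + 1 : ℕ) / n) (hj (j + 1) hjn).1 (hj (j + 1) hjn).2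
      have h2 := drift hinj (by
        have e1 : p + (((j + 1 : ℕ) / n : ℝ) : ℂ) * w - (p + ((j / n : ℝ) : ℂ) * w) =
            ((1 / n : ℝ) : ℂ) * w := by
          push_cast
          ring
        rw [e1, norm_mul, Complex.norm_real, Real.norm_of_nonneg (by positivity), one_div,
          inv_mul_le_iff₀ hn', mul_one]
        exact hwn) b1 a1 b2 a2
      refine h2.trans ?_
      linarith)
  have e1 : p + ((n / n : ℝ) : ℂ) * w = p + w := by
    rw [div_self hn'.ne', Complex.ofReal_one, one_mul]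
  have e2 : p + (((0 : ℕ) / n : ℝ) : ℂ) * w = p := by simp
  simp only [e1, e2] at h1
  exact h1

theorem aux_bound {D C E0 M x x' : ℝ} (hM : 0 < M) (hC : 0 ≤ C) (hx : 0 ≤ x)
    (hD : D ≤ C * (E0 * x')) (hxx : x' * x = 1) (hE : E0 ≤ M) : D * (1 / M * x) ≤ C := by
  have h1 : 0 ≤ 1 / M * x := mul_nonneg (one_div_nonneg.2 hM.le) hx
  have h2 : D * (1 / M * x) ≤ C * (E0 * x') * (1 / M * x) := mul_le_mul_of_nonneg_right hD h1
  have h3 : C * (E0 * x') * (1 / M * x) = C * (E0 / M) := by
    have : C * (E0 * x') * (1 / M * x) = C * (E0 / M) * (x' * x) := by ring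
    rw [this, hxx, mul_one]
  have h4 : E0 / M ≤ 1 := (div_le_one hM).2 hE
  rw [h3] at h2
  exact h2.trans (mul_le_of_le_one_right hC h4)

/-- **Contraction.** -/
theorem contraction (h : Cls T c0 𝒞) (hA : RigA 𝒞) (hB : RigB 𝒞) {c1 : ℝ} (hr : 0 < r)
    (hc1 : 0 < c1)
    (hinj : ∀ φ, 𝒞 φ → ∀ z t : ℂ, ‖t‖ ≤ 2 * r → c1 * ‖t‖ ≤ ‖φ (z + t) - φ z‖) :
    ∃ ρ δ θ : ℝ, 0 < ρ ∧ 0 < δ ∧ 0 < θ ∧ θ < 1 ∧ CT ρ δ θ r 𝒞 := by
  classical
  by_contra hcon
  push Not at hcon
  have hseq : ∀ m : ℕ, ∃ (P Q : ℂ → Mat N) (a : ℂ), 𝒞 P ∧ 𝒞 Q ∧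
      (∀ z ∈ closedBall (0 : ℂ) (m + 1), EE r P Q z ≤ 1 / (m + 1 : ℝ) ∧ Ofs r P Q z) ∧
      ∀ z ∈ closedBall (0 : ℂ) (m + 1),
        (1 - 1 / (m + 2 : ℝ)) * (EE r P Q z * ‖Complex.exp (a * z)‖) < EE r P Q 0 := by
    intro m
    have h1 : 1 / (m + 2 : ℝ) < 1 := by
      rw [div_lt_one (by positivity)]
      have : (0 : ℝ) ≤ m := Nat.cast_nonneg m
      linarith
    have h2 := hcon (m + 1) (1 / (m + 1)) (1 - 1 / (m + 2)) (by positivity)
      (by positivity) (by linarith) (by linarith [show (0 : ℝ) < 1 / (m + 2) by positivity])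
    unfold CT at h2
    push Not at h2
    obtain ⟨P, Q, hP, hQ, z0, hz0, a, ha⟩ := h2
    have hmem : ∀ z, z ∈ closedBall (0 : ℂ) (m + 1) → z0 + z ∈ closedBall z0 (m + 1 : ℝ) := by
      intro z hz
      rw [mem_closedBall_zero_iff] at hz
      rw [mem_closedBall, dist_eq_norm, add_sub_cancel_left]
      exact hz
    refine ⟨fun w => P (z0 + w), fun w => Q (z0 + w), a, h.shift _ hP z0, h.shift _ hQ z0,
      fun z hz => ?_, fun z hz => ?_⟩
    · obtain ⟨k1, t, k2, k3⟩ := hz0 _ (hmem z hz)
      rw [EE_shift]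
      refine ⟨k1, t, k2, ?_⟩
      rw [EE_shift]
      have := k3.shift z0
      rwa [add_sub_cancel_left] at this
    · have h2 := ha _ (hmem z hz)
      rw [add_sub_cancel_left] at h2
      rw [EE_shift, EE_shift, add_zero]
      exact h2
  choose P Q a hP hQ hsm hex using hseq
  set 𝓤 : Ultrafilter ℕ := hyperfilter ℕ with h𝓤
  have hE0 : ∀ m z, 0 ≤ EE r (P m) (Q m) z := fun m z => h.EE_nonneg (hP m) (hQ m) hr.le z
  have hpos : ∀ m, 0 < EE r (P m) (Q m) 0 := by
    intro m
    have h1 := hex m 0 (mem_closedBall_self (by positivity))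
    rw [mul_zero, Complex.exp_zero, norm_one, mul_one] at h1
    by_contra hcon
    have h2 : EE r (P m) (Q m) 0 = 0 := le_antisymm (not_lt.1 hcon) (hE0 m 0)
    rw [h2, mul_zero] at h1
    exact lt_irrefl _ h1
  have hE : ∀ m : ℕ, ∀ z ∈ closedBall (0 : ℂ) (m + 1), EE r (P m) (Q m) z ≤
      2 * EE r (P m) (Q m) 0 * Real.exp (-(a m * z).re) := by
    intro m z hz
    have h1 := hex m z hz
    rw [Complex.norm_exp] at h1
    have h2 : (1 : ℝ) / 2 ≤ 1 - 1 / (m + 2 : ℝ) := by
      have : 1 / (m + 2 : ℝ) ≤ 1 / 2 := by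
        apply one_div_le_one_div_of_le (by norm_num)
        have : (0 : ℝ) ≤ m := Nat.cast_nonneg m
        linarith
      linarith
    have h3 : 0 ≤ EE r (P m) (Q m) z * Real.exp (a m * z).re :=
      mul_nonneg (hE0 m z) (Real.exp_pos _).le
    have h4 : EE r (P m) (Q m) z * Real.exp (a m * z).re ≤ 2 * EE r (P m) (Q m) 0 := by nlinarith
    have h5 := mul_le_mul_of_nonneg_right h4 (Real.exp_pos (-(a m * z).re)).le
    rwa [mul_assoc, ← Real.exp_add, add_neg_cancel, Real.exp_zero, mul_one] at h5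
  have hzero : Tendsto (fun m : ℕ => 1 / (m + 1 : ℝ)) 𝓤 (𝓝 0) := hyp_inv
  have hE00 : Tendsto (fun m => EE r (P m) (Q m) 0) 𝓤 (𝓝 0) :=
    squeeze_zero (fun m => hE0 m 0) (fun m => (hsm m 0 (mem_closedBall_self (by positivity))).1)
      hzero
  -- the translations
  have htex : ∀ (m : ℕ) (z : ℂ), ∃ t : ℂ, z ∈ closedBall (0 : ℂ) (m + 1) → ‖t‖ ≤ r / 2 ∧
      Trk (P m) (Q m) z t (EE r (P m) (Q m) z) := by
    intro m z
    by_cases hz : z ∈ closedBall (0 : ℂ) (m + 1)
    · obtain ⟨t, h1, h2⟩ := (hsm m z hz).2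
      exact ⟨t, fun _ => ⟨h1, h2⟩⟩
    · exact ⟨0, fun h => absurd h hz⟩
  choose t ht using htex
  by_cases hbdd : ∃ A : ℝ, ∀ᶠ m in (𝓤 : Filter ℕ), ‖a m‖ ≤ A
  · -- bounded exponents
    obtain ⟨A', hA'⟩ := hbdd
    set A : ℝ := max A' 0 with hAdef
    have hA0 : 0 ≤ A := le_max_right _ _
    have hAb : ∀ᶠ m in (𝓤 : Filter ℕ), ‖a m‖ ≤ A := by
      filter_upwards [hA'] with m hm using hm.trans (le_max_left _ _)
    obtain ⟨a0, ha0⟩ := exists_lim hAb
    have hre : ∀ m (z : ℂ) (L : ℝ), ‖a m‖ ≤ A → ‖z‖ ≤ L → |(a m * z).re| ≤ A * L := by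
      intro m z L h1 h2
      refine (Complex.abs_re_le_norm _).trans ?_
      rw [norm_mul]
      exact mul_le_mul h1 h2 (norm_nonneg _) hA0
    -- the drift
    have hdrift : ∀ L : ℝ, 0 ≤ L → ∃ C : ℝ, 0 ≤ C ∧ ∀ᶠ m in (𝓤 : Filter ℕ),
        ∀ z ∈ closedBall (0 : ℂ) L, ‖t m z - t m 0‖ ≤ C * EE r (P m) (Q m) 0 := by
      intro L hL
      refine ⟨(⌈L⌉₊ + 1 : ℕ) * (4 * Real.exp (A * L)) / c1, by positivity, ?_⟩
      filter_upwards [hAb, hyp_ge L] with m hm1 hm2 z hz
      rw [mem_closedBall_zero_iff] at hz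
      have h1 := drift_seg (P := P m) (Q := Q m) (t := t m) (e := EE r (P m) (Q m))
        (X := 2 * EE r (P m) (Q m) 0 * Real.exp (A * L)) hc1.le (hinj _ (hQ m)) (p := 0) (w := z)
        (n := ⌈L⌉₊ + 1) (Nat.succ_pos _) (by
          push_cast
          have := Nat.le_ceil L
          linarith) (by
          intro s hs0 hs1
          rw [zero_add]
          have h2 : ‖(s : ℂ) * z‖ ≤ L := by
            rw [norm_mul, Complex.norm_real, Real.norm_of_nonneg hs0]
            calc s * ‖z‖ ≤ 1 * L := mul_le_mul hs1 hz (norm_nonneg _) zero_le_one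
              _ = L := one_mul L
          have h3 : (s : ℂ) * z ∈ closedBall (0 : ℂ) (m + 1) := by
            rw [mem_closedBall_zero_iff]
            linarith
          obtain ⟨k1, k2⟩ := ht m _ h3
          refine ⟨k1.trans (by linarith), k2, (hE m _ h3).trans ?_⟩
          apply mul_le_mul_of_nonneg_left _ (by linarith [hpos m])
          apply Real.exp_le_exp.2
          exact (neg_le_abs _).trans (hre m _ L hm1 h2))
      rw [zero_add] at h1
      rw [div_mul_eq_mul_div, le_div_iff₀ hc1, mul_comm _ c1]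
      refine h1.trans (le_of_eq ?_)
      ring
    -- the bound
    have hbound : ∀ L : ℝ, 0 ≤ L → ∃ C : ℝ, 0 ≤ C ∧ ∀ᶠ m in (𝓤 : Filter ℕ),
        ∀ z ∈ closedBall (0 : ℂ) L, ‖Q m (t m 0 + z) - P m z‖ ≤ C * EE r (P m) (Q m) 0 := by
      intro L hL
      obtain ⟨C, hC, hCm⟩ := hdrift L hL
      refine ⟨2 * C + 2 * Real.exp (A * L), by positivity, ?_⟩
      filter_upwards [hCm, hAb, hyp_ge L] with m hm0 hm1 hm2 z hz
      have h1 := hm0 z hz
      rw [mem_closedBall_zero_iff] at hz
      have h3 : z ∈ closedBall (0 : ℂ) (m + 1) := by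
        rw [mem_closedBall_zero_iff]
        linarith
      have h4 := (ht m _ h3).2 z (mem_closedBall_self zero_le_one)
      have h5 := h.lip (hQ m) (z + t m z) (t m 0 + z)
      have e1 : t m 0 + z - (z + t m z) = -(t m z - t m 0) := by ring
      rw [e1, norm_neg] at h5
      have h6 := (hE m _ h3).trans (mul_le_mul_of_nonneg_left (Real.exp_le_exp.2
        ((neg_le_abs _).trans (hre m _ L hm1 hz))) (by linarith [hpos m]))
      have h7 : Q m (t m 0 + z) - P m z = (Q m (t m 0 + z) - Q m (z + t m z)) -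
          (P m z - Q m (z + t m z)) := by abel
      rw [h7]
      refine (norm_sub_le _ _).trans ?_
      nlinarith
    have hQt : ∀ m, 𝒞 (fun w => Q m (t m 0 + w)) := fun m => h.shift _ (hQ m) _
    obtain ⟨χ, hχ, hcP⟩ := h.lim 𝓤 P hP
    obtain ⟨χ', hχ', hcQ⟩ := h.lim 𝓤 _ hQt
    have heq : χ' = χ := by
      funext z
      obtain ⟨C, hC, hCm⟩ := hbound ‖z‖ (norm_nonneg _)
      have h1 : Tendsto (fun m => ‖Q m (t m 0 + z) - P m z‖) 𝓤 (𝓝 ‖χ' z - χ z‖) :=
        ((hcQ.pointwise (mem_univ z)).sub (hcP.pointwise (mem_univ z))).norm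
      have h2 : Tendsto (fun m => C * EE r (P m) (Q m) 0) 𝓤 (𝓝 0) := by
        have := hE00.const_mul C
        rwa [mul_zero] at this
      have h3 : ‖χ' z - χ z‖ ≤ 0 := by
        refine le_of_tendsto_of_tendsto h1 h2 ?_
        filter_upwards [hCm] with m hm
        exact hm z (mem_closedBall_zero_iff.2 le_rfl)
      exact sub_eq_zero.1 (norm_eq_zero.1 (le_antisymm h3 (norm_nonneg _)))
    rw [heq] at hcQ
    set κ : ℕ → ℂ := fun m => ((1 / EE r (P m) (Q m) 0 : ℝ) : ℂ) with hκdef
    have hκn : ∀ m z, ‖κ m * Complex.exp (a m * z)‖ =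
        Real.exp (a m * z).re / EE r (P m) (Q m) 0 := by
      intro m z
      rw [norm_mul, Complex.norm_real, Real.norm_of_nonneg (by have := hpos m; positivity),
        Complex.norm_exp]
      ring
    have hdat : Dat 𝒞 𝓤 χ P (fun m w => Q m (t m 0 + w)) a κ := by
      refine ⟨hχ, hP, hQt, hcP, hcQ, fun L => ?_, 2, fun z => ?_⟩
      · obtain ⟨C, hC, hCm⟩ := hbound (max L 0) (le_max_right _ _)
        refine ⟨C * Real.exp (A * max L 0), ?_⟩
        filter_upwards [hCm, hAb] with m hm hm1 z hz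
        have hz' : z ∈ closedBall (0 : ℂ) (max L 0) :=
          closedBall_subset_closedBall (le_max_left _ _) hz
        have h1 := hm z hz'
        rw [mem_closedBall_zero_iff] at hz'
        rw [hκn]
        have h2 : Real.exp (a m * z).re ≤ Real.exp (A * max L 0) :=
          Real.exp_le_exp.2 ((le_abs_self _).trans (hre m z _ hm1 hz'))
        calc ‖Q m (t m 0 + z) - P m z‖ * (Real.exp (a m * z).re / EE r (P m) (Q m) 0) ≤
              (C * EE r (P m) (Q m) 0) * (Real.exp (A * max L 0) / EE r (P m) (Q m) 0) := by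
              apply mul_le_mul h1 _ _ _
              · exact div_le_div_of_nonneg_right h2 (hpos m).le
              · exact div_nonneg (Real.exp_pos _).le (hpos m).le
              · exact mul_nonneg hC (hpos m).le
          _ = C * Real.exp (A * max L 0) := by
              have := (hpos m).ne'
              field_simp
      · obtain ⟨C, hC, hCm⟩ := hdrift ‖z‖ (norm_nonneg _)
        refine ⟨fun m => t m z - t m 0, C * Real.exp (A * ‖z‖), ?_, ?_, ?_⟩
        · have h2 : Tendsto (fun m => C * EE r (P m) (Q m) 0) 𝓤 (𝓝 0) := by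
            have := hE00.const_mul C
            rwa [mul_zero] at this
          apply tendsto_zero_iff_norm_tendsto_zero.2
          refine squeeze_zero' (Eventually.of_forall fun m => norm_nonneg _) ?_ h2
          filter_upwards [hCm] with m hm
          exact hm z (mem_closedBall_zero_iff.2 le_rfl)
        · filter_upwards [hCm, hAb] with m hm hm1
          have h1 := hm z (mem_closedBall_zero_iff.2 le_rfl)
          rw [hκn]
          have h2 : Real.exp (a m * z).re ≤ Real.exp (A * ‖z‖) :=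
            Real.exp_le_exp.2 ((le_abs_self _).trans (hre m z _ hm1 le_rfl))
          calc ‖t m z - t m 0‖ * (Real.exp (a m * z).re / EE r (P m) (Q m) 0) ≤
                (C * EE r (P m) (Q m) 0) * (Real.exp (A * ‖z‖) / EE r (P m) (Q m) 0) := by
                apply mul_le_mul h1 _ _ _
                · exact div_le_div_of_nonneg_right h2 (hpos m).le
                · exact div_nonneg (Real.exp_pos _).le (hpos m).le
                · exact mul_nonneg hC (hpos m).le
            _ = C * Real.exp (A * ‖z‖) := by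
                have := (hpos m).ne'
                field_simp
        · filter_upwards [hyp_ge ‖z‖] with m hm
          have h3 : z ∈ closedBall (0 : ℂ) (m + 1) := by
            rw [mem_closedBall_zero_iff]
            linarith
          have h4 := (ht m _ h3).2 z (mem_closedBall_self zero_le_one)
          have e1 : t m 0 + (z + (t m z - t m 0)) = z + t m z := by ring
          rw [e1, hκn, norm_sub_rev]
          have h5 := hE m z h3
          have h6 := mul_le_mul_of_nonneg_right (h4.trans h5)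
            (div_nonneg (Real.exp_pos (a m * z).re).le (hpos m).le)
          refine h6.trans (le_of_eq ?_)
          have h7 := (hpos m).ne'
          have h8 : Real.exp (-(a m * z).re) * Real.exp (a m * z).re = 1 := by
            rw [← Real.exp_add, neg_add_cancel, Real.exp_zero]
          have h9 : 2 * EE r (P m) (Q m) 0 * Real.exp (-(a m * z).re) *
              (Real.exp (a m * z).re / EE r (P m) (Q m) 0) =
              2 * (EE r (P m) (Q m) 0 / EE r (P m) (Q m) 0) *
                (Real.exp (-(a m * z).re) * Real.exp (a m * z).re) := by ring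
          rw [h9, h8, div_self h7]
          norm_num
    obtain ⟨h0, hh0⟩ := hA 𝓤 χ P _ a κ a0 hdat ha0
    -- the corrected translation
    set s : ℕ → ℂ := fun m => -(h0 * (EE r (P m) (Q m) 0 : ℂ)) with hs
    have hs0 : Tendsto s 𝓤 (𝓝 0) := by
      have h1 : Tendsto (fun m => (EE r (P m) (Q m) 0 : ℂ)) 𝓤 (𝓝 0) := by
        have := (Complex.continuous_ofReal.tendsto 0).comp hE00
        rwa [Complex.ofReal_zero] at this
      have := (h1.const_mul h0).neg
      rwa [mul_zero, neg_zero] at this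
    have hw : ∀ m, ∃ w : ℂ, ‖t m 0 + s m‖ ≤ r → ‖w‖ ≤ 1 ∧
        EE r (P m) (Q m) 0 / 2 < ‖P m w - Q m (w + (t m 0 + s m))‖ := by
      intro m
      by_cases hm : ‖t m 0 + s m‖ ≤ r
      swap
      · exact ⟨0, fun h => absurd h hm⟩
      by_contra hcon
      push Not at hcon
      have h1 : Trk (P m) (Q m) 0 (t m 0 + s m) (EE r (P m) (Q m) 0 / 2) := by
        intro w hw
        obtain ⟨-, h2⟩ := hcon w
        exact h2 (mem_closedBall_zero_iff.1 hw)
      have h2 := EE_le hm h1
      linarith [hpos m]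
    choose w hw using hw
    have hsr : ∀ᶠ m in (𝓤 : Filter ℕ), ‖t m 0 + s m‖ ≤ r := by
      have h1 := (tendsto_zero_iff_norm_tendsto_zero.1 hs0).eventually_lt_const
        (show 0 < r / 2 by positivity)
      filter_upwards [h1] with m hm
      have h2 := (ht m 0 (mem_closedBall_self (by positivity))).1
      refine (norm_add_le _ _).trans ?_
      linarith
    have hw1 : ∀ᶠ m in (𝓤 : Filter ℕ), ‖w m‖ ≤ 1 := by
      filter_upwards [hsr] with m hm
      exact (hw m hm).1
    obtain ⟨w0, hw0⟩ := exists_lim hw1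
    have hexp : Tendsto (fun m => Complex.exp (a m * w m)) 𝓤 (𝓝 (Complex.exp (a0 * w0))) :=
      (Complex.continuous_exp.tendsto _).comp (ha0.mul hw0)
    have hfin := hh0 w w0 s hw0 hs0 (by
      have h1 : (fun m => s m * (κ m * Complex.exp (a m * w m))) =
          fun m => -(h0 * Complex.exp (a m * w m)) := by
        funext m
        simp only [hs, hκdef]
        have := (hpos m).ne'
        have h2 : (EE r (P m) (Q m) 0 : ℂ) ≠ 0 := by exact_mod_cast this
        push_cast
        field_simp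
      rw [h1]
      exact (hexp.const_mul h0).neg)
    have hge : ∀ᶠ m in (𝓤 : Filter ℕ), ‖Complex.exp (a m * w m)‖ / 2 ≤
        ‖Q m (t m 0 + (w m + s m)) - P m (w m)‖ * ‖κ m * Complex.exp (a m * w m)‖ := by
      filter_upwards [hsr] with m hm
      have h1 := (hw m hm).2
      have e1 : w m + (t m 0 + s m) = t m 0 + (w m + s m) := by ring
      rw [e1, norm_sub_rev] at h1
      rw [hκn, Complex.norm_exp]
      have h2 := mul_le_mul_of_nonneg_right h1.le
        (div_nonneg (Real.exp_pos (a m * w m).re).le (hpos m).le)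
      refine le_trans (le_of_eq ?_) h2
      have := (hpos m).ne'
      field_simp
    have h1 := le_of_tendsto_of_tendsto (hexp.norm.div_const 2) hfin hge
    have h2 : 0 < ‖Complex.exp (a0 * w0)‖ := norm_pos_iff.2 (Complex.exp_ne_zero _)
    linarith
  · -- exponents which tend to infinity
    have hinf : ∀ C : ℝ, ∀ᶠ m in (𝓤 : Filter ℕ), C ≤ ‖a m‖ := by
      intro C
      by_contra hcon
      rw [← Ultrafilter.eventually_not] at hcon
      exact hbdd ⟨C, by filter_upwards [hcon] with m hm using (not_le.1 hm).le⟩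
    set u : ℕ → ℂ := fun m => (starRingEnd ℂ) (a m) / (‖a m‖ : ℂ) with hu
    have hau : ∀ m, 1 ≤ ‖a m‖ → ‖u m‖ = 1 ∧ a m * u m = (‖a m‖ : ℂ) := by
      intro m hm
      have h1 : 0 < ‖a m‖ := by linarith
      have h2 : (‖a m‖ : ℂ) ≠ 0 := by exact_mod_cast h1.ne'
      constructor
      · rw [hu]
        simp only
        rw [norm_div, Complex.norm_real, norm_norm, RCLike.norm_conj, div_self h1.ne']
      · rw [hu]
        simp only
        rw [← mul_div_assoc, Complex.mul_conj, Complex.normSq_eq_norm_sq]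
        push_cast
        field_simp
    set q : ℝ := Real.exp (-1) with hq
    have hq0 : 0 < q := Real.exp_pos _
    have hq1 : q < 1 := by
      rw [hq, Real.exp_lt_one_iff]
      norm_num
    have hq2 : 0 < 1 - q := by linarith
    set F : ℕ → ℂ := fun m => ((m / 2 : ℕ) : ℂ) * u m with hF
    set C3 : ℝ := 2 * (1 + 2 / c1 * (2 / (1 - q) + 2)) with hC3
    have hC3pos : 0 < C3 := by positivity
    -- the main estimate
    have hmain : ∀ L : ℝ, 0 ≤ L → ∀ᶠ m in (𝓤 : Filter ℕ), ∀ w ∈ closedBall (0 : ℂ) L,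
        ‖P m w - Q m (w + t m (F m))‖ ≤
          C3 * (EE r (P m) (Q m) 0 * (Real.exp (-(a m * w).re) * Real.exp (-‖a m‖))) := by
      intro L hL
      have hlarge : ∀ᶠ m in (𝓤 : Filter ℕ), ((⌈L⌉₊ + 1 : ℕ) : ℝ) *
          Real.exp (-(((m / 2 : ℕ) : ℝ) - 2 * L - 1)) ≤ 1 := by
        have h1 : Tendsto (fun m : ℕ => ((⌈L⌉₊ + 1 : ℕ) : ℝ) *
            Real.exp (-(((m / 2 : ℕ) : ℝ) - 2 * L - 1))) 𝓤 (𝓝 (((⌈L⌉₊ + 1 : ℕ) : ℝ) * 0)) := by
          apply Tendsto.const_mul
          apply Real.tendsto_exp_atBot.comp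
          apply tendsto_neg_atTop_atBot.comp
          apply tendsto_atTop_add_const_right
          apply tendsto_atTop_add_const_right
          apply Filter.tendsto_atTop.2
          intro M
          filter_upwards [hyp_ge (2 * M + 2)] with m hm
          have h2 : (m : ℝ) ≤ 2 * ((m / 2 : ℕ) : ℝ) + 1 := by
            have : m ≤ 2 * (m / 2) + 1 := by omega
            exact_mod_cast this
          linarith
        rw [mul_zero] at h1
        exact (h1.eventually_lt_const one_pos).mono fun m hm => hm.le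
      filter_upwards [hlarge, hinf 1, hyp_ge (4 * L + 6)] with m hm1 hm2 hm3 w hw
      rw [mem_closedBall_zero_iff] at hw
      obtain ⟨hu1, hu2⟩ := hau m hm2
      set α : ℝ := ‖a m‖ with hα
      set E0 : ℝ := EE r (P m) (Q m) 0 with hE0def
      have hE0pos : 0 < E0 := hpos m
      set Kn : ℕ := m / 2 with hKn
      have hKm : (Kn : ℝ) ≤ m / 2 := by
        rw [hKn]
        exact Nat.cast_div_le
      have hKm2 : (m : ℝ) ≤ 2 * (Kn : ℝ) + 1 := by
        have : m ≤ 2 * (m / 2) + 1 := by omega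
        exact_mod_cast this
      have hKL : 2 * L + 1 ≤ (Kn : ℝ) := by linarith
      have hK1 : 1 ≤ Kn := by
        have h1 : (1 : ℝ) ≤ Kn := by linarith
        exact_mod_cast h1
      have hre : |(a m * w).re| ≤ α * L := by
        refine (Complex.abs_re_le_norm _).trans ?_
        rw [norm_mul]
        exact mul_le_mul_of_nonneg_left hw (norm_nonneg _)
      have hζre : ∀ j : ℕ, (a m * (w + j * u m)).re = (a m * w).re + j * α := by
        intro j
        have h1 : a m * (w + j * u m) = a m * w + j * (a m * u m) := by ring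
        rw [h1, hu2, Complex.add_re]
        congr 1
        have h2 : (j : ℂ) * (α : ℂ) = ((j * α : ℝ) : ℂ) := by push_cast; ring
        rw [h2, Complex.ofReal_re]
      have hζmem : ∀ j : ℕ, j ≤ Kn → w + j * u m ∈ closedBall (0 : ℂ) (m + 1) := by
        intro j hj
        rw [mem_closedBall_zero_iff]
        refine (norm_add_le _ _).trans ?_
        rw [norm_mul, hu1, mul_one, Complex.norm_natCast]
        have : (j : ℝ) ≤ Kn := by exact_mod_cast hj
        linarith
      set X : ℝ := 2 * E0 * Real.exp (-(a m * w).re) with hX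
      have hX0 : 0 < X := by positivity
      have hζE : ∀ j : ℕ, j ≤ Kn → EE r (P m) (Q m) (w + j * u m) ≤ X * Real.exp (-(j * α)) := by
        intro j hj
        refine (hE m _ (hζmem j hj)).trans (le_of_eq ?_)
        rw [hζre, hX, mul_assoc, mul_assoc, mul_assoc, ← Real.exp_add]
        congr 3
        ring
      -- along the line
      have hline : c1 * ‖t m (w + (1 : ℕ) * u m) - t m (w + Kn * u m)‖ ≤
          2 * (X * Real.exp (-α)) / (1 - q) := by
        have h1 := chain_sum (c1 := c1) (A := X * Real.exp (-α)) (q := q)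
          (t := fun i => t m (w + (Kn - i : ℕ) * u m))
          (e := fun i => EE r (P m) (Q m) (w + (Kn - i : ℕ) * u m)) (M := Kn - 1)
          (by positivity) hq0 hq1 hc1.le (fun i hi => by
            have k1 := ht m _ (hζmem (Kn - i) (by omega))
            have k2 := ht m _ (hζmem (Kn - (i + 1)) (by omega))
            have h6 := drift (hinj _ (hQ m)) (z := w + (Kn - i : ℕ) * u m)
              (z' := w + (Kn - (i + 1) : ℕ) * u m) (by
              have h7 : w + (Kn - i : ℕ) * u m - (w + (Kn - (i + 1) : ℕ) * u m) = u m := by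
                have h8 : Kn - i = Kn - (i + 1) + 1 := by omega
                rw [h8]
                push_cast
                ring
              rw [h7, hu1]) (k1.1.trans (by linarith)) (k2.1.trans (by linarith)) k1.2 k2.2
            rw [norm_sub_rev] at h6
            exact h6) (fun i hi => by
            refine (hζE (Kn - i) (by omega)).trans ?_
            rw [mul_assoc X]
            apply mul_le_mul_of_nonneg_left _ hX0.le
            have h7 : q ^ (Kn - 1 - i) = Real.exp (-((Kn - 1 - i : ℕ) : ℝ)) := by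
              rw [hq, ← Real.exp_nat_mul]
              congr 1
              ring
            rw [h7, ← Real.exp_add]
            apply Real.exp_le_exp.2
            have h8 : ((Kn - i : ℕ) : ℝ) = ((Kn - 1 - i : ℕ) : ℝ) + 1 := by
              have : Kn - i = Kn - 1 - i + 1 := by omega
              rw [this]
              push_cast
              ring
            rw [h8]
            have h9 : (0 : ℝ) ≤ ((Kn - 1 - i : ℕ) : ℝ) := Nat.cast_nonneg _
            nlinarith)
        have e1 : Kn - (Kn - 1) = 1 := by omega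
        simp only [e1, Nat.sub_zero] at h1
        exact h1
      -- far away
      have hfar : c1 * ‖t m (w + Kn * u m) - t m (F m)‖ ≤ 2 * (X * Real.exp (-α)) := by
        have h1 := drift_seg (P := P m) (Q := Q m) (t := t m) (e := EE r (P m) (Q m))
          (X := 2 * E0 * Real.exp (-(Kn * α) + α * L)) hc1.le (hinj _ (hQ m)) (p := Kn * u m)
          (w := w) (n := ⌈L⌉₊ + 1) (Nat.succ_pos _) (by
            push_cast
            have := Nat.le_ceil L
            linarith) (by
            intro s hs0 hs1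
            have h2 : ‖(s : ℂ) * w‖ ≤ L := by
              rw [norm_mul, Complex.norm_real, Real.norm_of_nonneg hs0]
              calc s * ‖w‖ ≤ 1 * L := mul_le_mul hs1 hw (norm_nonneg _) zero_le_one
                _ = L := one_mul L
            have h3 : (Kn : ℂ) * u m + (s : ℂ) * w ∈ closedBall (0 : ℂ) (m + 1) := by
              rw [mem_closedBall_zero_iff]
              refine (norm_add_le _ _).trans ?_
              rw [norm_mul, hu1, mul_one, Complex.norm_natCast]
              linarith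
            obtain ⟨k1, k2⟩ := ht m _ h3
            refine ⟨k1.trans (by linarith), k2, (hE m _ h3).trans ?_⟩
            apply mul_le_mul_of_nonneg_left _ (by linarith)
            apply Real.exp_le_exp.2
            have h4 : a m * ((Kn : ℂ) * u m + (s : ℂ) * w) = ((Kn * α : ℝ) : ℂ) +
                a m * ((s : ℂ) * w) := by
              push_cast
              rw [← hu2]
              ring
            rw [h4, Complex.add_re, Complex.ofReal_re]
            have h5 : |(a m * ((s : ℂ) * w)).re| ≤ α * L := by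
              refine (Complex.abs_re_le_norm _).trans ?_
              rw [norm_mul]
              exact mul_le_mul_of_nonneg_left h2 (norm_nonneg _)
            have h6 := neg_le_abs (a m * ((s : ℂ) * w)).re
            linarith)
        have e1 : (Kn : ℂ) * u m + w = w + Kn * u m := by ring
        rw [e1] at h1
        refine h1.trans ?_
        have h2 : Real.exp (-(Kn * α) + α * L) ≤
            Real.exp (-((Kn : ℝ) - 2 * L - 1)) * Real.exp (-(α * L) - α) := by
          rw [← Real.exp_add]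
          apply Real.exp_le_exp.2
          nlinarith
        have h3 : Real.exp (-(α * L) - α) ≤ Real.exp (-(a m * w).re) * Real.exp (-α) := by
          rw [← Real.exp_add]
          apply Real.exp_le_exp.2
          have := le_abs_self (a m * w).re
          linarith
        have h4 : (0 : ℝ) < ((⌈L⌉₊ + 1 : ℕ) : ℝ) := by positivity
        calc ((⌈L⌉₊ + 1 : ℕ) : ℝ) * (2 * (2 * E0 * Real.exp (-(Kn * α) + α * L))) ≤
              ((⌈L⌉₊ + 1 : ℕ) : ℝ) * (2 * (2 * E0 *
                (Real.exp (-((Kn : ℝ) - 2 * L - 1)) * Real.exp (-(α * L) - α)))) := by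
              gcongr
          _ = 4 * E0 * Real.exp (-(α * L) - α) *
              (((⌈L⌉₊ + 1 : ℕ) : ℝ) * Real.exp (-((Kn : ℝ) - 2 * L - 1))) := by ring
          _ ≤ 4 * E0 * Real.exp (-(α * L) - α) * 1 := by
              apply mul_le_mul_of_nonneg_left hm1 (by positivity)
          _ ≤ 4 * E0 * (Real.exp (-(a m * w).re) * Real.exp (-α)) := by
              rw [mul_one]
              gcongr
          _ = 2 * (X * Real.exp (-α)) := by rw [hX]; ring
      have hmem1 := hζmem 1 hK1
      have hT1 := (ht m _ hmem1).2 w (by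
        rw [mem_closedBall, dist_eq_norm]
        have : w - (w + ((1 : ℕ) : ℂ) * u m) = -u m := by push_cast; ring
        rw [this, norm_neg, hu1])
      have hE1 := hζE 1 hK1
      have hone : -(((1 : ℕ) : ℝ) * α) = -α := by rw [Nat.cast_one, one_mul]
      rw [hone] at hE1
      have hlip := h.lip (hQ m) (w + t m (w + (1 : ℕ) * u m)) (w + t m (F m))
      have e1 : w + t m (F m) - (w + t m (w + (1 : ℕ) * u m)) =
          -((t m (w + (1 : ℕ) * u m) - t m (w + Kn * u m)) +
            (t m (w + Kn * u m) - t m (F m))) := by ring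
      rw [e1, norm_neg] at hlip
      have h7 := norm_add_le (t m (w + (1 : ℕ) * u m) - t m (w + Kn * u m))
        (t m (w + Kn * u m) - t m (F m))
      have h8 : ‖t m (w + (1 : ℕ) * u m) - t m (w + Kn * u m)‖ +
          ‖t m (w + Kn * u m) - t m (F m)‖ ≤
          (2 / (1 - q) + 2) * (X * Real.exp (-α)) / c1 := by
        rw [le_div_iff₀ hc1]
        have e2 : 2 * (X * Real.exp (-α)) / (1 - q) = 2 / (1 - q) * (X * Real.exp (-α)) := by
          ring
        rw [e2] at hline
        linarith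
      have h9 : P m w - Q m (w + t m (F m)) = (P m w - Q m (w + t m (w + (1 : ℕ) * u m))) -
          (Q m (w + t m (F m)) - Q m (w + t m (w + (1 : ℕ) * u m))) := by abel
      rw [h9]
      refine (norm_sub_le _ _).trans ?_
      have h10 : C3 * (E0 * (Real.exp (-(a m * w).re) * Real.exp (-α))) =
          X * Real.exp (-α) + 2 * ((2 / (1 - q) + 2) * (X * Real.exp (-α)) / c1) := by
        rw [hC3, hX]
        ring
      rw [h10]
      have h11 := hT1.trans hE1
      have h12 : ‖Q m (w + t m (F m)) - Q m (w + t m (w + (1 : ℕ) * u m))‖ ≤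
          2 * ((2 / (1 - q) + 2) * (X * Real.exp (-α)) / c1) := by
        exact hlip.trans (mul_le_mul_of_nonneg_left (h7.trans h8) (by norm_num))
      exact add_le_add h11 h12
    -- the maximum on the unit disc
    have hmax : ∀ m, ∃ w : ℂ, ‖w‖ ≤ 1 ∧ ∀ v ∈ closedBall (0 : ℂ) 1,
        ‖P m v - Q m (v + t m (F m))‖ ≤ ‖P m w - Q m (w + t m (F m))‖ := by
      intro m
      have hc : Continuous fun v : ℂ => ‖P m v - Q m (v + t m (F m))‖ :=
        ((h.cont (hP m)).sub ((h.cont (hQ m)).comp (continuous_id.add continuous_const))).norm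
      obtain ⟨w, hw, hmx⟩ := (isCompact_closedBall (0 : ℂ) 1).exists_isMaxOn
        ⟨0, mem_closedBall_self zero_le_one⟩ hc.continuousOn
      exact ⟨w, mem_closedBall_zero_iff.1 hw, fun v hv => hmx hv⟩
    choose w hw1 hwmax using hmax
    set Mx : ℕ → ℝ := fun m => ‖P m (w m) - Q m (w m + t m (F m))‖ with hMx
    have hFr : ∀ᶠ m in (𝓤 : Filter ℕ), ‖t m (F m)‖ ≤ r := by
      filter_upwards [hinf 1] with m hm
      have h1 : F m ∈ closedBall (0 : ℂ) (m + 1) := by
        rw [mem_closedBall_zero_iff, hF]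
        simp only
        rw [norm_mul, (hau m hm).1, mul_one, Complex.norm_natCast]
        have h2 : ((m / 2 : ℕ) : ℝ) ≤ m := by
          exact_mod_cast Nat.div_le_self m 2
        linarith
      exact (ht m _ h1).1.trans (by linarith)
    have hMge : ∀ᶠ m in (𝓤 : Filter ℕ), EE r (P m) (Q m) 0 ≤ Mx m := by
      filter_upwards [hFr] with m hm
      exact EE_le hm fun v hv => hwmax m v hv
    have hexpw : ∀ m, Real.exp (-(a m * w m).re) ≤ Real.exp ‖a m‖ := by
      intro m
      apply Real.exp_le_exp.2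
      refine (neg_le_abs _).trans ((Complex.abs_re_le_norm _).trans ?_)
      rw [norm_mul]
      calc ‖a m‖ * ‖w m‖ ≤ ‖a m‖ * 1 := mul_le_mul_of_nonneg_left (hw1 m) (norm_nonneg _)
        _ = ‖a m‖ := mul_one _
    set κ : ℕ → ℂ := fun m => ((1 / Mx m : ℝ) : ℂ) with hκdef
    -- the bound
    have hbd : ∀ L : ℝ, ∀ᶠ m in (𝓤 : Filter ℕ), ∀ z ∈ closedBall (0 : ℂ) L,
        ‖P m (w m + z) - Q m (w m + z + t m (F m))‖ ≤
          C3 * (EE r (P m) (Q m) 0 * Real.exp (-(a m * z).re)) := by
      intro L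
      filter_upwards [hmain (max L 0 + 1) (by positivity)] with m hm z hz
      have h1 := hm (w m + z) (by
        rw [mem_closedBall_zero_iff] at hz ⊢
        refine (norm_add_le _ _).trans ?_
        linarith [hw1 m, le_max_left L 0])
      refine h1.trans ?_
      apply mul_le_mul_of_nonneg_left _ hC3pos.le
      apply mul_le_mul_of_nonneg_left _ (hpos m).le
      have e1 : Real.exp (-(a m * (w m + z)).re) =
          Real.exp (-(a m * w m).re) * Real.exp (-(a m * z).re) := by
        rw [← Real.exp_add, mul_add, Complex.add_re]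
        congr 1
        ring
      rw [e1]
      calc Real.exp (-(a m * w m).re) * Real.exp (-(a m * z).re) * Real.exp (-‖a m‖) ≤
            Real.exp ‖a m‖ * Real.exp (-(a m * z).re) * Real.exp (-‖a m‖) :=
            mul_le_mul_of_nonneg_right (mul_le_mul_of_nonneg_right (hexpw m) (Real.exp_pos _).le)
              (Real.exp_pos _).le
        _ = Real.exp (-(a m * z).re) := by
            have h2 : Real.exp ‖a m‖ * Real.exp (-‖a m‖) = 1 := by
              rw [← Real.exp_add, add_neg_cancel, Real.exp_zero]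
            linear_combination Real.exp (-(a m * z).re) * h2
    have hbd2 : ∀ L : ℝ, ∀ᶠ m in (𝓤 : Filter ℕ), ∀ z ∈ closedBall (0 : ℂ) L,
        ‖Q m (w m + t m (F m) + z) - P m (w m + z)‖ * ‖κ m * Complex.exp (a m * z)‖ ≤ C3 := by
      intro L
      filter_upwards [hbd L, hMge] with m hm hm2 z hz
      have h1 := hm z hz
      have hMpos : 0 < Mx m := lt_of_lt_of_le (hpos m) hm2
      have e1 : w m + t m (F m) + z = w m + z + t m (F m) := by ring
      have h2 : Real.exp (-(a m * z).re) * Real.exp (a m * z).re = 1 := by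
        rw [← Real.exp_add, neg_add_cancel, Real.exp_zero]
      have h3 : ‖κ m * Complex.exp (a m * z)‖ = 1 / Mx m * Real.exp (a m * z).re := by
        rw [norm_mul, Complex.norm_real, Real.norm_of_nonneg (one_div_nonneg.2 hMpos.le),
          Complex.norm_exp]
      rw [e1, norm_sub_rev, h3]
      exact aux_bound hMpos hC3pos.le (Real.exp_pos _).le h1 h2 hm2
    have hP' : ∀ m, 𝒞 (fun v => P m (w m + v)) := fun m => h.shift _ (hP m) _
    have hQ' : ∀ m, 𝒞 (fun v => Q m (w m + t m (F m) + v)) := fun m => h.shift _ (hQ m) _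
    obtain ⟨χ, hχ, hcP⟩ := h.lim 𝓤 _ hP'
    obtain ⟨χ', hχ', hcQ⟩ := h.lim 𝓤 _ hQ'
    obtain ⟨u0, hu0⟩ := exists_lim (𝓤 := 𝓤) (h := u) (C := 1) (by
      filter_upwards [hinf 1] with m hm
      exact (hau m hm).1.le)
    have hu01 : ‖u0‖ = 1 := by
      have h1 := hu0.norm
      refine tendsto_nhds_unique h1 (tendsto_const_nhds.congr' ?_)
      filter_upwards [hinf 1] with m hm
      exact (hau m hm).1.symm
    have heq : χ' = χ := by
      have hnear : ∀ z ∈ ball u0 (1 / 2), χ' z = χ z := by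
        intro z hz
        rw [mem_ball, dist_eq_norm] at hz
        have h1 : Tendsto (fun m => ‖P m (w m + z) - Q m (w m + z + t m (F m))‖) 𝓤
            (𝓝 ‖χ z - χ' z‖) := by
          have h2 := ((hcP.pointwise (mem_univ z)).sub (hcQ.pointwise (mem_univ z))).norm
          refine h2.congr fun m => ?_
          have e1 : w m + t m (F m) + z = w m + z + t m (F m) := by ring
          rw [e1]
        have h2 : Tendsto (fun m => C3 * EE r (P m) (Q m) 0) 𝓤 (𝓝 0) := by
          have := hE00.const_mul C3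
          rwa [mul_zero] at this
        have h3 : ‖χ z - χ' z‖ ≤ 0 := by
          refine le_of_tendsto_of_tendsto h1 h2 ?_
          have h4 : ∀ᶠ m in (𝓤 : Filter ℕ), ‖u m - u0‖ < 1 / 2 := by
            have h5 := (hu0.sub_const u0).norm
            rw [sub_self, norm_zero] at h5
            exact h5.eventually_lt_const (by norm_num)
          filter_upwards [hbd ‖z‖, h4, hinf 1] with m hm1 hm2 hm3
          refine (hm1 z (mem_closedBall_zero_iff.2 le_rfl)).trans ?_
          apply mul_le_mul_of_nonneg_left _ hC3pos.le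
          have h5 : Real.exp (-(a m * z).re) ≤ 1 := by
            rw [Real.exp_le_one_iff]
            have h6 : a m * z = (‖a m‖ : ℂ) + a m * (z - u m) := by
              rw [mul_sub, (hau m hm3).2]
              ring
            have h7 : ‖z - u m‖ ≤ 1 := by
              have h8 : z - u m = (z - u0) - (u m - u0) := by ring
              rw [h8]
              refine (norm_sub_le _ _).trans ?_
              linarith
            have h8 : |(a m * (z - u m)).re| ≤ ‖a m‖ := by
              refine (Complex.abs_re_le_norm _).trans ?_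
              rw [norm_mul]
              calc ‖a m‖ * ‖z - u m‖ ≤ ‖a m‖ * 1 :=
                    mul_le_mul_of_nonneg_left h7 (norm_nonneg _)
                _ = ‖a m‖ := mul_one _
            rw [h6, Complex.add_re, Complex.ofReal_re]
            have h9 := neg_le_abs (a m * (z - u m)).re
            linarith
          calc EE r (P m) (Q m) 0 * Real.exp (-(a m * z).re) ≤ EE r (P m) (Q m) 0 * 1 :=
                mul_le_mul_of_nonneg_left h5 (hpos m).le
            _ = EE r (P m) (Q m) 0 := mul_one _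
        exact (sub_eq_zero.1 (norm_eq_zero.1 (le_antisymm h3 (norm_nonneg _)))).symm
      funext z
      exact holP_ext (h.hol _ hχ') (h.hol _ hχ) (z0 := u0) (by
        filter_upwards [ball_mem_nhds u0 (by norm_num : (0 : ℝ) < 1 / 2)] with z hz
        exact hnear z hz) z
    rw [heq] at hcQ
    have hdat : Dat 𝒞 𝓤 χ (fun m v => P m (w m + v)) (fun m v => Q m (w m + t m (F m) + v)) a κ := by
      refine ⟨hχ, hP', hQ', hcP, hcQ, fun L => ⟨C3, hbd2 L⟩, C3, fun z => ?_⟩
      refine ⟨fun _ => 0, 0, tendsto_const_nhds, ?_, ?_⟩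
      · exact Eventually.of_forall fun m => by rw [norm_zero, zero_mul]
      · filter_upwards [hbd2 ‖z‖] with m hm
        rw [add_zero]
        exact hm z (mem_closedBall_zero_iff.2 le_rfl)
    have hfin := hB 𝓤 χ _ _ a κ hdat hinf
    have h1 : Tendsto (fun _ : ℕ => (1 : ℝ)) 𝓤 (𝓝 0) := by
      refine hfin.congr' ?_
      filter_upwards [hMge] with m hm
      have hMpos : 0 < Mx m := lt_of_lt_of_le (hpos m) hm
      simp only [add_zero]
      rw [norm_sub_rev, Complex.norm_real, Real.norm_of_nonneg (by positivity)]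
      change Mx m * (1 / Mx m) = 1
      field_simp
    exact one_ne_zero (tendsto_nhds_unique h1 tendsto_const_nhds).symm

end Pool.Agent.N155
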