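import Pool.Agent.N155.L.Zfr

/-! Entire curves of bounded derivative in open algebraic curves of logarithmic general type. -/

set_option autoImplicit false

open Filter Topology Metric Set MvPolynomial FF

namespace Pool.Agent.N155

open Pool.Agent.Y190.OP Pool.Agent.W602.GT Pool.Agent.TH143.GT

/-- roots of functions without zeros on discs -/
theorem exists_root {f : ℂ → ℂ} {c : ℂ} {r : ℝ} (hr : 0 < r) (hf : DifferentiableOn ℂ f (ball c r))
    (h0 : ∀ z ∈ ball c r, f z ≠ 0) {N : ℕ} (hN : 0 < N) :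
    ∃ v : ℂ → ℂ, DifferentiableOn ℂ v (ball c r) ∧ ∀ z ∈ ball c r, v z ^ N = f z := by
  have hd : DifferentiableOn ℂ (deriv f) (ball c r) := hf.deriv isOpen_ball
  have hq : DifferentiableOn ℂ (fun z => deriv f z / f z) (ball c r) := hd.div hf h0
  have h00 : c ∈ ball c r := mem_ball_self hr
  obtain ⟨L, hL0, hL⟩ := (hq.isExactOn_ball).with_val_at c (Complex.log (f c))
  have hder : ∀ z ∈ ball c r, HasDerivAt (fun z => Complex.exp (-L z) * f z) 0 z := by
    intro z hz
    have h1 : HasDerivAt f (deriv f z) z :=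
      (hf.differentiableAt (isOpen_ball.mem_nhds hz)).hasDerivAt
    have h2 := (hL z hz).fun_neg.cexp.fun_mul h1
    have h3 : Complex.exp (-L z) * -(deriv f z / f z) * f z + Complex.exp (-L z) * deriv f z = 0 := by
      have := h0 z hz
      field_simp
      ring
    rw [h3] at h2
    exact h2
  have hconst : ∀ z ∈ ball c r, Complex.exp (-L z) * f z = Complex.exp (-L c) * f c := by
    intro z hz
    have := (convex_ball c r).is_const_of_fderivWithin_eq_zero (𝕜 := ℂ)
      (f := fun z => Complex.exp (-L z) * f z)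
      (fun z hz => (hder z hz).differentiableAt.differentiableWithinAt) ?_ hz h00
    · exact this
    · intro x hx
      have h4 := (hder x hx).hasFDerivAt.hasFDerivWithinAt (s := ball c r)
      rw [h4.fderivWithin (isOpen_ball.uniqueDiffWithinAt hx)]
      ext
      simp
  refine ⟨fun z => Complex.exp (L z / N), fun z hz =>
    (((hL z hz).differentiableAt.div_const _).cexp).differentiableWithinAt, fun z hz => ?_⟩
  have h5 := hconst z hz
  have h6 : Complex.exp (-L c) * f c = 1 := by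
    rw [hL0, Complex.exp_neg, Complex.exp_log (h0 c h00), inv_mul_cancel₀ (h0 c h00)]
  rw [h6, Complex.exp_neg] at h5
  have hNc : (N : ℂ) ≠ 0 := by exact_mod_cast hN.ne'
  rw [← Complex.exp_nat_mul, mul_div_cancel₀ _ hNc]
  have := Complex.exp_ne_zero (L z)
  field_simp at h5
  exact h5.symm

/-- the derivative of a root -/
theorem root_deriv {f : ℂ → ℂ} {c : ℂ} {r : ℝ} (hr : 0 < r) (hf : DifferentiableOn ℂ f (ball c r))
    (h0 : ∀ z ∈ ball c r, f z ≠ 0) (h1 : ∀ z ∈ ball c r, ‖f z‖ ≤ 1) {N : ℕ} (hN : 0 < N) {w : ℂ}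
    (hw : w ∈ ball c (r / 2)) :
    ‖deriv f w ^ N / f w ^ (N - 1)‖ ≤ ((N : ℝ) * (1 / (r / 4))) ^ N := by
  obtain ⟨v, hv, hvN⟩ := exists_root hr hf h0 hN
  have hwr : w ∈ ball c r := ball_subset_ball (by linarith) hw
  have hv1 : ∀ z ∈ ball c r, ‖v z‖ ≤ 1 := by
    intro z hz
    have h2 := h1 z hz
    rw [← hvN z hz, norm_pow] at h2
    by_contra hcon
    push Not at hcon
    exact absurd (one_lt_pow₀ hcon hN.ne') (not_lt.2 h2)
  have hdv : HasDerivAt v (deriv v w) w :=
    (hv.differentiableAt (isOpen_ball.mem_nhds hwr)).hasDerivAt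
  have hdf : deriv f w = N * v w ^ (N - 1) * deriv v w := by
    have h3 : (fun z => v z ^ N) =ᶠ[𝓝 w] f := by
      filter_upwards [isOpen_ball.mem_nhds hwr] with z hz
      exact hvN z hz
    rw [← h3.deriv_eq]
    exact (hdv.fun_pow N).deriv
  have hvw : v w ≠ 0 := by
    intro h3
    apply h0 w hwr
    rw [← hvN w hwr, h3, zero_pow hN.ne']
  have hCa : ‖deriv v w‖ ≤ 1 / (r / 4) := by
    have hsub : closedBall w (r / 4) ⊆ ball c r := by
      intro z hz
      rw [mem_closedBall] at hz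
      rw [mem_ball] at hw ⊢
      have := dist_triangle z w c
      linarith
    apply Complex.norm_deriv_le_of_forall_mem_sphere_norm_le (by positivity)
    · apply DifferentiableOn.diffContOnCl
      rw [closure_ball _ (by positivity)]
      exact hv.mono hsub
    · intro z hz
      exact hv1 z (hsub (sphere_subset_closedBall hz))
  have hkey : deriv f w ^ N / f w ^ (N - 1) = (N * deriv v w) ^ N := by
    rw [hdf, ← hvN w hwr]
    have h4 : (v w ^ N) ^ (N - 1) ≠ 0 := pow_ne_zero _ (pow_ne_zero _ hvw)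
    rw [div_eq_iff h4]
    have h5 : ((v w) ^ (N - 1)) ^ N = (v w ^ N) ^ (N - 1) := by
      rw [← pow_mul, ← pow_mul, mul_comm]
    rw [mul_pow, mul_pow, mul_pow, h5]
    ring
  rw [hkey, norm_pow, norm_mul, Complex.norm_natCast]
  exact pow_le_pow_left₀ (by positivity) (mul_le_mul_of_nonneg_left hCa (by positivity)) N

variable {n : ℕ} {K : Type} [Field K] [Algebra ℂ K] {y : Fin (n + 1) → K} {R : ∀ h : K, Frac y h} {φ : ℂ → Mat (n + 1)}

/-- **The derivative of a curve of bounded derivative, measured by a form with mild poles.** -/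
theorem crv_const_log [IsFF ℂ K] (hgen : coords ℂ y = ⊤) (h : Cv y φ) {Cn : Place ℂ K → Prop}
    (hmono : ∀ P Q : Place ℂ K, Cn Q → (∀ g, Q.Reg g → P.Reg g) → Cn P)
    (hpt : ∀ w, ∃ Q : Place ℂ K, Cn Q ∧
      ∀ g, Q.Reg g ↔ h.emb R g ∈ VM (hyperfilter ℕ) (fun _ => w))
    {B : ℝ} (hB : ∀ z, ‖fderiv ℝ φ z‖ ≤ B) {N : ℕ} (hN : 0 < N)
    {ω : (Fin 1 → Derivation ℂ K K) → K}
    (hω : IsPluri N ω) (hreg : ∀ P : Place ℂ K, Cn P → RegAt P ω)
    (hlog : ∀ P : Place ℂ K, ¬ Cn P →
      (∀ g, P.Reg g → ∃ a : ℂ, g = algebraMap ℂ K a ∨ 0 < P.ord (g - algebraMap ℂ K a)) →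
      ∀ E : Fin 1 → Derivation ℂ K K, (∀ i, DerReg P (E i)) → ∀ x : K, P.ord x = 1 →
        P.Reg (x ^ (N - 1) * ω E)) {x : K}
    {E : Derivation ℂ K K} (hx : Dual ![x] ![E]) :
    ∃ c : ℂ, h.emb R (ω ![E]) * MD (h.emb R x) ^ N = algebraMap ℂ MK c := by
  classical
  set e := h.emb R with he
  obtain ⟨t, ht, htT⟩ := cl_surj (e (ω ![E]) * MD (e x) ^ N)
  by_contra hcon
  have hunb : ∀ m : ℕ, ∃ z, AnalyticAt ℂ t z ∧ (m : ℝ) < ‖t z‖ := by
    intro m
    by_contra hc
    push Not at hc
    apply hcon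
    obtain ⟨c, hc'⟩ := mk_const ht (C := m) (by
      filter_upwards [mero_an ht] with z hz
      exact hc z hz)
    exact ⟨c, by rw [← htT, hc']⟩
  choose zm hzan hzbig using hunb
  set 𝓤 : Ultrafilter ℕ := hyperfilter ℕ with h𝓤
  -- the limit point
  obtain ⟨M0, hM0, hlim⟩ : ∃ M0 ∈ TX y, Tendsto (fun m => φ (zm m)) 𝓤 (𝓝 M0) := by
    have h1 : ((𝓤.map fun m => φ (zm m)) : Filter (Mat (n + 1))) ≤ 𝓟 (TX y) := by
      rw [Ultrafilter.coe_map, le_principal_iff, mem_map]
      exact Eventually.of_forall fun m => h.mem _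
    obtain ⟨M, hM, hM'⟩ := isCompact_TX.ultrafilter_le_nhds (𝓤.map fun m => φ (zm m)) h1
    exact ⟨M, hM, hM'⟩
  obtain ⟨x0, hx0t, hx0v⟩ := exists_x0 R hgen h hM0
  have hx0ne : x0 ≠ 0 := fun h0 => hx0t (by rw [h0]; exact isAlgebraic_zero)
  obtain ⟨P, -, hP⟩ := exists_place h hx0ne (hx0v 𝓤 zm hlim)
  -- the uniformizer
  have htr1 : Algebra.trdeg ℂ K = (1 : ℕ) := by
    rw [IsFF.trdeg (k := ℂ) (K := K), Nat.cast_one]
  have hess : Algebra.EssFiniteType ℂ K := ess_of_coords hgen
  obtain ⟨y', E', i0, hb', hE', hi0, hy'r, hpres⟩ := Pool.Agent.W240.PG.Frame.main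
    Pool.Agent.W762.PG.main ℂ K 1 htr1 (fun y hy => fin_adjoin y hy) P (divisorial_one P)
  have hi00 : i0 = 0 := Subsingleton.elim _ _
  rw [hi00] at hi0
  set τ := y' 0 with hτ
  have hτne : τ ≠ 0 := by
    intro h0
    rw [h0, P.ord_zero] at hi0
    omega
  have hdual' : Dual y' E' := ⟨hb', hE'⟩
  have hτt : Transcendental ℂ τ := hb'.1.transcendental 0
  have hτv : HasVal 𝓤 zm (e τ) 0 := hasVal_of_ord h hP (by rw [hi0]; exact one_pos)
  obtain ⟨r, hr, hball⟩ := near_place hgen h hB hM0 hlim hτv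
  -- the change of coordinates
  have hEE : ω ![E] = (E τ) ^ N * ω E' := by
    have h1 := hω (Matrix.of fun i j => (![E] : Fin 1 → Derivation ℂ K K) i (y' j)) E'
    have h2 : (fun i => ∑ j, (Matrix.of fun i j => (![E] : Fin 1 → Derivation ℂ K K) i (y' j)) i j • E' j)
        = ![E] := by
      funext i
      exact (hdual'.expand ((![E] : Fin 1 → Derivation ℂ K K) i)).symm
    rw [h2, Matrix.det_fin_one] at h1
    exact h1
  have hder : IsDer e (fun k => MD (e k)) := h.isDer R
  have hchain : MD (e τ) = MD (e x) * e (E τ) := by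
    have := hder.chain hx τ
    rw [this]
    simp
  have hT : e (ω ![E]) * MD (e x) ^ N = e (ω E') * MD (e τ) ^ N := by
    rw [hEE, hchain, map_mul, map_pow, mul_pow]
    ring
  have hMDτ : MD (e τ) = cl (deriv (toMeromorphicNFOn (rep (e τ)) univ)) nf_mero.deriv := by
    have h1 : e τ = cl (toMeromorphicNFOn (rep (e τ)) univ) nf_mero := by
      conv_lhs => rw [← cl_rep (e τ)]
      rw [cl_eq]
      exact nf_codis (rep_mero _)
    conv_lhs => rw [h1]
    rw [MD_cl]
  have hmp : ∀ N : ℕ, Meromorphic ((deriv (toMeromorphicNFOn (rep (e τ)) univ)) ^ N) :=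
    fun N z => (nf_mero.deriv z).pow N
  have hpw : ∀ N : ℕ, MD (e τ) ^ N = cl ((deriv (toMeromorphicNFOn (rep (e τ)) univ)) ^ N)
      (hmp N) := by
    intro N
    induction N with
    | zero =>
      rw [pow_zero]
      have h1 : (1 : MK) = algebraMap ℂ MK 1 := (map_one _).symm
      rw [h1, ← cl_const, cl_eq]
      exact Eventually.of_forall fun z => by simp
    | succ N ih =>
      rw [pow_succ, ih, hMDτ, cl_mul, cl_eq]
      exact Eventually.of_forall fun z => by simp [pow_succ]
  have htt : ∀ᶠ z in codiscrete ℂ, t z = rep (e (ω E')) z *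
      (deriv (toMeromorphicNFOn (rep (e τ)) univ) z) ^ N := by
    have h1 : cl t ht = cl (rep (e (ω E')) * (deriv (toMeromorphicNFOn (rep (e τ)) univ)) ^ N)
        ((rep_mero _).mul (hmp N)) := by
      rw [htT, hT, ← cl_mul (rep_mero _) (hmp N), cl_rep, hpw]
    exact cl_eq.1 h1
  by_cases hPc : Cn P
  · -- a point of the open curve
    have hωE' : e (ω E') ∈ VM 𝓤 zm := (hP _).1 (hreg P hPc E' hpres)
    obtain ⟨C, hC⟩ := hωE'
    have hbig := hyper_ge' ((|C|) * (1 / (r / 4)) ^ N + 1)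
    obtain ⟨m, hm1, hm2, hm3⟩ := (hball.and (hC.and hbig)).exists
    have hnf : ∀ w ∈ ball (zm m) r, AnalyticAt ℂ (toMeromorphicNFOn (rep (e τ)) univ) w ∧
        ‖toMeromorphicNFOn (rep (e τ)) univ w‖ ≤ 1 := fun w hw =>
      nf_bounded (rep_mero _) (hm1 w hw)
    have hder2 : ∀ w ∈ ball (zm m) (r / 2),
        ‖deriv (toMeromorphicNFOn (rep (e τ)) univ) w‖ ≤ 1 / (r / 4) := by
      intro w hw
      have hsub : closedBall w (r / 4) ⊆ ball (zm m) r := by
        intro v hv
        rw [mem_closedBall] at hv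
        rw [mem_ball] at hw ⊢
        have := dist_triangle v w (zm m)
        linarith
      apply Complex.norm_deriv_le_of_forall_mem_sphere_norm_le (by positivity)
      · apply DifferentiableOn.diffContOnCl
        intro v hv
        rw [closure_ball _ (by positivity)] at hv
        exact (hnf v (hsub hv)).1.differentiableAt.differentiableWithinAt
      · intro v hv
        exact (hnf v (hsub (sphere_subset_closedBall hv))).2
    have hfin : ∀ᶠ z in 𝓝[≠] (zm m), ‖t z‖ ≤ |C| * (1 / (r / 4)) ^ N := by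
      have hb : ∀ᶠ z in 𝓝[≠] (zm m), z ∈ ball (zm m) (r / 2) :=
        (ball_mem_nhds _ (by positivity)) |> fun h => nhdsWithin_le_nhds h
      filter_upwards [codis_ev htt (zm m), hm2, hb] with z h1 h2 h3
      rw [h1, norm_mul, norm_pow]
      apply mul_le_mul (h2.trans (le_abs_self C)) _ (by positivity) (abs_nonneg C)
      exact pow_le_pow_left₀ (norm_nonneg _) (hder2 z h3) N
    have hcont : Tendsto (fun z => ‖t z‖) (𝓝[≠] (zm m)) (𝓝 ‖t (zm m)‖) :=
      ((hzan m).continuousAt.norm.tendsto).mono_left nhdsWithin_le_nhds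
    have h1 := le_of_tendsto hcont hfin
    have h2 := hzbig m
    linarith
  · -- a point of the boundary
    obtain ⟨r', hr', hzf⟩ := zero_free hgen h hmono hpt hB hM0 hlim hP hPc hτt
    have hωE' : e (τ ^ (N - 1) * ω E') ∈ VM 𝓤 zm :=
      (hP _).1 (hlog P hPc (fun g hg => exists_value h hP hg) E' hpres τ hi0)
    obtain ⟨C, hC⟩ := hωE'
    set ρ : ℝ := min r r' with hρdef
    have hρ : 0 < ρ := lt_min hr hr'
    have hbig := hyper_ge' ((|C|) * ((N : ℝ) * (1 / (ρ / 4))) ^ N + 1)
    obtain ⟨m, hm1, hm2, hm3, hm4⟩ := (hball.and (hC.and (hbig.and hzf))).exists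
    set f := toMeromorphicNFOn (rep (e τ)) univ with hf
    have hnf : ∀ w ∈ ball (zm m) ρ, AnalyticAt ℂ f w ∧ ‖f w‖ ≤ 1 := fun w hw =>
      nf_bounded (rep_mero _) (hm1 w (ball_subset_ball (min_le_left _ _) hw))
    have hfd : DifferentiableOn ℂ f (ball (zm m) ρ) := fun w hw =>
      (hnf w hw).1.differentiableAt.differentiableWithinAt
    have hf0 : ∀ w ∈ ball (zm m) ρ, f w ≠ 0 := by
      intro w hw h0
      apply hm4 w (ball_subset_ball (min_le_right _ _) hw)
      have h1 : Tendsto f (𝓝[≠] w) (𝓝 0) := by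
        have := (hnf w hw).1.continuousAt.tendsto.mono_left (nhdsWithin_le_nhds (s := {w}ᶜ))
        rwa [h0] at this
      refine h1.congr' ?_
      filter_upwards [codis_ev (nf_codis (rep_mero (e τ))) w] with z hz
      exact hz.symm
    have hfin : ∀ᶠ z in 𝓝[≠] (zm m), ‖t z‖ ≤ |C| * ((N : ℝ) * (1 / (ρ / 4))) ^ N := by
      have hb : ∀ᶠ z in 𝓝[≠] (zm m), z ∈ ball (zm m) (ρ / 2) :=
        (ball_mem_nhds _ (by positivity)) |> fun h => nhdsWithin_le_nhds h
      have hmul : ∀ᶠ z in codiscrete ℂ, rep (e (τ ^ (N - 1) * ω E')) z =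
          f z ^ (N - 1) * rep (e (ω E')) z := by
        have hmf : Meromorphic (f ^ (N - 1)) := fun z => (nf_mero (g := rep (e τ)) z).pow _
        have h1 : e (τ ^ (N - 1) * ω E') = cl (f ^ (N - 1) * rep (e (ω E')))
            (hmf.mul (rep_mero _)) := by
          have h2 : ∀ k : ℕ, e τ ^ k = cl (f ^ k) (fun z => (nf_mero (g := rep (e τ)) z).pow k) := by
            intro k
            induction k with
            | zero =>
              rw [pow_zero, ← cl_one, cl_eq]
              exact Eventually.of_forall fun z => by simp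
            | succ k ih =>
              have h3 : e τ = cl f nf_mero := by
                conv_lhs => rw [← cl_rep (e τ)]
                rw [cl_eq]
                exact nf_codis (rep_mero _)
              have h5 : cl (f ^ k) (fun z => (nf_mero (g := rep (e τ)) z).pow k) * e τ =
                  cl (f ^ k) (fun z => (nf_mero (g := rep (e τ)) z).pow k) * cl f nf_mero :=
                congrArg _ h3
              rw [pow_succ, ih, h5, cl_mul, cl_eq]
              exact Eventually.of_forall fun z => by simp [pow_succ]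
          rw [← cl_mul hmf (rep_mero _), cl_rep, map_mul, map_pow, h2]
        have h4 := rep_cl (hmf.mul (rep_mero (e (ω E'))))
        rw [← h1] at h4
        exact h4
      filter_upwards [codis_ev htt (zm m), hm2, hb, codis_ev hmul (zm m)] with z h1 h2 h3 h4
      have hzr : z ∈ ball (zm m) ρ := ball_subset_ball (by linarith) h3
      have h5 := root_deriv hρ hfd hf0 (fun w hw => (hnf w hw).2) hN h3
      have hfz : f z ^ (N - 1) ≠ 0 := pow_ne_zero _ (hf0 z hzr)
      have h6 : t z = rep (e (τ ^ (N - 1) * ω E')) z * (deriv f z ^ N / f z ^ (N - 1)) := by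
        rw [h1, h4]
        field_simp
      rw [h6, norm_mul]
      exact mul_le_mul (h2.trans (le_abs_self C)) h5 (norm_nonneg _) (abs_nonneg C)
    have hcont : Tendsto (fun z => ‖t z‖) (𝓝[≠] (zm m)) (𝓝 ‖t (zm m)‖) :=
      ((hzan m).continuousAt.norm.tendsto).mono_left nhdsWithin_le_nhds
    have h1 := le_of_tendsto hcont hfin
    have h2 := hzbig m
    linarith

end Pool.Agent.N155
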