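import Pool.Agent.N155.EvK

/-! Places with centre on an open subset of a projective variety. -/

set_option autoImplicit false

open MvPolynomial

namespace Pool.Agent.N155

open Pool.Agent.W602.GT

variable {n : ℕ} {K : Type} [Field K] [Algebra ℂ K]

/-- The place `P` of the function field `K` of the variety `X` with generic point `y` has a centre on
`X - {G = 0}`, where `G` is a form of degree `d`: for some `i` the affine coordinates `y j / y i` and
the function `(y i) ^ d / G(y)` are regular at `P`. -/
def Ctr (G : MvPolynomial (Fin (n + 1)) ℂ) (d : ℕ) (y : Fin (n + 1) → K) (P : FF.Place ℂ K) : Prop :=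
  ∃ i, y i ≠ 0 ∧ val y G ≠ 0 ∧ (∀ j, P.Reg (y j / y i)) ∧ P.Reg (y i ^ d / val y G)

end Pool.Agent.N155
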