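import Pool.Agent.N155.Del

/-! The derivation given by the normalised difference of two converging sequences of curves, with
locally bounded normalised differences. -/

set_option autoImplicit false

open Filter Topology Metric Set MvPolynomial

namespace Pool.Agent.N155

open Pool.Agent.Y190.OP Pool.Agent.W602.GT

variable {n : ℕ} {K : Type} [Field K] [Algebra ℂ K]

/-- two sequences of curves with the same limit -/
structure Dfo (y : Fin (n + 1) → K) (𝓤 : Ultrafilter ℕ) (φ : ℂ → Mat (n + 1))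
    (P Q : ℕ → ℂ → Mat (n + 1)) (wt : ℕ → ℂ → ℂ) : Prop where
  cv : Cv y φ
  hP : ∀ m, HolP univ (P m)
  hQ : ∀ m, HolP univ (Q m)
  mP : ∀ m z, P m z ∈ TX y
  mQ : ∀ m z, Q m z ∈ TX y
  lP : CConv (𝓤 : Filter ℕ) univ P φ
  lQ : CConv (𝓤 : Filter ℕ) univ Q φ
  wd : ∀ m, Differentiable ℂ (wt m)
  bd : ∀ L : ℝ, ∃ C : ℝ, ∀ᶠ m in (𝓤 : Filter ℕ), ∀ z ∈ closedBall (0 : ℂ) L,
    ‖Q m z - P m z‖ * ‖wt m z‖ ≤ C

variable {y : Fin (n + 1) → K} {𝓤 : Ultrafilter ℕ} {φ : ℂ → Mat (n + 1)}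
  {P Q : ℕ → ℂ → Mat (n + 1)} {wt : ℕ → ℂ → ℂ}

theorem Dfo.bd' (h : Dfo y 𝓤 φ P Q wt) (z0 : ℂ) :
    ∃ C : ℝ, ∀ᶠ m in (𝓤 : Filter ℕ), ∀ z ∈ ball z0 1, ‖Q m z - P m z‖ * ‖wt m z‖ ≤ C := by
  obtain ⟨C, hC⟩ := h.bd (‖z0‖ + 1)
  refine ⟨C, ?_⟩
  filter_upwards [hC] with m hm z hz
  apply hm
  rw [mem_closedBall_zero_iff]
  rw [mem_ball, dist_eq_norm] at hz
  have := norm_add_le (z - z0) z0
  rw [sub_add_cancel] at this
  linarith

/-- near a point the curves are in a given neighbourhood -/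
theorem Dfo.ev_mem (h : Dfo y 𝓤 φ P Q wt) {z0 : ℂ} {O : Set (Mat (n + 1))} (hO : O ∈ 𝓝 (φ z0)) :
    ∃ V : Set ℂ, IsOpen V ∧ z0 ∈ V ∧ V ⊆ ball z0 1 ∧
      ∀ᶠ m in (𝓤 : Filter ℕ), ∀ z ∈ V, P m z ∈ O ∧ Q m z ∈ O := by
  have h1 : ∀ᶠ p : ℕ × ℂ in (𝓤 : Filter ℕ) ×ˢ 𝓝 z0, P p.1 p.2 ∈ O ∧ Q p.1 p.2 ∈ O :=
    ((h.lP z0 (mem_univ z0)).eventually hO).and ((h.lQ z0 (mem_univ z0)).eventually hO)
  rw [eventually_prod_iff] at h1
  obtain ⟨pa, hpa, pb, hpb, hab⟩ := h1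
  obtain ⟨V, hVsub, hV, hzV⟩ := _root_.mem_nhds_iff.1
    (inter_mem hpb (ball_mem_nhds z0 one_pos))
  refine ⟨V, hV, hzV, fun z hz => (hVsub hz).2, ?_⟩
  filter_upwards [hpa] with m hm z hz
  exact hab hm (hVsub hz).1

/-- general convergence of the differences -/
theorem Dfo.dqf_conv (h : Dfo y 𝓤 φ P Q wt) {F : Mat (n + 1) → ℂ} {U : Set ℂ}
    (hF : ∀ z ∈ U, ContDiffAt ℝ 1 F (φ z))
    (hd : ∀ z ∈ U, ∃ V ∈ 𝓝 z, ∀ᶠ m in (𝓤 : Filter ℕ), DifferentiableOn ℂ (dqf F P Q wt m) V) :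
    CConv (𝓤 : Filter ℕ) U (dqf F P Q wt) (fun z => ulim 𝓤 (fun m => dqf F P Q wt m z)) := by
  obtain ⟨H, hH⟩ := ultra_montel (𝓤 := 𝓤) (U := U) (h := dqf F P Q wt) (by
    intro z0 hz0
    obtain ⟨C, O, hO, hL⟩ := (hF z0 hz0).exists_lipschitzOnWith
    obtain ⟨V, hV, hzV, hVb, hm⟩ := h.ev_mem hO
    obtain ⟨V', hV', hd'⟩ := hd z0 hz0
    obtain ⟨C', hC'⟩ := h.bd' z0
    refine ⟨V ∩ V', inter_mem (hV.mem_nhds hzV) hV', C * C', ?_⟩
    filter_upwards [hm, hd', hC'] with m h1 h2 h3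
    refine ⟨h2.mono inter_subset_right, fun w hw => ?_⟩
    unfold dqf
    rw [norm_mul]
    have h4 := hL.dist_le_mul _ (h1 w hw.1).2 _ (h1 w hw.1).1
    rw [dist_eq_norm, dist_eq_norm] at h4
    calc ‖F (Q m w) - F (P m w)‖ * ‖wt m w‖ ≤ (C * ‖Q m w - P m w‖) * ‖wt m w‖ :=
          mul_le_mul_of_nonneg_right h4 (norm_nonneg _)
      _ = C * (‖Q m w - P m w‖ * ‖wt m w‖) := by ring
      _ ≤ C * C' := mul_le_mul_of_nonneg_left (h3 w (hVb hw.1)) C.2)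
  intro z hz
  have h1 : ulim 𝓤 (fun m => dqf F P Q wt m z) = H z := ulim_eq (hH.pointwise hz)
  simp only [h1]
  exact hH z hz

variable (R : ∀ h : K, Frac y h)

theorem Dfo.ev_good (h : Dfo y 𝓤 φ P Q wt) {k : K} {z0 : ℂ} (hz : N155.good R k (φ z0)) :
    ∃ V : Set ℂ, IsOpen V ∧ z0 ∈ V ∧ ∀ᶠ m in (𝓤 : Filter ℕ), ∀ z ∈ V,
      N155.good R k (P m z) ∧ N155.good R k (Q m z) := by
  obtain ⟨V, h1, h2, -, h3⟩ := h.ev_mem ((isOpen_good R k).mem_nhds hz)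
  exact ⟨V, h1, h2, h3⟩

theorem Dfo.diff_dq (h : Dfo y 𝓤 φ P Q wt) {k : K} {z0 : ℂ} (hz : N155.good R k (φ z0)) :
    ∃ V ∈ 𝓝 z0, ∀ᶠ m in (𝓤 : Filter ℕ), DifferentiableOn ℂ (dqf (ev R k) P Q wt m) V := by
  obtain ⟨V, hV, hzV, hm⟩ := h.ev_good R hz
  refine ⟨V, hV.mem_nhds hzV, ?_⟩
  filter_upwards [hm] with m h1 w hw
  apply DifferentiableAt.differentiableWithinAt
  unfold dqf
  apply DifferentiableAt.mul _ ((h.wd m) w)
  apply DifferentiableAt.sub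
  · exact (an_qv (h.hQ m) (mem_univ w) (R k).h1 (R k).h0 (h1 w hw).2).differentiableAt
  · exact (an_qv (h.hP m) (mem_univ w) (R k).h1 (R k).h0 (h1 w hw).1).differentiableAt

theorem Dfo.conv (h : Dfo y 𝓤 φ P Q wt) (k : K) :
    CConv (𝓤 : Filter ℕ) {z | N155.good R k (φ z)} (dqf (ev R k) P Q wt) (Dl R 𝓤 P Q wt k) :=
  h.dqf_conv (fun _ hz => contDiffAt_qv hz) fun _ hz => h.diff_dq R hz

theorem Dfo.cont (h : Dfo y 𝓤 φ P Q wt) : Continuous φ :=
  continuous_iff_continuousAt.2 fun _ => h.cv.hol.continuousAt (mem_univ _)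

theorem Dfo.isOpen_good (h : Dfo y 𝓤 φ P Q wt) (k : K) : IsOpen {z | N155.good R k (φ z)} :=
  (N155.isOpen_good R k).preimage h.cont

theorem Dfo.tendsto (h : Dfo y 𝓤 φ P Q wt) {k : K} {z : ℂ} (hz : N155.good R k (φ z)) :
    Tendsto (fun m => dqf (ev R k) P Q wt m z) 𝓤 (𝓝 (Dl R 𝓤 P Q wt k z)) :=
  (h.conv R k).pointwise hz

theorem Dfo.an (h : Dfo y 𝓤 φ P Q wt) {k : K} {z : ℂ} (hz : N155.good R k (φ z)) :
    AnalyticAt ℂ (Dl R 𝓤 P Q wt k) z :=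
  (CConv.an (h.conv R k) (h.isOpen_good R k) hz (h.diff_dq R hz)).1

/-- the derivative in the direction of the deformation is meromorphic -/
theorem Dfo.mero (h : Dfo y 𝓤 φ P Q wt) (k : K) : Meromorphic (Dl R 𝓤 P Q wt k) := by
  intro z0
  obtain ⟨i, hi⟩ := PM.exists_diag (TX_PM (h.cv.mem z0))
  have hopen : IsOpen {M : Mat (n + 1) | M i i ≠ 0} :=
    isOpen_ne_fun (continuous_apply_apply i i) continuous_const
  obtain ⟨V0, hV0, hzV0, -, hm0⟩ := h.ev_mem (hopen.mem_nhds hi)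
  have hV1 : IsOpen {z | φ z i i ≠ 0} := hopen.preimage h.cont
  set V := V0 ∩ {z | φ z i i ≠ 0} with hVdef
  have hV : IsOpen V := hV0.inter hV1
  have hzV : z0 ∈ V := ⟨hzV0, hi⟩
  -- the numerators
  let N1 : ℕ → ℂ → ℂ := fun m z =>
    dqf (fun M => eval (chart i M) (R k).G1) P Q wt m z
  let N0 : ℕ → ℂ → ℂ := fun m z =>
    dqf (fun M => eval (chart i M) (R k).G0) P Q wt m z
  have hdiff : ∀ G : MvPolynomial (Fin (n + 1)) ℂ, ∀ z ∈ V, ∃ V' ∈ 𝓝 z,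
      ∀ᶠ m in (𝓤 : Filter ℕ), DifferentiableOn ℂ (dqf (fun M => eval (chart i M) G) P Q wt m) V' := by
    intro G z hz
    refine ⟨V, hV.mem_nhds hz, ?_⟩
    filter_upwards [hm0] with m h1 w hw
    apply DifferentiableAt.differentiableWithinAt
    unfold dqf
    have h2 : ∀ {χ : ℂ → Mat (n + 1)}, HolP univ χ → χ w i i ≠ 0 →
        DifferentiableAt ℂ (fun z => eval (chart i (χ z)) G) w := by
      intro χ hχ hw'
      have h3 := hχ.diff_chart (mem_univ w) hw'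
      have h4 : Differentiable ℂ fun v : Fin (n + 1) → ℂ => eval v G := by
        simp only [eval_eq']
        fun_prop
      exact (h4 _).comp w h3
    exact ((h2 (h.hQ m) (h1 w hw.1).2).sub (h2 (h.hP m) (h1 w hw.1).1)).mul ((h.wd m) w)
  have hc1 := h.dqf_conv (F := fun M => eval (chart i M) (R k).G1) (U := V)
    (fun z hz => contDiffAt_evalc hz.2 _) (hdiff _)
  have hc0 := h.dqf_conv (F := fun M => eval (chart i M) (R k).G0) (U := V)
    (fun z hz => contDiffAt_evalc hz.2 _) (hdiff _)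
  set L1 : ℂ → ℂ := fun z => ulim 𝓤 (fun m => dqf (fun M => eval (chart i M) (R k).G1) P Q wt m z)
    with hL1
  set L0 : ℂ → ℂ := fun z => ulim 𝓤 (fun m => dqf (fun M => eval (chart i M) (R k).G0) P Q wt m z)
    with hL0
  have ha1 : AnalyticAt ℂ L1 z0 := (CConv.an hc1 hV hzV (hdiff _ z0 hzV)).1
  have ha0 : AnalyticAt ℂ L0 z0 := (CConv.an hc0 hV hzV (hdiff _ z0 hzV)).1
  have hf : ∀ G : MvPolynomial (Fin (n + 1)) ℂ, AnalyticAt ℂ (fun z => eval (chart i (φ z)) G) z0 := by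
    intro G
    refine an_eval hV (fun w hw => ?_) G hzV
    exact (h.cv.hol.diff_chart (mem_univ w) hw.2).differentiableWithinAt
  have hform : ∀ z ∈ V, N155.good R k (φ z) → Dl R 𝓤 P Q wt k z =
      (L1 z * eval (chart i (φ z)) (R k).G0 - eval (chart i (φ z)) (R k).G1 * L0 z) /
        (eval (chart i (φ z)) (R k).G0 * eval (chart i (φ z)) (R k).G0) := by
    intro z hz hg
    apply ulim_eq
    have t1 := hc1.pointwise hz
    have t0 := hc0.pointwise hz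
    have hconv : ∀ {χ : ℕ → ℂ → Mat (n + 1)}, CConv (𝓤 : Filter ℕ) univ χ φ →
        ∀ G : MvPolynomial (Fin (n + 1)) ℂ, Tendsto (fun m => eval (chart i (χ m z)) G) 𝓤
          (𝓝 (eval (chart i (φ z)) G)) := by
      intro χ hχ G
      exact (contDiffAt_evalc hz.2 G).continuousAt.tendsto.comp (hχ.pointwise (mem_univ z))
    have hgn : ∀ {M : Mat (n + 1)}, M ∈ TX y → M i i ≠ 0 →
        (N155.good R k M ↔ eval (chart i M) (R k).G0 ≠ 0) ∧
        ev R k M = eval (chart i M) (R k).G1 / eval (chart i M) (R k).G0 := by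
      intro M hM hMi
      have h3 := PM.Phi_chart (TX_PM hM) hMi
      have h4 := PM.chart_ne hMi
      have h5 := good_Phi R (h := k) h4
      have h6 := ev_Phi R (h := k) h4
      rw [h3] at h5 h6
      exact ⟨h5, h6⟩
    have hne := ((hgn (h.cv.mem z) hz.2).1).1 hg
    have t2 : Tendsto (fun m => (dqf (fun M => eval (chart i M) (R k).G1) P Q wt m z *
        eval (chart i (P m z)) (R k).G0 - eval (chart i (P m z)) (R k).G1 *
        dqf (fun M => eval (chart i M) (R k).G0) P Q wt m z) /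
        (eval (chart i (Q m z)) (R k).G0 * eval (chart i (P m z)) (R k).G0)) 𝓤
        (𝓝 ((L1 z * eval (chart i (φ z)) (R k).G0 - eval (chart i (φ z)) (R k).G1 * L0 z) /
        (eval (chart i (φ z)) (R k).G0 * eval (chart i (φ z)) (R k).G0))) :=
      ((t1.mul (hconv h.lP _)).sub ((hconv h.lP _).mul t0)).div
        ((hconv h.lQ _).mul (hconv h.lP _)) (mul_ne_zero hne hne)
    refine t2.congr' ?_
    obtain ⟨V2, -, hzV2, hm2⟩ := h.ev_good R hg
    filter_upwards [hm0, hm2] with m h3 h4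
    obtain ⟨p1, p2⟩ := h3 z hz.1
    obtain ⟨q1, q2⟩ := h4 z hzV2
    obtain ⟨e1, e2⟩ := hgn (h.mP m z) p1
    obtain ⟨e3, e4⟩ := hgn (h.mQ m z) p2
    have n1 := e1.1 q1
    have n2 := e3.1 q2
    unfold dqf
    rw [e2, e4]
    field_simp
    ring
  have hgood : ∀ᶠ z in 𝓝[≠] z0, N155.good R k (φ z) := codis_ev (h.cv.good R k) z0
  have hmer : MeromorphicAt (fun z => (L1 z * eval (chart i (φ z)) (R k).G0 -
      eval (chart i (φ z)) (R k).G1 * L0 z) /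
        (eval (chart i (φ z)) (R k).G0 * eval (chart i (φ z)) (R k).G0)) z0 := by
    have h1 := ((ha1.mul (hf (R k).G0)).sub ((hf (R k).G1).mul ha0)).meromorphicAt
    have h2 := ((hf (R k).G0).mul (hf (R k).G0)).meromorphicAt
    exact h1.div h2
  refine hmer.congr ?_
  filter_upwards [hgood, (hV.mem_nhds hzV : V ∈ 𝓝 z0) |> mem_nhdsWithin_of_mem_nhds] with z h1 h2
  exact (hform z h2 h1).symm

/-- the derivation -/
noncomputable def Dfo.del (h : Dfo y 𝓤 φ P Q wt) (k : K) : MK :=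
  cl (Dl R 𝓤 P Q wt k) (h.mero R k)

theorem Dfo.isDer (h : Dfo y 𝓤 φ P Q wt) : IsDer (h.cv.emb R) (h.del R) := by
  have hgm : ∀ {k : K} {z : ℂ}, N155.good R k (φ z) → ∀ᶠ m in (𝓤 : Filter ℕ),
      N155.good R k (P m z) ∧ N155.good R k (Q m z) := by
    intro k z hz
    obtain ⟨V, -, hzV, hm⟩ := h.ev_good R hz
    filter_upwards [hm] with m h1
    exact h1 z hzV
  have hev : ∀ {χ : ℕ → ℂ → Mat (n + 1)}, CConv (𝓤 : Filter ℕ) univ χ φ → ∀ {k : K} {z : ℂ},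
      N155.good R k (φ z) → Tendsto (fun m => ev R k (χ m z)) 𝓤 (𝓝 (ev R k (φ z))) :=
    fun hχ _ _ hz => (continuousAt_qv hz).tendsto.comp (hχ.pointwise (mem_univ _))
  constructor
  · intro a b
    unfold Dfo.del
    rw [cl_add, cl_eq]
    filter_upwards [h.cv.good R a, h.cv.good R b, h.cv.good R (a + b)] with z g1 g2 g3
    apply ulim_eq
    refine ((h.tendsto R g1).add (h.tendsto R g2)).congr' ?_
    filter_upwards [hgm g1, hgm g2, hgm g3] with m q1 q2 q3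
    unfold dqf
    rw [ev_add R (h.mQ m z) q1.2 q2.2 q3.2, ev_add R (h.mP m z) q1.1 q2.1 q3.1]
    ring
  · intro a b
    unfold Dfo.del
    rw [Cv.emb_apply, Cv.emb_apply, cl_mul, cl_mul, cl_add, cl_eq]
    filter_upwards [h.cv.good R a, h.cv.good R b, h.cv.good R (a * b)] with z g1 g2 g3
    apply ulim_eq
    have t := ((hev h.lP g1).mul (h.tendsto R g2)).add ((hev h.lQ g2).mul (h.tendsto R g1))
    refine t.congr' ?_
    filter_upwards [hgm g1, hgm g2, hgm g3] with m q1 q2 q3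
    unfold dqf
    rw [ev_mul R (h.mQ m z) q1.2 q2.2 q3.2, ev_mul R (h.mP m z) q1.1 q2.1 q3.1]
    ring
  · intro c
    unfold Dfo.del
    rw [cl_eq_zero]
    filter_upwards [h.cv.good R (algebraMap ℂ K c)] with z g
    apply ulim_eq
    refine tendsto_const_nhds.congr' ?_
    filter_upwards [hgm g] with m q
    unfold dqf
    rw [ev_const R c (h.mQ m z) q.2, ev_const R c (h.mP m z) q.1]
    ring

end Pool.Agent.N155
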