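import Pool.Agent.N155.IR
import Pool.Agent.N155.L.Ctr

/-! Rigidity of the curves in an open surface with pluricanonical forms. -/

set_option autoImplicit false

open Filter Topology Metric Set MvPolynomial

namespace Pool.Agent.N155

open FF Pool.Agent.Y190.OP Pool.Agent.W602.GT Pool.Agent.TH143.GT

variable {n : ℕ} {K : Type} [Field K] [Algebra ℂ K] {y : Fin (n + 1) → K}

variable (R : ∀ h : K, Frac y h)

/-- local boundedness at `M0` of the functions which are regular at the prime divisors with centre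
outside `G = 0` -/
def LBp (G : MvPolynomial (Fin (n + 1)) ℂ) (d : ℕ) (M0 : Mat (n + 1)) : Prop :=
  ∃ (i j k : Fin (n + 1)) (E : Fin 2 → Derivation ℂ K K),
  y i ≠ 0 ∧ nz (X i) M0 ∧ Dual ![y j / y i, y k / y i] E ∧
  ∀ q : K, (∀ v : Place ℂ K, Divisorial 2 v → Ctr G d y v → (∀ l, DerReg v (E l)) → v.Reg q) →
    ∃ O ∈ 𝓝 M0, ∃ C : ℝ, ∀ M ∈ O ∩ TX y, good R q M → ‖ev R q M‖ ≤ C

variable {𝓤 : Ultrafilter ℕ} {φ : ℂ → Mat (n + 1)} {P Q : ℕ → ℂ → Mat (n + 1)} {wt : ℕ → ℂ → ℂ}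

/-- the values of the regular pluricanonical forms on the curve and the deformation are bounded -/
theorem Defo.T_const' (h : Defo y 𝓤 φ P Q wt) {S : Set (Mat (n + 1))} (hS : IsCompact S)
    (hφS : ∀ z, φ z ∈ S) {G : MvPolynomial (Fin (n + 1)) ℂ} {dG : ℕ}
    (hLB : ∀ M0 ∈ S, LBp R G dG M0) {B : ℝ} (hB : ∀ z, ‖fderiv ℝ φ z‖ ≤ B)
    {N : ℕ} {ω : (Fin 2 → Derivation ℂ K K) → K} (hω : IsPluri N ω)
    (hreg : ∀ v : Place ℂ K, Divisorial 2 v → Ctr G dG y v → RegAt v ω) {x : Fin 2 → K}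
    {E : Fin 2 → Derivation ℂ K K} (hx : Dual x E) :
    ∃ c : ℂ, h.cv.emb R (ω E) * W2 (fun k => MD (h.cv.emb R k)) (h.del R) x ^ N =
      algebraMap ℂ MK c := by
  classical
  set e := h.cv.emb R with he
  set T : MK := e (ω E) * W2 (fun k => MD (e k)) (h.del R) x ^ N with hT
  obtain ⟨t, ht, htT⟩ := cl_surj T
  -- the local data
  have hloc : ∀ M0 : Mat (n + 1), ∃ (O : Set (Mat (n + 1))) (C : ℝ), M0 ∈ S → IsOpen O ∧ M0 ∈ O ∧
      ∀ᶠ z in codiscrete ℂ, φ z ∈ O → ‖t z‖ ≤ C := by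
    intro M0
    by_cases hM0 : M0 ∈ S
    swap
    · exact ⟨∅, 0, fun h => absurd h hM0⟩
    obtain ⟨i, j, k, E', hi, hnz, hD, hq⟩ := hLB M0 hM0
    obtain ⟨O1, hO1, C1, hC1⟩ := hq (ω E') (fun v hv hc hr => hreg v hv hc E' hr)
    obtain ⟨C2, O2, hC2, hO2, hL2⟩ := lip_qv (G1 := (X j : MvPolynomial (Fin (n + 1)) ℂ)) hnz
    obtain ⟨C3, O3, hC3, hO3, hL3⟩ := lip_qv (G1 := (X k : MvPolynomial (Fin (n + 1)) ℂ)) hnz
    obtain ⟨O, hOsub, hO, hM0O⟩ := _root_.mem_nhds_iff.1 (inter_mem (inter_mem hO1 hO2)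
      (inter_mem hO3 ((isOpen_nz (X i)).mem_nhds hnz)))
    refine ⟨O, |C1| * (C2 * B * (C3 * 2) + C3 * B * (C2 * 2)) ^ N, fun _ => ⟨hO, hM0O, ?_⟩⟩
    have hO1' : ∀ M ∈ O, M ∈ O1 := fun M hM => (hOsub hM).1.1
    have hL2' : ∀ M ∈ O, ∀ M' ∈ O, ‖qv (X j) (X i) M - qv (X j) (X i) M'‖ ≤ C2 * ‖M - M'‖ :=
      fun M hM M' hM' => hL2 M (hOsub hM).1.2 M' (hOsub hM').1.2
    have hL3' : ∀ M ∈ O, ∀ M' ∈ O, ‖qv (X k) (X i) M - qv (X k) (X i) M'‖ ≤ C3 * ‖M - M'‖ :=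
      fun M hM M' hM' => hL3 M (hOsub hM).2.1 M' (hOsub hM').2.1
    have hnz' : ∀ M ∈ O, nz (X i) M := fun M hM => (hOsub hM).2.2
    -- the identity
    have hid : cl t ht = e (ω E') * W2 (fun k => MD (e k)) (h.del R)
        ![y j / y i, y k / y i] ^ N := by
      rw [htT, hT]
      exact T_indep hω (h.cv.isDer R) (h.isDer R) hx hD
    have hid2 : e (ω E') * W2 (fun k => MD (e k)) (h.del R) ![y j / y i, y k / y i] ^ N =
        e (ω E') * (MD (e (y j / y i)) * h.del R (y k / y i) -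
          MD (e (y k / y i)) * h.del R (y j / y i)) ^ N := by
      unfold W2
      simp only [Matrix.cons_val_zero, Matrix.cons_val_one]
    rw [hid2] at hid
    have hm1 : Meromorphic (fun z => ev R (ω E') (φ z)) := h.cv.mero R _
    set u : ℂ → ℂ := fun z => ev R (ω E') (φ z) *
      (deriv (fun w => ev R (y j / y i) (φ w)) z * Dl R 𝓤 P Q wt (y k / y i) z -
        deriv (fun w => ev R (y k / y i) (φ w)) z * Dl R 𝓤 P Q wt (y j / y i) z) ^ N with hu
    have hu' : ∀ᶠ z in codiscrete ℂ, t z = u z := by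
      have d1 := (h.cv.mero R (y j / y i)).deriv
      have d2 := (h.cv.mero R (y k / y i)).deriv
      have f1 : Meromorphic (fun z => deriv (fun w => ev R (y j / y i) (φ w)) z *
          Dl R 𝓤 P Q wt (y k / y i) z - deriv (fun w => ev R (y k / y i) (φ w)) z *
          Dl R 𝓤 P Q wt (y j / y i) z) := (d1.mul (h.mero R _)).sub (d2.mul (h.mero R _))
      have hmu : Meromorphic u := fun z => (hm1 z).mul ((f1 z).pow N)
      have e1 : cl t ht = cl u hmu := by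
        rw [hid, he, Cv.emb_apply, Cv.emb_apply, Cv.emb_apply, MD_cl, MD_cl]
        rfl
      exact cl_eq.1 e1
    filter_upwards [hu', h.cv.good R (ω E'), h.cv.good R (y j / y i), h.cv.good R (y k / y i)]
      with z h1 h2 h3 h4 hz
    rw [h1, hu]
    simp only
    rw [norm_mul, norm_pow]
    have b1 : ‖ev R (ω E') (φ z)‖ ≤ |C1| :=
      (hC1 _ ⟨hO1' _ hz, h.cv.mem z⟩ h2).trans (le_abs_self _)
    have b2 := deriv_bound R h.cv hB hi hO hC2 hL2' hnz' hz h3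
    have b3 := deriv_bound R h.cv hB hi hO hC3 hL3' hnz' hz h4
    have b4 := h.bound R hi hO hC2 hL2' hnz' hz h3
    have b5 := h.bound R hi hO hC3 hL3' hnz' hz h4
    have hB0 : 0 ≤ B := (norm_nonneg _).trans (hB 0)
    apply mul_le_mul b1 _ (by positivity) (abs_nonneg _)
    apply pow_le_pow_left₀ (norm_nonneg _)
    refine (norm_sub_le _ _).trans ?_
    rw [norm_mul, norm_mul]
    exact add_le_add (mul_le_mul b2 b5 (norm_nonneg _) (by positivity))
      (mul_le_mul b3 b4 (norm_nonneg _) (by positivity))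
  choose O C hOC using hloc
  obtain ⟨S', hS', hcov⟩ := hS.elim_nhds_subcover O
    (fun M hM => ((hOC M hM).1).mem_nhds (hOC M hM).2.1)
  have hall : ∀ᶠ z in codiscrete ℂ, ∀ M ∈ S', φ z ∈ O M → ‖t z‖ ≤ C M := by
    rw [Filter.eventually_all_finset]
    exact fun M hM => (hOC M (hS' M hM)).2.2
  obtain ⟨c, hc⟩ := mk_const ht (C := ∑ M ∈ S', |C M|) (by
    filter_upwards [hall] with z hz
    obtain ⟨M, hMS, hM⟩ := mem_iUnion₂.1 (hcov (hφS z))
    refine (hz M hMS hM).trans ((le_abs_self _).trans ?_)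
    exact Finset.single_le_sum (f := fun M => |C M|) (fun _ _ => abs_nonneg _) hMS)
  exact ⟨c, by rw [← hc, htT]⟩

/-- **Rigidity.** -/
theorem Defo.rigid' (h : Defo y 𝓤 φ P Q wt) {S : Set (Mat (n + 1))} (hS : IsCompact S)
    (hφS : ∀ z, φ z ∈ S) {G : MvPolynomial (Fin (n + 1)) ℂ} {dG : ℕ}
    (hLB : ∀ M0 ∈ S, LBp R G dG M0) {B : ℝ} (hB : ∀ z, ‖fderiv ℝ φ z‖ ≤ B)
    {N : ℕ} (hN : 0 < N) {ω0 ω1 : (Fin 2 → Derivation ℂ K K) → K} (hω0 : IsPluri N ω0)
    (hω1 : IsPluri N ω1)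
    (hreg0 : ∀ v : Place ℂ K, Divisorial 2 v → Ctr G dG y v → RegAt v ω0)
    (hreg1 : ∀ v : Place ℂ K, Divisorial 2 v → Ctr G dG y v → RegAt v ω1)
    {D : Fin 2 → Derivation ℂ K K}
    (hD : ω0 D ≠ 0) (hr : Transcendental ℂ (ω1 D / ω0 D)) {a x2 : K}
    {E : Fin 2 → Derivation ℂ K K} (hx : Dual ![a, x2] E) (hda : MD (h.cv.emb R a) ≠ 0)
    (hSB : ∀ m z, N155.good R a (P m z) → N155.good R a (Q m z) →
      ev R a (P m z) = ev R a (Q m z))
    (hnorm : ∀ᶠ m in (𝓤 : Filter ℕ), 1 ≤ ‖Q m 0 - P m 0‖ * ‖wt m 0‖) : False := by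
  set e := h.cv.emb R with he
  have hδa : h.del R a = 0 := by
    unfold Defo.del
    rw [cl_eq_zero]
    filter_upwards [h.cv.good R a] with z hz
    apply ulim_eq
    refine tendsto_const_nhds.congr' ?_
    obtain ⟨V, -, hzV, hm⟩ := h.ev_good R hz
    filter_upwards [hm] with m h1
    unfold dqf
    rw [hSB m z (h1 z hzV).1 (h1 z hzV).2, sub_self, zero_mul]
  obtain ⟨c0, hc0⟩ := h.T_const' R hS hφS hLB hB hω0 hreg0 hx
  obtain ⟨c1, hc1⟩ := h.T_const' R hS hφS hLB hB hω1 hreg1 hx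
  have hE0 : ω0 E ≠ 0 := pluri_ne hω0 hx hD
  have hratio : ω1 D / ω0 D = ω1 E / ω0 E := pluri_ratio hω0 hω1 hx hD
  have hc00 : c0 = 0 := by
    by_contra hne
    apply hr
    have h1 : e (ω1 E / ω0 E) = algebraMap ℂ MK (c1 / c0) := by
      rw [map_div₀, map_div₀, ← hc0, ← hc1]
      have h2 : W2 (fun k => MD (e k)) (h.del R) ![a, x2] ^ N ≠ 0 := by
        intro h3
        rw [h3, mul_zero] at hc0
        apply hne
        exact ((map_eq_zero_iff (algebraMap ℂ MK) (algebraMap ℂ MK).injective).1 hc0.symm)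
      rw [mul_div_mul_right _ _ h2]
    have h2 : ω1 D / ω0 D = algebraMap ℂ K (c1 / c0) := by
      rw [hratio]
      apply e.toRingHom.injective
      change e _ = e _
      rw [h1, e.commutes]
    rw [h2]
    exact isAlgebraic_algebraMap _
  rw [hc00, map_zero] at hc0
  have h1 : e (ω0 E) ≠ 0 := by
    intro h2
    apply hE0
    exact (map_eq_zero_iff e e.toRingHom.injective).1 h2
  have h2 : W2 (fun k => MD (e k)) (h.del R) ![a, x2] = 0 := by
    have h3 := (mul_eq_zero.1 hc0).resolve_left h1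
    exact (pow_eq_zero_iff hN.ne').1 h3
  unfold W2 at h2
  simp only [Matrix.cons_val_zero, Matrix.cons_val_one, hδa, mul_zero, sub_zero] at h2
  have h3 : h.del R x2 = 0 := (mul_eq_zero.1 h2).resolve_left hda
  obtain ⟨k, hk⟩ := h.del_ne R hnorm
  apply hk
  refine (h.isDer R).zero ![a, x2] hx.1 ?_ k
  intro i
  fin_cases i
  · exact hδa
  · exact h3

end Pool.Agent.N155
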