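import Pool.Agent.N155.L.Crl
import Pool.Agent.W602.GT.NG

/-! Open algebraic curves of logarithmic general type carry no curves of bounded derivative. -/

set_option autoImplicit false

open Filter Topology Metric Set MvPolynomial FF

namespace Pool.Agent.N155

open Pool.Agent.Y190.OP Pool.Agent.W602.GT Pool.Agent.TH143.GT

variable {n : ℕ} {κ : Type} {G : κ → MvPolynomial (Fin (n + 1)) ℂ} {K : Type} [Field K]
  [Algebra ℂ K] {y : Fin (n + 1) → K}

theorem smul_log {P : Place ℂ K} {E : Derivation ℂ K K} (hE : DerReg P E) {x : K}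
    (hx : P.ord x = 1) : DerLog P (x • E) := by
  have hx0 : x ≠ 0 := by
    rintro rfl
    rw [P.ord_zero] at hx
    omega
  have hxr : P.Reg x := Or.inr (by omega)
  apply pl_log (τ := x)
  · intro f hf
    rw [Derivation.smul_apply, smul_eq_mul]
    exact P.reg_mul hxr (hE f hf)
  · exact hx
  · rw [Derivation.smul_apply, smul_eq_mul, mul_div_cancel_left₀ _ hx0]
    exact hE x hxr

theorem pluri_smul {N : ℕ} {ω : (Fin 1 → Derivation ℂ K K) → K} (hω : IsPluri N ω) (a : K)
    (E : Fin 1 → Derivation ℂ K K) : ω (fun i => a • E i) = a ^ N * ω E := by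
  have h1 := hω (Matrix.of fun _ _ => a) E
  rw [Matrix.det_fin_one] at h1
  have h2 : (fun i => ∑ j, (Matrix.of fun _ _ => a : Matrix (Fin 1) (Fin 1) K) i j • E j) =
      fun i => a • E i := by
    funext i
    rw [Fin.sum_univ_one, Matrix.of_apply, Subsingleton.elim i 0]
  rw [h2] at h1
  exact h1

/-- a coordinate of minimal order -/
theorem exists_min (P : Place ℂ K) (hy : y ≠ 0) : ∃ i, y i ≠ 0 ∧ ∀ j, P.Reg (y j / y i) := by
  classical
  obtain ⟨i0, hi0⟩ := Function.ne_iff.1 hy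
  obtain ⟨i, hi, hmin⟩ := Finset.exists_min_image (Finset.univ.filter fun i => y i ≠ 0)
    (fun i => P.ord (y i)) ⟨i0, by simpa using hi0⟩
  rw [Finset.mem_filter] at hi
  refine ⟨i, hi.2, fun j => ?_⟩
  by_cases hj : y j = 0
  · rw [hj, zero_div]
    exact P.reg_zero
  · right
    rw [P.ord_div hj hi.2]
    have := hmin j (by simp [hj])
    linarith

theorem reg_prod {P : Place ℂ K} {ι : Type} (s : Finset ι) (f : ι → K)
    (hf : ∀ i ∈ s, P.Reg (f i)) : P.Reg (∏ i ∈ s, f i) := by
  classical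
  induction s using Finset.induction_on with
  | empty =>
    rw [Finset.prod_empty]
    exact P.reg_one
  | insert c s hc ih =>
    rw [Finset.prod_insert hc]
    exact P.reg_mul (hf c (Finset.mem_insert_self _ _))
      (ih fun c' hc' => hf c' (Finset.mem_insert_of_mem hc'))

theorem reg_sub {P : Place ℂ K} {f g : K} (hf : P.Reg f) (hg : P.Reg g) : P.Reg (f - g) := by
  rw [sub_eq_add_neg]
  exact P.reg_add hf (P.reg_neg hg)

/-- there are finitely many places without centre -/
theorem finite_noncentre [IsFF ℂ K] (hG : ∀ l, IsForm (G l)) (hy : y ≠ 0) {l : κ}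
    (hl : val y (G l) ≠ 0) : {P : Place ℂ K | ¬ HasCentre G y P}.Finite := by
  classical
  obtain ⟨d, hd⟩ := hG l
  have hfin : ∀ i, {P : Place ℂ K | y i ≠ 0 ∧ 0 < P.ord (val y (G l) / y i ^ d)}.Finite := by
    intro i
    by_cases hyi : y i = 0
    · convert Set.finite_empty
      ext P
      simp [hyi]
    have hne : val y (G l) / y i ^ d ≠ 0 := div_ne_zero hl (pow_ne_zero _ hyi)
    by_cases halg : IsAlgebraic ℂ (val y (G l) / y i ^ d)
    · convert Set.finite_empty
      ext P
      simp only [mem_ofPred_eq, mem_empty_iff_false, iff_false, not_and, not_lt]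
      intro _
      rw [P.ord_eq_zero_of_isAlgebraic hne halg]
    · obtain ⟨S, hS, -, -⟩ := zeros halg
      apply S.finite_toSet.subset
      intro P hP
      exact (hS P).2 hP.2
  apply (Set.finite_iUnion hfin).subset
  intro P hP
  obtain ⟨i, hi, hmin⟩ := exists_min P hy
  rw [mem_iUnion]
  refine ⟨i, hi, ?_⟩
  by_contra hcon
  push Not at hcon
  apply hP
  refine ⟨l, d, hd, i, hi, hl, hmin, Or.inr ?_⟩
  have h1 : y i ^ d / val y (G l) = (val y (G l) / y i ^ d)⁻¹ := by rw [inv_div]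
  rw [h1, P.ord_inv]
  linarith

/-- **Open algebraic curves of logarithmic general type carry no curves of bounded derivative.** -/
theorem crv_log_not_general (hgen : coords ℂ y = ⊤) {φ : ℂ → Mat (n + 1)} (h : Cv y φ)
    {Cn : Place ℂ K → Prop}
    (hmono : ∀ P Q : Place ℂ K, Cn Q → (∀ g, Q.Reg g → P.Reg g) → Cn P)
    (hpt : IsFF ℂ K → ∀ (R : ∀ h : K, Frac y h) (w : ℂ), ∃ Q : Place ℂ K, Cn Q ∧
      ∀ g, Q.Reg g ↔ h.emb R g ∈ VM (hyperfilter ℕ) (fun _ => w))
    (hSfin : IsFF ℂ K → {P : Place ℂ K | ¬ Cn P}.Finite) {B : ℝ}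
    (hB : ∀ z, ‖fderiv ℝ φ z‖ ≤ B) : ¬ LogGeneralType ℂ K 1 (fun P => ¬ Cn P) := by
  classical
  rintro ⟨htr, N, hN, ω, hω, hlog, hreg, D, hD0, hDi⟩
  have hess : Algebra.EssFiniteType ℂ K := ess_of_coords hgen
  have hff : IsFF ℂ K := ⟨hess, by rw [htr, Nat.cast_one]⟩
  let R : ∀ h : K, Frac y h := fr hgen
  -- the ratio
  set r : K := ω 1 D / ω 0 D with hr
  have hrt : Transcendental ℂ r := hDi.transcendental 0
  -- the places without centre
  have hSfin := hSfin hff
  set C : Set ℂ := {c | ∃ P : Place ℂ K, ¬ Cn P ∧ 0 < P.ord (r - algebraMap ℂ K c)} with hC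
  have hCfin : C.Finite := by
    have h1 : C ⊆ ⋃ P ∈ {P : Place ℂ K | ¬ Cn P},
        {c | 0 < P.ord (r - algebraMap ℂ K c)} := by
      rintro c ⟨P, hP, hc⟩
      rw [mem_iUnion₂]
      exact ⟨P, hP, hc⟩
    refine (hSfin.biUnion fun P _ => ?_).subset h1
    apply Set.Subsingleton.finite
    intro c hc c' hc'
    by_contra hne
    have h2 : (r - algebraMap ℂ K c') - (r - algebraMap ℂ K c) = algebraMap ℂ K (c - c') := by
      rw [map_sub]
      ring
    have hrc : ∀ c : ℂ, r - algebraMap ℂ K c ≠ 0 := by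
      intro c h0
      apply hrt
      rw [sub_eq_zero.1 h0]
      exact isAlgebraic_algebraMap _
    have hcc : c - c' ≠ 0 := sub_ne_zero.2 hne
    have h3 := P.ord_sub (hrc c') (hrc c) (by
      rw [h2]
      exact (map_ne_zero _).2 hcc)
    rw [h2, P.ord_const hcc] at h3
    simp only [mem_ofPred_eq] at hc hc'
    have := lt_min hc' hc
    omega
  set Cf : Finset ℂ := hCfin.toFinset with hCf
  -- the change of forms
  have htrans : ∀ (j : Fin 2) (E : Fin 1 → Derivation ℂ K K) (a : K),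
      ω j (fun i => a • E i) = a ^ N * ω j E := fun j E a => pluri_smul (hω j) a E
  have hN' : 0 < N * (Cf.card + 2) := Nat.mul_pos hN (Nat.succ_pos _)
  set ω' : Fin 2 → (Fin 1 → Derivation ℂ K K) → K := fun j E =>
    ω 0 E * (∏ c ∈ Cf, (ω 1 E - algebraMap ℂ K c * ω 0 E)) * ω j E with hω'
  have hωP : ∀ j, IsPluri (N * (Cf.card + 2)) (ω' j) := by
    intro j A E
    simp only [hω']
    rw [hω 0, hω 1, hω j]
    have h1 : ∀ c ∈ Cf, (A.det ^ N * ω 1 E - algebraMap ℂ K c * (A.det ^ N * ω 0 E)) =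
        A.det ^ N * (ω 1 E - algebraMap ℂ K c * ω 0 E) := by
      intro c _
      ring
    rw [Finset.prod_congr rfl h1, Finset.prod_mul_distrib, Finset.prod_const]
    have h2 : A.det ^ (N * (Cf.card + 2)) = A.det ^ N * (A.det ^ N) ^ Cf.card * A.det ^ N := by
      rw [pow_mul, pow_add, pow_two]
      ring
    rw [h2]
    generalize A.det ^ N = a
    generalize (∏ c ∈ Cf, (ω 1 E - algebraMap ℂ K c * ω 0 E)) = b
    ring
  have hregP : ∀ j, ∀ P : Place ℂ K, Cn P → RegAt P (ω' j) := by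
    intro j P hP E hE
    have h0 : ∀ j, P.Reg (ω j E) := fun j => hreg P (divisorial_one P) (not_not.2 hP) j E hE
    refine P.reg_mul (P.reg_mul (h0 0) ?_) (h0 j)
    exact reg_prod _ _ fun c _ => reg_sub (h0 1) (P.reg_mul (P.reg_const c) (h0 0))
  obtain ⟨x, hx⟩ := IsFF.exists_transcendental (k := ℂ) (K := K)
  have hxb : IsTranscendenceBasis ℂ (![x] : Fin 1 → K) := by
    have h1 : AlgebraicIndependent ℂ (![x] : Fin 1 → K) := by
      rw [algebraicIndependent_unique_type_iff]
      exact hx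
    apply h1.isTranscendenceBasis_of_trdeg_le_of_finite
    rw [htr, Cardinal.mk_fin]
  obtain ⟨E, hE⟩ := exists_der (![x] : Fin 1 → K) hxb (fun _ => 1)
  have hdual : Dual ![x] ![E] := by
    refine ⟨hxb, fun i j => ?_⟩
    rw [Subsingleton.elim i 0, Subsingleton.elim j 0, if_pos rfl]
    exact hE 0
  have hch : ∀ (D : Fin 1 → Derivation ℂ K K) (j : Fin 2),
      ω j D = (D 0 x) ^ N * ω j ![E] := by
    intro D j
    have h1 := hω j (Matrix.of fun i l => D i ((![x] : Fin 1 → K) l)) ![E]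
    have h2 : (fun i => ∑ l, (Matrix.of fun i l => D i ((![x] : Fin 1 → K) l)) i l •
        (![E] : Fin 1 → Derivation ℂ K K) l) = D := by
      funext i
      exact (hdual.expand (D i)).symm
    rw [h2, Matrix.det_fin_one] at h1
    exact h1
  have hDx : (D 0 x) ^ N ≠ 0 := by
    intro h0
    apply hD0
    rw [hch, h0, zero_mul]
  have hω0 : ω 0 ![E] ≠ 0 := by
    intro h0
    apply hD0
    rw [hch, h0, mul_zero]
  have hrE : ω 1 ![E] = r * ω 0 ![E] := by
    rw [hr, hch D 1, hch D 0]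
    field_simp
  have hrA : ∀ E' : Fin 1 → Derivation ℂ K K, ω 1 E' = r * ω 0 E' := by
    intro E'
    rw [hch E' 1, hch E' 0, hrE]
    ring
  have hrc : ∀ c : ℂ, r - algebraMap ℂ K c ≠ 0 := by
    intro c h0
    apply hrt
    rw [sub_eq_zero.1 h0]
    exact isAlgebraic_algebraMap _
  have hlogP : ∀ j, ∀ P : Place ℂ K, ¬ Cn P →
      (∀ g, P.Reg g → ∃ a : ℂ, g = algebraMap ℂ K a ∨ 0 < P.ord (g - algebraMap ℂ K a)) →
      ∀ E : Fin 1 → Derivation ℂ K K, (∀ i, DerReg P (E i)) → ∀ x : K, P.ord x = 1 →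
        P.Reg (x ^ (N * (Cf.card + 2) - 1) * ω' j E) := by
    intro j P hP hval E hE x hx
    have hx0 : x ≠ 0 := by
      rintro rfl
      rw [P.ord_zero] at hx
      omega
    set A : Fin 2 → K := fun j => ω j (fun i => x • E i) with hA
    have hAE : ∀ j, A j = x ^ N * ω j E := fun j => htrans j E x
    have hAr : ∀ j, P.Reg (A j) := fun j =>
      hlog P (divisorial_one P) j _ fun i => smul_log (hE i) hx
    have hA1 : A 1 = r * A 0 := hrA _
    set T : K := A 0 * (∏ c ∈ Cf, (A 1 - algebraMap ℂ K c * A 0)) * A j with hT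
    have hTx : x ^ (N * (Cf.card + 2)) * ω' j E = T := by
      have h1 : ∀ c ∈ Cf, (A 1 - algebraMap ℂ K c * A 0) =
          x ^ N * (ω 1 E - algebraMap ℂ K c * ω 0 E) := by
        intro c _
        rw [hAE, hAE]
        ring
      rw [hT, Finset.prod_congr rfl h1, Finset.prod_mul_distrib, Finset.prod_const, hAE, hAE]
      have h2 : x ^ (N * (Cf.card + 2)) = x ^ N * (x ^ N) ^ Cf.card * x ^ N := by
        rw [pow_mul, pow_add, pow_two]
        ring
      rw [h2]
      simp only [hω']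
      generalize x ^ N = a
      generalize (∏ c ∈ Cf, (ω 1 E - algebraMap ℂ K c * ω 0 E)) = b
      ring
    have hprod : P.Reg (∏ c ∈ Cf, (A 1 - algebraMap ℂ K c * A 0)) :=
      reg_prod _ _ fun c _ => reg_sub (hAr 1) (P.reg_mul (P.reg_const c) (hAr 0))
    have hTg : T = 0 ∨ 1 ≤ P.ord T := by
      by_cases h0 : A 0 = 0
      · left
        rw [hT, h0]
        ring
      by_cases hj0 : A j = 0
      · left
        rw [hT, hj0]
        ring
      by_cases hp0 : (∏ c ∈ Cf, (A 1 - algebraMap ℂ K c * A 0)) = 0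
      · left
        rw [hT, hp0]
        ring
      right
      have hj1 := (P.reg_iff hj0).1 (hAr j)
      have h01 := (P.reg_iff h0).1 (hAr 0)
      have hp1 := (P.reg_iff hp0).1 hprod
      rw [hT, P.ord_mul (mul_ne_zero h0 hp0) hj0, P.ord_mul h0 hp0]
      by_cases hA0 : 1 ≤ P.ord (A 0)
      · linarith
      have hA0' : P.ord (A 0) = 0 := by omega
      have hrr : P.Reg r := by
        have h1 : r = A 1 * (A 0)⁻¹ := by
          rw [hA1]
          field_simp
        rw [h1]
        exact P.reg_mul (hAr 1) (Or.inr (by rw [P.ord_inv, hA0', neg_zero]))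
      obtain ⟨a, ha | ha⟩ := hval r hrr
      · exact absurd (sub_eq_zero.2 ha) (hrc a)
      have haC : a ∈ Cf := hCfin.mem_toFinset.2 ⟨P, hP, ha⟩
      have h2 : A 1 - algebraMap ℂ K a * A 0 = A 0 * (r - algebraMap ℂ K a) := by
        rw [hA1]
        ring
      have h3 := Finset.mul_prod_erase Cf (fun c => A 1 - algebraMap ℂ K c * A 0) haC
      have h4 : P.Reg (∏ c ∈ Cf.erase a, (A 1 - algebraMap ℂ K c * A 0)) :=
        reg_prod _ _ fun c _ => reg_sub (hAr 1) (P.reg_mul (P.reg_const c) (hAr 0))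
      rw [← h3] at hp0 ⊢
      have h5 := left_ne_zero_of_mul hp0
      have h6 := right_ne_zero_of_mul hp0
      have h7 := (P.reg_iff h6).1 h4
      rw [P.ord_mul h5 h6, h2, P.ord_mul h0 (hrc a)]
      omega
    have hfin : x ^ (N * (Cf.card + 2) - 1) * ω' j E = T / x := by
      rw [← hTx, eq_div_iff hx0]
      have h1 : x ^ (N * (Cf.card + 2)) = x ^ (N * (Cf.card + 2) - 1) * x := by
        rw [← pow_succ, Nat.sub_add_cancel hN']
      rw [h1]
      ring
    rw [hfin]
    rcases hTg with h1 | h1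
    · rw [h1, zero_div]
      exact P.reg_zero
    · right
      have hT0 : T ≠ 0 := by
        intro h0
        rw [h0, P.ord_zero] at h1
        omega
      rw [P.ord_div hT0 hx0, hx]
      omega
  obtain ⟨c0, hc0⟩ := crv_const_log (R := R) hgen h hmono (hpt hff R) hB hN' (hωP 0) (hregP 0) (hlogP 0) hdual
  obtain ⟨c1, hc1⟩ := crv_const_log (R := R) hgen h hmono (hpt hff R) hB hN' (hωP 1) (hregP 1) (hlogP 1) hdual
  set e := h.emb R with he
  have hinj : Function.Injective e := e.toRingHom.injective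
  have hMDx : MD (e x) ≠ 0 := by
    intro h0
    obtain ⟨c, hc⟩ := MD_eq_zero h0
    apply hx
    have h1 : x = algebraMap ℂ K c := hinj (by rw [hc, e.commutes])
    rw [h1]
    exact isAlgebraic_algebraMap _
  have hprod0 : (∏ c ∈ Cf, (ω 1 ![E] - algebraMap ℂ K c * ω 0 ![E])) ≠ 0 := by
    rw [Finset.prod_ne_zero_iff]
    intro c _
    rw [hrE]
    have : r * ω 0 ![E] - algebraMap ℂ K c * ω 0 ![E] = (r - algebraMap ℂ K c) * ω 0 ![E] := by
      ring
    rw [this]
    exact mul_ne_zero (hrc c) hω0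
  have hω00 : ω' 0 ![E] ≠ 0 := mul_ne_zero (mul_ne_zero hω0 hprod0) hω0
  have he0 : e (ω' 0 ![E]) ≠ 0 := fun h0 => hω00 ((map_eq_zero_iff _ hinj).1 h0)
  have hMN : MD (e x) ^ (N * (Cf.card + 2)) ≠ 0 := pow_ne_zero _ hMDx
  have hrat : r = algebraMap ℂ K (c1 / c0) := by
    apply hinj
    have h1 : ω' 1 ![E] = r * ω' 0 ![E] := by
      simp only [hω']
      rw [hrE]
      ring
    rw [h1, map_mul] at hc1
    rw [e.commutes, map_div₀ (algebraMap ℂ MK), ← hc0, ← hc1]
    field_simp
  apply hrt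
  rw [hrat]
  exact isAlgebraic_algebraMap _

end Pool.Agent.N155
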