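import Pool.Agent.N155.Loc2
import Pool.Agent.N155.L.IR
import Pool.Agent.N155.L.Frm

/-! Local boundedness on an open surface which is a submanifold. -/

set_option autoImplicit false

open Filter Topology Set Metric MvPolynomial FF

namespace Pool.Agent.N155

open Pool.Agent.Y190.OP Pool.Agent.W602.GT Pool.Agent.TH143.GT

variable {n : ℕ} {ι : Type} {F : ι → MvPolynomial (Fin (n + 1)) ℂ} {K : Type} [Field K]
  [Algebra ℂ K] {y : Fin (n + 1) → K}

/-- **Local boundedness.** -/
theorem lbp_of_graph (hy : SubVar F K 2 y) (hF : ∀ i, IsForm (F i))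
    (hirr : Cone F ⊆ VarPts ℂ y) {G : MvPolynomial (Fin (n + 1)) ℂ} {dG : ℕ}
    (hG : G.IsHomogeneous dG) {x0 : Fin (n + 1) → ℂ} (hx0 : x0 ∈ VarPts ℂ y)
    (hG0 : eval x0 G ≠ 0) (hs : GraphAt (Cone F) x0) (R : ∀ h : K, Frac y h) :
    LBp R G dG (Phi x0) := by
  classical
  have hx0C : x0 ∈ Cone F := ⟨hx0.1, fun a => hx0.2 _ (hF a) (hy.mem a)⟩
  obtain ⟨i, j, k, U0, Ψ, hx0i, hU0, hp0U0, hΨ0, hΨX0, hnear⟩ := hs
  set p0 : ℂ × ℂ := (x0 j / x0 i, x0 k / x0 i) with hp0
  have hx0Ψ : x0 = x0 i • Ψ p0 := hnear.self_of_nhds hx0C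
  have hgΨ : ContinuousOn (fun z => eval (Ψ z) G) U0 := by
    have h1 : Continuous fun v : Fin (n + 1) → ℂ => eval v G := by
      simp only [eval_eq']
      fun_prop
    exact h1.comp_continuousOn hΨ0.continuousOn
  set U : Set (ℂ × ℂ) := U0 ∩ {z | eval (Ψ z) G ≠ 0} with hUdef
  have hU : IsOpen U := by
    have := hgΨ.isOpen_inter_preimage hU0 (isOpen_compl_singleton (x := (0 : ℂ)))
    exact this
  have hp0U : p0 ∈ U := by
    refine ⟨hp0U0, fun h0 => hG0 ?_⟩
    rw [hx0Ψ, eval_smul hG, h0, mul_zero]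
  have hΨ : AnalyticOnNhd ℂ Ψ U := hΨ0.mono inter_subset_left
  have hΨX : ∀ z ∈ U, Ψ z ∈ Cone F ∧ Ψ z i = 1 ∧ Ψ z j = z.1 ∧ Ψ z k = z.2 :=
    fun z hz => hΨX0 z hz.1
  have hΨG : ∀ z ∈ U, eval (Ψ z) G ≠ 0 := fun z hz => hz.2
  have hyi : y i ≠ 0 := by
    intro h0
    have := hx0.2 (X i) ⟨1, isHomogeneous_X _ _⟩ (by rw [val_X', h0])
    rw [val_X'] at this
    exact hx0i this
  -- the coordinate functions
  have hΨl : ∀ l, ∀ z ∈ U, AnalyticAt ℂ (fun z => Ψ z l) z := by
    intro l z hz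
    exact (analyticAt_pi_iff.1 (hΨ z hz)) l
  let psi : Fin (n + 1) → AnU hU := fun l => toA hU (fun z => Ψ z l) (hΨl l)
  have hpsi : ∀ l (z : U), (psi l).1 z = Ψ z l := fun l z => rfl
  have hval : ∀ (G : MvPolynomial (Fin (n + 1)) ℂ) (z : U),
      (aeval psi G : AnU hU).1 z = eval (Ψ z) G := by
    intro G z
    have h1 := MvPolynomial.comp_aeval_apply (f := psi) (evA hU z) G
    rw [← evA_apply, h1]
    have h2 : (fun l => evA hU z (psi l)) = Ψ z := by
      funext l
      rfl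
    rw [h2, aeval_eq_eval]
  have hvG : val y G ≠ 0 := by
    intro h0
    have h1 := hx0.2 G ⟨dG, hG⟩ h0
    rw [val_eval] at h1
    exact hG0 h1
  let ginv : AnU hU := toA hU (fun z => (eval (Ψ z) G)⁻¹) (by
    intro z hz
    have h1 : AnalyticAt ℂ (fun z => eval (Ψ z) G) z := by
      simp only [eval_eq']
      apply Finset.analyticAt_fun_sum
      intro m _
      apply analyticAt_const.mul
      apply Finset.analyticAt_fun_prod
      intro l _
      exact (hΨl l z hz).pow _
    exact h1.inv (hΨG z hz))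
  have hginv : (aeval psi G : AnU hU) * ginv = 1 := by
    apply Subtype.ext
    funext z
    change (aeval psi G : AnU hU).1 z * (eval (Ψ z) G)⁻¹ = 1
    rw [hval, mul_inv_cancel₀ (hΨG z z.2)]
  have hzero : ∀ g : AnU hU, (∀ z : U, g.1 z = 0) → g = 0 := by
    intro g h
    apply Subtype.ext
    funext z
    exact h z
  have hpsii : psi i = 1 := by
    apply Subtype.ext
    funext z
    exact (hΨX z z.2).2.1
  have hpsij : ∀ d : ℂ × ℂ, dD hU d (psi j) = algebraMap ℂ (AnU hU) d.1 := by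
    intro d
    apply Subtype.ext
    funext z
    rw [dD_apply]
    have h1 : ext0 U (psi j).1 =ᶠ[𝓝 (z : ℂ × ℂ)] Prod.fst := by
      apply ext0_eq hU (G := Prod.fst) _ z.2
      intro w
      exact (hΨX w w.2).2.2.1
    rw [h1.fderiv_eq, fderiv_fst]
    rfl
  have hpsik : ∀ d : ℂ × ℂ, dD hU d (psi k) = algebraMap ℂ (AnU hU) d.2 := by
    intro d
    apply Subtype.ext
    funext z
    rw [dD_apply]
    have h1 : ext0 U (psi k).1 =ᶠ[𝓝 (z : ℂ × ℂ)] Prod.snd := by
      apply ext0_eq hU (G := Prod.snd) _ z.2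
      intro w
      exact (hΨX w w.2).2.2.2
    rw [h1.fderiv_eq, fderiv_snd]
    rfl
  -- the formal expansions
  have hTj : ∀ (p : U) (e d : ℂ × ℂ), TT hU p e d (psi j) = lin (p : ℂ × ℂ).1 e.1 d.1 := by
    intro p e d
    rw [TT_lin hU p e d (hpsij e) (hpsij d), hpsi, (hΨX p p.2).2.2.1]
  have hTk : ∀ (p : U) (e d : ℂ × ℂ), TT hU p e d (psi k) = lin (p : ℂ × ℂ).2 e.2 d.2 := by
    intro p e d
    rw [TT_lin hU p e d (hpsik e) (hpsik d), hpsi, (hΨX p p.2).2.2.2]
  have hTjk : ∀ (p : U) (e d : ℂ × ℂ), (fun b => TT hU p e d (psi ((![j, k] : Fin 2 → Fin (n + 1)) b))) =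
      fun b => lin ((![(p : ℂ × ℂ).1, (p : ℂ × ℂ).2] : Fin 2 → ℂ) b)
        ((![![e.1, d.1], ![e.2, d.2]] : Fin 2 → Fin 2 → ℂ) b 0)
        ((![![e.1, d.1], ![e.2, d.2]] : Fin 2 → Fin 2 → ℂ) b 1) := by
    intro p e d
    funext b
    fin_cases b
    · exact hTj p e d
    · exact hTk p e d
  -- forms vanishing on the variety
  have hvan : ∀ G : MvPolynomial (Fin (n + 1)) ℂ, IsForm G → val y G = 0 →
      (aeval psi G : AnU hU) = 0 := by
    intro G hG h0
    apply hzero
    intro z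
    rw [hval]
    have h1 := (hirr (hΨX z z.2).1).2 G hG h0
    rwa [val_eval] at h1
  -- the coordinates are a transcendence basis
  have hindK : AlgebraicIndependent ℂ (![y j / y i, y k / y i] : Fin 2 → K) := by
    rw [algebraicIndependent_iff]
    intro P hP
    have h1 : aeval (fun l => y l / y i) (rename (![j, k] : Fin 2 → Fin (n + 1)) P) = 0 := by
      rw [aeval_rename]
      have h2 : ((fun l => y l / y i) ∘ (![j, k] : Fin 2 → Fin (n + 1))) =
          (![y j / y i, y k / y i] : Fin 2 → K) := by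
        funext b
        fin_cases b <;> rfl
      rw [h2]
      exact hP
    have h2 : (aeval psi (rename (![j, k] : Fin 2 → Fin (n + 1)) P) : AnU hU) = 0 := by
      apply hzero
      intro z
      rw [hval]
      have h3 := hirr (hΨX z z.2).1
      have h4 : Ψ z i ≠ 0 := by
        rw [(hΨX z z.2).2.1]
        exact one_ne_zero
      have h5 := dehom (y' := Ψ z) hyi h4 (fun G hG h0 => h3.2 G hG h0) _ h1
      have h6 : (fun l => Ψ z l / Ψ z i) = Ψ z := by
        funext l
        rw [(hΨX z z.2).2.1, div_one]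
      rw [h6, aeval_eq_eval] at h5
      exact h5
    have h3 := congrArg (TT hU ⟨p0, hp0U⟩ (1, 0) (0, 1)) h2
    rw [map_zero, MvPolynomial.comp_aeval_apply, aeval_rename] at h3
    have h4 : ((fun l => TT hU ⟨p0, hp0U⟩ (1, 0) (0, 1) (psi l)) ∘ (![j, k] : Fin 2 → Fin (n + 1)))
        = fun b => TT hU ⟨p0, hp0U⟩ (1, 0) (0, 1) (psi ((![j, k] : Fin 2 → Fin (n + 1)) b)) := rfl
    rw [h4, hTjk] at h3
    exact lin_indep (by simp) P h3
  have hbas : IsTranscendenceBasis ℂ (![y j / y i, y k / y i] : Fin 2 → K) := by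
    apply hindK.isTranscendenceBasis_of_trdeg_le_of_finite
    rw [hy.dim, Cardinal.mk_fin]
  choose E hE using fun a : Fin 2 => exists_der _ hbas (fun b => if a = b then (1 : K) else 0)
  have hdual : Dual ![y j / y i, y k / y i] E := ⟨hbas, hE⟩
  refine ⟨i, j, k, E, hyi, ?_, hdual, ?_⟩
  · rw [nz_Phi (isHomogeneous_X _ _) hx0.1, eval_X]
    exact hx0i
  intro q hq
  -- the numerator and the denominator
  set g1 : AnU hU := aeval psi (R q).G1 with hg1
  set g0 : AnU hU := aeval psi (R q).G0 with hg0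
  let M := FractionRing PS2
  have hinj : Function.Injective (algebraMap PS2 M) := IsFractionRing.injective PS2 M
  -- the generic point over the formal completion
  have hzrel : ∀ (p : U) (e d : ℂ × ℂ), e.1 * d.2 - d.1 * e.2 ≠ 0 →
      ∀ G : MvPolynomial (Fin (n + 1)) ℂ, IsForm G → (val y G = 0 ↔
        val (fun l => algebraMap PS2 M (TT hU p e d (psi l))) G = 0) := by
    intro p e d hed
    have hvz : ∀ G : MvPolynomial (Fin (n + 1)) ℂ,
        val (fun l => algebraMap PS2 M (TT hU p e d (psi l))) G =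
          algebraMap PS2 M (TT hU p e d (aeval psi G)) := by
      intro G
      have h1 := MvPolynomial.comp_aeval_apply (f := psi)
        ((IsScalarTower.toAlgHom ℂ PS2 M).comp (TT hU p e d)) G
      exact h1.symm
    have hvan' : ∀ G : MvPolynomial (Fin (n + 1)) ℂ, IsForm G → val y G = 0 →
        val (fun l => algebraMap PS2 M (TT hU p e d (psi l))) G = 0 := by
      intro G hG h0
      rw [hvz, hvan G hG h0, map_zero, map_zero]
    have hzi : algebraMap PS2 M (TT hU p e d (psi i)) = 1 := by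
      rw [hpsii, map_one, map_one]
    intro G hG
    refine ⟨hvan' G hG, fun h0 => ?_⟩
    have hs : AlgebraicIndependent ℂ (fun b : Fin 2 =>
        (fun l => algebraMap PS2 M (TT hU p e d (psi l))) ((![j, k] : Fin 2 → Fin (n + 1)) b) /
        (fun l => algebraMap PS2 M (TT hU p e d (psi l))) i) := by
      rw [algebraicIndependent_iff]
      intro P hP
      simp only [hzi, div_one] at hP
      have h1 := MvPolynomial.comp_aeval_apply
        (f := fun b => TT hU p e d (psi ((![j, k] : Fin 2 → Fin (n + 1)) b)))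
        (IsScalarTower.toAlgHom ℂ PS2 M) P
      have h2 : algebraMap PS2 M
          (aeval (fun b => TT hU p e d (psi ((![j, k] : Fin 2 → Fin (n + 1)) b))) P) = 0 :=
        h1.trans hP
      have h3 := (map_eq_zero_iff _ hinj).1 h2
      rw [hTjk] at h3
      exact lin_indep (by simpa using hed) P h3
    exact spec_dense' (z := fun l => algebraMap PS2 M (TT hU p e d (psi l))) (i0 := i)
      (by rw [hzi]; exact one_ne_zero) hy.dim hs hvan' hG h0
  have hvz : ∀ (p : U) (e d : ℂ × ℂ) (G : MvPolynomial (Fin (n + 1)) ℂ),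
      val (fun l => algebraMap PS2 M (TT hU p e d (psi l))) G =
        algebraMap PS2 M (TT hU p e d (aeval psi G)) := by
    intro p e d G
    have h1 := MvPolynomial.comp_aeval_apply (f := psi)
      ((IsScalarTower.toAlgHom ℂ PS2 M).comp (TT hU p e d)) G
    exact h1.symm
  -- the denominator does not vanish identically
  have hg0n : ¬ ∀ᶠ p in 𝓝 p0, ext0 U g0.1 p = 0 := by
    intro h0
    have h1 := TT_zero hU ⟨p0, hp0U⟩ (1, 0) (0, 1) h0
    have h2 := (hzrel ⟨p0, hp0U⟩ (1, 0) (0, 1) (by simp) (R q).G0 ⟨_, (R q).h0⟩).2 (by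
      rw [hvz]
      change algebraMap PS2 M (TT hU ⟨p0, hp0U⟩ (1, 0) (0, 1) g0) = 0
      rw [h1, map_zero])
    exact (R q).hn h2
  obtain ⟨e, d, hed, hline⟩ := exists_dir' hU hp0U hg0n
  -- the division of Taylor series
  have hdvd : ∀ p : U, TT hU p e d g0 ∣ TT hU p e d g1 := by
    intro p
    obtain ⟨emb, hemb⟩ := exists_emb (z := fun l => algebraMap PS2 M (TT hU p e d (psi l))) R
      (hzrel p e d hed)
    have hzi : algebraMap PS2 M (TT hU p e d (psi i)) = 1 := by
      rw [hpsii, map_one, map_one]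
    have hembx : ∀ l, emb (y l / y i) = algebraMap PS2 M (TT hU p e d (psi l)) := by
      intro l
      have h1 := hemb 1 (X l) (X i) (isHomogeneous_X _ _) (isHomogeneous_X _ _)
        (by rw [val_X']; exact hyi)
      rw [val_X', val_X', val_X', val_X'] at h1
      rw [h1, hzi, div_one]
    have hembG : emb (y i ^ dG / val y G) = algebraMap PS2 M (TT hU p e d ginv) := by
      have h1 := hemb dG (X i ^ dG) G (by
        have := (isHomogeneous_X ℂ i).pow dG
        rwa [one_mul] at this) hG hvG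
      have h2 : ∀ {L : Type} [Field L] [Algebra ℂ L] (w : Fin (n + 1) → L),
          val w ((X i : MvPolynomial (Fin (n + 1)) ℂ) ^ dG) = w i ^ dG := by
        intro L _ _ w
        unfold val
        rw [map_pow, aeval_X]
      rw [h2, h2] at h1
      rw [h1, hzi, one_pow, hvz]
      have h3 : algebraMap PS2 M (TT hU p e d (aeval psi G)) *
          algebraMap PS2 M (TT hU p e d ginv) = 1 := by
        rw [← map_mul, ← map_mul, hginv, map_one, map_one]
      exact (eq_one_div_of_mul_eq_one_right h3).symm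
    obtain ⟨α, hα⟩ := formal_mem' (M := M) emb hdual
      (a := ![(p : ℂ × ℂ).1, (p : ℂ × ℂ).2]) (m := ![![e.1, d.1], ![e.2, d.2]])
      (by simpa using hed) (by
        intro l
        fin_cases l
        · change emb (y j / y i) = algebraMap PS2 M (lin (p : ℂ × ℂ).1 e.1 d.1)
          rw [hembx, hTj]
        · change emb (y k / y i) = algebraMap PS2 M (lin (p : ℂ × ℂ).2 e.2 d.2)
          rw [hembx, hTk]) (fun v hv hder hinfo => hq v hv ⟨i, hyi, hvG, fun l =>
            hinfo (y l / y i) _ (hembx l), hinfo (y i ^ dG / val y G) _ hembG⟩ hder)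
    have h1 := hemb _ (R q).G1 (R q).G0 (R q).h1 (R q).h0 (R q).hn
    rw [← (R q).eq, hα, hvz, hvz] at h1
    have h2 : algebraMap PS2 M (TT hU p e d (aeval psi (R q).G0)) ≠ 0 := by
      intro h3
      apply (R q).hn
      exact (hzrel p e d hed (R q).G0 ⟨_, (R q).h0⟩).2 (by rw [hvz, h3])
    rw [eq_div_iff h2, ← map_mul] at h1
    exact ⟨α, by rw [mul_comm]; exact (hinj h1).symm⟩
  obtain ⟨C, hC⟩ := quot_bound hU hp0U hline (g1 := g1) (fun p hp =>
    order_of_dvd hU ⟨p, hp⟩ e d (hdvd ⟨p, hp⟩))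
  -- transfer to the projective variety
  have hPhi : ∀ (u : Fin (n + 1) → ℂ), u ≠ 0 → u i ≠ 0 → ∀ l, Phi u l i / Phi u i i = u l / u i := by
    intro u hu hui l
    unfold Phi
    have h1 : (starRingEnd ℂ) (u i) ≠ 0 := by rwa [Ne, map_eq_zero]
    have h2 := nsq_ne hu
    field_simp
  have hPhii : ∀ (u : Fin (n + 1) → ℂ), u ≠ 0 → u i ≠ 0 → Phi u i i ≠ 0 := by
    intro u hu hui
    exact (Phi_diag_ne hu).2 hui
  let um : Mat (n + 1) → Fin (n + 1) → ℂ := fun M l => x0 i * (M l i / M i i)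
  let pm : Mat (n + 1) → ℂ × ℂ := fun M => (M j i / M i i, M k i / M i i)
  have hcl : ∀ l, ContinuousAt (fun M : Mat (n + 1) => M l i / M i i) (Phi x0) := by
    intro l
    apply ContinuousAt.div
    · exact (continuous_apply_apply l i).continuousAt
    · exact (continuous_apply_apply i i).continuousAt
    · exact hPhii x0 hx0.1 hx0i
  have hum : Tendsto um (𝓝 (Phi x0)) (𝓝 x0) := by
    rw [tendsto_pi_nhds]
    intro l
    have h1 := ((hcl l).tendsto).const_mul (x0 i)
    rw [hPhi x0 hx0.1 hx0i, mul_div_cancel₀ _ hx0i] at h1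
    exact h1
  have hpm : Tendsto pm (𝓝 (Phi x0)) (𝓝 p0) := by
    have h1 := ((hcl j).tendsto).prodMk_nhds ((hcl k).tendsto)
    rw [hPhi x0 hx0.1 hx0i, hPhi x0 hx0.1 hx0i] at h1
    exact h1
  have hdiag : ∀ᶠ M : Mat (n + 1) in 𝓝 (Phi x0), M i i ≠ 0 :=
    (continuous_apply_apply i i).continuousAt.eventually_ne (hPhii x0 hx0.1 hx0i)
  refine ⟨_, (hdiag.and ((hum.eventually hnear).and (hpm.eventually ((hU.eventually_mem hp0U).and hC)))), C,
    ?_⟩
  rintro M ⟨⟨hM1, hM2, hM3, hM4⟩, ⟨u, hu, rfl⟩⟩ hgood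
  have hui : u i ≠ 0 := (Phi_diag_ne hu.1).1 hM1
  set c : ℂ := x0 i / u i with hc
  have hcne : c ≠ 0 := div_ne_zero hx0i hui
  have humu : um (Phi u) = c • u := by
    funext l
    change x0 i * (Phi u l i / Phi u i i) = c * u l
    rw [hPhi u hu.1 hui, hc]
    ring
  have hpmu : pm (Phi u) = (u j / u i, u k / u i) := by
    change (Phi u j i / Phi u i i, Phi u k i / Phi u i i) = _
    rw [hPhi u hu.1 hui, hPhi u hu.1 hui]
  have huC : um (Phi u) ∈ Cone F := by
    rw [humu]
    refine ⟨smul_ne_zero hcne hu.1, fun a => ?_⟩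
    obtain ⟨dF, hdF⟩ := hF a
    rw [val_eval, eval_smul hdF]
    have h1 := hu.2 _ (hF a) (hy.mem a)
    rw [val_eval] at h1
    rw [h1, mul_zero]
  have h1 := hM2 huC
  have h2 : (um (Phi u) j / um (Phi u) i, um (Phi u) k / um (Phi u) i) = pm (Phi u) := by
    rw [humu, hpmu]
    simp only [Pi.smul_apply, smul_eq_mul]
    rw [mul_div_mul_left _ _ hcne, mul_div_mul_left _ _ hcne]
  rw [h2] at h1
  have h3 : u = u i • Ψ (pm (Phi u)) := by
    rw [humu] at h1
    have h4 : c • u = c • (u i • Ψ (pm (Phi u))) := by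
      conv_lhs => rw [h1]
      rw [smul_smul]
      rfl
    have h5 := congrArg (fun v => c⁻¹ • v) h4
    simp only [smul_smul, inv_mul_cancel₀ hcne, one_smul] at h5
    rw [← mul_assoc, inv_mul_cancel₀ hcne, one_mul] at h5
    exact h5
  rw [ev_Phi R hu.1]
  rw [good_Phi R hu.1] at hgood
  have hG1 : eval u (R q).G1 = u i ^ (R q).d * eval (Ψ (pm (Phi u))) (R q).G1 := by
    conv_lhs => rw [h3]
    rw [eval_smul (R q).h1]
  have hG0 : eval u (R q).G0 = u i ^ (R q).d * eval (Ψ (pm (Phi u))) (R q).G0 := by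
    conv_lhs => rw [h3]
    rw [eval_smul (R q).h0]
  have hup : u i ^ (R q).d ≠ 0 := pow_ne_zero _ hui
  rw [hG0] at hgood
  have hne0 := (mul_ne_zero_iff.1 hgood).2
  rw [hG1, hG0, mul_div_mul_left _ _ hup, norm_div]
  rw [ext0_apply _ hM3, ext0_apply _ hM3] at hM4
  have e1 : g1.1 ⟨pm (Phi u), hM3⟩ = eval (Ψ (pm (Phi u))) (R q).G1 := hval _ ⟨pm (Phi u), hM3⟩
  have e0 : g0.1 ⟨pm (Phi u), hM3⟩ = eval (Ψ (pm (Phi u))) (R q).G0 := hval _ ⟨pm (Phi u), hM3⟩
  rw [e1, e0] at hM4
  rw [div_le_iff₀ (norm_pos_iff.2 hne0)]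
  exact hM4

end Pool.Agent.N155
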