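import Pool.Agent.N155.L.SDefs
import Pool.Agent.N155.L.Ctr

/-!
Open subsets `{F = 0} - ⋃ₐ {Gₐ = 0}` of projective varieties, their strata, and boundaries which are
locally given by one equation.
-/

set_option autoImplicit false

open Filter Topology FF LinearAlgebra.Projectivization Pool.Agent.W602.GT

namespace Pool.Agent.N155

variable {n : ℕ} {ι κ α : Type}

/-- The place `P` of the function field `K` of the projective variety with generic point `y` has a
centre on the open subset of the points at which not all the forms `G l` vanish. -/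
def HasCentre {K : Type} [Field K] [Algebra ℂ K] (G : κ → MvPolynomial (Fin (n + 1)) ℂ)
    (y : Fin (n + 1) → K) (P : Place ℂ K) : Prop :=
  ∃ l d, (G l).IsHomogeneous d ∧ Ctr (G l) d y P

/-- The place `P` of the function field `K` of the projective variety `V` with generic point `y` has
a centre on the stratum `V° = V - ⋃ {Gₐ = 0}`, the union over all `a` such that `V` is not contained
in `{Gₐ = 0}`. -/
def StratumCentre {K : Type} [Field K] [Algebra ℂ K] (G : α → κ → MvPolynomial (Fin (n + 1)) ℂ)
    (y : Fin (n + 1) → K) (P : Place ℂ K) : Prop :=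
  ∀ a, (∃ l, val y (G a l) ≠ 0) → HasCentre (G a) y P

/-- For every closed subvariety `V` of positive dimension of `{F = 0}` (the components of `{F = 0}`
included), the stratum `V° = V - ⋃ {Gₐ = 0}`, the union over all `a` such that `V` is not contained
in `{Gₐ = 0}`, is of logarithmic general type. -/
def StrataLogGeneral (F : ι → MvPolynomial (Fin (n + 1)) ℂ)
    (G : α → κ → MvPolynomial (Fin (n + 1)) ℂ) : Prop :=
  ∀ (K : Type) [Field K] [Algebra ℂ K] (w : ℕ) (y : Fin (n + 1) → K), 1 ≤ w → SubVar F K w y →
    LogGeneralType ℂ K w (fun P => ¬ StratumCentre G y P)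

/-- The forms `G l` define a closed subset `{F = 0, G = 0}` of `{F = 0}` which is locally given by
one equation: near each of its points it is the zero set in `{F = 0}` of one form. -/
structure IsDivisor (F : ι → MvPolynomial (Fin (n + 1)) ℂ)
    (G : κ → MvPolynomial (Fin (n + 1)) ℂ) : Prop where
  form : ∀ l, IsForm (G l)
  loc : ∀ x ∈ Cone F, (∀ l, val x (G l) = 0) → ∃ A : MvPolynomial (Fin (n + 1)) ℂ, IsForm A ∧
    ∀ᶠ u in 𝓝 x, u ∈ Cone F → (val u A = 0 ↔ ∀ l, val u (G l) = 0)

/-- `{F = 0} - ⋃ₐ {Gₐ = 0}` is the complement of divisors in a smooth projective surface with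
function field `K` and generic point `y`, and all the strata of the subvarieties of the surface are
of logarithmic general type. -/
structure OpenSurface (F : ι → MvPolynomial (Fin (n + 1)) ℂ)
    (G : α → κ → MvPolynomial (Fin (n + 1)) ℂ) {K : Type} [Field K] [Algebra ℂ K]
    (y : Fin (n + 1) → K) : Prop where
  surf : SmoothSurface F y
  div : ∀ a, IsDivisor F (G a)
  ne : ∀ a, ∃ l, val y (G a l) ≠ 0
  strata : StrataLogGeneral F G

end Pool.Agent.N155
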