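import Pool.Agent.N155.L.ODefs

/-!
Holomorphic maps from open subsets of the complex plane to projective space, and hyperbolically
embedded complements.
-/

set_option autoImplicit false

open Filter Topology LinearAlgebra.Projectivization Pool.Agent.W602.GT

namespace Pool.Agent.N155

variable {n : ℕ} {ι κ α : Type}

/-- The map `f` from `U` to projective space is holomorphic. -/
def HolMapOn (U : Set ℂ) (f : ℂ → ℙ ℂ (Fin (n + 1) → ℂ)) : Prop :=
  ∀ z ∈ U, ∃ (V : Set ℂ) (g : ℂ → Fin (n + 1) → ℂ), IsOpen V ∧ z ∈ V ∧ DifferentiableOn ℂ g V ∧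
    ∀ w ∈ V, ∃ h : g w ≠ 0, f w = Projectivization.mk ℂ (g w) h

/-- The point with homogeneous coordinates `u` belongs to `{F = 0} - ⋃ₐ {Gₐ = 0}`. -/
def InOpen (F : ι → MvPolynomial (Fin (n + 1)) ℂ) (G : α → κ → MvPolynomial (Fin (n + 1)) ℂ)
    (u : Fin (n + 1) → ℂ) : Prop :=
  u ∈ Cone F ∧ ∀ a, ∃ l, val u (G a l) ≠ 0

/-- The derivative of `f` at the point `z` is bounded by `C`, with respect to the Fubini-Study
metric: in local homogeneous coordinates `g` near `z`, the numbers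
`(g i * (g j)' - g j * (g i)') / ‖g‖ ^ 2` at `z` are bounded by `C`. -/
def DerBound (C : ℝ) (f : ℂ → ℙ ℂ (Fin (n + 1) → ℂ)) (z : ℂ) : Prop :=
  ∀ (V : Set ℂ) (g : ℂ → Fin (n + 1) → ℂ), IsOpen V → z ∈ V → DifferentiableOn ℂ g V →
    (∀ w ∈ V, ∃ h : g w ≠ 0, f w = Projectivization.mk ℂ (g w) h) →
    ∀ i j, ‖g z i * deriv (fun w => g w j) z - g z j * deriv (fun w => g w i) z‖ ≤
      C * ∑ k, ‖g z k‖ ^ 2

/-- The open set `X = {F = 0} - ⋃ₐ {Gₐ = 0}` is hyperbolically embedded: the derivatives at `0` of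
the holomorphic maps from the unit disc to `X` are bounded, with respect to the Fubini-Study
metric. Moreover the holomorphic maps from the complex plane to `X` are constant, and the
holomorphic maps from the punctured disc to `X` extend to holomorphic maps from the disc to
`{F = 0}`. -/
structure HypEmbedded (F : ι → MvPolynomial (Fin (n + 1)) ℂ)
    (G : α → κ → MvPolynomial (Fin (n + 1)) ℂ) : Prop where
  bound : ∃ C : ℝ, ∀ f : ℂ → ℙ ℂ (Fin (n + 1) → ℂ), HolMapOn (Metric.ball 0 1) f →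
    (∀ z ∈ Metric.ball (0 : ℂ) 1, InOpen F G (f z).rep) → DerBound C f 0
  const : ∀ f : ℂ → ℙ ℂ (Fin (n + 1) → ℂ), HolMap f → (∀ z, InOpen F G (f z).rep) →
    ∀ z w, f z = f w
  extend : ∀ f : ℂ → ℙ ℂ (Fin (n + 1) → ℂ), HolMapOn (Metric.ball 0 1 \ {0}) f →
    (∀ z ∈ Metric.ball (0 : ℂ) 1 \ {0}, InOpen F G (f z).rep) →
    ∃ g : ℂ → ℙ ℂ (Fin (n + 1) → ℂ), HolMapOn (Metric.ball 0 1) g ∧
      (∀ z ∈ Metric.ball (0 : ℂ) 1, (g z).rep ∈ Cone F) ∧
      ∀ z ∈ Metric.ball (0 : ℂ) 1 \ {0}, g z = f z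

end Pool.Agent.N155
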