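import Pool.Agent.N155.L.Imp

/-! Open surfaces: the strata, limits of curves, and local boundedness. -/

set_option autoImplicit false

open Filter Topology Metric Set MvPolynomial FF

namespace Pool.Agent.N155

open Pool.Agent.Y190.OP Pool.Agent.W602.GT Pool.Agent.TH143.GT

variable {n : ℕ} {ι κ α : Type} {F : ι → MvPolynomial (Fin (n + 1)) ℂ}
  {G : α → κ → MvPolynomial (Fin (n + 1)) ℂ} {K : Type} [Field K] [Algebra ℂ K]
  {y : Fin (n + 1) → K} {φ : ℂ → Mat (n + 1)}

theorem StratumCentre.mono {P Q : Place ℂ K} (h : StratumCentre G y Q)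
    (hPQ : ∀ g, Q.Reg g → P.Reg g) : StratumCentre G y P := fun a ha => (h a ha).mono hPQ

/-- curves of bounded derivative in a stratum of dimension one -/
theorem strat_curve [Finite α] (hG : ∀ a l, IsForm (G a l)) (hgen : coords ℂ y = ⊤) (h : Cv y φ)
    (hav : ∀ a, (∀ z, φ z ∈ SG (G a)) ∨ ∀ z, φ z ∉ SG (G a)) {B : ℝ}
    (hB : ∀ z, ‖fderiv ℝ φ z‖ ≤ B) : ¬ LogGeneralType ℂ K 1 (fun P => ¬ StratumCentre G y P) := by
  have hav' : ∀ a, (∃ l, val y (G a l) ≠ 0) → ∀ z, φ z ∈ SG (G a) := by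
    rintro a ⟨l, hl⟩
    rcases hav a with h1 | h1
    · exact h1
    · obtain ⟨z, hz⟩ := h.dense _ (hG a l) hl
      exact absurd ⟨l, hz⟩ (h1 z)
  refine crv_log_not_general hgen h (Cn := StratumCentre G y) (fun P Q hQ hPQ => hQ.mono hPQ)
    (fun hff R w => ?_) (fun hff => ?_) hB
  · obtain ⟨Q, hQ⟩ := point_place0 (R := R) hgen h w
    exact ⟨Q, fun a ha => point_centre h hQ (hG a) (hav' a ha w), hQ⟩
  · have hy0 : y ≠ 0 := by
      obtain ⟨i, hi, -⟩ := exists_coord0 (h.mem 0)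
      intro h0
      exact hi (by rw [h0]; rfl)
    have h1 : ∀ a, {P : Place ℂ K | (∃ l, val y (G a l) ≠ 0) ∧ ¬ HasCentre (G a) y P}.Finite := by
      intro a
      by_cases ha : ∃ l, val y (G a l) ≠ 0
      · obtain ⟨l, hl⟩ := ha
        exact (finite_noncentre (hG a) hy0 hl).subset fun P hP => hP.2
      · convert Set.finite_empty
        ext P
        simp only [mem_ofPred_eq, mem_empty_iff_false, iff_false]
        exact fun h => ha h.1
    apply (Set.finite_iUnion h1).subset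
    intro P hP
    have h2 : ∃ a, (∃ l, val y (G a l) ≠ 0) ∧ ¬ HasCentre (G a) y P := by
      by_contra hcon
      push Not at hcon
      exact hP fun a ha => hcon a ha
    obtain ⟨a, ha⟩ := h2
    exact mem_iUnion.2 ⟨a, ha⟩

/-- the points outside of all the divisors -/
def SA (G : α → κ → MvPolynomial (Fin (n + 1)) ℂ) : Set (Mat (n + 1)) := {M | ∀ a, M ∈ SG (G a)}

/-- the Zariski closure of a curve of bounded derivative in a union of strata -/
theorem OpenSurface.cv [Finite α] (hX : OpenSurface F G y) (hol : HolP univ φ)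
    (hmem : ∀ z, φ z ∈ TX y) (hav : ∀ a, (∀ z, φ z ∈ SG (G a)) ∨ ∀ z, φ z ∉ SG (G a)) {B : ℝ}
    (hB : ∀ z, ‖fderiv ℝ φ z‖ ≤ B) (hnc : ∃ z, φ z ≠ φ 0) : Cv y φ := by
  rcases closure_cases hX.surf.form hX.surf.sub hol hmem hnc with h | ⟨K1, _, _, y1, hsub, h⟩
  · exact h
  · exact absurd (hX.strata K1 1 y1 le_rfl hsub)
      (strat_curve (fun a => (hX.div a).form) hsub.gen h hav hB)

/-- limits of curves in open surfaces -/
theorem OpenSurface.lim [Finite α] (hX : OpenSurface F G y) {l : Filter ℕ} [l.NeBot]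
    {P : ℕ → ℂ → Mat (n + 1)} (hc : CConv l univ P φ)
    (hP : ∀ r : ℝ, ∀ᶠ m in l, HolP (ball 0 r) (P m) ∧ ∀ z ∈ ball (0 : ℂ) r,
      P m z ∈ TX y ∧ P m z ∈ SA G) (hφ : HolP univ φ)
    (hφT : ∀ z, φ z ∈ TX y) {B : ℝ} (hB : ∀ z, ‖fderiv ℝ φ z‖ ≤ B) (hnc : ∃ z, φ z ≠ φ 0) :
    ∀ z, φ z ∈ SA G := by
  have hav : ∀ a, (∀ z, φ z ∈ SG (G a)) ∨ ∀ z, φ z ∉ SG (G a) := fun a =>
    lim_avoid (hX.div a) hX.surf.form hX.surf.sub.mem hc
      (fun r => (hP r).mono fun m hm => ⟨hm.1, fun z hz => ⟨(hm.2 z hz).1, (hm.2 z hz).2 a⟩⟩)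
      hφ hφT
  have hcv := hX.cv hφ hφT hav hB hnc
  intro z a
  rcases hav a with h | h
  · exact h z
  · obtain ⟨l, hl⟩ := hX.ne a
    obtain ⟨w, hw⟩ := hcv.dense _ ((hX.div a).form l) hl
    exact absurd ⟨l, hw⟩ (h w)

theorem aeval_smul' {d : ℕ} {B : MvPolynomial (Fin (n + 1)) ℂ} (hB : B.IsHomogeneous d) (c : K)
    (x : Fin (n + 1) → K) : aeval (fun j => c * x j) B = c ^ d * aeval x B := by
  rw [aeval_def, aeval_def, eval₂_eq', eval₂_eq', Finset.mul_sum]
  refine Finset.sum_congr rfl fun m hm => ?_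
  have h1 : ∑ i, m i = d := by
    have := hB (mem_support_iff.1 hm)
    rw [← this, Finsupp.weight_apply]
    simp [Finsupp.sum_fintype]
  simp only [mul_pow]
  rw [Finset.prod_mul_distrib, Finset.prod_pow_eq_pow_sum, h1]
  ring

theorem reg_aeval {P : Place ℂ K} {x : Fin (n + 1) → K} (hx : ∀ j, P.Reg (x j))
    (B : MvPolynomial (Fin (n + 1)) ℂ) : P.Reg (aeval x B) := by
  induction B using MvPolynomial.induction_on with
  | C a =>
    rw [aeval_C]
    exact P.reg_const a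
  | add p q hp hq =>
    rw [map_add]
    exact P.reg_add hp hq
  | mul_X p i hp =>
    rw [map_mul, aeval_X]
    exact P.reg_mul hp (hx i)

theorem reg_form {P : Place ℂ K} {i : Fin (n + 1)} (hi : y i ≠ 0) (hx : ∀ j, P.Reg (y j / y i))
    {d : ℕ} {B : MvPolynomial (Fin (n + 1)) ℂ} (hB : B.IsHomogeneous d) :
    P.Reg (val y B / y i ^ d) := by
  have h1 : val y B = y i ^ d * aeval (fun j => y j / y i) B := by
    rw [← aeval_smul' hB]
    have h2 : (fun j => y i * (y j / y i)) = y := by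
      funext j
      field_simp
    rw [h2]
    rfl
  rw [h1, mul_div_cancel_left₀ _ (pow_ne_zero _ hi)]
  exact reg_aeval hx B

theorem val_prod' {s : Finset α} {A : α → MvPolynomial (Fin (n + 1)) ℂ} :
    val y (∏ a ∈ s, A a) = ∏ a ∈ s, val y (A a) := map_prod _ _ _

/-- places with centre outside of the zeros of a product -/
theorem ctr_prod [Fintype α] {A : α → MvPolynomial (Fin (n + 1)) ℂ} {d : α → ℕ}
    (hA : ∀ a, (A a).IsHomogeneous (d a)) {P : Place ℂ K} (h : Ctr (∏ a, A a) (∑ a, d a) y P)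
    (a : α) : Ctr (A a) (d a) y P := by
  classical
  obtain ⟨i, hi, h0, hx, hr⟩ := h
  rw [val_prod', Finset.prod_ne_zero_iff] at h0
  refine ⟨i, hi, h0 a (Finset.mem_univ a), hx, ?_⟩
  have h1 : y i ^ d a / val y (A a) = (y i ^ (∑ a, d a) / val y (∏ a, A a)) *
      ∏ b ∈ Finset.univ.erase a, (val y (A b) / y i ^ d b) := by
    rw [val_prod', ← Finset.prod_pow_eq_pow_sum, ← Finset.mul_prod_erase _ _ (Finset.mem_univ a),
      ← Finset.mul_prod_erase _ (fun a => val y (A a)) (Finset.mem_univ a),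
      Finset.prod_div_distrib]
    have h2 : (∏ b ∈ Finset.univ.erase a, val y (A b)) ≠ 0 := by
      rw [Finset.prod_ne_zero_iff]
      exact fun b _ => h0 b (Finset.mem_univ b)
    have h3 : (∏ b ∈ Finset.univ.erase a, y i ^ d b) ≠ 0 := by
      rw [Finset.prod_ne_zero_iff]
      exact fun b _ => pow_ne_zero _ hi
    have h4 := h0 a (Finset.mem_univ a)
    field_simp
  rw [h1]
  exact P.reg_mul hr (reg_prod _ _ fun b _ => reg_form hi hx (hA b))

/-- local boundedness -/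
theorem OpenSurface.lbc [Finite α] (hX : OpenSurface F G y) (R : ∀ h : K, Frac y h) :
    ∀ M ∈ TX y, M ∈ SA G → LBc R (fun P => StratumCentre G y P) M := by
  classical
  intro M hM hS
  have := Fintype.ofFinite α
  obtain ⟨x0, hx0, rfl⟩ := hM
  choose l hl using hS
  choose d hd using fun a => (hX.div a).form (l a)
  have hx0C : x0 ∈ Cone F :=
    ⟨hx0.1, fun a => hx0.2 _ (hX.surf.form a) (hX.surf.sub.mem a)⟩
  have hprod : (∏ a, G a (l a)).IsHomogeneous (∑ a, d a) :=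
    IsHomogeneous.prod _ _ _ fun a _ => hd a
  have he : eval x0 (∏ a, G a (l a)) ≠ 0 := by
    rw [map_prod, Finset.prod_ne_zero_iff]
    intro a _
    exact (nz_Phi (hd a) hx0.1).1 (hl a)
  obtain ⟨i, j, k, E, h1, h2, h3, h4⟩ := lbp_of_graph hX.surf.sub hX.surf.form hX.surf.irred hprod
    hx0 he (hX.surf.smooth x0 hx0C) R
  refine ⟨i, j, k, E, h1, h2, h3, fun q hq => h4 q fun v hv hctr hder => ?_⟩
  exact hq v hv (fun a _ => ⟨l a, d a, hd a, ctr_prod hd hctr a⟩) hder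

end Pool.Agent.N155
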