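import Pool.Agent.N155.L.ODefs
import Pool.Agent.N155.L.SFin
import Pool.Agent.N155.L.Loc2

/-! Limits of curves which avoid a divisor. -/

set_option autoImplicit false

open Filter Topology Metric Set MvPolynomial

namespace Pool.Agent.N155

open FF Pool.Agent.Y190.OP Pool.Agent.W602.GT Pool.Agent.TH143.GT

variable {n : ℕ} {ι κ : Type} {F : ι → MvPolynomial (Fin (n + 1)) ℂ}
  {G : κ → MvPolynomial (Fin (n + 1)) ℂ} {K : Type} [Field K] [Algebra ℂ K] {y : Fin (n + 1) → K}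

/-- the points outside of the divisor -/
def SG (G : κ → MvPolynomial (Fin (n + 1)) ℂ) : Set (Mat (n + 1)) := {M | ∃ l, nz (G l) M}

theorem isOpen_SG : IsOpen (SG G) := by
  have h1 : SG G = ⋃ l, {M : Mat (n + 1) | nz (G l) M} := by
    ext M
    simp [SG]
  rw [h1]
  exact isOpen_iUnion fun l => isOpen_nz _

theorem mem_SG_Phi (hG : ∀ l, IsForm (G l)) {u : Fin (n + 1) → ℂ} (hu : u ≠ 0) :
    Phi u ∈ SG G ↔ ∃ l, val u (G l) ≠ 0 := by
  refine exists_congr fun l => ?_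
  obtain ⟨d, hd⟩ := hG l
  rw [nz_Phi hd hu, val_eval]

/-- the local equation -/
theorem loc_eq (hD : IsDivisor F G) (hF : ∀ i, IsForm (F i)) (hy : ∀ i, val y (F i) = 0)
    {u0 : Fin (n + 1) → ℂ} (hu0 : u0 ∈ VarPts ℂ y) (h0 : Phi u0 ∉ SG G) :
    ∃ (i : Fin (n + 1)) (A : MvPolynomial (Fin (n + 1)) ℂ), Phi u0 i i ≠ 0 ∧
      ∀ᶠ M in 𝓝 (Phi u0), M ∈ TX y → (M ∈ SG G ↔ eval (chart i M) A ≠ 0) := by
  have hcone : ∀ u ∈ VarPts ℂ y, u ∈ Cone F := fun u hu => ⟨hu.1, fun a => hu.2 _ (hF a) (hy a)⟩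
  have h1 : ∀ l, val u0 (G l) = 0 := by
    intro l
    by_contra hne
    exact h0 ((mem_SG_Phi hD.form hu0.1).2 ⟨l, hne⟩)
  obtain ⟨A, ⟨dA, hA⟩, hloc⟩ := hD.loc u0 (hcone u0 hu0) h1
  obtain ⟨i, hi⟩ := Function.ne_iff.1 hu0.1
  have hi' : u0 i ≠ 0 := hi
  have hdi : Phi u0 i i ≠ 0 := (Phi_diag_ne hu0.1).2 hi'
  refine ⟨i, A, hdi, ?_⟩
  have hch : Tendsto (fun M : Mat (n + 1) => u0 i • chart i M) (𝓝 (Phi u0)) (𝓝 u0) := by
    have h2 : Tendsto (fun M : Mat (n + 1) => u0 i • chart i M) (𝓝 (Phi u0))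
        (𝓝 (u0 i • chart i (Phi u0))) := ((continuousAt_chart hdi).tendsto).const_smul (u0 i)
    rw [chart_Phi hu0.1 hi', smul_smul, mul_inv_cancel₀ hi', one_smul] at h2
    exact h2
  have hdiag : ∀ᶠ M : Mat (n + 1) in 𝓝 (Phi u0), M i i ≠ 0 :=
    (continuous_apply_apply i i).continuousAt.eventually_ne hdi
  filter_upwards [hch.eventually hloc, hdiag] with M hM hMi hMT
  have hMP : M ∈ PM := TX_PM hMT
  have hcne := PM.chart_ne hMi
  have hcV : chart i M ∈ VarPts ℂ y := by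
    obtain ⟨u, hu, rfl⟩ := hMT
    have hui : u i ≠ 0 := (Phi_diag_ne hu.1).1 hMi
    rw [chart_Phi hu.1 hui]
    refine ⟨smul_ne_zero (inv_ne_zero hui) hu.1, fun H hH hv => ?_⟩
    obtain ⟨d, hd⟩ := id hH
    rw [val_eval, eval_smul hd]
    have := hu.2 H hH hv
    rw [val_eval] at this
    rw [this, mul_zero]
  have hcV' : u0 i • chart i M ∈ Cone F := by
    refine ⟨smul_ne_zero hi' hcne, fun a => ?_⟩
    obtain ⟨d, hd⟩ := hF a
    rw [val_eval, eval_smul hd]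
    have := (hcone _ hcV).2 a
    rw [val_eval] at this
    rw [this, mul_zero]
  have h3 := hM hcV'
  have h4 : M ∈ SG G ↔ ∃ l, val (chart i M) (G l) ≠ 0 := by
    rw [← mem_SG_Phi hD.form hcne, PM.Phi_chart hMP hMi]
  have h5 : (val (u0 i • chart i M) A = 0) ↔ eval (chart i M) A = 0 := by
    rw [val_eval, eval_smul hA]
    constructor
    · intro h
      exact (mul_eq_zero.1 h).resolve_left (pow_ne_zero _ hi')
    · intro h
      rw [h, mul_zero]
  have h6 : (∀ l, val (u0 i • chart i M) (G l) = 0) ↔ ∀ l, val (chart i M) (G l) = 0 := by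
    refine forall_congr' fun l => ?_
    obtain ⟨d, hd⟩ := hD.form l
    rw [val_eval, val_eval, eval_smul hd]
    constructor
    · intro h
      exact (mul_eq_zero.1 h).resolve_left (pow_ne_zero _ hi')
    · intro h
      rw [h, mul_zero]
  rw [h5, h6] at h3
  rw [h4, Ne, h3]
  push Not
  rfl

/-- Hurwitz's theorem for curves which avoid a divisor, local form -/
theorem lim_avoid_loc (hD : IsDivisor F G) (hF : ∀ i, IsForm (F i)) (hy : ∀ i, val y (F i) = 0)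
    {l : Filter ℕ} [l.NeBot] {W : Set ℂ} (hW : IsOpen W) {P : ℕ → ℂ → Mat (n + 1)}
    {φ : ℂ → Mat (n + 1)} (hc : CConv l W P φ) (hP : ∀ᶠ m in l, HolP W (P m))
    (hPT : ∀ᶠ m in l, ∀ z ∈ W, P m z ∈ TX y ∧ P m z ∈ SG G) (hφ : HolP W φ)
    (hφT : ∀ z ∈ W, φ z ∈ TX y) {z0 : ℂ} (hz0 : z0 ∈ W) (h0 : φ z0 ∉ SG G) :
    ∀ᶠ z in 𝓝 z0, φ z ∉ SG G := by
  obtain ⟨u0, hu0, hφu⟩ := hφT z0 hz0
  rw [hφu] at h0
  obtain ⟨i, A, hdi, hloc⟩ := loc_eq hD hF hy hu0 h0
  rw [← hφu] at hdi hloc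
  have hcontφ : ContinuousAt φ z0 := hφ.continuousAt hz0
  have hdiag : {M : Mat (n + 1) | M i i ≠ 0} ∈ 𝓝 (φ z0) :=
    (continuous_apply_apply i i).continuousAt.eventually_ne hdi
  obtain ⟨O, hOsub, hO, hOz⟩ := _root_.mem_nhds_iff.1 (inter_mem hloc hdiag)
  -- a small neighbourhood
  have hev : ∀ᶠ p : ℕ × ℂ in l ×ˢ 𝓝 z0, P p.1 p.2 ∈ O := (hc z0 hz0).eventually (hO.mem_nhds hOz)
  rw [eventually_prod_iff] at hev
  obtain ⟨pa, hpa, pb, hpb, hab⟩ := hev
  obtain ⟨V, hVsub, hV, hzV⟩ := _root_.mem_nhds_iff.1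
    (inter_mem (inter_mem hpb (hcontφ.eventually (hO.mem_nhds hOz))) (hW.mem_nhds hz0))
  have hVW : V ⊆ W := fun z hz => (hVsub hz).2
  set a : ℂ → ℂ := fun z => eval (chart i (φ z)) A with ha
  have hcA : ∀ z ∈ V, ContinuousAt (fun M : Mat (n + 1) => eval (chart i M) A) (φ z) := fun z hz =>
    (contDiffAt_evalc (hOsub (hVsub hz).1.2).2 A).continuousAt
  have hca : CConv l V (fun m z => eval (chart i (P m z)) A) a :=
    CConv.comp (fun z hz => hc z (hVW hz)) hcA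
  have hda : ∀ᶠ m in l, DifferentiableOn ℂ (fun z => eval (chart i (P m z)) A) V := by
    filter_upwards [hpa, hP] with m hm hm2
    have hd : DifferentiableOn ℂ (fun z => chart i (P m z)) V := fun z hz =>
      (hm2.diff_chart (hVW hz) (hOsub (hab hm (hVsub hz).1.1)).2).differentiableWithinAt
    intro z hz
    exact (an_eval hV hd A hz).differentiableAt.differentiableWithinAt
  have haa : AnalyticAt ℂ a z0 := by
    have hd : DifferentiableOn ℂ (fun z => chart i (φ z)) V := fun z hz =>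
      (hφ.diff_chart (hVW hz) (hOsub (hVsub hz).1.2).2).differentiableWithinAt
    exact an_eval hV hd A hzV
  have ha0 : a z0 = 0 := by
    by_contra hne
    have h1 := ((hOsub hOz).1 (hφT z0 hz0)).2 hne
    rw [hφu] at h1
    exact h0 h1
  rcases haa.eventually_eq_zero_or_eventually_ne_zero with h1 | h1
  · filter_upwards [h1, hV.mem_nhds hzV] with z hz hzV' hcon
    exact ((hOsub (hVsub hzV').1.2).1 (hφT z (hVW hzV'))).1 hcon hz
  · exfalso
    obtain ⟨ρ, hρ, hball⟩ := Metric.isOpen_iff.1 hV z0 hzV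
    have h2 := hurwitz hV hca hda hzV ha0 h1 hρ
    obtain ⟨m, hm1, hm2, hm3⟩ := (h2.and (hpa.and hPT)).exists
    obtain ⟨w, hw, hw0⟩ := hm1
    have hwV := hball hw
    have h3 := hm3 w (hVW hwV)
    exact ((hOsub (hab hm2 (hVsub hwV).1.1)).1 h3.1).1 h3.2 hw0

/-- Hurwitz's theorem for curves which avoid a divisor -/
theorem lim_avoid (hD : IsDivisor F G) (hF : ∀ i, IsForm (F i)) (hy : ∀ i, val y (F i) = 0)
    {l : Filter ℕ} [l.NeBot] {P : ℕ → ℂ → Mat (n + 1)}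
    {φ : ℂ → Mat (n + 1)} (hc : CConv l univ P φ)
    (hP : ∀ r : ℝ, ∀ᶠ m in l, HolP (ball 0 r) (P m) ∧ ∀ z ∈ ball (0 : ℂ) r,
      P m z ∈ TX y ∧ P m z ∈ SG G) (hφ : HolP univ φ)
    (hφT : ∀ z, φ z ∈ TX y) : (∀ z, φ z ∈ SG G) ∨ ∀ z, φ z ∉ SG G := by
  have hcont : Continuous φ := continuous_iff_continuousAt.2 fun _ => hφ.continuousAt (mem_univ _)
  have hcl : IsClosed {z | φ z ∉ SG G} := by
    have : {z | φ z ∉ SG G} = (φ ⁻¹' SG G)ᶜ := rfl
    rw [this]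
    exact (isOpen_SG.preimage hcont).isClosed_compl
  have hop : IsOpen {z | φ z ∉ SG G} := by
    rw [isOpen_iff_mem_nhds]
    intro z0 hz0
    set r : ℝ := ‖z0‖ + 1 with hr
    exact lim_avoid_loc hD hF hy (W := ball 0 r) isOpen_ball (fun z _ => hc z (mem_univ z))
      ((hP r).mono fun m hm => hm.1) ((hP r).mono fun m hm => hm.2)
      (hφ.mono (subset_univ _)) (fun z _ => hφT z) (mem_ball_zero_iff.2 (by linarith)) hz0
  rcases isClopen_iff.1 ⟨hcl, hop⟩ with h1 | h1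
  · left
    intro z
    by_contra hcon
    have : z ∈ ({z | φ z ∉ SG G} : Set ℂ) := hcon
    rw [h1] at this
    exact this
  · right
    intro z
    have : z ∈ ({z | φ z ∉ SG G} : Set ℂ) := by rw [h1]; exact mem_univ z
    exact this

/-- the Zariski closure of a curve in a surface -/
theorem closure_cases (hF : ∀ i, IsForm (F i)) (hy : SubVar F K 2 y) {φ : ℂ → Mat (n + 1)}
    (hol : HolP univ φ) (hmem : ∀ z, φ z ∈ TX y) (hnc : ∃ z, φ z ≠ φ 0) :
    Cv y φ ∨ ∃ (K1 : Type) (_ : Field K1) (_ : Algebra ℂ K1) (y1 : Fin (n + 1) → K1),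
      SubVar F K1 1 y1 ∧ Cv y1 φ := by
  obtain ⟨K1, _, _, w, y1, hy1, hgen, hw, hrel, hw0⟩ := exists_closure hol
  have hvan : ∀ G : MvPolynomial (Fin (n + 1)) ℂ, IsForm G → val y G = 0 → val y1 G = 0 := by
    intro G hG h0
    rw [hrel G hG]
    intro z hz
    obtain ⟨u, hu, he⟩ := hmem z
    obtain ⟨d, hd⟩ := hG
    rw [he, nz_Phi hd hu.1] at hz
    apply hz
    have := hu.2 G ⟨d, hd⟩ h0
    rwa [val_eval] at this
  have hsub : SubVar F K1 w y1 := ⟨hy1, fun i => hvan _ (hF i) (hy.mem i), hgen, hw⟩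
  rcases Nat.lt_or_ge w 2 with hw2 | hw2
  · right
    interval_cases w
    · obtain ⟨z, hz⟩ := hnc
      exact absurd (hw0 rfl z) hz
    · refine ⟨K1, _, _, y1, hsub, hol, fun z => ?_, fun G hG hv => ?_⟩
      · obtain ⟨u, hu, he⟩ := hmem z
        refine ⟨u, ⟨hu.1, fun G hG h0 => ?_⟩, he⟩
        obtain ⟨d, hd⟩ := id hG
        have h1 := (hrel G hG).1 h0 z
        rw [he, nz_Phi hd hu.1, not_not] at h1
        rwa [val_eval]
      · by_contra hcon
        push Not at hcon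
        exact hv ((hrel G hG).2 hcon)
  · left
    refine ⟨hol, hmem, fun G hG hv => ?_⟩
    by_contra hcon
    push Not at hcon
    exact hv (spec_dense hy1 hgen hy.dim hw hw2 hvan hG ((hrel G hG).2 hcon))

end Pool.Agent.N155
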