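import Pool.Agent.N155.L.Omn

/-! Entire curves in open surfaces and regular symmetric differentials. -/

set_option autoImplicit false

open Filter Topology Metric Set MvPolynomial FF

namespace Pool.Agent.N155

open Pool.Agent.Y190.OP Pool.Agent.W602.GT Pool.Agent.TH143.GT

variable {n : ℕ} {ι κ α : Type} {F : ι → MvPolynomial (Fin (n + 1)) ℂ}
  {G : α → κ → MvPolynomial (Fin (n + 1)) ℂ} {K : Type} [Field K] [Algebra ℂ K]
  {y : Fin (n + 1) → K} {φ : ℂ → Mat (n + 1)}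

/-- **Entire curves of bounded derivative in open surfaces are tangent to the regular symmetric
differentials.** -/
theorem OpenSurface.tangent [Finite α] (hX : OpenSurface F G y) (R : ∀ h : K, Frac y h)
    {σ : SymD K} (hd : 0 < σ.d) (hreg : σ.Regular 2) (hol : HolP univ φ)
    (hmem : ∀ z, φ z ∈ TX y) (hav : ∀ z, φ z ∈ SA G) {B : ℝ} (hB : ∀ z, ‖fderiv ℝ φ z‖ ≤ B)
    (hnc : ∃ z, φ z ≠ φ 0) : Cv y φ ∧ SEq R σ 0 φ := by
  refine ⟨hX.cv hol hmem (fun a => Or.inl fun z => hav z a) hB hnc, ?_⟩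
  have hLB : LB R := lb_of_graph hX.surf.sub hX.surf.form hX.surf.irred hX.surf.smooth R
  obtain ⟨-, N, hN, ω, hω, -, hregω, D, hD0, hDi⟩ := hX.strata K 2 y one_le_two hX.surf.sub
  have hB0 : 0 ≤ B := (norm_nonneg _).trans (hB 0)
  set ρ : ℝ := 2 / (B + 1) with hρ
  have hρ0 : 0 < ρ := by positivity
  have hnc' : ∃ z, φ (aff 0 ρ z) ≠ φ (aff 0 ρ 0) := by
    obtain ⟨z, hz⟩ := hnc
    refine ⟨z / ρ, ?_⟩
    have h1 : aff 0 ρ (z / ρ) = z := by
      unfold aff
      have : (ρ : ℂ) ≠ 0 := by exact_mod_cast hρ0.ne'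
      field_simp
      simp
    have h2 : aff 0 ρ 0 = 0 := by
      unfold aff
      simp
    rwa [h1, h2]
  have key : SEq R σ 0 (fun z => φ (aff 0 ρ z)) := by
    refine tangent_gen (S := SA G) (Cn := StratumCentre G y)
      ⟨N, ω 0, ω 1, D, hN, hω 0, hω 1, fun v hv hc => hregω v hv (not_not.2 hc) 0,
        fun v hv hc => hregω v hv (not_not.2 hc) 1, hD0, hDi.transcendental 0⟩ hLB.lbc (hX.lbc R)
      (fun φ h1 h2 h3 h4 h5 => hX.cv h1 h2 (fun a => Or.inl fun z => h3 z a) h4 h5)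
      (fun 𝓤 P φ h1 h2 h3 h4 h5 h6 h7 h8 => hX.lim h8 (fun r => Eventually.of_forall fun m =>
        ⟨(h1 m).mono (subset_univ _), fun z _ => ⟨h2 m z, h3 m z⟩⟩) h4 h5 h6 h7)
      hd (fun v hv D hD => hreg v hv D hD) ?_
      (fun z => hmem _) (fun z => hav _) (fun z => ?_) hnc'
    · have := hol.aff 0 ρ
      rwa [preimage_univ] at this
    · rw [norm_fderiv_aff hρ0.le (hol.differentiableAt (mem_univ _))]
      have h1 := hB (aff 0 ρ z)
      rw [hρ, div_mul_eq_mul_div, div_le_iff₀ (by positivity)]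
      linarith
  intro z hz
  have h1 : aff 0 ρ (z / ρ) = z := by
    unfold aff
    have : (ρ : ℂ) ≠ 0 := by exact_mod_cast hρ0.ne'
    field_simp
    simp
  have h2 := key (z / ρ) (by
    change sgood R σ (φ (aff 0 ρ (z / ρ)))
    rwa [h1])
  rw [sval_aff, h1] at h2
  have h3 : (ρ : ℂ) ^ σ.d ≠ 0 := pow_ne_zero _ (by exact_mod_cast hρ0.ne')
  exact (mul_eq_zero.1 h2).resolve_left h3

/-- the criterion for curves of bounded derivative -/
theorem OpenSurface.noBrody [Finite α] (hX : OpenSurface F G y)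
    (h : ∀ (L : Type) [Field L] [Algebra ℂ L] [Algebra K L] [IsScalarTower ℂ K L]
      (D : Derivation ℂ K L), (∀ k, D k = 0 → ∃ c : ℂ, k = algebraMap ℂ K c) →
      ∃ σ : SymD K, 0 < σ.d ∧ σ.Regular 2 ∧ σ.app D ≠ 0) {H : ℂ → Mat (n + 1)}
    (hol : HolP univ H) (hmem : ∀ z, H z ∈ TX y) (hav : ∀ z, H z ∈ SA G) {B : ℝ}
    (hB : ∀ z, ‖fderiv ℝ H z‖ ≤ B) (hnc : ∃ z, H z ≠ H 0) : False := by
  let R : ∀ h : K, Frac y h := fr hX.surf.sub.gen
  have hcv : Cv y H := hX.cv hol hmem (fun a => Or.inl fun z => hav z a) hB hnc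
  set e := hcv.emb R with he
  let _ : Algebra K MK := e.toRingHom.toAlgebra
  have hal : ∀ k : K, algebraMap K MK k = e k := fun k => rfl
  have _ : IsScalarTower ℂ K MK := IsScalarTower.of_algebraMap_eq fun c => by
    rw [hal, e.commutes]
  have hder := hcv.isDer R
  let D : Derivation ℂ K MK := Derivation.mk'
    { toFun := fun k => MD (e k)
      map_add' := fun a b => hder.add a b
      map_smul' := fun c a => by
        have h1 : MD (e (algebraMap ℂ K c * a)) = e (algebraMap ℂ K c) * MD (e a) +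
            e a * MD (e (algebraMap ℂ K c)) := hder.mul (algebraMap ℂ K c) a
        have h2 : MD (e (algebraMap ℂ K c)) = 0 := hder.const c
        rw [RingHom.id_apply, Algebra.smul_def, h1, h2, mul_zero, add_zero, e.commutes,
          Algebra.smul_def] } (fun a b => by
        have h1 : MD (e (a * b)) = e a * MD (e b) + e b * MD (e a) := hder.mul a b
        change MD (e (a * b)) = a • MD (e b) + b • MD (e a)
        rw [h1, Algebra.smul_def, Algebra.smul_def, hal, hal])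
  obtain ⟨σ, hσd, hσr, hσ⟩ := h MK D (fun k hk => by
    have h1 : MD (e k) = 0 := hk
    obtain ⟨c, hc⟩ := MD_eq_zero h1
    refine ⟨c, e.toRingHom.injective ?_⟩
    change e _ = e _
    rw [hc, e.commutes])
  apply hσ
  have h1 : σ.app D = cl (sval R σ H) (mero_sval R hcv σ) := by
    rw [cl_sval]
    rfl
  rw [h1, cl_eq_zero]
  have h2 := (hX.tangent R hσd hσr hol hmem hav hB hnc).2
  filter_upwards [hcv.sgood R σ] with z hz
  exact h2 z hz

/-- **The bound for the derivatives of holomorphic discs.** -/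
theorem OpenSurface.disc_bound [Finite α] (hX : OpenSurface F G y)
    (hno : ∀ H : ℂ → Mat (n + 1), HolP univ H → (∀ z, H z ∈ TX y) → (∀ z, H z ∈ SA G) →
      (∀ z, ‖fderiv ℝ H z‖ ≤ 2) → (∃ z, H z ≠ H 0) → False) :
    ∃ C : ℝ, 0 < C ∧ ∀ Ψ : ℂ → Mat (n + 1), HolP (ball 0 1) Ψ →
      (∀ z ∈ ball (0 : ℂ) 1, Ψ z ∈ TX y ∧ Ψ z ∈ SA G) → ‖fderiv ℝ Ψ 0‖ ≤ C := by
  by_contra hcon
  push Not at hcon
  have h1 : ∀ m : ℕ, ∃ h : ℂ → Mat (n + 1), HolP (ball 0 (m + 1 : ℝ)) h ∧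
      (∀ z ∈ ball (0 : ℂ) (m + 1 : ℝ), h z ∈ TX y ∩ SA G) ∧
      (∀ z ∈ ball (0 : ℂ) ((m + 1 : ℝ) / 2), ‖fderiv ℝ h z‖ ≤ 2) ∧ ‖fderiv ℝ h 0‖ = 1 := by
    intro m
    obtain ⟨Ψ, hΨ, hΨS, hbig⟩ := hcon (2 * (m + 1 : ℝ)) (by positivity)
    exact rescale (by positivity) hΨ (fun z hz => hΨS z hz) hbig
  choose h hH hHS hHd hH0 using h1
  set 𝓤 : Ultrafilter ℕ := hyperfilter ℕ with h𝓤
  have hcof : ∀ R : ℝ, ∀ᶠ n : ℕ in (𝓤 : Filter ℕ), R ≤ n := hyper_ge'
  have hlim : ∀ z : ℂ, ∃ M ∈ TX y, Tendsto (fun m => h m z) 𝓤 (𝓝 M) := by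
    intro z
    have h1 : (𝓤.map (fun m => h m z) : Filter (Mat (n + 1))) ≤ 𝓟 (TX y) := by
      rw [Ultrafilter.coe_map, le_principal_iff, mem_map]
      filter_upwards [hcof ‖z‖] with m hm
      exact (hHS m z (mem_ball_zero_iff.2 (by linarith))).1
    obtain ⟨M, hM, hM'⟩ := isCompact_TX.ultrafilter_le_nhds (𝓤.map (fun m => h m z)) h1
    exact ⟨M, hM, hM'⟩
  choose H hHmem hHt using hlim
  have hCC : ∀ R : ℝ, 0 < R → CConv (𝓤 : Filter ℕ) (ball 0 R) h H := by
    intro R hR z hz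
    rw [Metric.tendsto_nhds]
    intro ε hε
    have h2 := Metric.tendsto_nhds.1 (hHt z) (ε / 2) (by positivity)
    have h3 := hcof (2 * R)
    rw [eventually_prod_iff]
    refine ⟨_, h2.and h3, fun w => w ∈ ball (0 : ℂ) R ∧ dist w z < ε / 4, ?_, ?_⟩
    · have h4 : ∀ᶠ w in 𝓝 z, w ∈ ball (0 : ℂ) R := isOpen_ball.mem_nhds hz
      have h5 : ∀ᶠ w in 𝓝 z, dist w z < ε / 4 := ball_mem_nhds z (by positivity)
      exact h4.and h5
    · rintro m ⟨hn1, hn2⟩ w ⟨hw1, hw2⟩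
      have h6 : ‖h m w - h m z‖ ≤ 2 * ‖w - z‖ := by
        have hsub : ball (0 : ℂ) R ⊆ ball (0 : ℂ) ((m + 1 : ℝ) / 2) :=
          ball_subset_ball (by linarith)
        have hsub2 : ball (0 : ℂ) R ⊆ ball (0 : ℂ) (m + 1 : ℝ) :=
          ball_subset_ball (by linarith)
        exact (convex_ball (0 : ℂ) R).norm_image_sub_le_of_norm_fderiv_le
          (fun x hx => (hH m).differentiableAt (hsub2 hx))
          (fun x hx => hHd m x (hsub hx)) hz hw1
      calc dist (h m w) (H z) ≤ dist (h m w) (h m z) + dist (h m z) (H z) := dist_triangle _ _ _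
        _ < ε / 2 + ε / 2 := by
            refine add_lt_add ?_ hn1
            rw [dist_eq_norm]
            rw [dist_eq_norm] at hw2
            linarith
        _ = ε := by ring
  have hev : ∀ R : ℝ, 0 < R → ∀ᶠ m in (𝓤 : Filter ℕ), HolP (ball 0 R) (h m) := by
    intro R _
    filter_upwards [hcof R] with m hm
    exact (hH m).mono (ball_subset_ball (by linarith))
  have hl := fun (R : ℝ) (hR : 0 < R) => holP_limit isOpen_ball (hCC R hR)
    (hev R hR) (fun z _ => TX_PM (hHmem z))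
  have hHol : HolP univ H := by
    intro z _
    exact (hl (‖z‖ + 1) (by positivity)).1 z (mem_ball_zero_iff.2 (by linarith))
  have hCC' : CConv (𝓤 : Filter ℕ) univ h H := fun z _ =>
    hCC (‖z‖ + 1) (by positivity) z (mem_ball_zero_iff.2 (by linarith))
  have hder : ∀ z, Tendsto (fun m => fderiv ℝ (h m) z) 𝓤 (𝓝 (fderiv ℝ H z)) := fun z =>
    (hl (‖z‖ + 1) (by positivity)).2 z (mem_ball_zero_iff.2 (by linarith))
  have hbd : ∀ z, ‖fderiv ℝ H z‖ ≤ 2 := by
    intro z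
    refine le_of_tendsto (hder z).norm ?_
    filter_upwards [hcof (2 * ‖z‖)] with m hm
    exact hHd m z (mem_ball_zero_iff.2 (by linarith))
  have hnc : ∃ z, H z ≠ H 0 := nc_of_fderiv (z := 0) fun hc1 => by
    have ht := hder 0
    rw [hc1] at ht
    have e1 := (ht.norm).eventually_lt_const (u := 1) (by simp)
    obtain ⟨m, hm⟩ := e1.exists
    rw [hH0 m] at hm
    exact lt_irrefl _ hm
  have hSA := hX.lim hCC' (fun r => by
    filter_upwards [hcof r] with m hm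
    refine ⟨(hH m).mono (ball_subset_ball (by linarith)), fun z hz => ?_⟩
    exact hHS m z (ball_subset_ball (by linarith) hz)) hHol hHmem hbd hnc
  exact hno H hHol hHmem hSA hbd hnc

/-- the bound on discs of radius `r` -/
theorem disc_bound_r {S : Set (Mat (n + 1))} {C : ℝ}
    (hC : ∀ Ψ : ℂ → Mat (n + 1), HolP (ball 0 1) Ψ → (∀ z ∈ ball (0 : ℂ) 1, Ψ z ∈ S) →
      ‖fderiv ℝ Ψ 0‖ ≤ C) {a : ℂ} {r : ℝ} (hr : 0 < r) (hφ : HolP (ball a r) φ)
    (hS : ∀ z ∈ ball a r, φ z ∈ S) : ‖fderiv ℝ φ a‖ ≤ C / r := by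
  have hsub : ball (0 : ℂ) 1 ⊆ aff a r ⁻¹' ball a r := by
    intro z hz
    rw [mem_ball_zero_iff] at hz
    rw [mem_preimage, mem_ball, dist_eq_norm]
    unfold aff
    rw [add_sub_cancel_left, norm_mul, Complex.norm_real, Real.norm_of_nonneg hr.le]
    nlinarith
  have h1 := hC (fun z => φ (aff a r z)) ((hφ.aff a r).mono hsub) fun z hz => hS _ (hsub hz)
  have h0 : aff a r 0 = a := by simp [aff]
  have h2 := norm_fderiv_aff (Ψ := φ) (a := a) (ρ := r) hr.le (z := 0) (by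
    rw [h0]; exact hφ.differentiableAt (mem_ball_self hr))
  rw [h2, h0] at h1
  rw [le_div_iff₀ hr]
  linarith

/-- entire curves are constant -/
theorem const_of_bound {S : Set (Mat (n + 1))} {C : ℝ}
    (hC : ∀ Ψ : ℂ → Mat (n + 1), HolP (ball 0 1) Ψ → (∀ z ∈ ball (0 : ℂ) 1, Ψ z ∈ S) →
      ‖fderiv ℝ Ψ 0‖ ≤ C) (hφ : HolP univ φ) (hS : ∀ z, φ z ∈ S) (z : ℂ) : φ z = φ 0 := by
  refine is_const_of_fderiv_eq_zero (𝕜 := ℝ) (fun w => hφ.differentiableAt (mem_univ w))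
    (fun w => ?_) z 0
  rw [← norm_le_zero_iff]
  refine le_of_forall_pos_le_add fun ε hε => ?_
  have h1 := disc_bound_r hC (a := w) (r := (|C| + 1) / ε) (by positivity)
    (hφ.mono (subset_univ _)) (fun z _ => hS z)
  refine h1.trans ?_
  rw [div_div_eq_mul_div, div_le_iff₀ (by positivity)]
  have := le_abs_self C
  nlinarith

end Pool.Agent.N155
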