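import Pool.Agent.N155.L.Opn

/-! Places of a function field in one variable given by sequences of points of a curve. -/

set_option autoImplicit false

open Filter Topology Metric Set MvPolynomial FF

namespace Pool.Agent.N155

open Pool.Agent.Y190.OP Pool.Agent.W602.GT Pool.Agent.TH143.GT

variable {n : ℕ} {K : Type} [Field K] [Algebra ℂ K] {y : Fin (n + 1) → K}
  (R : ∀ h : K, Frac y h) {φ : ℂ → Mat (n + 1)}

theorem ev_quot {A B : MvPolynomial (Fin (n + 1)) ℂ} {d : ℕ} (hA : A.IsHomogeneous d)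
    (hB : B.IsHomogeneous d) (hv : val y B ≠ 0) {M : Mat (n + 1)} (hM : M ∈ TX y)
    (g : good R (val y A / val y B) M) (hMB : nz B M) :
    ev R (val y A / val y B) M = qv A B M := by
  obtain ⟨u, hu, rfl⟩ := hM
  have h1 : eval u B ≠ 0 := (nz_Phi hB hu.1).1 hMB
  rw [ev_eq R hu hA hB hv rfl h1 g, qv_Phi hA hB hu.1]

/-- the values of quotients of forms along a sequence of points -/
theorem hasVal_quot (h : Cv y φ) {𝓤 : Ultrafilter ℕ} {c : ℕ → ℂ} {M0 : Mat (n + 1)}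
    (hc : Tendsto (fun m => φ (c m)) 𝓤 (𝓝 M0)) {A B : MvPolynomial (Fin (n + 1)) ℂ} {d : ℕ}
    (hA : A.IsHomogeneous d) (hB : B.IsHomogeneous d) (hv : val y B ≠ 0) (hMB : nz B M0) :
    HasVal 𝓤 c (h.emb R (val y A / val y B)) (qv A B M0) := by
  intro ε hε
  have hO : {M : Mat (n + 1) | nz B M ∧ ‖qv A B M - qv A B M0‖ < ε} ∈ 𝓝 M0 := by
    refine Filter.inter_mem ((isOpen_nz _).mem_nhds hMB) ?_
    have h2 : Tendsto (fun M => ‖qv A B M - qv A B M0‖) (𝓝 M0) (𝓝 0) := by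
      have := ((continuousAt_qv (G1 := A) hMB).tendsto.sub_const (qv A B M0)).norm
      rwa [sub_self, norm_zero] at this
    exact h2.eventually_lt_const hε
  obtain ⟨O, hO1, hO2, hO3⟩ := _root_.mem_nhds_iff.1 hO
  filter_upwards [hc.eventually (hO2.mem_nhds hO3)] with m hm
  have hcont : ContinuousAt φ (c m) := h.hol.continuousAt (mem_univ _)
  have h4 : ∀ᶠ z in 𝓝[≠] (c m), φ z ∈ O :=
    (hcont.eventually (hO2.mem_nhds hm)).filter_mono nhdsWithin_le_nhds
  have h5 : ∀ᶠ z in 𝓝[≠] (c m), rep (h.emb R (val y A / val y B)) z =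
      ev R (val y A / val y B) (φ z) := codis_ev (rep_cl _) (c m)
  filter_upwards [h4, h5, codis_ev (h.good R (val y A / val y B)) (c m)] with z hz1 hz2 hz3
  have h6 := hO1 hz1
  rw [hz2, ev_quot R hA hB hv (h.mem z) hz3 h6.1]
  exact h6.2

theorem hasVal_coord (h : Cv y φ) {𝓤 : Ultrafilter ℕ} {c : ℕ → ℂ} {M0 : Mat (n + 1)}
    (hc : Tendsto (fun m => φ (c m)) 𝓤 (𝓝 M0)) {i : Fin (n + 1)} (hi : y i ≠ 0)
    (hMi : nz (X i) M0) (j : Fin (n + 1)) :
    HasVal 𝓤 c (h.emb R (y j / y i)) (qv (X j) (X i) M0) := by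
  have h1 := hasVal_quot R h hc (isHomogeneous_X ℂ j) (isHomogeneous_X ℂ i)
    (by rw [val_X']; exact hi) hMi
  rwa [val_X', val_X'] at h1

/-- a coordinate which does not vanish at the point -/
theorem exists_coord0 {M0 : Mat (n + 1)} (hM0 : M0 ∈ TX y) : ∃ i, y i ≠ 0 ∧ nz (X i) M0 := by
  obtain ⟨u, hu, rfl⟩ := hM0
  obtain ⟨i, hi⟩ := Function.ne_iff.1 hu.1
  have hui : u i ≠ 0 := hi
  refine ⟨i, ?_, ?_⟩
  · intro h0
    have := hu.2 (X i) ⟨1, isHomogeneous_X _ _⟩ (by rw [val_X', h0])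
    rw [val_X'] at this
    exact hui this
  · rw [nz_Phi (isHomogeneous_X _ _) hu.1, eval_X]
    exact hui

/-- a nonconstant function which vanishes at the point -/
theorem exists_x0 [IsFF ℂ K] (hgen : coords ℂ y = ⊤) (h : Cv y φ) {M0 : Mat (n + 1)}
    (hM0 : M0 ∈ TX y) : ∃ x0 : K, Transcendental ℂ x0 ∧ ∀ (𝓤 : Ultrafilter ℕ) (c : ℕ → ℂ),
      Tendsto (fun m => φ (c m)) 𝓤 (𝓝 M0) → HasVal 𝓤 c (h.emb R x0) 0 := by
  obtain ⟨i, hyi, hnzi⟩ := exists_coord0 hM0
  obtain ⟨j0, hj0⟩ : ∃ j, Transcendental ℂ (y j / y i) := by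
    obtain ⟨s, hs⟩ := exists_coord_basis hgen hyi (w := 1) (by
      rw [IsFF.trdeg (k := ℂ) (K := K), Nat.cast_one])
    exact ⟨s 0, hs.1.transcendental 0⟩
  refine ⟨y j0 / y i - algebraMap ℂ K (qv (X j0) (X i) M0), fun h1 => ?_, fun 𝓤 c hc => ?_⟩
  · apply hj0
    have h2 := h1.add (isAlgebraic_algebraMap (qv (X j0) (X i) M0) :
      IsAlgebraic ℂ (algebraMap ℂ K _))
    rwa [sub_add_cancel] at h2
  · have h1 := (hasVal_coord R h hc hyi hnzi j0).sub_const (qv (X j0) (X i) M0)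
    rw [sub_self] at h1
    rw [map_sub, AlgHom.commutes]
    exact h1

variable {R}

theorem emb_ne (h : Cv y φ) {x0 : K} (hx0 : x0 ≠ 0) : h.emb R x0 ≠ 0 := fun h0 =>
  hx0 ((map_eq_zero_iff _ (h.emb R).toRingHom.injective).1 h0)

theorem const_mem_VM {𝓤 : Ultrafilter ℕ} {c : ℕ → ℂ} (a : ℂ) : algebraMap ℂ MK a ∈ VM 𝓤 c := by
  refine ⟨‖a‖, Eventually.of_forall fun m => ?_⟩
  filter_upwards [codis_ev (rep_const a) (c m)] with z hz
  rw [hz]

/-- the place of a sequence -/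
theorem exists_place [IsFF ℂ K] (h : Cv y φ) {𝓤 : Ultrafilter ℕ} {c : ℕ → ℂ} {x0 : K}
    (hx0 : x0 ≠ 0) (hv : HasVal 𝓤 c (h.emb R x0) 0) :
    ∃ P : Place ℂ K, 0 < P.ord x0 ∧ ∀ g, P.Reg g ↔ h.emb R g ∈ VM 𝓤 c := by
  set e := h.emb R with he
  obtain ⟨P, hP⟩ := place_of_val (κ := ℂ) ((VM 𝓤 c).comap e.toRingHom) (fun a => by
      change e (algebraMap ℂ K a) ∈ VM 𝓤 c
      rw [e.commutes]
      exact const_mem_VM a) (t := x0) (by
      change e x0 ∈ VM 𝓤 c
      exact hv.mem) (by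
      change e (x0⁻¹) ∉ VM 𝓤 c
      rw [map_inv₀]
      exact hv.inv_not (emb_ne h hx0))
  refine ⟨P, ?_, fun g => hP g⟩
  by_contra hneg
  have h2 : P.Reg x0⁻¹ := by
    rw [P.reg_iff (inv_ne_zero hx0), P.ord_inv]
    linarith
  have h3 := (hP _).1 h2
  change e (x0⁻¹) ∈ VM 𝓤 c at h3
  rw [map_inv₀] at h3
  exact hv.inv_not (emb_ne h hx0) h3

/-- functions of positive order have the value zero -/
theorem hasVal_of_ord (h : Cv y φ) {𝓤 : Ultrafilter ℕ} {c : ℕ → ℂ} {P : Place ℂ K}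
    (hP : ∀ g, P.Reg g ↔ h.emb R g ∈ VM 𝓤 c) {τ : K} (hτ : 0 < P.ord τ) :
    HasVal 𝓤 c (h.emb R τ) 0 := by
  have hτne : τ ≠ 0 := by
    rintro rfl
    rw [P.ord_zero] at hτ
    exact lt_irrefl _ hτ
  apply hasVal_zero ((hP τ).1 ((P.reg_iff hτne).2 hτ.le))
  intro h1
  rw [← map_inv₀] at h1
  have h2 := (hP _).2 h1
  rw [P.reg_iff (inv_ne_zero hτne), P.ord_inv] at h2
  linarith

theorem ord_of_hasVal (h : Cv y φ) {𝓤 : Ultrafilter ℕ} {c : ℕ → ℂ} {P : Place ℂ K}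
    (hP : ∀ g, P.Reg g ↔ h.emb R g ∈ VM 𝓤 c) {τ : K} (hτne : τ ≠ 0)
    (hτ : HasVal 𝓤 c (h.emb R τ) 0) : 0 < P.ord τ := by
  by_contra hneg
  have h2 : P.Reg τ⁻¹ := by
    rw [P.reg_iff (inv_ne_zero hτne), P.ord_inv]
    linarith
  have h3 := (hP _).1 h2
  rw [map_inv₀] at h3
  exact hτ.inv_not (emb_ne h hτne) h3

/-- the value of a regular function -/
theorem exists_value (h : Cv y φ) {𝓤 : Ultrafilter ℕ} {c : ℕ → ℂ} {P : Place ℂ K}
    (hP : ∀ g, P.Reg g ↔ h.emb R g ∈ VM 𝓤 c) {g : K} (hg : P.Reg g) :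
    ∃ a : ℂ, g = algebraMap ℂ K a ∨ 0 < P.ord (g - algebraMap ℂ K a) := by
  obtain ⟨a, ha⟩ := exists_val ((hP g).1 hg)
  refine ⟨a, ?_⟩
  by_cases h0 : g - algebraMap ℂ K a = 0
  · exact Or.inl (sub_eq_zero.1 h0)
  · right
    apply ord_of_hasVal h hP h0
    have h1 := ha.sub_const a
    rw [sub_self] at h1
    rw [map_sub, AlgHom.commutes]
    exact h1

/-- **Functions which vanish along a sequence are bounded near the sequence.** -/
theorem near_place [IsFF ℂ K] (hgen : coords ℂ y = ⊤) (h : Cv y φ) {B : ℝ}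
    (hB : ∀ z, ‖fderiv ℝ φ z‖ ≤ B) {zm : ℕ → ℂ} {M0 : Mat (n + 1)} (hM0 : M0 ∈ TX y)
    (hlim : Tendsto (fun m => φ (zm m)) (hyperfilter ℕ : Filter ℕ) (𝓝 M0)) {τ : K}
    (hτv : HasVal (hyperfilter ℕ) zm (h.emb R τ) 0) :
    ∃ r > 0, ∀ᶠ m in (hyperfilter ℕ : Filter ℕ), ∀ w ∈ ball (zm m) r,
      ∀ᶠ z in 𝓝[≠] w, ‖rep (h.emb R τ) z‖ ≤ 1 := by
  classical
  set 𝓤 : Ultrafilter ℕ := hyperfilter ℕ with h𝓤
  set e := h.emb R with he
  by_cases hτt : Transcendental ℂ τ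
  swap
  · obtain ⟨a, ha⟩ : ∃ a : ℂ, τ = algebraMap ℂ K a := by
      have h1 : IsAlgebraic ℂ τ := by
        by_contra h2
        exact hτt h2
      have h2 := minpoly.degree_eq_one_iff.1
        (IsAlgClosed.degree_eq_one_of_irreducible ℂ (minpoly.irreducible h1.isIntegral))
      obtain ⟨a, ha⟩ := h2
      exact ⟨a, ha.symm⟩
    have h0 : a = 0 := by
      have h1 : HasVal 𝓤 zm (e τ) a := by
        intro ε hε
        refine Eventually.of_forall fun m => ?_
        rw [ha, e.commutes]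
        filter_upwards [codis_ev (rep_const a) (zm m)] with z hz
        rw [hz, sub_self, norm_zero]
        exact hε
      exact h1.unique hτv
    refine ⟨1, one_pos, Eventually.of_forall fun m w _ => ?_⟩
    rw [ha, h0, e.commutes]
    filter_upwards [codis_ev (rep_const 0) w] with z hz
    rw [hz, norm_zero]
    exact zero_le_one
  have hB0 : 0 ≤ B := (norm_nonneg _).trans (hB 0)
  have hLip : ∀ z w, ‖φ w - φ z‖ ≤ B * ‖w - z‖ := fun z w =>
    (convex_univ).norm_image_sub_le_of_norm_fderiv_le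
      (fun x _ => h.hol.differentiableAt (mem_univ x)) (fun x _ => hB x) (mem_univ z) (mem_univ w)
  obtain ⟨x0, hx0t, hx0v⟩ := exists_x0 R hgen h hM0
  have hx0ne : x0 ≠ 0 := fun h0 => hx0t (by rw [h0]; exact isAlgebraic_zero)
  obtain ⟨S, hS, -, -⟩ := zeros hx0t
  have hplace : ∀ (c : ℕ → ℂ), Tendsto (fun m => c m - zm m) 𝓤 (𝓝 0) →
      ∃ P : Place ℂ K, P ∈ S ∧ ∀ g, P.Reg g ↔ e g ∈ VM 𝓤 c := by
    intro c hc
    have hclim : Tendsto (fun m => φ (c m)) 𝓤 (𝓝 M0) := by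
      have h2 : Tendsto (fun m => φ (c m) - φ (zm m)) 𝓤 (𝓝 0) := by
        apply squeeze_zero_norm (a := fun m => B * ‖c m - zm m‖)
        · intro m
          exact hLip _ _
        · have := (hc.norm).const_mul B
          simpa using this
      have h3 := h2.add hlim
      simpa using h3
    obtain ⟨P, hP1, hP2⟩ := exists_place h hx0ne (hx0v 𝓤 c hclim)
    exact ⟨P, (hS P).2 hP1, hP2⟩
  by_contra hno
  push Not at hno
  have hno' : ∀ r > 0, ∀ᶠ m in (𝓤 : Filter ℕ), ∃ w ∈ ball (zm m) r,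
      ¬ ∀ᶠ z in 𝓝[≠] w, ‖rep (e τ) z‖ ≤ 1 := by
    intro r hr
    filter_upwards [hno r hr] with m hm
    obtain ⟨w, hw, hw2⟩ := hm
    exact ⟨w, hw, by simpa using hw2⟩
  have hex : ∀ ρ : ℝ, 0 < ρ → ρ < 1 → ∃ P' : Place ℂ K, P' ∈ S ∧ ∃ l : ℂ, ‖l‖ = ρ ∧
      ¬ P'.Reg (τ - algebraMap ℂ K l)⁻¹ := by
    intro ρ hρ0 hρ1
    obtain ⟨s, hs0, hs⟩ := diag (l := (𝓤 : Filter ℕ))
      (P := fun m s => ∃ L, ‖L‖ = ρ ∧ Tendsto (rep (e τ)) (𝓝[≠] (zm m + s)) (𝓝 L))
      (fun L => hyper_ge' L) (by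
      intro r hr
      filter_upwards [hno' r hr, hτv (ρ / 2) (by positivity)] with m h1 h2
      obtain ⟨w, hw, hw2⟩ := h1
      obtain ⟨z, hz, L, hL1, hL2⟩ := exists_modulus (rep_mero (e τ))
        (convex_ball (zm m) r).isPreconnected (mem_ball_self hr) (ρ := ρ)
        ⟨ρ / 2, by positivity, by
          filter_upwards [h2] with z hz
          rw [sub_zero] at hz
          linarith⟩ hw (by
          intro h3
          apply hw2
          filter_upwards [h3] with z hz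
          linarith)
      refine ⟨z - zm m, ?_, L, hL1, ?_⟩
      · rw [← dist_eq_norm]
        exact hz
      · rwa [add_sub_cancel])
    set c : ℕ → ℂ := fun m => zm m + s m with hc
    have hc0 : Tendsto (fun m => c m - zm m) 𝓤 (𝓝 0) := by
      have : (fun m => c m - zm m) = s := by
        funext m
        rw [hc]
        ring
      rw [this]
      exact hs0
    obtain ⟨P', hP'S, hP'⟩ := hplace c hc0
    have hmem : e τ ∈ VM 𝓤 c := by
      refine ⟨ρ + 1, ?_⟩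
      filter_upwards [hs] with m hm
      obtain ⟨L, hL1, hL2⟩ := hm
      filter_upwards [hL2.norm.eventually_lt_const (show ‖L‖ < ρ + 1 by linarith)] with z hz
      exact hz.le
    obtain ⟨l, hl⟩ := exists_val hmem
    have hln : ‖l‖ = ρ := by
      by_contra hne
      have hpos : 0 < |‖l‖ - ρ| / 2 := by
        have := abs_pos.2 (sub_ne_zero.2 hne)
        positivity
      obtain ⟨m, hm1, hm2⟩ := (hs.and (hl _ hpos)).exists
      obtain ⟨L, hL1, hL2⟩ := hm1
      have h3 := (hL2.sub_const L)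
      rw [sub_self] at h3
      have h4 := h3.norm.eventually_lt_const (show ‖(0 : ℂ)‖ < |‖l‖ - ρ| / 2 by
        rw [norm_zero]; exact hpos)
      obtain ⟨z, hz1, hz2⟩ := (hm2.and h4).exists
      have h5 : |‖l‖ - ‖L‖| ≤ ‖l - L‖ := abs_norm_sub_norm_le l L
      have h6 : ‖l - L‖ ≤ ‖rep (e τ) z - L‖ + ‖rep (e τ) z - l‖ := by
        have := norm_sub_le (rep (e τ) z - L) (rep (e τ) z - l)
        rwa [sub_sub_sub_cancel_left] at this
      rw [hL1] at h5
      linarith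
    refine ⟨P', hP'S, l, hln, fun h3 => ?_⟩
    have h4 := (hP' _).1 h3
    rw [map_inv₀, map_sub, e.commutes] at h4
    have h5 := hl.sub_const l
    rw [sub_self] at h5
    refine h5.inv_not ?_ h4
    intro h6
    have h7 : e (τ - algebraMap ℂ K l) = 0 := by rw [map_sub, e.commutes, h6]
    have h8 := (map_eq_zero_iff _ e.toRingHom.injective).1 h7
    apply hτt
    rw [sub_eq_zero] at h8
    rw [h8]
    exact isAlgebraic_algebraMap _
  -- infinitely many places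
  have hk : ∀ k : ℕ, (0 : ℝ) < 1 / ((k : ℝ) + 2) ∧ 1 / ((k : ℝ) + 2) < 1 := by
    intro k
    constructor
    · positivity
    · rw [div_lt_one (by positivity)]
      have : (0 : ℝ) ≤ k := Nat.cast_nonneg k
      linarith
  choose Pk hPkS lk hlk hPk using fun k : ℕ => hex _ (hk k).1 (hk k).2
  have hinj : Function.Injective Pk := by
    intro k k' hkk
    by_contra hne
    have hlne : lk k ≠ lk k' := by
      intro h1
      apply hne
      have h2 := (hlk k).symm.trans ((congrArg norm h1).trans (hlk k'))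
      rw [div_eq_div_iff (by positivity) (by positivity)] at h2
      have h3 : (k : ℝ) = k' := by linarith
      exact_mod_cast h3
    have h1 := hPk k
    have h2 := hPk k'
    rw [← hkk] at h2
    have hsub : ∀ l : ℂ, τ - algebraMap ℂ K l ≠ 0 := by
      intro l h8
      apply hτt
      rw [sub_eq_zero] at h8
      rw [h8]
      exact isAlgebraic_algebraMap _
    have hpos : ∀ l : ℂ, ¬ (Pk k).Reg (τ - algebraMap ℂ K l)⁻¹ →
        0 < (Pk k).ord (τ - algebraMap ℂ K l) := by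
      intro l hl
      rw [(Pk k).reg_iff (inv_ne_zero (hsub l)), (Pk k).ord_inv] at hl
      linarith
    have h3 := hpos _ h1
    have h4 := hpos _ h2
    have h5 : (τ - algebraMap ℂ K (lk k')) - (τ - algebraMap ℂ K (lk k)) =
        algebraMap ℂ K (lk k - lk k') := by
      rw [map_sub]; ring
    have h6 : algebraMap ℂ K (lk k - lk k') ≠ 0 := by
      rw [Ne, map_eq_zero]
      exact sub_ne_zero.2 hlne
    have h7 := (Pk k).ord_sub (hsub (lk k')) (hsub (lk k)) (by rwa [h5])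
    rw [h5, (Pk k).ord_const (sub_ne_zero.2 hlne)] at h7
    have h8 := lt_min h4 h3
    linarith
  exact (Set.infinite_range_of_injective hinj).mono (by
    rintro _ ⟨k, rfl⟩
    exact hPkS k) S.finite_toSet

end Pool.Agent.N155
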