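import Pool.Agent.N155.L.Nd

/-! Symmetric differentials along curves, and the linearised equation. -/

set_option autoImplicit false

open Filter Topology Metric Set MvPolynomial

namespace Pool.Agent.N155

open FF Pool.Agent.Y190.OP Pool.Agent.W602.GT Pool.Agent.TH143.GT

/-- A rational symmetric differential of degree `d` on the field `K`: the sum of the `r` terms
`h j * df (j, 1) ⋯ df (j, d)`. -/
structure SymD (K : Type) where
  d : ℕ
  r : ℕ
  h : Fin r → K
  f : Fin r → Fin d → K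

/-- The value of a symmetric differential on a vector field. -/
noncomputable def SymD.val {K : Type} [Field K] [Algebra ℂ K] (σ : SymD K)
    (D : Derivation ℂ K K) : K := ∑ j, σ.h j * ∏ l, D (σ.f j l)

variable {n : ℕ} {K : Type} [Field K] [Algebra ℂ K] {y : Fin (n + 1) → K}
  (R : ∀ h : K, Frac y h)

/-- the value of the symmetric differential on the derivative of the curve -/
noncomputable def sval (σ : SymD K) (φ : ℂ → Mat (n + 1)) (z : ℂ) : ℂ :=
  ∑ j, ev R (σ.h j) (φ z) * ∏ l, deriv (fun w => ev R (σ.f j l) (φ w)) z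

/-- the coefficients of the symmetric differential are defined -/
def sgood (σ : SymD K) (M : Mat (n + 1)) : Prop :=
  (∀ j, good R (σ.h j) M) ∧ ∀ j l, good R (σ.f j l) M

/-- the differential equation -/
def SEq (σ : SymD K) (c : ℂ) (φ : ℂ → Mat (n + 1)) : Prop :=
  ∀ z, sgood R σ (φ z) → sval R σ φ z = c

theorem isOpen_sgood (σ : SymD K) : IsOpen {M : Mat (n + 1) | sgood R σ M} := by
  have h1 : {M : Mat (n + 1) | sgood R σ M} = (⋂ j, {M | good R (σ.h j) M}) ∩
      ⋂ j, ⋂ l, {M | good R (σ.f j l) M} := by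
    ext M
    simp only [mem_inter_iff, mem_iInter]
    rfl
  rw [h1]
  exact (isOpen_iInter_of_finite fun j => isOpen_good R _).inter
    (isOpen_iInter_of_finite fun j => isOpen_iInter_of_finite fun l => isOpen_good R _)

theorem Cv.sgood {φ : ℂ → Mat (n + 1)} (h : Cv y φ) (σ : SymD K) :
    ∀ᶠ z in codiscrete ℂ, N155.sgood R σ (φ z) := by
  have h1 : ∀ᶠ z in codiscrete ℂ, ∀ j, N155.good R (σ.h j) (φ z) :=
    eventually_all.2 fun j => h.good R _
  have h2 : ∀ᶠ z in codiscrete ℂ, ∀ j l, N155.good R (σ.f j l) (φ z) :=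
    eventually_all.2 fun j => eventually_all.2 fun l => h.good R _
  filter_upwards [h1, h2] with z h3 h4 using ⟨h3, h4⟩

theorem SEq.shift {σ : SymD K} {c : ℂ} {φ : ℂ → Mat (n + 1)} (h : SEq R σ c φ) (t : ℂ) :
    SEq R σ c (fun w => φ (t + w)) := by
  intro z hz
  have h1 := h (t + z) hz
  unfold sval at h1 ⊢
  rw [← h1]
  refine Finset.sum_congr rfl fun j _ => ?_
  congr 1
  refine Finset.prod_congr rfl fun l _ => ?_
  exact deriv_comp_const_add (fun w => ev R (σ.f j l) (φ w)) t z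

/-! ### difference quotients -/

/-- sequences of numbers with a common limit, and the limit of their normalised difference -/
def DQ (𝓤 : Ultrafilter ℕ) (w : ℕ → ℂ) (z A B : ℂ) (x x' : ℕ → ℂ) (X : ℂ → ℂ) (k : ℕ) : Prop :=
  ∃ X1, HasDerivAt X X1 z ∧ Tendsto x 𝓤 (𝓝 (X z)) ∧ Tendsto x' 𝓤 (𝓝 (X z)) ∧
    Tendsto (fun m => (x' m - x m) * w m) 𝓤 (𝓝 (k * A * X z + B * X1))

variable {𝓤 : Ultrafilter ℕ} {w : ℕ → ℂ} {z A B : ℂ}

theorem DQ.mul {x x' v v' : ℕ → ℂ} {X V : ℂ → ℂ} {k l : ℕ} (h : DQ 𝓤 w z A B x x' X k)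
    (h' : DQ 𝓤 w z A B v v' V l) :
    DQ 𝓤 w z A B (fun m => x m * v m) (fun m => x' m * v' m) (fun z => X z * V z) (k + l) := by
  obtain ⟨X1, a1, a2, a3, a4⟩ := h
  obtain ⟨V1, b1, b2, b3, b4⟩ := h'
  refine ⟨X1 * V z + X z * V1, a1.mul b1, a2.mul b2, a3.mul b3, ?_⟩
  have h1 := (a4.mul b3).add (a2.mul b4)
  have e1 : (k * A * X z + B * X1) * V z + X z * (l * A * V z + B * V1) =
      ((k + l : ℕ) : ℂ) * A * (X z * V z) + B * (X1 * V z + X z * V1) := by
    push_cast
    ring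
  rw [e1] at h1
  refine h1.congr fun m => ?_
  ring

theorem DQ.sum {ι : Type} (s : Finset ι) {x x' : ι → ℕ → ℂ} {X : ι → ℂ → ℂ} {k : ℕ}
    (h : ∀ i, DQ 𝓤 w z A B (x i) (x' i) (X i) k) :
    DQ 𝓤 w z A B (fun m => ∑ i ∈ s, x i m) (fun m => ∑ i ∈ s, x' i m)
      (fun z => ∑ i ∈ s, X i z) k := by
  choose X1 a1 a2 a3 a4 using h
  refine ⟨∑ i ∈ s, X1 i, HasDerivAt.fun_sum fun i _ => a1 i, tendsto_finsetSum _ fun i _ => a2 i,
    tendsto_finsetSum _ fun i _ => a3 i, ?_⟩
  have h1 := tendsto_finsetSum s fun i _ => a4 i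
  rw [Finset.sum_add_distrib, ← Finset.mul_sum, ← Finset.mul_sum] at h1
  refine h1.congr fun m => ?_
  rw [← Finset.sum_mul, Finset.sum_sub_distrib]

theorem DQ.prod {ι : Type} (s : Finset ι) {x x' : ι → ℕ → ℂ} {X : ι → ℂ → ℂ}
    (h : ∀ i, DQ 𝓤 w z A B (x i) (x' i) (X i) 1) :
    DQ 𝓤 w z A B (fun m => ∏ i ∈ s, x i m) (fun m => ∏ i ∈ s, x' i m)
      (fun z => ∏ i ∈ s, X i z) s.card := by
  classical
  induction s using Finset.induction_on with
  | empty =>
    simp only [Finset.prod_empty, Finset.card_empty]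
    refine ⟨0, hasDerivAt_const _ _, tendsto_const_nhds, tendsto_const_nhds, ?_⟩
    simp only [sub_self, zero_mul, Nat.cast_zero, mul_zero, add_zero]
    exact tendsto_const_nhds
  | insert i s hi ih =>
    simp only [Finset.prod_insert hi, Finset.card_insert_of_notMem hi]
    rw [add_comm]
    exact (h i).mul ih

variable {φ : ℂ → Mat (n + 1)} {P Q : ℕ → ℂ → Mat (n + 1)} {wt : ℕ → ℂ → ℂ}

/-- **The linearised equation.** -/
theorem Dfo.ls (h : Dfo y 𝓤 φ P Q wt) {a b : ℕ → ℂ} {β α : ℂ}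
    (hwt : ∀ m z, HasDerivAt (wt m) (a m * wt m z) z) (hb : Tendsto b 𝓤 (𝓝 β))
    (hab : Tendsto (fun m => b m * a m) 𝓤 (𝓝 α)) {σ : SymD K} {c : ℂ} (hc : c ≠ 0) (hd : 0 < σ.d)
    (hP : ∀ m, SEq R σ c (P m)) (hQ : ∀ m, SEq R σ c (Q m)) (hφ : SEq R σ c φ) {g : MK}
    (hδ : ∀ k, h.del R k = g * MD (h.cv.emb R k)) :
    algebraMap ℂ MK β * MD g = algebraMap ℂ MK α * g := by
  obtain ⟨γ, hγ, rfl⟩ := cl_surj g
  rw [MD_cl, ← cl_const, ← cl_const, cl_mul, cl_mul, cl_eq]
  have hk : ∀ k : K, ∀ᶠ z in codiscrete ℂ, Dl R 𝓤 P Q wt k z =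
      γ z * deriv (fun w => ev R k (φ w)) z := by
    intro k
    have := hδ k
    unfold Dfo.del at this
    rw [Cv.emb_apply, MD_cl, cl_mul, cl_eq] at this
    exact this
  have hW : ∀ᶠ z in codiscrete ℂ, AnalyticAt ℂ γ z ∧ N155.sgood R σ (φ z) ∧
      (∀ j, Dl R 𝓤 P Q wt (σ.h j) z = γ z * deriv (fun w => ev R (σ.h j) (φ w)) z) ∧
      ∀ j l, Dl R 𝓤 P Q wt (σ.f j l) z = γ z * deriv (fun w => ev R (σ.f j l) (φ w)) z := by
    have h1 : ∀ᶠ z in codiscrete ℂ, ∀ j, Dl R 𝓤 P Q wt (σ.h j) z =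
        γ z * deriv (fun w => ev R (σ.h j) (φ w)) z := eventually_all.2 fun j => hk _
    have h2 : ∀ᶠ z in codiscrete ℂ, ∀ j l, Dl R 𝓤 P Q wt (σ.f j l) z =
        γ z * deriv (fun w => ev R (σ.f j l) (φ w)) z :=
      eventually_all.2 fun j => eventually_all.2 fun l => hk _
    filter_upwards [mero_an hγ, h.cv.sgood R σ, h1, h2] with z k1 k2 k3 k4 using ⟨k1, k2, k3, k4⟩
  filter_upwards [hW] with z hz
  have hzn := codis_nhds hW hz
  obtain ⟨hz1, hz2, hz3, hz4⟩ := hz
  rw [Pi.mul_apply, Pi.mul_apply]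
  set A : ℂ := β * deriv γ z - α * γ z with hA
  set B : ℂ := β * γ z with hB
  have hhj : ∀ j, DQ 𝓤 (fun m => b m * wt m z) z A B (fun m => ev R (σ.h j) (P m z))
      (fun m => ev R (σ.h j) (Q m z)) (fun w => ev R (σ.h j) (φ w)) 0 := by
    intro j
    refine ⟨_, (h.cv.an R (hz2.1 j)).differentiableAt.hasDerivAt,
      (continuousAt_qv (hz2.1 j)).tendsto.comp (h.lP.pointwise (mem_univ z)),
      (continuousAt_qv (hz2.1 j)).tendsto.comp (h.lQ.pointwise (mem_univ z)), ?_⟩
    have h1 := hb.mul (h.tendsto R (hz2.1 j))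
    rw [hz3 j] at h1
    have e1 : β * (γ z * deriv (fun w => ev R (σ.h j) (φ w)) z) =
        ((0 : ℕ) : ℂ) * A * ev R (σ.h j) (φ z) +
          B * deriv (fun w => ev R (σ.h j) (φ w)) z := by
      rw [hB, Nat.cast_zero]
      ring
    rw [e1] at h1
    refine h1.congr fun m => ?_
    unfold dqf
    ring
  have hfj : ∀ j l, DQ 𝓤 (fun m => b m * wt m z) z A B
      (fun m => deriv (fun w => ev R (σ.f j l) (P m w)) z)
      (fun m => deriv (fun w => ev R (σ.f j l) (Q m w)) z)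
      (deriv (fun w => ev R (σ.f j l) (φ w))) 1 := by
    intro j l
    have hg := hz2.2 j l
    have hU : IsOpen {w | nz (R (σ.f j l)).G0 (φ w)} := h.isOpen_good R (σ.f j l)
    have han := h.cv.an R hg
    have hX1 := han.deriv.differentiableAt.hasDerivAt
    refine ⟨_, hX1, ?_, ?_, ?_⟩
    · exact (CConv.an (cc_qv h.lP) hU hg (cc_diff h.lP h.hP (R (σ.f j l)).h1
        (R (σ.f j l)).h0 hg)).2
    · exact (CConv.an (cc_qv h.lQ) hU hg (cc_diff h.lQ h.hQ (R (σ.f j l)).h1
        (R (σ.f j l)).h0 hg)).2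
    · have h1 := (CConv.an (h.conv R (σ.f j l)) hU hg (h.diff_dq R hg)).2
      have h2 := h.tendsto R hg
      have hder : deriv (Dl R 𝓤 P Q wt (σ.f j l)) z =
          deriv γ z * deriv (fun w => ev R (σ.f j l) (φ w)) z +
            γ z * deriv (deriv (fun w => ev R (σ.f j l) (φ w))) z := by
        have h3 : Dl R 𝓤 P Q wt (σ.f j l) =ᶠ[𝓝 z] fun w => γ w *
            deriv (fun w => ev R (σ.f j l) (φ w)) w := by
          filter_upwards [hzn] with w hw
          exact hw.2.2.2 j l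
        rw [h3.deriv_eq]
        exact (hz1.differentiableAt.hasDerivAt.mul hX1).deriv
      rw [hder] at h1
      rw [hz4 j l] at h2
      have h3 := (hb.mul h1).sub (hab.mul h2)
      have e1 : β * (deriv γ z * deriv (fun w => ev R (σ.f j l) (φ w)) z +
            γ z * deriv (deriv (fun w => ev R (σ.f j l) (φ w))) z) -
            α * (γ z * deriv (fun w => ev R (σ.f j l) (φ w)) z) =
          ((1 : ℕ) : ℂ) * A * deriv (fun w => ev R (σ.f j l) (φ w)) z +
            B * deriv (deriv (fun w => ev R (σ.f j l) (φ w))) z := by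
        rw [hA, hB, Nat.cast_one]
        ring
      rw [e1] at h3
      refine h3.congr' ?_
      obtain ⟨V, hV, hzV, hm⟩ := h.ev_good R hg
      filter_upwards [hm] with m hm
      have d1 := (an_qv (h.hQ m) (mem_univ z) (R (σ.f j l)).h1 (R (σ.f j l)).h0
        (hm z hzV).2).differentiableAt.hasDerivAt
      have d2 := (an_qv (h.hP m) (mem_univ z) (R (σ.f j l)).h1 (R (σ.f j l)).h0
        (hm z hzV).1).differentiableAt.hasDerivAt
      have d3 := ((d1.sub d2).mul (hwt m z)).deriv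
      have d4 : deriv (dqf (ev R (σ.f j l)) P Q wt m) z =
          (deriv (fun w => ev R (σ.f j l) (Q m w)) z - deriv (fun w => ev R (σ.f j l) (P m w)) z) *
            wt m z + (ev R (σ.f j l) (Q m z) - ev R (σ.f j l) (P m z)) * (a m * wt m z) := d3
      rw [d4]
      unfold dqf
      ring
  -- the equation
  have hall := DQ.sum Finset.univ fun j => (hhj j).mul (DQ.prod Finset.univ (hfj j))
  obtain ⟨X1, k1, -, -, k4⟩ := hall
  have hXc : (fun w => ∑ j, ev R (σ.h j) (φ w) * ∏ l, deriv (fun w => ev R (σ.f j l) (φ w)) w)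
      =ᶠ[𝓝 z] fun _ => c := by
    filter_upwards [hzn] with w hw
    exact hφ w hw.2.1
  have hX1 : X1 = 0 := k1.unique ((hasDerivAt_const z c).congr_of_eventuallyEq hXc)
  have hXz : (∑ j, ev R (σ.h j) (φ z) * ∏ l, deriv (fun w => ev R (σ.f j l) (φ w)) z) = c :=
    hφ z hz2
  rw [hX1, mul_zero, add_zero] at k4
  beta_reduce at k4
  rw [hXz] at k4
  have hev : ∀ᶠ m in (𝓤 : Filter ℕ), N155.sgood R σ (P m z) ∧ N155.sgood R σ (Q m z) := by
    have hn := (isOpen_sgood R σ).mem_nhds hz2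
    exact ((h.lP.pointwise (mem_univ z)).eventually hn).and
      ((h.lQ.pointwise (mem_univ z)).eventually hn)
  have k5 : Tendsto (fun _ : ℕ => (0 : ℂ)) 𝓤 (𝓝 (((0 + (Finset.univ : Finset (Fin σ.d)).card : ℕ) : ℂ)
      * A * c)) := by
    refine k4.congr' ?_
    filter_upwards [hev] with m hm
    have e1 := hP m z hm.1
    have e2 := hQ m z hm.2
    unfold sval at e1 e2
    rw [e1, e2, sub_self, zero_mul]
  have k6 := tendsto_nhds_unique k5 tendsto_const_nhds
  rw [zero_add, Finset.card_univ, Fintype.card_fin] at k6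
  have k7 : A = 0 := by
    rcases mul_eq_zero.1 k6 with k8 | k8
    · rcases mul_eq_zero.1 k8 with k9 | k9
      · exact absurd (by exact_mod_cast k9 : σ.d = 0) hd.ne'
      · exact k9
    · exact absurd k8 hc
  exact sub_eq_zero.1 k7

/-- the solutions of the linear differential equation -/
theorem MD_eq_mul {g : MK} {a : ℂ} (h : MD g = algebraMap ℂ MK a * g) :
    ∃ h0 : ℂ, ∃ hm : Meromorphic (fun z => h0 * Complex.exp (a * z)),
      g = cl (fun z => h0 * Complex.exp (a * z)) hm := by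
  have hm : ∀ b h0 : ℂ, Meromorphic (fun z => h0 * Complex.exp (b * z)) := by
    intro b h0 z
    have : AnalyticAt ℂ (fun z => h0 * Complex.exp (b * z)) z := by fun_prop
    exact this.meromorphicAt
  have hME : MD (cl (fun z => 1 * Complex.exp (-a * z)) (hm (-a) 1)) =
      algebraMap ℂ MK (-a) * cl (fun z => 1 * Complex.exp (-a * z)) (hm (-a) 1) := by
    rw [MD_cl, ← cl_const, cl_mul, cl_eq]
    refine Eventually.of_forall fun z => ?_
    have h1 : HasDerivAt (fun z => 1 * Complex.exp (-a * z)) (1 * (Complex.exp (-a * z) * (-a * 1))) z :=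
      (((hasDerivAt_id z).const_mul (-a)).cexp).const_mul 1
    rw [h1.deriv, Pi.mul_apply]
    ring
  have h1 : MD (g * cl (fun z => 1 * Complex.exp (-a * z)) (hm (-a) 1)) = 0 := by
    rw [MD_mul, hME, h, map_neg]
    ring
  obtain ⟨h0, hh0⟩ := MD_eq_zero h1
  refine ⟨h0, hm a h0, ?_⟩
  have h2 : cl (fun z => 1 * Complex.exp (-a * z)) (hm (-a) 1) *
      cl (fun z => 1 * Complex.exp (a * z)) (hm a 1) = 1 := by
    have h3 : (1 : MK) = algebraMap ℂ MK 1 := (map_one _).symm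
    rw [h3, ← cl_const, cl_mul, cl_eq]
    refine Eventually.of_forall fun z => ?_
    rw [Pi.mul_apply, one_mul, one_mul, ← Complex.exp_add]
    have : -a * z + a * z = 0 := by ring
    rw [this, Complex.exp_zero]
  have h4 : g = algebraMap ℂ MK h0 * cl (fun z => 1 * Complex.exp (a * z)) (hm a 1) := by
    rw [← hh0, mul_assoc, h2, mul_one]
  rw [h4, ← cl_const, cl_mul, cl_eq]
  refine Eventually.of_forall fun z => ?_
  rw [Pi.mul_apply, one_mul]

end Pool.Agent.N155
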