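import Pool.Agent.N155.Defs
import Pool.Agent.N155.L.Sym

/-!
Regular symmetric differentials on a projective variety, curves which are tangent to them, and
curves of bounded derivative. A symmetric differential on the function field `K` is given as
`σ : SymD K`, the sum of the terms `h j * df (j, 1) ⋯ df (j, d)` with `h j`, `f (j, l)` in `K`.
-/

set_option autoImplicit false

open Filter Topology FF LinearAlgebra.Projectivization Pool.Agent.W602.GT

namespace Pool.Agent.N155

variable {n : ℕ} {K : Type} [Field K] [Algebra ℂ K]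

/-- The value `∑ j, h j * D (f (j, 1)) ⋯ D (f (j, d))` of a symmetric differential on a derivation
`D : K → L` with values in an extension `L` of `K`. -/
noncomputable def SymD.app (σ : SymD K) {L : Type} [Field L] [Algebra ℂ L] [Algebra K L]
    (D : Derivation ℂ K L) : L :=
  ∑ j, algebraMap K L (σ.h j) * ∏ l, D (σ.f j l)

/-- The symmetric differential is regular on the smooth projective models of `K`, of dimension `w`:
at the discrete valuation ring of a prime divisor its values on the regular vector fields are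
regular. -/
def SymD.Regular (w : ℕ) (σ : SymD K) : Prop :=
  ∀ v : Place ℂ K, Divisorial w v → ∀ D : Derivation ℂ K K, DerReg v D → v.Reg (σ.app D)

/-- The rational function `h` is regular at the point `u` of the projective variety with generic
point `y`, with the value `c`. -/
def ValAt (y : Fin (n + 1) → K) (h : K) (u : Fin (n + 1) → ℂ) (c : ℂ) : Prop :=
  ∃ (d : ℕ) (A B : MvPolynomial (Fin (n + 1)) ℂ), A.IsHomogeneous d ∧ B.IsHomogeneous d ∧
    val y B ≠ 0 ∧ h = val y A / val y B ∧ val u B ≠ 0 ∧ c = val u A / val u B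

/-- The curve `f` is tangent to the symmetric differential, `σ(f') = 0`: on every open set `V` on
which the functions `h j` and `f (j, l)` are regular along the curve, with the values `H j` and
`Φ j l`, the function `∑ j, H j * (Φ j 1)' ⋯ (Φ j d)'` is zero. -/
def SymD.Tangent (y : Fin (n + 1) → K) (σ : SymD K) (f : ℂ → ℙ ℂ (Fin (n + 1) → ℂ)) : Prop :=
  ∀ (V : Set ℂ) (H : Fin σ.r → ℂ → ℂ) (Φ : Fin σ.r → Fin σ.d → ℂ → ℂ), IsOpen V →
    (∀ z ∈ V, ∀ j, ValAt y (σ.h j) (f z).rep (H j z)) →
    (∀ z ∈ V, ∀ j l, ValAt y (σ.f j l) (f z).rep (Φ j l z)) →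
    ∀ z ∈ V, ∑ j, H j z * ∏ l, deriv (Φ j l) z = 0

/-- The derivative of the curve `f` in projective space is bounded, with respect to the
Fubini-Study metric: in local homogeneous coordinates `g`, the numbers
`(g i * (g j)' - g j * (g i)') / ‖g‖ ^ 2` are bounded. -/
def BoundedDer (f : ℂ → ℙ ℂ (Fin (n + 1) → ℂ)) : Prop :=
  ∃ C : ℝ, ∀ (V : Set ℂ) (g : ℂ → Fin (n + 1) → ℂ), IsOpen V → DifferentiableOn ℂ g V →
    (∀ w ∈ V, ∃ h : g w ≠ 0, f w = Projectivization.mk ℂ (g w) h) →
    ∀ z ∈ V, ∀ i j, ‖g z i * deriv (fun w => g w j) z - g z j * deriv (fun w => g w i) z‖ ≤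
      C * ∑ k, ‖g z k‖ ^ 2

end Pool.Agent.N155
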