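import Pool.Agent.N155.L.Cls

/-! Separation of the curves in a class, up to translations. -/

set_option autoImplicit false

open Filter Topology Metric Set MvPolynomial

namespace Pool.Agent.N155

open Pool.Agent.Y190.OP

variable {N : ℕ} {T : Set (Mat N)} {c0 : ℝ} {𝒞 : (ℂ → Mat N) → Prop} {r : ℝ}

/-- the optimal translation is smaller than `r / 2` -/
def Ofs (r : ℝ) (P Q : ℂ → Mat N) (z : ℂ) : Prop :=
  ∃ t : ℂ, ‖t‖ ≤ r / 2 ∧ Trk P Q z t (EE r P Q z)

/-- the contraction property of a class -/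
def CT (ρ δ θ r : ℝ) (𝒞 : (ℂ → Mat N) → Prop) : Prop := ∀ P Q, 𝒞 P → 𝒞 Q → ∀ z0 : ℂ,
  (∀ z ∈ closedBall z0 ρ, EE r P Q z ≤ δ ∧ Ofs r P Q z) → ∀ a : ℂ,
  ∃ z ∈ closedBall z0 ρ, EE r P Q z0 ≤ θ * (EE r P Q z * ‖Complex.exp (a * (z - z0))‖)

theorem CT.barrier (h : Cls T c0 𝒞) {ρ δ θ κ : ℝ} (hCT : CT ρ δ θ r 𝒞) {P Q : ℂ → Mat N}
    (hP : 𝒞 P) (hQ : 𝒞 Q) (hr : 0 ≤ r) (hρ : 0 < ρ) {δ' : ℝ} (hδ' : 0 ≤ δ') (hδδ : δ' ≤ δ)
    (hκ : 0 ≤ κ) (hκθ : θ * Real.exp (κ * ρ ^ 2) < 1) (hθ : 0 ≤ θ) {R' : ℝ} (hR : ρ ≤ R')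
    (hb : ∀ z ∈ closedBall (0 : ℂ) R', EE r P Q z ≤ δ' ∧ Ofs r P Q z) :
    ∀ z ∈ closedBall (0 : ℂ) R', EE r P Q z ≤ δ' * Real.exp (κ * (‖z‖ ^ 2 - (R' - ρ) ^ 2)) := by
  classical
  let d : ℂ → ℝ := fun z => if z ∈ closedBall (0 : ℂ) R' then EE r P Q z else δ' + 1
  have hd : ∀ z ∈ closedBall (0 : ℂ) R', d z = EE r P Q z := fun z hz => if_pos hz
  have hd0 : ∀ z, 0 ≤ d z := by
    intro z
    simp only [d]
    split_ifs
    · exact h.EE_nonneg hP hQ hr z
    · linarith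
  have hmem : ∀ z, d z ≤ δ' → z ∈ closedBall (0 : ℂ) R' := by
    intro z hz
    by_contra hcon
    simp only [d] at hz
    rw [if_neg hcon] at hz
    linarith
  have hC : Contr ρ δ' θ d := by
    intro z0 hz0 a
    have h1 : ∀ z ∈ closedBall z0 ρ, z ∈ closedBall (0 : ℂ) R' := fun z hz => hmem z (hz0 z hz)
    obtain ⟨z, hz, hz2⟩ := hCT P Q hP hQ z0 (fun z hz =>
      ⟨(hb z (h1 z hz)).1.trans hδδ, (hb z (h1 z hz)).2⟩) a
    refine ⟨z, hz, ?_⟩
    rw [hd z (h1 z hz), hd z0 (h1 z0 (mem_closedBall_self hρ.le))]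
    exact hz2
  have hc : ContinuousOn d (closedBall 0 R') :=
    ((h.EE_cont hP hQ hr).continuousOn).congr hd
  intro z hz
  have := N155.barrier hρ.le hδ' hκ hκθ hθ hc hd0 hC hR (fun z hz => by
    rw [hd z hz]
    exact (hb z hz).1) z hz
  rwa [hd z hz] at this

/-- the sum of the drifts along a chain -/
theorem chain_sum {c1 A q : ℝ} (hA : 0 ≤ A) (hq0 : 0 < q) (hq : q < 1)
    {t : ℕ → ℂ} {e : ℕ → ℝ} {M : ℕ} (hc1 : 0 ≤ c1)
    (ht : ∀ j < M, c1 * ‖t (j + 1) - t j‖ ≤ e j + e (j + 1))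
    (he : ∀ j ≤ M, e j ≤ A * q ^ (M - j)) : c1 * ‖t M - t 0‖ ≤ 2 * A / (1 - q) := by
  have hq1 : 0 < 1 - q := by linarith
  have key : ∀ k ≤ M, c1 * ‖t k - t 0‖ ≤ 2 * A / (1 - q) * q ^ (M - k) := by
    intro k
    induction k with
    | zero =>
      intro _
      rw [sub_self, norm_zero, mul_zero]
      positivity
    | succ k ih =>
      intro hk
      have h1 := ih (by omega)
      have h2 := ht k (by omega)
      have h3 := he k (by omega)
      have h4 := he (k + 1) hk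
      have h5 : M - k = (M - (k + 1)) + 1 := by omega
      set x := q ^ (M - (k + 1)) with hx
      have hx0 : 0 < x := by positivity
      have h6 : q ^ (M - k) = x * q := by rw [h5, pow_succ]
      rw [h6] at h1 h3
      have h7 : c1 * ‖t (k + 1) - t 0‖ ≤ c1 * ‖t (k + 1) - t k‖ + c1 * ‖t k - t 0‖ := by
        rw [← mul_add]
        apply mul_le_mul_of_nonneg_left _ hc1
        have := norm_add_le (t (k + 1) - t k) (t k - t 0)
        rwa [sub_add_sub_cancel] at this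
      have h8 : 2 * A / (1 - q) * x = 2 * A / (1 - q) * (x * q) + 2 * A * x := by
        field_simp
        ring
      have h9 : A * (x * q) ≤ A * x := by
        apply mul_le_mul_of_nonneg_left _ hA
        nlinarith
      rw [h8]
      linarith
  have := key M le_rfl
  rwa [Nat.sub_self, pow_zero, mul_one] at this

/-- **Separation.** -/
theorem sep2 (h : Cls T c0 𝒞) {c1 : ℝ} (hr : 0 < r) (hc1 : 0 < c1)
    (hinj : ∀ φ, 𝒞 φ → ∀ z t : ℂ, ‖t‖ ≤ 2 * r → c1 * ‖t‖ ≤ ‖φ (z + t) - φ z‖) {ρ δ θ : ℝ}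
    (hρ : 0 < ρ) (hδ : 0 < δ) (hθ0 : 0 < θ) (hθ : θ < 1) (hCT : CT ρ δ θ r 𝒞) {𝓤 : Ultrafilter ℕ}
    {P Q : ℕ → ℂ → Mat N} (hP : ∀ m, 𝒞 (P m)) (hQ : ∀ m, 𝒞 (Q m)) {H : ℂ → Mat N}
    (h1 : CConv (𝓤 : Filter ℕ) univ P H) (h2 : CConv (𝓤 : Filter ℕ) univ Q H) :
    ∀ᶠ m in (𝓤 : Filter ℕ), ∃ t : ℂ, ‖t‖ ≤ r ∧ ∀ z, P m z = Q m (z + t) := by
  classical
  obtain ⟨κ, hκ, hκθ⟩ := exists_kappa hρ hθ0 hθ
  set q : ℝ := Real.exp (-κ) with hq
  have hq0 : 0 < q := Real.exp_pos _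
  have hq1 : q < 1 := by
    rw [hq, Real.exp_lt_one_iff]
    linarith
  have hq2 : 0 < 1 - q := by linarith
  set B : ℝ := Real.exp (κ * ρ) with hB
  have hB0 : 0 < B := Real.exp_pos _
  set δ' : ℝ := min δ (min (c1 * r / 16) (c1 * r * (1 - q) / (16 * B))) with hδ'
  have hδ'0 : 0 < δ' := by positivity
  have hδ'1 : δ' ≤ δ := min_le_left _ _
  have hδ'2 : δ' ≤ c1 * r / 16 := (min_le_right _ _).trans (min_le_left _ _)
  have hδ'3 : δ' ≤ c1 * r * (1 - q) / (16 * B) := (min_le_right _ _).trans (min_le_right _ _)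
  have hδ'4 : 2 * (δ' * B) / (1 - q) ≤ c1 * r / 8 := by
    rw [div_le_iff₀ hq2]
    rw [le_div_iff₀ (by positivity)] at hδ'3
    linarith
  -- small distances
  have hsmall : ∀ L : ℝ, ∀ᶠ m in (𝓤 : Filter ℕ), ∀ z ∈ closedBall (0 : ℂ) L,
      Trk (P m) (Q m) z 0 δ' ∧ EE r (P m) (Q m) z ≤ δ' ∧ Ofs r (P m) (Q m) z := by
    intro L
    filter_upwards [CConv.compact h1 h2 (isCompact_closedBall (0 : ℂ) (L + 1)) hδ'0] with m hm z hz
    have hT : Trk (P m) (Q m) z 0 δ' := by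
      intro w hw
      rw [add_zero]
      refine (hm w ?_).le
      rw [mem_closedBall_zero_iff] at hz ⊢
      rw [mem_closedBall, dist_eq_norm] at hw
      have := norm_add_le (w - z) z
      rw [sub_add_cancel] at this
      linarith
    have hE := EE_le (r := r) (by rw [norm_zero]; exact hr.le) hT
    refine ⟨hT, hE, ?_⟩
    obtain ⟨t, ht, hTt⟩ := h.EE_spec (hP m) (hQ m) hr.le z
    refine ⟨t, ?_, hTt⟩
    have h3 := drift (hinj _ (hQ m)) (z := z) (z' := z) (by simp) ht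
      (by rw [norm_zero]; exact hr.le) hTt hT
    rw [sub_zero] at h3
    have h4 : c1 * ‖t‖ ≤ c1 * (r / 2) := by nlinarith
    exact le_of_mul_le_mul_left h4 hc1
  -- curves which are close everywhere
  have hglob : ∀ m, (∀ k : ℕ, ∀ z ∈ closedBall (0 : ℂ) (k : ℝ), EE r (P m) (Q m) z ≤ δ' ∧
      Ofs r (P m) (Q m) z) → ∃ t : ℂ, ‖t‖ ≤ r ∧ ∀ z, P m z = Q m (z + t) := by
    intro m hm
    have h3 : ∀ k : ℕ, ρ ≤ k → EE r (P m) (Q m) 0 ≤ δ' * Real.exp (κ * (0 - (k - ρ) ^ 2)) := by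
      intro k hk
      have := CT.barrier h hCT (hP m) (hQ m) hr.le hρ hδ'0.le hδ'1 hκ.le hκθ hθ0.le hk (hm k) 0
        (mem_closedBall_self (by positivity))
      rwa [norm_zero, zero_pow two_ne_zero] at this
    have h4 : Tendsto (fun k : ℕ => δ' * Real.exp (κ * (0 - ((k : ℝ) - ρ) ^ 2))) atTop
        (𝓝 (δ' * 0)) := by
      apply Tendsto.const_mul
      apply Real.tendsto_exp_atBot.comp
      apply Tendsto.const_mul_atBot hκ
      apply tendsto_atBot_add_const_left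
      apply tendsto_neg_atTop_atBot.comp
      exact (tendsto_pow_atTop two_ne_zero).comp
        (tendsto_atTop_add_const_right _ _ tendsto_natCast_atTop_atTop)
    rw [mul_zero] at h4
    have h5 : EE r (P m) (Q m) 0 ≤ 0 := by
      refine ge_of_tendsto h4 ?_
      filter_upwards [eventually_ge_atTop ⌈ρ⌉₊] with k hk
      exact h3 k ((Nat.le_ceil ρ).trans (by exact_mod_cast hk))
    obtain ⟨t, ht, hT⟩ := h.EE_spec (hP m) (hQ m) hr.le 0
    refine ⟨t, ht, fun z => ?_⟩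
    have h6 := holP_ext (h.hol _ (hP m)) (holP_shift (h.hol _ (hQ m)) t) (z0 := 0) (by
      filter_upwards [closedBall_mem_nhds (0 : ℂ) one_pos] with w hw
      have h7 := (hT w hw).trans h5
      have h8 := sub_eq_zero.1 (norm_eq_zero.1 (le_antisymm h7 (norm_nonneg _)))
      rw [h8, add_comm]) z
    rw [h6, add_comm]
  by_contra hcon
  rw [← Ultrafilter.eventually_not] at hcon
  -- the largest good ball
  have hex : ∀ m, ∃ (k : ℕ) (z : ℂ), (¬ ∃ t : ℂ, ‖t‖ ≤ r ∧ ∀ z, P m z = Q m (z + t)) →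
      (EE r (P m) (Q m) 0 ≤ δ' ∧ Ofs r (P m) (Q m) 0) →
      (∀ w ∈ closedBall (0 : ℂ) (k : ℝ), EE r (P m) (Q m) w ≤ δ' ∧ Ofs r (P m) (Q m) w) ∧
      (k : ℝ) < ‖z‖ ∧ ‖z‖ ≤ k + 1 ∧ ¬ (EE r (P m) (Q m) z ≤ δ' ∧ Ofs r (P m) (Q m) z) := by
    intro m
    by_cases hm : ∃ t : ℂ, ‖t‖ ≤ r ∧ ∀ z, P m z = Q m (z + t)
    · exact ⟨0, 0, fun h => absurd hm h⟩
    by_cases hm0 : EE r (P m) (Q m) 0 ≤ δ' ∧ Ofs r (P m) (Q m) 0
    swap
    · exact ⟨0, 0, fun _ h => absurd h hm0⟩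
    have h3 : ∃ k : ℕ, ¬ ∀ z ∈ closedBall (0 : ℂ) (k : ℝ), EE r (P m) (Q m) z ≤ δ' ∧
        Ofs r (P m) (Q m) z := by
      by_contra h4
      push Not at h4
      exact hm (hglob m h4)
    have h4 := Nat.find_spec h3
    have h5 : Nat.find h3 ≠ 0 := by
      intro h0
      apply h4
      intro z hz
      rw [h0, Nat.cast_zero, closedBall_zero, mem_singleton_iff] at hz
      rw [hz]
      exact hm0
    obtain ⟨k, hk⟩ := Nat.exists_eq_succ_of_ne_zero h5
    have h6 : ∀ w ∈ closedBall (0 : ℂ) (k : ℝ), EE r (P m) (Q m) w ≤ δ' ∧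
        Ofs r (P m) (Q m) w := by
      have := Nat.find_min h3 (m := k) (by omega)
      rwa [not_not] at this
    rw [hk] at h4
    push Not at h4
    obtain ⟨z, hz, hz2⟩ := h4
    refine ⟨k, z, fun _ _ => ⟨h6, ?_, ?_, ?_⟩⟩
    · by_contra h7
      push Not at h7
      have h8 := h6 z (mem_closedBall_zero_iff.2 h7)
      exact hz2 h8.1 h8.2
    · rw [mem_closedBall_zero_iff] at hz
      push_cast at hz
      exact hz
    · rintro ⟨h7, h8⟩
      exact hz2 h7 h8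
  choose k z hkz using hex
  have hkz' : ∀ᶠ m in (𝓤 : Filter ℕ),
      (∀ w ∈ closedBall (0 : ℂ) (k m : ℝ), EE r (P m) (Q m) w ≤ δ' ∧ Ofs r (P m) (Q m) w) ∧
      (k m : ℝ) < ‖z m‖ ∧ ‖z m‖ ≤ k m + 1 ∧
      ¬ (EE r (P m) (Q m) (z m) ≤ δ' ∧ Ofs r (P m) (Q m) (z m)) := by
    filter_upwards [hcon, hsmall 0] with m hm1 hm2
    exact hkz m hm1 (hm2 0 (mem_closedBall_self le_rfl)).2
  have hkl : ∀ L : ℝ, ∀ᶠ m in (𝓤 : Filter ℕ), L < k m := by
    intro L
    filter_upwards [hkz', hsmall (L + 1)] with m hm1 hm2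
    by_contra h3
    push Not at h3
    exact hm1.2.2.2 (hm2 (z m) (mem_closedBall_zero_iff.2 (hm1.2.2.1.trans (by linarith)))).2
  -- the distance at the point `z`
  have hbig : ∀ᶠ m in (𝓤 : Filter ℕ), δ' < EE r (P m) (Q m) (z m) := by
    filter_upwards [hkz', hkl (ρ + 1), hsmall 0] with m hm hm2 hm3
    obtain ⟨hg, hz1, hz2, hbad⟩ := hm
    by_contra h3
    push Not at h3
    apply hbad
    refine ⟨h3, ?_⟩
    have hzpos : 0 < ‖z m‖ := lt_of_le_of_lt (Nat.cast_nonneg _) hz1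
    have hzc : (‖z m‖ : ℂ) ≠ 0 := by exact_mod_cast hzpos.ne'
    set u : ℂ := z m / (‖z m‖ : ℂ) with hu
    have hu1 : ‖u‖ = 1 := by
      rw [hu, norm_div, Complex.norm_real, norm_norm, div_self hzpos.ne']
    have hζn : ∀ j : ℕ, ‖(j : ℂ) * u‖ = j := by
      intro j
      rw [norm_mul, hu1, mul_one, Complex.norm_natCast]
    have hex : ∀ j : ℕ, ∃ t : ℂ, j ≤ k m → ‖t‖ ≤ r / 2 ∧
        Trk (P m) (Q m) (j * u) t (EE r (P m) (Q m) (j * u)) := by
      intro j
      by_cases hj : j ≤ k m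
      · obtain ⟨t, ht, hT⟩ := (hg ((j : ℂ) * u) (by
          rw [mem_closedBall_zero_iff, hζn]
          exact_mod_cast hj)).2
        exact ⟨t, fun _ => ⟨ht, hT⟩⟩
      · exact ⟨0, fun h => absurd h hj⟩
    choose t ht using hex
    have hbar := CT.barrier h hCT (hP m) (hQ m) hr.le hρ hδ'0.le hδ'1 hκ.le hκθ hθ0.le
      (R' := k m) (by linarith) hg
    have hchain := chain_sum (c1 := c1) (A := δ' * B) (q := q) (t := t)
      (e := fun j => EE r (P m) (Q m) (j * u)) (M := k m) (by positivity) hq0 hq1 hc1.le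
      (fun j hj => by
        have h4 := ht j (by omega)
        have h5 := ht (j + 1) (by omega)
        have h6 := drift (hinj _ (hQ m)) (z := (j : ℂ) * u) (z' := ((j + 1 : ℕ) : ℂ) * u) (by
          have : (j : ℂ) * u - ((j + 1 : ℕ) : ℂ) * u = -u := by push_cast; ring
          rw [this, norm_neg, hu1]) (h4.1.trans (by linarith)) (h5.1.trans (by linarith)) h4.2 h5.2
        rw [norm_sub_rev] at h6
        exact h6)
      (fun j hj => by
        have hjR : (j : ℝ) ≤ k m := by exact_mod_cast hj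
        have hqp : q ^ (k m - j) = Real.exp (-κ * ((k m : ℝ) - j)) := by
          rw [hq, ← Real.exp_nat_mul, Nat.cast_sub hj]
          congr 1
          ring
        have hmemj : (j : ℂ) * u ∈ closedBall (0 : ℂ) (k m : ℝ) := by
          rw [mem_closedBall_zero_iff, hζn]
          exact hjR
        change EE r (P m) (Q m) (j * u) ≤ _
        rw [hqp, hB, mul_assoc, ← Real.exp_add]
        by_cases hcase : (k m : ℝ) - ρ ≤ j
        · have h4 := (hg _ hmemj).1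
          refine h4.trans ?_
          have h5 : (1 : ℝ) ≤ Real.exp (κ * ρ + -κ * ((k m : ℝ) - j)) := by
            apply Real.one_le_exp
            nlinarith
          nlinarith
        · push Not at hcase
          refine (hbar _ hmemj).trans ?_
          apply mul_le_mul_of_nonneg_left _ hδ'0.le
          apply Real.exp_le_exp.2
          rw [hζn]
          have h4 : (1 : ℝ) ≤ (k m : ℝ) - ρ := by linarith
          have h5 : (0 : ℝ) ≤ j := Nat.cast_nonneg j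
          have h6 : (j : ℝ) ^ 2 - ((k m : ℝ) - ρ) ^ 2 ≤ -((k m : ℝ) - ρ - j) := by
            nlinarith
          nlinarith)
    have h40 := ht 0 (Nat.zero_le _)
    have h41 := ht (k m) le_rfl
    have h42 : c1 * ‖t 0‖ ≤ 2 * δ' := by
      have h5 := hm3 0 (mem_closedBall_self le_rfl)
      have h6 := drift (hinj _ (hQ m)) (z := ((0 : ℕ) : ℂ) * u) (z' := 0) (t' := 0) (by simp)
        (h40.1.trans (by linarith)) (by rw [norm_zero]; exact hr.le) h40.2 h5.1
      rw [sub_zero] at h6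
      have h7 : EE r (P m) (Q m) (((0 : ℕ) : ℂ) * u) ≤ δ' := by
        rw [Nat.cast_zero, zero_mul]
        exact h5.2.1
      linarith
    obtain ⟨ts, hts, hTs⟩ := h.EE_spec (hP m) (hQ m) hr.le (z m)
    have h43 : c1 * ‖ts - t (k m)‖ ≤ 2 * δ' := by
      have h6 := drift (hinj _ (hQ m)) (z := z m) (z' := (k m : ℂ) * u) (by
        have h7 : z m - (k m : ℂ) * u = ((‖z m‖ - k m : ℝ) : ℂ) * u := by
          have h8 : z m = (‖z m‖ : ℂ) * u := by
            rw [hu]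
            field_simp
          conv_lhs => rw [h8]
          push_cast
          ring
        rw [h7, norm_mul, hu1, mul_one, Complex.norm_real, Real.norm_of_nonneg (by linarith)]
        linarith) hts (h41.1.trans (by linarith)) hTs h41.2
      have h7 : EE r (P m) (Q m) ((k m : ℂ) * u) ≤ δ' := (hg _ (by
        rw [mem_closedBall_zero_iff, hζn])).1
      linarith
    refine ⟨ts, ?_, hTs⟩
    have h5 : ‖ts‖ ≤ ‖ts - t (k m)‖ + (‖t (k m) - t 0‖ + ‖t 0‖) := by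
      have e1 : ts = (ts - t (k m)) + ((t (k m) - t 0) + t 0) := by ring
      calc ‖ts‖ = ‖(ts - t (k m)) + ((t (k m) - t 0) + t 0)‖ := by rw [← e1]
        _ ≤ _ := (norm_add_le _ _).trans (add_le_add le_rfl (norm_add_le _ _))
    have h6 : c1 * ‖ts‖ ≤ c1 * (r / 2) := by
      have h7 := mul_le_mul_of_nonneg_left h5 hc1.le
      rw [mul_add, mul_add] at h7
      nlinarith
    exact le_of_mul_le_mul_left h6 hc1
  -- the direction
  obtain ⟨u, hu⟩ := exists_lim (𝓤 := 𝓤) (h := fun n => z n / (‖z n‖ : ℂ)) (C := 1)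
    (Eventually.of_forall fun n => by
      rw [norm_div, Complex.norm_real, norm_norm]
      exact div_self_le_one _)
  -- the recentred limits
  obtain ⟨H1, hH1, hcc1⟩ := h.lim 𝓤 (fun m w => P m (z m + w)) fun m => h.shift _ (hP m) _
  obtain ⟨H2, hH2, hcc2⟩ := h.lim 𝓤 (fun m w => Q m (z m + w)) fun m => h.shift _ (hQ m) _
  set s : ℝ := ρ + 4 with hs
  have hex2 : ∀ m, ∃ t : ℂ, ‖t‖ ≤ r ∧ Trk (P m) (Q m) (((‖z m‖ - s : ℝ) : ℂ) * (z m / (‖z m‖ : ℂ)))
      t (EE r (P m) (Q m) (((‖z m‖ - s : ℝ) : ℂ) * (z m / (‖z m‖ : ℂ)))) := fun m =>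
    h.EE_spec (hP m) (hQ m) hr.le _
  choose tm htm hTm using hex2
  obtain ⟨t1, ht1⟩ := exists_lim (𝓤 := 𝓤) (h := tm) (C := r) (Eventually.of_forall htm)
  have ht1r : ‖t1‖ ≤ r := le_of_tendsto ht1.norm (Eventually.of_forall htm)
  have hball : ∀ w ∈ ball (-(s : ℂ) * u) (1 / 2), H1 w = H2 (t1 + w) := by
    intro w hw
    rw [mem_ball, dist_eq_norm] at hw
    have hsm : ∀ᶠ n in (𝓤 : Filter ℕ), s * ‖z n / (‖z n‖ : ℂ) - u‖ < 1 / 2 := by
      have h3 : Tendsto (fun n => s * ‖z n / (‖z n‖ : ℂ) - u‖) 𝓤 (𝓝 0) := by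
        have := ((hu.sub_const u).norm).const_mul s
        simpa using this
      exact h3.eventually_lt_const (by norm_num)
    have hbd : ∀ᶠ m in (𝓤 : Filter ℕ), ‖P m (z m + w) - Q m (z m + (tm m + w))‖ ≤
        δ' * Real.exp (κ * (-6 * ((k m : ℝ) - ρ) + 9)) := by
      filter_upwards [hsm, hkl s, hkz'] with m hm1 hm2 hm3
      obtain ⟨hg, hz1, hz2, -⟩ := hm3
      have hspos : 0 < s := by rw [hs]; linarith
      have hzpos : 0 < ‖z m‖ := by linarith
      have hzc : (‖z m‖ : ℂ) ≠ 0 := by exact_mod_cast hzpos.ne'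
      have h3 := hTm m (z m + w) (by
        rw [mem_closedBall, dist_eq_norm]
        have h4 : z m + w - ((‖z m‖ - s : ℝ) : ℂ) * (z m / (‖z m‖ : ℂ)) =
            (s : ℂ) * (z m / (‖z m‖ : ℂ) - u) + (w - -(s : ℂ) * u) := by
          push_cast
          field_simp
          ring
        rw [h4]
        refine (norm_add_le _ _).trans ?_
        rw [norm_mul, Complex.norm_real, Real.norm_of_nonneg hspos.le]
        linarith)
      have e1 : z m + w + tm m = z m + (tm m + w) := by ring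
      rw [e1] at h3
      refine h3.trans ?_
      have hn : ‖((‖z m‖ - s : ℝ) : ℂ) * (z m / (‖z m‖ : ℂ))‖ = ‖z m‖ - s := by
        rw [norm_mul, Complex.norm_real, Real.norm_of_nonneg (by linarith), norm_div,
          Complex.norm_real, norm_norm, div_self hzpos.ne', mul_one]
      have hbar := CT.barrier h hCT (hP m) (hQ m) hr.le hρ hδ'0.le hδ'1 hκ.le hκθ hθ0.le
        (R' := k m) (by linarith) hg _ (by
          rw [mem_closedBall_zero_iff, hn]
          linarith)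
      refine hbar.trans ?_
      apply mul_le_mul_of_nonneg_left _ hδ'0.le
      apply Real.exp_le_exp.2
      apply mul_le_mul_of_nonneg_left _ hκ.le
      rw [hn]
      have h6 : (‖z m‖ - s) ^ 2 ≤ ((k m : ℝ) - ρ - 3) ^ 2 := by
        apply pow_le_pow_left₀ (by linarith)
        linarith
      nlinarith
    have hrt : Tendsto (fun m => (k m : ℝ)) 𝓤 atTop :=
      tendsto_atTop.2 fun L => (hkl L).mono fun n hn => hn.le
    have h3 : Tendsto (fun m => δ' * Real.exp (κ * (-6 * ((k m : ℝ) - ρ) + 9))) 𝓤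
        (𝓝 (δ' * 0)) := by
      apply Tendsto.const_mul
      apply Real.tendsto_exp_atBot.comp
      apply Tendsto.const_mul_atBot hκ
      apply tendsto_atBot_add_const_right
      apply Tendsto.const_mul_atTop_of_neg (by norm_num)
      exact tendsto_atTop_add_const_right _ _ hrt
    rw [mul_zero] at h3
    have h4 : Tendsto (fun m => ‖P m (z m + w) - Q m (z m + (tm m + w))‖) 𝓤
        (𝓝 ‖H1 w - H2 (t1 + w)‖) :=
      ((hcc1.pointwise (mem_univ w)).sub
        (CConv.seq hcc2 (mem_univ (t1 + w)) (ht1.add_const w))).norm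
    have h5 : ‖H1 w - H2 (t1 + w)‖ ≤ 0 := le_of_tendsto_of_tendsto h4 h3 hbd
    exact sub_eq_zero.1 (norm_eq_zero.1 (le_antisymm h5 (norm_nonneg _)))
  have hall : ∀ w, H1 w = H2 (t1 + w) := fun w =>
    holP_ext (h.hol _ hH1) (holP_shift (h.hol _ hH2) t1) (z0 := -(s : ℂ) * u) (by
      filter_upwards [ball_mem_nhds (-(s : ℂ) * u) (by norm_num : (0 : ℝ) < 1 / 2)] with w hw
      exact hball w hw) w
  have hcc3 : CConv (𝓤 : Filter ℕ) univ (fun m w => Q m (z m + (t1 + w))) H1 := by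
    intro w _
    have h3 : Tendsto (fun p : ℕ × ℂ => (p.1, t1 + p.2)) ((𝓤 : Filter ℕ) ×ˢ 𝓝 w)
        ((𝓤 : Filter ℕ) ×ˢ 𝓝 (t1 + w)) :=
      tendsto_fst.prodMk ((tendsto_snd (f := (𝓤 : Filter ℕ)) (g := 𝓝 w)).const_add t1)
    have h4 := (hcc2 (t1 + w) (mem_univ _)).comp h3
    rw [hall w]
    exact h4
  have hfin := CConv.compact hcc1 hcc3 (isCompact_closedBall (0 : ℂ) 1) hδ'0
  obtain ⟨m, hm1, hm2⟩ := (hbig.and hfin).exists
  have h3 : Trk (P m) (Q m) (z m) t1 δ' := by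
    intro w hw
    have h4 := hm2 (w - z m) (by
      rw [mem_closedBall_zero_iff, ← dist_eq_norm]
      exact hw)
    have e1 : z m + (w - z m) = w := by ring
    have e2 : z m + (t1 + (w - z m)) = w + t1 := by ring
    rw [e1, e2] at h4
    exact h4.le
  exact absurd (EE_le ht1r h3) (not_le.2 hm1)

end Pool.Agent.N155
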