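import Pool.Agent.N155.L.Sym
import Pool.Agent.N155.Ini

/-! The value of a regular symmetric differential on the derivative of a curve is bounded. -/

set_option autoImplicit false

open Filter Topology Metric Set MvPolynomial

namespace Pool.Agent.N155

open FF Pool.Agent.Y190.OP Pool.Agent.W602.GT Pool.Agent.TH143.GT

theorem poly_bound {d : ℕ} {q : Polynomial ℂ} (hq : q.natDegree ≤ d) :
    ∃ C : ℝ, 0 ≤ C ∧ ∀ τ : ℂ, ‖q.eval τ‖ ≤ C * (1 + ‖τ‖) ^ d := by
  refine ⟨∑ i ∈ Finset.range (d + 1), ‖q.coeff i‖,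
    Finset.sum_nonneg fun _ _ => norm_nonneg _, fun τ => ?_⟩
  rw [Polynomial.eval_eq_sum_range' (Nat.lt_succ_of_le hq), Finset.sum_mul]
  refine (norm_sum_le _ _).trans (Finset.sum_le_sum fun i hi => ?_)
  rw [norm_mul, norm_pow]
  apply mul_le_mul_of_nonneg_left _ (norm_nonneg _)
  have h1 : i ≤ d := Nat.lt_succ_iff.1 (Finset.mem_range.1 hi)
  calc ‖τ‖ ^ i ≤ (1 + ‖τ‖) ^ i := pow_le_pow_left₀ (norm_nonneg _) (by linarith) i
    _ ≤ (1 + ‖τ‖) ^ d := pow_le_pow_right₀ (by linarith [norm_nonneg τ]) h1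

/-- polynomials are bounded by their values at the first natural numbers -/
theorem poly_interp (d : ℕ) : ∃ C : ℝ, 0 ≤ C ∧ ∀ (p : Polynomial ℂ) (M : ℝ), p.natDegree ≤ d →
    (∀ k : ℕ, k ≤ d → ‖p.eval (k : ℂ)‖ ≤ M) → ∀ τ : ℂ, ‖p.eval τ‖ ≤ C * M * (1 + ‖τ‖) ^ d := by
  classical
  set s := Finset.range (d + 1) with hs
  set v : ℕ → ℂ := fun k => k with hv
  have hinj : Set.InjOn v s := fun a _ b _ h => Nat.cast_injective h
  have h1 : ∀ k : ℕ, ∃ C : ℝ, 0 ≤ C ∧ (k ∈ s → ∀ τ : ℂ,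
      ‖(Lagrange.basis s v k).eval τ‖ ≤ C * (1 + ‖τ‖) ^ d) := by
    intro k
    by_cases hk : k ∈ s
    · obtain ⟨C, hC, h⟩ := poly_bound (d := d) (q := Lagrange.basis s v k) (by
        apply Polynomial.natDegree_le_of_degree_le
        rw [Lagrange.degree_basis hinj hk, Finset.card_range]
        simp)
      exact ⟨C, hC, fun _ => h⟩
    · exact ⟨0, le_rfl, fun h => absurd h hk⟩
  choose C hC hL using h1
  refine ⟨∑ k ∈ s, C k, Finset.sum_nonneg fun k _ => hC k, fun p M hp hM τ => ?_⟩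
  have hp' : p.degree < s.card := by
    rw [hs, Finset.card_range]
    exact (Polynomial.degree_le_of_natDegree_le hp).trans_lt (by exact_mod_cast Nat.lt_succ_self d)
  have h2 := Lagrange.eq_interpolate hinj hp'
  have hM0 : 0 ≤ M := (norm_nonneg _).trans (hM 0 (Nat.zero_le d))
  rw [h2, Lagrange.interpolate_apply, Polynomial.eval_finsetSum, Finset.sum_mul, Finset.sum_mul]
  refine (norm_sum_le _ _).trans (Finset.sum_le_sum fun k hk => ?_)
  rw [Polynomial.eval_mul, Polynomial.eval_C, norm_mul]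
  have h3 := hL k hk τ
  have h4 := hM k (Nat.lt_succ_iff.1 (Finset.mem_range.1 hk))
  calc _ ≤ M * (C k * (1 + ‖τ‖) ^ d) := mul_le_mul h4 h3 (norm_nonneg _) hM0
    _ = _ := by ring

/-- binary forms are bounded by their values at finitely many points -/
theorem form_bound (d : ℕ) : ∃ C : ℝ, 0 ≤ C ∧ ∀ (r : ℕ) (A : Fin r → ℂ)
    (a b : Fin r → Fin d → ℂ) (M : ℝ),
    (∀ k : ℕ, k ≤ d → ‖∑ j, A j * ∏ l, (a j l + k * b j l)‖ ≤ M) →
    ∀ u0 u1 : ℂ, u0 ≠ 0 →
      ‖∑ j, A j * ∏ l, (u0 * a j l + u1 * b j l)‖ ≤ C * M * (‖u0‖ + ‖u1‖) ^ d := by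
  obtain ⟨C, hC, h⟩ := poly_interp d
  refine ⟨C, hC, fun r A a b M hM u0 u1 hu0 => ?_⟩
  set p : Polynomial ℂ := ∑ j, Polynomial.C (A j) *
    ∏ l, (Polynomial.C (a j l) + Polynomial.X * Polynomial.C (b j l)) with hp
  have hev : ∀ τ : ℂ, p.eval τ = ∑ j, A j * ∏ l, (a j l + τ * b j l) := by
    intro τ
    rw [hp, Polynomial.eval_finsetSum]
    refine Finset.sum_congr rfl fun j _ => ?_
    rw [Polynomial.eval_mul, Polynomial.eval_C, Polynomial.eval_prod]
    congr 1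
    refine Finset.prod_congr rfl fun l _ => ?_
    rw [Polynomial.eval_add, Polynomial.eval_mul, Polynomial.eval_C, Polynomial.eval_C,
      Polynomial.eval_X]
  have hdeg : p.natDegree ≤ d := by
    refine Polynomial.natDegree_sum_le_of_forall_le _ _ fun j _ => ?_
    refine (Polynomial.natDegree_C_mul_le _ _).trans ?_
    refine (Polynomial.natDegree_prod_le _ _).trans ?_
    refine (Finset.sum_le_card_nsmul _ _ 1 fun l _ => ?_).trans (by simp)
    refine (Polynomial.natDegree_add_le _ _).trans ?_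
    rw [Polynomial.natDegree_C]
    refine max_le (Nat.zero_le _) ?_
    exact (Polynomial.natDegree_mul_C_le _ _).trans Polynomial.natDegree_X_le
  have h1 := h p M hdeg (fun k hk => by rw [hev]; exact hM k hk) (u1 / u0)
  rw [hev] at h1
  have h2 : ∑ j, A j * ∏ l, (u0 * a j l + u1 * b j l) =
      u0 ^ d * ∑ j, A j * ∏ l, (a j l + u1 / u0 * b j l) := by
    rw [Finset.mul_sum]
    refine Finset.sum_congr rfl fun j _ => ?_
    have h3 : ∏ l, (u0 * a j l + u1 * b j l) = u0 ^ d * ∏ l, (a j l + u1 / u0 * b j l) := by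
      have h4 : u0 ^ d = ∏ _l : Fin d, u0 := by simp
      rw [h4, ← Finset.prod_mul_distrib]
      refine Finset.prod_congr rfl fun l _ => ?_
      field_simp
    rw [h3]
    ring
  rw [h2, norm_mul, norm_pow]
  have h5 : (‖u0‖ + ‖u1‖) ^ d = ‖u0‖ ^ d * (1 + ‖u1 / u0‖) ^ d := by
    rw [← mul_pow]
    congr 1
    rw [norm_div]
    have : ‖u0‖ ≠ 0 := norm_ne_zero_iff.2 hu0
    field_simp
  rw [h5]
  calc _ ≤ ‖u0‖ ^ d * (C * M * (1 + ‖u1 / u0‖) ^ d) :=
        mul_le_mul_of_nonneg_left h1 (by positivity)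
    _ = _ := by ring

/-! ### classes of sums and products -/

theorem mero_sum' {ι : Type} (s : Finset ι) {f : ι → ℂ → ℂ} (hf : ∀ i, Meromorphic (f i)) :
    Meromorphic (fun z => ∑ i ∈ s, f i z) := by
  classical
  induction s using Finset.induction_on with
  | empty =>
    simp only [Finset.sum_empty]
    exact Meromorphic.const 0
  | insert i s hi ih =>
    simp only [Finset.sum_insert hi]
    exact (hf i).add ih

theorem mero_prod' {ι : Type} (s : Finset ι) {f : ι → ℂ → ℂ} (hf : ∀ i, Meromorphic (f i)) :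
    Meromorphic (fun z => ∏ i ∈ s, f i z) := by
  classical
  induction s using Finset.induction_on with
  | empty =>
    simp only [Finset.prod_empty]
    exact Meromorphic.const 1
  | insert i s hi ih =>
    simp only [Finset.prod_insert hi]
    exact (hf i).mul ih

theorem cl_one : cl (fun _ => 1) (Meromorphic.const 1) = 1 := by
  rw [cl_const, map_one]

theorem cl_zero : cl (fun _ => 0) (Meromorphic.const 0) = 0 := by
  rw [cl_const, map_zero]

theorem cl_sum {ι : Type} (s : Finset ι) {f : ι → ℂ → ℂ} (hf : ∀ i, Meromorphic (f i)) :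
    cl (fun z => ∑ i ∈ s, f i z) (mero_sum' s hf) = ∑ i ∈ s, cl (f i) (hf i) := by
  classical
  induction s using Finset.induction_on with
  | empty =>
    simp only [Finset.sum_empty]
    exact cl_zero
  | insert i s hi ih =>
    rw [Finset.sum_insert hi, ← ih, cl_add, cl_eq]
    exact Eventually.of_forall fun z => by rw [Pi.add_apply, Finset.sum_insert hi]

theorem cl_prod {ι : Type} (s : Finset ι) {f : ι → ℂ → ℂ} (hf : ∀ i, Meromorphic (f i)) :
    cl (fun z => ∏ i ∈ s, f i z) (mero_prod' s hf) = ∏ i ∈ s, cl (f i) (hf i) := by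
  classical
  induction s using Finset.induction_on with
  | empty =>
    simp only [Finset.prod_empty]
    exact cl_one
  | insert i s hi ih =>
    rw [Finset.prod_insert hi, ← ih, cl_mul, cl_eq]
    exact Eventually.of_forall fun z => by rw [Pi.mul_apply, Finset.prod_insert hi]

variable {n : ℕ} {K : Type} [Field K] [Algebra ℂ K] {y : Fin (n + 1) → K}
  (R : ∀ h : K, Frac y h) {φ : ℂ → Mat (n + 1)}

theorem mero_sval (h : Cv y φ) (σ : SymD K) : Meromorphic (sval R σ φ) :=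
  mero_sum' _ fun j => (h.mero R (σ.h j)).mul (mero_prod' _ fun l => (h.mero R (σ.f j l)).deriv)

/-- the class of the value of the symmetric differential -/
theorem cl_sval (h : Cv y φ) (σ : SymD K) : cl (sval R σ φ) (mero_sval R h σ) =
    ∑ j, h.emb R (σ.h j) * ∏ l, MD (h.emb R (σ.f j l)) := by
  unfold sval
  rw [cl_sum Finset.univ (f := fun j z => ev R (σ.h j) (φ z) *
    ∏ l, deriv (fun w => ev R (σ.f j l) (φ w)) z) (fun j => (h.mero R (σ.h j)).mul
    (mero_prod' _ fun l => (h.mero R (σ.f j l)).deriv))]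
  refine Finset.sum_congr rfl fun j _ => ?_
  have h1 := cl_prod Finset.univ (f := fun l z => deriv (fun w => ev R (σ.f j l) (φ w)) z)
    (fun l => (h.mero R (σ.f j l)).deriv)
  have h2 : ∀ l, MD (h.emb R (σ.f j l)) = cl (deriv fun w => ev R (σ.f j l) (φ w))
    ((h.mero R (σ.f j l)).deriv) := fun l => by rw [Cv.emb_apply, MD_cl]
  simp only [h2]
  rw [← h1, Cv.emb_apply, cl_mul]
  rfl

theorem SymD.val_add_smul (σ : SymD K) (E0 E1 : Derivation ℂ K K) (k : ℕ) :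
    σ.val (E0 + k • E1) = ∑ j, σ.h j * ∏ l, (E0 (σ.f j l) + k * E1 (σ.f j l)) := by
  unfold SymD.val
  refine Finset.sum_congr rfl fun j _ => ?_
  congr 1
  refine Finset.prod_congr rfl fun l _ => ?_
  rw [Derivation.add_apply, Derivation.smul_apply, nsmul_eq_mul]

theorem derReg_comb {v : Place ℂ K} {E0 E1 : Derivation ℂ K K} (h0 : DerReg v E0)
    (h1 : DerReg v E1) (k : ℕ) : DerReg v (E0 + k • E1) := by
  intro f hf
  rw [Derivation.add_apply, Derivation.smul_apply, nsmul_eq_mul]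
  have h2 : v.Reg (k : K) := by
    have : (k : K) = algebraMap ℂ K k := by simp
    rw [this]
    exact v.reg_const _
  exact v.reg_add (h0 f hf) (v.reg_mul h2 (h1 f hf))

/-- **The local bound.** -/
theorem sval_bd {Cn : Place ℂ K → Prop} {M0 : Mat (n + 1)} (hLB : LBc R Cn M0) {σ : SymD K}
    (hreg : ∀ v : Place ℂ K, Divisorial 2 v → Cn v → ∀ D : Derivation ℂ K K, DerReg v D →
      v.Reg (σ.val D)) :
    ∃ O : Set (Mat (n + 1)), IsOpen O ∧ M0 ∈ O ∧ ∃ C : ℝ, 0 ≤ C ∧ ∀ (φ : ℂ → Mat (n + 1)),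
      Cv y φ → ∀ᶠ z in codiscrete ℂ, φ z ∈ O → ‖sval R σ φ z‖ ≤ C * ‖fderiv ℝ φ z‖ ^ σ.d := by
  obtain ⟨i, j, k, E, hyi, hnzi, hdual, hbd⟩ := hLB
  have hq : ∀ m : ℕ, ∃ O ∈ 𝓝 M0, ∃ C : ℝ, ∀ M ∈ O ∩ TX y,
      N155.good R (σ.val (E 0 + m • E 1)) M → ‖ev R (σ.val (E 0 + m • E 1)) M‖ ≤ C := fun m =>
    hbd _ fun v hv hc hE => hreg v hv hc _ (derReg_comb (hE 0) (hE 1) m)
  choose O hO C hC using hq
  obtain ⟨L0, O2, hL0, hO2, hLip0⟩ := lip_qv (G1 := X j) hnzi
  obtain ⟨L1, O3, hL1, hO3, hLip1⟩ := lip_qv (G1 := X k) hnzi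
  have hnb : {M : Mat (n + 1) | nz (X i) M} ∈ 𝓝 M0 := (isOpen_nz _).mem_nhds hnzi
  obtain ⟨CF, hCF, hform⟩ := form_bound σ.d
  set s := Finset.range (σ.d + 1) with hs
  have hOs : (⋂ m ∈ s, O m) ∈ 𝓝 M0 := (Filter.biInter_finset_mem s).2 fun m _ => hO m
  obtain ⟨O', hOsub, hO', hM0O⟩ := _root_.mem_nhds_iff.1
    (inter_mem hOs (inter_mem (inter_mem hO2 hO3) hnb))
  set B : ℝ := ∑ m ∈ s, |C m| with hB
  have hB0 : 0 ≤ B := Finset.sum_nonneg fun _ _ => abs_nonneg _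
  refine ⟨O', hO', hM0O, CF * B * (L0 + L1) ^ σ.d, by positivity, fun φ h => ?_⟩
  set e := h.emb R with hedef
  have hder : IsDer e (fun k => MD (e k)) := h.isDer R
  set u0 : ℂ → ℂ := deriv fun z => ev R (y j / y i) (φ z) with hu0
  set u1 : ℂ → ℂ := deriv fun z => ev R (y k / y i) (φ z) with hu1
  have hm0 : Meromorphic u0 := (h.mero R _).deriv
  have hm1 : Meromorphic u1 := (h.mero R _).deriv
  have hc0 : MD (e (y j / y i)) = cl u0 hm0 := by rw [hedef, Cv.emb_apply, MD_cl]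
  have hc1 : MD (e (y k / y i)) = cl u1 hm1 := by rw [hedef, Cv.emb_apply, MD_cl]
  have hu0ne : ∀ᶠ z in codiscrete ℂ, u0 z ≠ 0 := by
    apply mero_ne hm0
    intro h0
    have h1 : MD (e (y j / y i)) = 0 := by rw [hc0, cl_eq_zero]; exact h0
    obtain ⟨c, hc⟩ := MD_eq_zero h1
    have htr : Transcendental ℂ (y j / y i) := hdual.1.1.transcendental 0
    apply htr
    have h2 : y j / y i = algebraMap ℂ K c := e.toRingHom.injective (by
      change e _ = e _
      rw [hc, e.commutes])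
    rw [h2]
    exact isAlgebraic_algebraMap _
  have hchain : ∀ f : K, MD (e f) = cl u0 hm0 * e (E 0 f) + cl u1 hm1 * e (E 1 f) := by
    intro f
    have h1 := hder.chain hdual f
    rw [Fin.sum_univ_two] at h1
    rw [← hc0, ← hc1]
    exact h1
  have key : ∀ᶠ z in codiscrete ℂ, sval R σ φ z = ∑ j', ev R (σ.h j') (φ z) *
      ∏ l, (u0 z * ev R (E 0 (σ.f j' l)) (φ z) + u1 z * ev R (E 1 (σ.f j' l)) (φ z)) := by
    have h1 : ∀ᶠ z in codiscrete ℂ, ∀ j' l, deriv (fun w => ev R (σ.f j' l) (φ w)) z =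
        u0 z * ev R (E 0 (σ.f j' l)) (φ z) + u1 z * ev R (E 1 (σ.f j' l)) (φ z) := by
      refine eventually_all.2 fun j' => eventually_all.2 fun l => ?_
      have h2 := hchain (σ.f j' l)
      rw [hedef, Cv.emb_apply, Cv.emb_apply, Cv.emb_apply, MD_cl, cl_mul, cl_mul, cl_add] at h2
      filter_upwards [cl_eq.1 h2] with z hz
      rw [hz]
      rfl
    filter_upwards [h1] with z hz
    unfold sval
    simp only [hz]
  have key2 : ∀ m : ℕ, ∀ᶠ z in codiscrete ℂ, ev R (σ.val (E 0 + m • E 1)) (φ z) =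
      ∑ j', ev R (σ.h j') (φ z) *
        ∏ l, (ev R (E 0 (σ.f j' l)) (φ z) + m * ev R (E 1 (σ.f j' l)) (φ z)) := by
    intro m
    have hmf : ∀ j' l, Meromorphic (fun z => ev R (E 0 (σ.f j' l)) (φ z) +
        m * ev R (E 1 (σ.f j' l)) (φ z)) := fun j' l =>
      (h.mero R _).add ((Meromorphic.const (m : ℂ)).mul (h.mero R _))
    have hms : ∀ j', Meromorphic (fun z => ev R (σ.h j') (φ z) *
        ∏ l, (ev R (E 0 (σ.f j' l)) (φ z) + m * ev R (E 1 (σ.f j' l)) (φ z))) := fun j' =>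
      (h.mero R _).mul (mero_prod' _ (hmf j'))
    have h1 : e (σ.val (E 0 + m • E 1)) = cl _ (mero_sum' Finset.univ hms) := by
      rw [cl_sum Finset.univ hms, SymD.val_add_smul, map_sum]
      refine Finset.sum_congr rfl fun j' _ => ?_
      rw [map_mul, map_prod]
      have h2 := cl_prod Finset.univ (hmf j')
      have h3 : ∀ l, e (E 0 (σ.f j' l) + m * E 1 (σ.f j' l)) = cl _ (hmf j' l) := by
        intro l
        rw [map_add, map_mul, map_natCast]
        have h4 : ((m : ℕ) : MK) = cl (fun _ => (m : ℂ)) (Meromorphic.const _) := by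
          rw [cl_const]
          simp
        rw [h4, hedef, Cv.emb_apply, Cv.emb_apply, cl_mul, cl_add]
        rfl
      simp only [h3]
      rw [← h2, hedef, Cv.emb_apply, cl_mul]
      rfl
    rw [hedef, Cv.emb_apply] at h1
    exact cl_eq.1 h1
  have hgoodq : ∀ᶠ z in codiscrete ℂ, ∀ m ∈ s, N155.good R (σ.val (E 0 + m • E 1)) (φ z) ∧
      ev R (σ.val (E 0 + m • E 1)) (φ z) = ∑ j', ev R (σ.h j') (φ z) *
        ∏ l, (ev R (E 0 (σ.f j' l)) (φ z) + m * ev R (E 1 (σ.f j' l)) (φ z)) := by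
    rw [Filter.eventually_all_finset]
    intro m _
    exact (h.good R _).and (key2 m)
  filter_upwards [hu0ne, key, hgoodq, h.good R (y j / y i), h.good R (y k / y i)] with z z1 z2 z3 z4
    z5 hzO
  rw [z2]
  have b0 := hform σ.r (fun j' => ev R (σ.h j') (φ z)) (fun j' l => ev R (E 0 (σ.f j' l)) (φ z))
    (fun j' l => ev R (E 1 (σ.f j' l)) (φ z)) B (by
      intro m hm
      have hms : m ∈ s := Finset.mem_range.2 (Nat.lt_succ_of_le hm)
      obtain ⟨g1, g2⟩ := z3 m hms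
      rw [← g2]
      refine (hC m (φ z) ⟨?_, h.mem z⟩ g1).trans ((le_abs_self _).trans ?_)
      · exact mem_iInter₂.1 (hOsub hzO).1 m hms
      · exact Finset.single_le_sum (f := fun m => |C m|) (fun _ _ => abs_nonneg _) hms) (u0 z) (u1 z)
    z1
  refine b0.trans ?_
  have d0 := deriv_pt R h hyi hO' hL0 (fun M hM M' hM' =>
    hLip0 M (hOsub hM).2.1.1 M' (hOsub hM').2.1.1) (fun M hM => (hOsub hM).2.2) hzO z4
  have d1 := deriv_pt R h hyi hO' hL1 (fun M hM M' hM' =>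
    hLip1 M (hOsub hM).2.1.2 M' (hOsub hM').2.1.2) (fun M hM => (hOsub hM).2.2) hzO z5
  rw [mul_assoc (CF * B), ← mul_pow]
  apply mul_le_mul_of_nonneg_left _ (by positivity)
  apply pow_le_pow_left₀ (by positivity)
  rw [add_mul]
  exact add_le_add d0 d1

/-- **The global bound.** -/
theorem sval_bd' {Cn : Place ℂ K → Prop} {S : Set (Mat (n + 1))} (hS : IsCompact S)
    (hLB : ∀ M ∈ S, LBc R Cn M) {σ : SymD K}
    (hreg : ∀ v : Place ℂ K, Divisorial 2 v → Cn v → ∀ D : Derivation ℂ K K, DerReg v D →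
      v.Reg (σ.val D)) :
    ∃ C : ℝ, 0 ≤ C ∧ ∀ (φ : ℂ → Mat (n + 1)),
      Cv y φ → ∀ᶠ z in codiscrete ℂ, φ z ∈ S → ‖sval R σ φ z‖ ≤ C * ‖fderiv ℝ φ z‖ ^ σ.d := by
  refine hS.induction_on (p := fun S => ∃ C : ℝ, 0 ≤ C ∧ ∀ (φ : ℂ → Mat (n + 1)),
      Cv y φ → ∀ᶠ z in codiscrete ℂ, φ z ∈ S → ‖sval R σ φ z‖ ≤ C * ‖fderiv ℝ φ z‖ ^ σ.d)
      ?_ ?_ ?_ ?_
  · exact ⟨0, le_rfl, fun φ h => Eventually.of_forall fun z hz => absurd hz (by simp)⟩
  · rintro S S' hSS ⟨C, hC, h⟩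
    refine ⟨C, hC, fun φ hφ => ?_⟩
    filter_upwards [h φ hφ] with z hz hzS
    exact hz (hSS hzS)
  · rintro S S' ⟨C, hC, h⟩ ⟨C', hC', h'⟩
    refine ⟨max C C', hC.trans (le_max_left _ _), fun φ hφ => ?_⟩
    filter_upwards [h φ hφ, h' φ hφ] with z hz hz' hzS
    rcases hzS with hzS | hzS
    · exact (hz hzS).trans (mul_le_mul_of_nonneg_right (le_max_left _ _) (by positivity))
    · exact (hz' hzS).trans (mul_le_mul_of_nonneg_right (le_max_right _ _) (by positivity))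
  · intro M0 hM0
    obtain ⟨O, hO, hM0O, C, hC, h⟩ := sval_bd R (hLB M0 hM0) hreg
    exact ⟨O, mem_nhdsWithin_of_mem_nhds (hO.mem_nhds hM0O), C, hC, h⟩

theorem sval_an (h : Cv y φ) {σ : SymD K} {z : ℂ} (hz : N155.sgood R σ (φ z)) :
    AnalyticAt ℂ (sval R σ φ) z := by
  unfold sval
  refine Finset.analyticAt_fun_sum _ fun j _ => (h.an R (hz.1 j)).mul
    (Finset.analyticAt_fun_prod _ fun l _ => (h.an R (hz.2 j l)).deriv)

/-- **Symmetric differentials are constant on curves of bounded derivative.** -/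
theorem exists_const {Cn : Place ℂ K → Prop} {S : Set (Mat (n + 1))} (hS : IsCompact S)
    (hLB : ∀ M ∈ S, LBc R Cn M) {σ : SymD K}
    (hreg : ∀ v : Place ℂ K, Divisorial 2 v → Cn v → ∀ D : Derivation ℂ K K, DerReg v D →
      v.Reg (σ.val D)) :
    ∃ C : ℝ, 0 ≤ C ∧ ∀ (φ : ℂ → Mat (n + 1)), Cv y φ → (∀ z, φ z ∈ S) →
      ∀ B : ℝ, (∀ z, ‖fderiv ℝ φ z‖ ≤ B) → ∃ c : ℂ, SEq R σ c φ ∧
        ∀ z, ‖c‖ ≤ C * ‖fderiv ℝ φ z‖ ^ σ.d := by
  obtain ⟨C, hC, hbd⟩ := sval_bd' R hS hLB hreg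
  refine ⟨C, hC, fun φ h hφS B hB => ?_⟩
  have h1 : ∀ᶠ z in codiscrete ℂ, ‖sval R σ φ z‖ ≤ C * ‖fderiv ℝ φ z‖ ^ σ.d := by
    filter_upwards [hbd φ h] with z hz using hz (hφS z)
  obtain ⟨c, hc⟩ := mk_const (mero_sval R h σ) (C := C * B ^ σ.d) (by
    filter_upwards [h1] with z hz
    refine hz.trans (mul_le_mul_of_nonneg_left ?_ hC)
    exact pow_le_pow_left₀ (norm_nonneg _) (hB z) _)
  rw [← cl_const] at hc
  have hev : ∀ᶠ z in codiscrete ℂ, sval R σ φ z = c := cl_eq.1 hc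
  refine ⟨c, fun z hz => ?_, fun z => ?_⟩
  · exact eq_of_codis hev (sval_an R h hz).continuousAt continuousAt_const
  · have h2 : Tendsto (fun w => C * ‖fderiv ℝ φ w‖ ^ σ.d) (𝓝[≠] z)
        (𝓝 (C * ‖fderiv ℝ φ z‖ ^ σ.d)) := by
      have h3 : ContinuousAt (fderiv ℝ φ) z := h.hol.continuousAt_fderiv (mem_univ z)
      exact (((h3.norm.tendsto).pow _).const_mul C).mono_left nhdsWithin_le_nhds
    refine ge_of_tendsto h2 ?_
    filter_upwards [codis_ev h1 z, codis_ev hev z] with w hw1 hw2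
    rw [hw2] at hw1
    exact hw1

end Pool.Agent.N155
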