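import Pool.Agent.N155.L.Del2
import Pool.Agent.N155.L.Ana
import Pool.Agent.N155.IR
import Pool.Agent.N155.Crv

/-! Pluricanonical forms on deformations which are bounded up to translations. -/

set_option autoImplicit false

open Filter Topology Metric Set MvPolynomial

namespace Pool.Agent.N155

open FF Pool.Agent.Y190.OP Pool.Agent.W602.GT Pool.Agent.TH143.GT

variable {n : ℕ} {K : Type} [Field K] [Algebra ℂ K] {y : Fin (n + 1) → K}
  (R : ∀ h : K, Frac y h)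

/-- local boundedness at `M0` of the functions which are regular at the prime divisors satisfying
`Cn` -/
def LBc (Cn : Place ℂ K → Prop) (M0 : Mat (n + 1)) : Prop :=
  ∃ (i j k : Fin (n + 1)) (E : Fin 2 → Derivation ℂ K K),
  y i ≠ 0 ∧ nz (X i) M0 ∧ Dual ![y j / y i, y k / y i] E ∧
  ∀ q : K, (∀ v : Place ℂ K, Divisorial 2 v → Cn v → (∀ l, DerReg v (E l)) → v.Reg q) →
    ∃ O ∈ 𝓝 M0, ∃ C : ℝ, ∀ M ∈ O ∩ TX y, good R q M → ‖ev R q M‖ ≤ C

variable {𝓤 : Ultrafilter ℕ} {φ : ℂ → Mat (n + 1)} {P Q : ℕ → ℂ → Mat (n + 1)} {wt : ℕ → ℂ → ℂ}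

/-- the normalised difference is bounded by `C`, up to translations -/
def Tb (𝓤 : Ultrafilter ℕ) (P Q : ℕ → ℂ → Mat (n + 1)) (wt : ℕ → ℂ → ℂ) (C : ℝ) (z : ℂ) : Prop :=
  ∃ (s : ℕ → ℂ) (B : ℝ), Tendsto s 𝓤 (𝓝 0) ∧ (∀ᶠ m in (𝓤 : Filter ℕ), ‖s m‖ * ‖wt m z‖ ≤ B) ∧
    ∀ᶠ m in (𝓤 : Filter ℕ), ‖Q m (z + s m) - P m z‖ * ‖wt m z‖ ≤ C

theorem Dfo.tan (h : Dfo y 𝓤 φ P Q wt) {C : ℝ} {z : ℂ} (ht : Tb 𝓤 P Q wt C z) {i : Fin (n + 1)}
    (hi : y i ≠ 0) {O : Set (Mat (n + 1))} (hO : IsOpen O) (hnz : ∀ M ∈ O, nz (X i) M)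
    (hz : φ z ∈ O) : ∃ g : ℂ, ∀ (j : Fin (n + 1)) (C2 : ℝ), 0 ≤ C2 →
      (∀ M ∈ O, ∀ M' ∈ O, ‖qv (X j) (X i) M - qv (X j) (X i) M'‖ ≤ C2 * ‖M - M'‖) →
      N155.good R (y j / y i) (φ z) →
      ‖Dl R 𝓤 P Q wt (y j / y i) z + g * deriv (fun w => ev R (y j / y i) (φ w)) z‖ ≤ C2 * C := by
  obtain ⟨s, B, hs, hB, hC⟩ := ht
  obtain ⟨g, hg⟩ := exists_lim (𝓤 := 𝓤) (h := fun m => s m * wt m z) (C := B) (by
    filter_upwards [hB] with m hm
    rwa [norm_mul])
  refine ⟨g, fun j C2 hC2 hL hgd => ?_⟩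
  obtain ⟨V, hV, hzV, -, hm⟩ := h.ev_mem (hO.mem_nhds hz)
  obtain ⟨V', hV', hzV', hm'⟩ := h.ev_good R hgd
  have hU : IsOpen {w | nz (X i) (φ w)} := (isOpen_nz (X i)).preimage h.cont
  have hcq : CConv (𝓤 : Filter ℕ) {w | nz (X i) (φ w)} (fun m w => qv (X j) (X i) (Q m w))
      (fun w => qv (X j) (X i) (φ w)) :=
    CConv.comp (fun w _ => h.lQ w (mem_univ w)) fun _ hw => continuousAt_qv hw
  have hdq : ∃ V ∈ 𝓝 z, ∀ᶠ m in (𝓤 : Filter ℕ),
      DifferentiableOn ℂ (fun w => qv (X j) (X i) (Q m w)) V := by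
    refine ⟨V, hV.mem_nhds hzV, ?_⟩
    filter_upwards [hm] with m h1 w hw
    exact (an_qv (h.hQ m) (mem_univ w) (isHomogeneous_X _ _) (isHomogeneous_X _ _)
      (hnz _ (h1 w hw).2)).differentiableAt.differentiableWithinAt
  have hder : deriv (fun w => ev R (y j / y i) (φ w)) z =
      deriv (fun w => qv (X j) (X i) (φ w)) z := by
    apply EventuallyEq.deriv_eq
    filter_upwards [(hO.preimage h.cont).mem_nhds hz, (h.isOpen_good R (y j / y i)).mem_nhds hgd]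
      with w hw hw'
    exact ev_ratio R j hi (h.cv.mem w) hw' (hnz _ hw)
  set D := deriv (fun w => qv (X j) (X i) (φ w)) z with hD
  -- the tangential part
  have hz1 : Tendsto (fun m => z + s m) 𝓤 (𝓝 z) := by
    have := hs.const_add z
    rwa [add_zero] at this
  have htan : Tendsto (fun m => (qv (X j) (X i) (Q m (z + s m)) - qv (X j) (X i) (Q m z)) * wt m z)
      𝓤 (𝓝 (g * D)) := by
    have h1 : Tendsto (fun m => (qv (X j) (X i) (Q m (z + s m)) - qv (X j) (X i) (Q m z)) * wt m z -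
        s m * wt m z * D) 𝓤 (𝓝 0) := by
      rw [Metric.tendsto_nhds]
      intro ε hε
      obtain ⟨ρ, hρ, hquot⟩ := CConv.quot hcq hU (z := z) (hnz _ hz) hdq
        (show 0 < ε / (|B| + 1) by positivity)
      filter_upwards [hquot, hB, hz1.eventually (ball_mem_nhds z hρ)] with m k1 k2 k3
      have k4 := k1 _ k3 z (mem_ball_self hρ)
      rw [add_sub_cancel_left] at k4
      rw [dist_zero_right]
      have k5 : (qv (X j) (X i) (Q m (z + s m)) - qv (X j) (X i) (Q m z)) * wt m z -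
          s m * wt m z * D = (qv (X j) (X i) (Q m (z + s m)) - qv (X j) (X i) (Q m z) -
          s m * D) * wt m z := by ring
      rw [k5, norm_mul]
      calc _ ≤ ε / (|B| + 1) * ‖s m‖ * ‖wt m z‖ := mul_le_mul_of_nonneg_right k4 (norm_nonneg _)
        _ = ε / (|B| + 1) * (‖s m‖ * ‖wt m z‖) := by ring
        _ ≤ ε / (|B| + 1) * |B| :=
            mul_le_mul_of_nonneg_left (k2.trans (le_abs_self B)) (by positivity)
        _ < ε := by
            rw [div_mul_eq_mul_div, div_lt_iff₀ (by positivity)]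
            nlinarith [abs_nonneg B]
    have h2 := h1.add (hg.mul_const D)
    rw [zero_add] at h2
    refine h2.congr fun m => ?_
    ring
  have hsum : Tendsto (fun m => (qv (X j) (X i) (Q m (z + s m)) - qv (X j) (X i) (P m z)) * wt m z)
      𝓤 (𝓝 (Dl R 𝓤 P Q wt (y j / y i) z + g * D)) := by
    refine ((h.tendsto R hgd).add htan).congr' ?_
    filter_upwards [hm, hm'] with m k1 k2
    obtain ⟨p1, p2⟩ := k1 z hzV
    obtain ⟨q1, q2⟩ := k2 z hzV'
    unfold dqf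
    rw [ev_ratio R j hi (h.mQ m z) q2 (hnz _ p2), ev_ratio R j hi (h.mP m z) q1 (hnz _ p1)]
    ring
  rw [hder]
  refine le_of_tendsto hsum.norm ?_
  filter_upwards [hm, hC, hz1.eventually (hV.mem_nhds hzV)] with m k1 k2 k3
  rw [norm_mul]
  calc _ ≤ C2 * ‖Q m (z + s m) - P m z‖ * ‖wt m z‖ :=
        mul_le_mul_of_nonneg_right (hL _ (k1 _ k3).2 _ (k1 _ hzV).1) (norm_nonneg _)
    _ = C2 * (‖Q m (z + s m) - P m z‖ * ‖wt m z‖) := by ring
    _ ≤ C2 * C := mul_le_mul_of_nonneg_left k2 hC2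

/-- the values of the regular pluricanonical forms on the curve and the deformation are constant -/
theorem Dfo.T_const (h : Dfo y 𝓤 φ P Q wt) {C0 : ℝ} (ht : ∀ z, Tb 𝓤 P Q wt C0 z)
    {S : Set (Mat (n + 1))} (hS : IsCompact S) (hφS : ∀ z, φ z ∈ S) {Cn : Place ℂ K → Prop}
    (hLB : ∀ M0 ∈ S, LBc R Cn M0) {B : ℝ} (hB : ∀ z, ‖fderiv ℝ φ z‖ ≤ B)
    {N : ℕ} {ω : (Fin 2 → Derivation ℂ K K) → K} (hω : IsPluri N ω)
    (hreg : ∀ v : Place ℂ K, Divisorial 2 v → Cn v → RegAt v ω) {x : Fin 2 → K}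
    {E : Fin 2 → Derivation ℂ K K} (hx : Dual x E) :
    ∃ c : ℂ, h.cv.emb R (ω E) * W2 (fun k => MD (h.cv.emb R k)) (h.del R) x ^ N =
      algebraMap ℂ MK c := by
  classical
  set e := h.cv.emb R with he
  set T : MK := e (ω E) * W2 (fun k => MD (e k)) (h.del R) x ^ N with hT
  obtain ⟨t, ht', htT⟩ := cl_surj T
  have hC00 : 0 ≤ C0 := by
    obtain ⟨s, B, -, -, hm⟩ := ht 0
    obtain ⟨m, hm⟩ := hm.exists
    exact le_trans (by positivity) hm
  -- the local data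
  have hloc : ∀ M0 : Mat (n + 1), ∃ (O : Set (Mat (n + 1))) (C : ℝ), M0 ∈ S → IsOpen O ∧ M0 ∈ O ∧
      ∀ᶠ z in codiscrete ℂ, φ z ∈ O → ‖t z‖ ≤ C := by
    intro M0
    by_cases hM0 : M0 ∈ S
    swap
    · exact ⟨∅, 0, fun h => absurd h hM0⟩
    obtain ⟨i, j, k, E', hi, hnz, hD, hq⟩ := hLB M0 hM0
    obtain ⟨O1, hO1, C1, hC1⟩ := hq (ω E') (fun v hv hc hr => hreg v hv hc E' hr)
    obtain ⟨C2, O2, hC2, hO2, hL2⟩ := lip_qv (G1 := (X j : MvPolynomial (Fin (n + 1)) ℂ)) hnz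
    obtain ⟨C3, O3, hC3, hO3, hL3⟩ := lip_qv (G1 := (X k : MvPolynomial (Fin (n + 1)) ℂ)) hnz
    obtain ⟨O, hOsub, hO, hM0O⟩ := _root_.mem_nhds_iff.1 (inter_mem (inter_mem hO1 hO2)
      (inter_mem hO3 ((isOpen_nz (X i)).mem_nhds hnz)))
    refine ⟨O, |C1| * (C2 * B * (C3 * C0) + C3 * B * (C2 * C0)) ^ N, fun _ => ⟨hO, hM0O, ?_⟩⟩
    have hO1' : ∀ M ∈ O, M ∈ O1 := fun M hM => (hOsub hM).1.1
    have hL2' : ∀ M ∈ O, ∀ M' ∈ O, ‖qv (X j) (X i) M - qv (X j) (X i) M'‖ ≤ C2 * ‖M - M'‖ :=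
      fun M hM M' hM' => hL2 M (hOsub hM).1.2 M' (hOsub hM').1.2
    have hL3' : ∀ M ∈ O, ∀ M' ∈ O, ‖qv (X k) (X i) M - qv (X k) (X i) M'‖ ≤ C3 * ‖M - M'‖ :=
      fun M hM M' hM' => hL3 M (hOsub hM).2.1 M' (hOsub hM').2.1
    have hnz' : ∀ M ∈ O, nz (X i) M := fun M hM => (hOsub hM).2.2
    -- the identity
    have hid : cl t ht' = e (ω E') * W2 (fun k => MD (e k)) (h.del R)
        ![y j / y i, y k / y i] ^ N := by
      rw [htT, hT]
      exact T_indep hω (h.cv.isDer R) (h.isDer R) hx hD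
    have hid2 : e (ω E') * W2 (fun k => MD (e k)) (h.del R) ![y j / y i, y k / y i] ^ N =
        e (ω E') * (MD (e (y j / y i)) * h.del R (y k / y i) -
          MD (e (y k / y i)) * h.del R (y j / y i)) ^ N := by
      unfold W2
      simp only [Matrix.cons_val_zero, Matrix.cons_val_one]
    rw [hid2] at hid
    have hm1 : Meromorphic (fun z => ev R (ω E') (φ z)) := h.cv.mero R _
    set u : ℂ → ℂ := fun z => ev R (ω E') (φ z) *
      (deriv (fun w => ev R (y j / y i) (φ w)) z * Dl R 𝓤 P Q wt (y k / y i) z -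
        deriv (fun w => ev R (y k / y i) (φ w)) z * Dl R 𝓤 P Q wt (y j / y i) z) ^ N with hu
    have hu' : ∀ᶠ z in codiscrete ℂ, t z = u z := by
      have d1 := (h.cv.mero R (y j / y i)).deriv
      have d2 := (h.cv.mero R (y k / y i)).deriv
      have f1 : Meromorphic (fun z => deriv (fun w => ev R (y j / y i) (φ w)) z *
          Dl R 𝓤 P Q wt (y k / y i) z - deriv (fun w => ev R (y k / y i) (φ w)) z *
          Dl R 𝓤 P Q wt (y j / y i) z) := (d1.mul (h.mero R _)).sub (d2.mul (h.mero R _))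
      have hmu : Meromorphic u := fun z => (hm1 z).mul ((f1 z).pow N)
      have e1 : cl t ht' = cl u hmu := by
        rw [hid, he, Cv.emb_apply, Cv.emb_apply, Cv.emb_apply, MD_cl, MD_cl]
        rfl
      exact cl_eq.1 e1
    filter_upwards [hu', h.cv.good R (ω E'), h.cv.good R (y j / y i), h.cv.good R (y k / y i)]
      with z h1 h2 h3 h4 hz
    rw [h1, hu]
    simp only
    rw [norm_mul, norm_pow]
    have b1 : ‖ev R (ω E') (φ z)‖ ≤ |C1| :=
      (hC1 _ ⟨hO1' _ hz, h.cv.mem z⟩ h2).trans (le_abs_self _)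
    have b2 := deriv_bound R h.cv hB hi hO hC2 hL2' hnz' hz h3
    have b3 := deriv_bound R h.cv hB hi hO hC3 hL3' hnz' hz h4
    obtain ⟨g, hg⟩ := h.tan R (ht z) hi hO hnz' hz
    have b4 := hg j C2 hC2 hL2' h3
    have b5 := hg k C3 hC3 hL3' h4
    have hB0 : 0 ≤ B := (norm_nonneg _).trans (hB 0)
    apply mul_le_mul b1 _ (by positivity) (abs_nonneg _)
    apply pow_le_pow_left₀ (norm_nonneg _)
    have e1 : deriv (fun w => ev R (y j / y i) (φ w)) z * Dl R 𝓤 P Q wt (y k / y i) z -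
        deriv (fun w => ev R (y k / y i) (φ w)) z * Dl R 𝓤 P Q wt (y j / y i) z =
        deriv (fun w => ev R (y j / y i) (φ w)) z * (Dl R 𝓤 P Q wt (y k / y i) z +
          g * deriv (fun w => ev R (y k / y i) (φ w)) z) -
        deriv (fun w => ev R (y k / y i) (φ w)) z * (Dl R 𝓤 P Q wt (y j / y i) z +
          g * deriv (fun w => ev R (y j / y i) (φ w)) z) := by ring
    rw [e1]
    refine (norm_sub_le _ _).trans ?_
    rw [norm_mul, norm_mul]
    exact add_le_add (mul_le_mul b2 b5 (norm_nonneg _) (by positivity))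
      (mul_le_mul b3 b4 (norm_nonneg _) (by positivity))
  choose O C hOC using hloc
  obtain ⟨S', hS', hcov⟩ := hS.elim_nhds_subcover O
    (fun M hM => ((hOC M hM).1).mem_nhds (hOC M hM).2.1)
  have hall : ∀ᶠ z in codiscrete ℂ, ∀ M ∈ S', φ z ∈ O M → ‖t z‖ ≤ C M := by
    rw [Filter.eventually_all_finset]
    exact fun M hM => (hOC M (hS' M hM)).2.2
  obtain ⟨c, hc⟩ := mk_const ht' (C := ∑ M ∈ S', |C M|) (by
    filter_upwards [hall] with z hz
    obtain ⟨M, hMS, hM⟩ := mem_iUnion₂.1 (hcov (hφS z))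
    refine (hz M hMS hM).trans ((le_abs_self _).trans ?_)
    exact Finset.single_le_sum (f := fun M => |C M|) (fun _ _ => abs_nonneg _) hMS)
  exact ⟨c, by rw [← hc, htT]⟩

/-- the deformation is tangent to the curve -/
theorem Dfo.W2_zero (h : Dfo y 𝓤 φ P Q wt) {C0 : ℝ} (ht : ∀ z, Tb 𝓤 P Q wt C0 z)
    {S : Set (Mat (n + 1))} (hS : IsCompact S) (hφS : ∀ z, φ z ∈ S) {Cn : Place ℂ K → Prop}
    (hLB : ∀ M0 ∈ S, LBc R Cn M0) {B : ℝ} (hB : ∀ z, ‖fderiv ℝ φ z‖ ≤ B)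
    {N : ℕ} (hN : 0 < N) {ω0 ω1 : (Fin 2 → Derivation ℂ K K) → K} (hω0 : IsPluri N ω0)
    (hω1 : IsPluri N ω1)
    (hreg0 : ∀ v : Place ℂ K, Divisorial 2 v → Cn v → RegAt v ω0)
    (hreg1 : ∀ v : Place ℂ K, Divisorial 2 v → Cn v → RegAt v ω1)
    {D : Fin 2 → Derivation ℂ K K}
    (hD : ω0 D ≠ 0) (hr : Transcendental ℂ (ω1 D / ω0 D)) {x : Fin 2 → K}
    {E : Fin 2 → Derivation ℂ K K} (hx : Dual x E) :
    W2 (fun k => MD (h.cv.emb R k)) (h.del R) x = 0 := by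
  set e := h.cv.emb R with he
  obtain ⟨c0, hc0⟩ := h.T_const R ht hS hφS hLB hB hω0 hreg0 hx
  obtain ⟨c1, hc1⟩ := h.T_const R ht hS hφS hLB hB hω1 hreg1 hx
  have hE0 : ω0 E ≠ 0 := pluri_ne hω0 hx hD
  have hratio : ω1 D / ω0 D = ω1 E / ω0 E := pluri_ratio hω0 hω1 hx hD
  have hc00 : c0 = 0 := by
    by_contra hne
    apply hr
    have h1 : e (ω1 E / ω0 E) = algebraMap ℂ MK (c1 / c0) := by
      rw [map_div₀, map_div₀, ← hc0, ← hc1]
      have h2 : W2 (fun k => MD (e k)) (h.del R) x ^ N ≠ 0 := by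
        intro h3
        rw [h3, mul_zero] at hc0
        apply hne
        exact ((map_eq_zero_iff (algebraMap ℂ MK) (algebraMap ℂ MK).injective).1 hc0.symm)
      rw [mul_div_mul_right _ _ h2]
    have h2 : ω1 D / ω0 D = algebraMap ℂ K (c1 / c0) := by
      rw [hratio]
      apply e.toRingHom.injective
      change e _ = e _
      rw [h1, e.commutes]
    rw [h2]
    exact isAlgebraic_algebraMap _
  rw [hc00, map_zero] at hc0
  have h1 : e (ω0 E) ≠ 0 := by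
    intro h2
    apply hE0
    exact (map_eq_zero_iff e e.toRingHom.injective).1 h2
  have h3 := (mul_eq_zero.1 hc0).resolve_left h1
  exact (pow_eq_zero_iff hN.ne').1 h3

/-- the derivation is a multiple of the derivative along the curve -/
theorem Dfo.exists_mul (h : Dfo y 𝓤 φ P Q wt) {x : Fin 2 → K}
    {E : Fin 2 → Derivation ℂ K K} (hx : Dual x E)
    (hW : W2 (fun k => MD (h.cv.emb R k)) (h.del R) x = 0) :
    ∃ g : MK, ∀ k, h.del R k = g * MD (h.cv.emb R k) := by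
  set e := h.cv.emb R with he
  have hx0 : Transcendental ℂ (x 0) := hx.1.1.transcendental 0
  have hne : MD (e (x 0)) ≠ 0 := by
    intro h0
    obtain ⟨c, hc⟩ := MD_eq_zero h0
    apply hx0
    have h2 : x 0 = algebraMap ℂ K c := e.toRingHom.injective (by
      change e _ = e _
      rw [hc, e.commutes])
    rw [h2]
    exact isAlgebraic_algebraMap _
  refine ⟨h.del R (x 0) / MD (e (x 0)), fun k => ?_⟩
  have hd := h.isDer R
  have hd2 := h.cv.isDer R
  have h1 : IsDer e (fun k => h.del R k - h.del R (x 0) / MD (e (x 0)) * MD (e k)) := by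
    constructor
    · intro a b
      rw [hd.add, map_add, MD_add]
      ring
    · intro a b
      rw [hd.mul, map_mul, MD_mul]
      ring
    · intro c
      rw [hd.const, e.commutes, MD_const, mul_zero, sub_zero]
  have h2 := h1.zero x hx.1 (fun i => by
    fin_cases i
    · change h.del R (x 0) - h.del R (x 0) / MD (e (x 0)) * MD (e (x 0)) = 0
      rw [div_mul_cancel₀ _ hne, sub_self]
    · change h.del R (x 1) - h.del R (x 0) / MD (e (x 0)) * MD (e (x 1)) = 0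
      unfold W2 at hW
      field_simp
      linear_combination hW) k
  exact sub_eq_zero.1 h2

end Pool.Agent.N155
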