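import Pool.Agent.N155.L.Plc

/-! Curves which avoid a point of the boundary have no zeros near it. -/

set_option autoImplicit false

open Filter Topology Metric Set MvPolynomial FF

namespace Pool.Agent.N155

open Pool.Agent.Y190.OP Pool.Agent.W602.GT Pool.Agent.TH143.GT

variable {n : ℕ} {κ : Type} {G : κ → MvPolynomial (Fin (n + 1)) ℂ} {K : Type} [Field K]
  [Algebra ℂ K] {y : Fin (n + 1) → K} {R : ∀ h : K, Frac y h} {φ : ℂ → Mat (n + 1)}

/-- neighbouring sequences have the same place -/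
theorem place_stable [IsFF ℂ K] (hgen : coords ℂ y = ⊤) (h : Cv y φ) {B : ℝ}
    (hB : ∀ z, ‖fderiv ℝ φ z‖ ≤ B) {zm : ℕ → ℂ} {M0 : Mat (n + 1)} (hM0 : M0 ∈ TX y)
    (hlim : Tendsto (fun m => φ (zm m)) (hyperfilter ℕ : Filter ℕ) (𝓝 M0)) {c : ℕ → ℂ}
    (hc : Tendsto (fun m => c m - zm m) (hyperfilter ℕ : Filter ℕ) (𝓝 0)) (g : K) :
    h.emb R g ∈ VM (hyperfilter ℕ) zm ↔ h.emb R g ∈ VM (hyperfilter ℕ) c := by
  set 𝓤 : Ultrafilter ℕ := hyperfilter ℕ with h𝓤
  set e := h.emb R with he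
  have hball : ∀ r > 0, ∀ᶠ m in (𝓤 : Filter ℕ), c m ∈ ball (zm m) r := by
    intro r hr
    filter_upwards [hc.norm.eventually_lt_const (show ‖(0 : ℂ)‖ < r by rwa [norm_zero])] with m hm
    rw [mem_ball, dist_eq_norm]
    exact hm
  constructor
  · intro hg
    obtain ⟨a, ha⟩ := exists_val hg
    have h1 := ha.sub_const a
    rw [sub_self] at h1
    have e1 : e g - algebraMap ℂ MK a = e (g - algebraMap ℂ K a) := by
      rw [map_sub, e.commutes]
    rw [e1] at h1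
    obtain ⟨r, hr, hm⟩ := near_place hgen h hB hM0 hlim h1
    have h2 : e (g - algebraMap ℂ K a) ∈ VM 𝓤 c := by
      refine ⟨1, ?_⟩
      filter_upwards [hm, hball r hr] with m hm1 hm2
      exact hm1 _ hm2
    have h3 := add_mem h2 (const_mem_VM (𝓤 := 𝓤) (c := c) a)
    rw [← e1, sub_add_cancel] at h3
    exact h3
  · intro hg
    by_contra hno
    have hg0 : g ≠ 0 := by
      rintro rfl
      apply hno
      rw [map_zero]
      exact zero_mem _
    have heg : e g⁻¹ ≠ 0 := emb_ne h (inv_ne_zero hg0)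
    have h1 : e g⁻¹ ∈ VM 𝓤 zm := by
      rw [map_inv₀]
      exact ((VM 𝓤 zm).mem_or_inv_mem (e g)).resolve_left hno
    have h2 : HasVal 𝓤 zm (e g⁻¹) 0 := by
      apply hasVal_zero h1
      rw [map_inv₀, inv_inv]
      exact hno
    have h3 : HasVal 𝓤 c (e g⁻¹) 0 := by
      intro ε hε
      obtain ⟨N, hN⟩ := exists_nat_gt (1 / ε)
      have hNpos : (0 : ℝ) < N := lt_trans (by positivity) hN
      have h4 : HasVal 𝓤 zm (e (algebraMap ℂ K N * g⁻¹)) 0 := by
        intro δ hδ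
        filter_upwards [h2 (δ / N) (by positivity)] with m hm
        have e1 := rep_mul (algebraMap ℂ MK N) (e g⁻¹)
        filter_upwards [hm, codis_ev e1 (zm m), codis_ev (rep_const (N : ℂ)) (zm m)]
          with z k1 k2 k3
        rw [map_mul, e.commutes, k2, k3, sub_zero, norm_mul, Complex.norm_natCast]
        rw [sub_zero, lt_div_iff₀ hNpos] at k1
        linarith
      obtain ⟨r, hr, hm⟩ := near_place hgen h hB hM0 hlim h4
      filter_upwards [hm, hball r hr] with m hm1 hm2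
      have e1 := rep_mul (algebraMap ℂ MK N) (e g⁻¹)
      filter_upwards [hm1 _ hm2, codis_ev e1 (c m), codis_ev (rep_const (N : ℂ)) (c m)]
        with z k1 k2 k3
      rw [map_mul, e.commutes, k2, k3, norm_mul, Complex.norm_natCast] at k1
      rw [sub_zero]
      rw [div_lt_iff₀ hε] at hN
      by_contra hcon
      push Not at hcon
      have : (N : ℝ) * ε ≤ N * ‖rep (e g⁻¹) z‖ := mul_le_mul_of_nonneg_left hcon hNpos.le
      linarith
    apply h3.inv_not heg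
    rw [map_inv₀, inv_inv]
    exact hg

/-- the place of a point of the curve -/
theorem point_place0 [IsFF ℂ K] (hgen : coords ℂ y = ⊤) (h : Cv y φ) (w : ℂ) :
    ∃ Q : Place ℂ K, ∀ g, Q.Reg g ↔ h.emb R g ∈ VM (hyperfilter ℕ) (fun _ => w) := by
  have hlim : Tendsto (fun _ : ℕ => φ w) (hyperfilter ℕ : Filter ℕ) (𝓝 (φ w)) :=
    tendsto_const_nhds
  obtain ⟨x0, hx0t, hx0v⟩ := exists_x0 R hgen h (h.mem w)
  have hx0ne : x0 ≠ 0 := fun h0 => hx0t (by rw [h0]; exact isAlgebraic_zero)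
  obtain ⟨Q, -, hQ⟩ := exists_place h hx0ne (hx0v _ (fun _ => w) hlim)
  exact ⟨Q, hQ⟩

/-- the place of a point of the curve has a centre -/
theorem point_centre (h : Cv y φ) {w : ℂ} {Q : Place ℂ K}
    (hQ : ∀ g, Q.Reg g ↔ h.emb R g ∈ VM (hyperfilter ℕ) (fun _ => w)) (hG : ∀ l, IsForm (G l))
    (hav : φ w ∈ SG G) : HasCentre G y Q := by
  have hlim : Tendsto (fun _ : ℕ => φ w) (hyperfilter ℕ : Filter ℕ) (𝓝 (φ w)) :=
    tendsto_const_nhds
  obtain ⟨i, hyi, hnzi⟩ := exists_coord0 (h.mem w)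
  obtain ⟨l, hl⟩ := hav
  obtain ⟨d, hd⟩ := hG l
  have hv : val y (G l) ≠ 0 := by
    intro h0
    obtain ⟨u, hu, hφu⟩ := h.mem w
    rw [hφu, nz_Phi hd hu.1] at hl
    apply hl
    have := hu.2 _ ⟨d, hd⟩ h0
    rwa [val_eval] at this
  refine ⟨l, d, hd, i, hyi, hv, fun j => ?_, ?_⟩
  · exact (hQ _).2 (hasVal_coord R h hlim hyi hnzi j).mem
  · have h1 := hasVal_quot R h hlim (A := (X i : MvPolynomial (Fin (n + 1)) ℂ) ^ d) (B := G l)
      (by
        have := (isHomogeneous_X ℂ i).pow d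
        rwa [one_mul] at this) hd hv hl
    have h2 : val y ((X i : MvPolynomial (Fin (n + 1)) ℂ) ^ d) = y i ^ d := by
      unfold val
      rw [map_pow, aeval_X]
    rw [h2] at h1
    exact (hQ _).2 h1.mem

theorem HasCentre.mono {P Q : Place ℂ K} (h : HasCentre G y Q) (hPQ : ∀ g, Q.Reg g → P.Reg g) :
    HasCentre G y P := by
  obtain ⟨l, d, hd, i, h1, h2, h3, h4⟩ := h
  exact ⟨l, d, hd, i, h1, h2, fun j => hPQ _ (h3 j), hPQ _ h4⟩

/-- **The curve has no zeros near a point of the boundary.** -/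
theorem zero_free [IsFF ℂ K] (hgen : coords ℂ y = ⊤) (h : Cv y φ) {Cn : Place ℂ K → Prop}
    (hmono : ∀ P Q : Place ℂ K, Cn Q → (∀ g, Q.Reg g → P.Reg g) → Cn P)
    (hpt : ∀ w, ∃ Q : Place ℂ K, Cn Q ∧
      ∀ g, Q.Reg g ↔ h.emb R g ∈ VM (hyperfilter ℕ) (fun _ => w))
    {B : ℝ} (hB : ∀ z, ‖fderiv ℝ φ z‖ ≤ B) {zm : ℕ → ℂ} {M0 : Mat (n + 1)} (hM0 : M0 ∈ TX y)
    (hlim : Tendsto (fun m => φ (zm m)) (hyperfilter ℕ : Filter ℕ) (𝓝 M0)) {P : Place ℂ K}
    (hP : ∀ g, P.Reg g ↔ h.emb R g ∈ VM (hyperfilter ℕ) zm) (hPc : ¬ Cn P) {τ : K}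
    (hτt : Transcendental ℂ τ) :
    ∃ r > 0, ∀ᶠ m in (hyperfilter ℕ : Filter ℕ), ∀ w ∈ ball (zm m) r,
      ¬ Tendsto (rep (h.emb R τ)) (𝓝[≠] w) (𝓝 0) := by
  classical
  set 𝓤 : Ultrafilter ℕ := hyperfilter ℕ with h𝓤
  set e := h.emb R with he
  have hτne : τ ≠ 0 := fun h0 => hτt (by rw [h0]; exact isAlgebraic_zero)
  by_contra hno
  push Not at hno
  obtain ⟨s, hs0, hs⟩ := diag (l := (𝓤 : Filter ℕ))
    (P := fun m s => Tendsto (rep (e τ)) (𝓝[≠] (zm m + s)) (𝓝 0)) (fun L => hyper_ge' L) (by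
    intro r hr
    filter_upwards [hno r hr] with m hm
    obtain ⟨w, hw, hw2⟩ := hm
    refine ⟨w - zm m, ?_, ?_⟩
    · rw [← dist_eq_norm]
      exact hw
    · rwa [add_sub_cancel])
  set c : ℕ → ℂ := fun m => zm m + s m with hc
  have hc0 : Tendsto (fun m => c m - zm m) 𝓤 (𝓝 0) := by
    have : (fun m => c m - zm m) = s := by
      funext m
      rw [hc]
      ring
    rw [this]
    exact hs0
  choose Q hQc hQ using fun m => hpt (c m)
  obtain ⟨S, hS, -, -⟩ := zeros hτt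
  have hQS : ∀ᶠ m in (𝓤 : Filter ℕ), Q m ∈ (S : Set (Place ℂ K)) := by
    filter_upwards [hs] with m hm
    refine (hS _).2 (ord_of_hasVal h (hQ m) hτne ?_)
    intro ε hε
    refine Eventually.of_forall fun _ => ?_
    have h1 := hm.norm
    rw [norm_zero] at h1
    filter_upwards [h1.eventually_lt_const hε] with z hz
    rwa [sub_zero]
  have hfin : (S : Set (Place ℂ K)) ∈ (𝓤.map Q) := hQS
  obtain ⟨Q0, -, hQ0⟩ := Ultrafilter.eq_pure_of_finite_mem S.finite_toSet hfin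
  have hQ0' : ∀ᶠ m in (𝓤 : Filter ℕ), Q m = Q0 := by
    have h1 : ({Q0} : Set (Place ℂ K)) ∈ (𝓤.map Q) := by
      rw [hQ0]
      exact Ultrafilter.mem_pure.2 rfl
    exact h1
  obtain ⟨m0, hm0⟩ := hQ0'.exists
  apply hPc
  refine hmono P Q0 (by rw [← hm0]; exact hQc m0) fun g hg => ?_
  rw [hP, place_stable hgen h hB hM0 hlim hc0]
  -- the value
  have hg0 : (Q m0).Reg g := by rwa [hm0]
  obtain ⟨a, ha⟩ := exists_value h (hQ m0) hg0
  rcases ha with ha | ha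
  · rw [ha, AlgHom.commutes]
    exact const_mem_VM a
  rw [hm0] at ha
  have h2 : e (g - algebraMap ℂ K a) ∈ VM 𝓤 c := by
    refine ⟨1, ?_⟩
    filter_upwards [hQ0'] with m hm
    have h3 : HasVal 𝓤 (fun _ => c m) (e (g - algebraMap ℂ K a)) 0 :=
      hasVal_of_ord h (hQ m) (by rwa [hm])
    obtain ⟨_, h4⟩ := (h3 1 one_pos).exists
    filter_upwards [h4] with z hz
    rw [sub_zero] at hz
    exact hz.le
  have h3 := add_mem h2 (const_mem_VM (𝓤 := 𝓤) (c := c) a)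
  rw [map_sub, AlgHom.commutes, sub_add_cancel] at h3
  exact h3

end Pool.Agent.N155
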